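import Pool.Agent.H86.Eng.Comb4
import Pool.Agent.H76.Eng.Mod1
import Pool.Agent.H66.Eng.Defs

/-!
# The thick sandwich theorem

If `c` is a thick sandwich of an anticommutative 3-Engel ring without 2- and 3-torsion then every
product with three factors `c` is zero.
-/

namespace Eng

section
variable {A : Type*} [NonUnitalNonAssocRing A]

/-- every product `(((cU)(cV))P)(cW)` is zero -/
theorem thick_word (sq : ∀ x : A, x * x = 0) (eng : ∀ x y : A, ((x * y) * y) * y = 0)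
    (h2 : ∀ a : A, 2 • a = 0 → a = 0) (h3 : ∀ a : A, 3 • a = 0 → a = 0)
    (c : A) (sand : ∀ x : A, (x * c) * c = 0) (thick : ∀ x y : A, (x * c) * (y * c) = 0)
    (U V P W : List A) : (lw (lw c U * lw c V) P) * lw c W = 0 := by
  have key : ∀ M : ℕ, ∀ U V P W : List A, U.length + V.length + P.length + W.length = M →
      (lw (lw c U * lw c V) P) * lw c W = 0 := by
    intro M
    induction M using Nat.strong_induction_on with
    | _ M ih =>
      have IH : ∀ U V P W : List A, U.length + V.length + P.length + W.length < M →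
          (lw (lw c U * lw c V) P) * lw c W = 0 :=
        fun U V P W h => ih _ h U V P W rfl
      have hl := lvl_zero h2 h3 (lvl_of_engel sq eng h2 c sand thick M IH)
      apply T_of_fg sq eng h2 c M IH
      · intro U V W h
        have := hl.1 U V W
        simpa [h] using this
      · intro U V W z h
        have := hl.2 U V W z
        simpa [h] using this
  exact key _ U V P W rfl

end

end Eng

namespace Pool.Agent.H86.Eng

open _root_.Eng Pool.Agent.H66.Eng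

variable {A : Type*} [NonUnitalNonAssocRing A]

theorem cp_struct (hA : E3 A) {c : A} (hc : Thick c) {n : ℕ} {z : A} (h : CP c n z) :
    (n = 1 → ∃ L, z = lw c L ∨ z = - lw c L) ∧
    (n = 2 → ∃ U V P, z = lw (lw c U * lw c V) P ∨ z = - lw (lw c U * lw c V) P) ∧
    (n = 3 → z = 0) := by
  have anti := anti_of_sq hA.sq
  have tw : ∀ U V P W : List A, (lw (lw c U * lw c V) P) * lw c W = 0 :=
    thick_word hA.sq hA.eng hA.h2 hA.h3 c hc.1 hc.2
  induction h with
  | elt x => exact ⟨by omega, by omega, by omega⟩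
  | gen => exact ⟨fun _ => ⟨[], Or.inl rfl⟩, by omega, by omega⟩
  | @mul m n x y hx hy ihx ihy =>
    refine ⟨fun h1 => ?_, fun h1 => ?_, fun h1 => ?_⟩
    · rcases (by omega : (m = 1 ∧ n = 0) ∨ (m = 0 ∧ n = 1)) with ⟨hm, hn⟩ | ⟨hm, hn⟩
      · obtain ⟨L, rfl | rfl⟩ := ihx.1 hm
        · exact ⟨L ++ [y], Or.inl (lw_snoc _ _ _).symm⟩
        · exact ⟨L ++ [y], Or.inr (by rw [lw_snoc, neg_mul])⟩
      · obtain ⟨L, rfl | rfl⟩ := ihy.1 hn
        · exact ⟨L ++ [x], Or.inr (by rw [lw_snoc, anti])⟩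
        · exact ⟨L ++ [x], Or.inl (by rw [lw_snoc, anti, neg_mul, neg_neg])⟩
    · rcases (by omega : (m = 2 ∧ n = 0) ∨ (m = 1 ∧ n = 1) ∨ (m = 0 ∧ n = 2))
        with ⟨hm, hn⟩ | ⟨hm, hn⟩ | ⟨hm, hn⟩
      · obtain ⟨U, V, P, rfl | rfl⟩ := ihx.2.1 hm
        · exact ⟨U, V, P ++ [y], Or.inl (lw_snoc _ _ _).symm⟩
        · exact ⟨U, V, P ++ [y], Or.inr (by rw [lw_snoc, neg_mul])⟩
      · obtain ⟨U, rfl | rfl⟩ := ihx.1 hm
        · obtain ⟨V, rfl | rfl⟩ := ihy.1 hn
          · exact ⟨U, V, [], Or.inl rfl⟩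
          · exact ⟨U, V, [], Or.inr (by rw [lw_nil, mul_neg])⟩
        · obtain ⟨V, rfl | rfl⟩ := ihy.1 hn
          · exact ⟨U, V, [], Or.inr (by rw [lw_nil, neg_mul])⟩
          · exact ⟨U, V, [], Or.inl (by rw [lw_nil, neg_mul_neg])⟩
      · obtain ⟨U, V, P, rfl | rfl⟩ := ihy.2.1 hn
        · exact ⟨U, V, P ++ [x], Or.inr (by rw [lw_snoc, anti])⟩
        · exact ⟨U, V, P ++ [x], Or.inl (by rw [lw_snoc, anti, neg_mul, neg_neg])⟩
    · rcases (by omega : (m = 3 ∧ n = 0) ∨ (m = 2 ∧ n = 1) ∨ (m = 1 ∧ n = 2) ∨ (m = 0 ∧ n = 3))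
        with ⟨hm, hn⟩ | ⟨hm, hn⟩ | ⟨hm, hn⟩ | ⟨hm, hn⟩
      · rw [ihx.2.2 hm, zero_mul]
      · obtain ⟨W, hW⟩ := ihy.1 hn
        obtain ⟨U, V, P, hx'⟩ := ihx.2.1 hm
        rcases hx' with rfl | rfl <;> rcases hW with rfl | rfl <;> simp [tw]
      · obtain ⟨W, hW⟩ := ihx.1 hm
        obtain ⟨U, V, P, hy'⟩ := ihy.2.1 hn
        rw [anti]
        rcases hy' with rfl | rfl <;> rcases hW with rfl | rfl <;> simp [tw]
      · rw [ihy.2.2 hn, mul_zero]

/-- Target (T): the thick sandwich theorem. -/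
theorem target_T (hA : E3 A) : TargetT A :=
  fun _ hc _ hz => (cp_struct hA hc hz).2.2 rfl

end Pool.Agent.H86.Eng
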