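import Pool.Agent.H86.Eng.Comb3

/-! Generated linear algebra certificates for the thick sandwich theorem. -/

set_option linter.style.longLine false
set_option linter.unusedVariables false

namespace Eng

variable {α G : Type*} [AddCommGroup G] {f : List α → List α → List α → G}
  {g : List α → List α → List α → α → G}

namespace Lvl

theorem SQ (h : Lvl f g) (tf : TF G) (U V W : List α) (hU : U ≠ []) (hV : V ≠ [])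
    (hW : W ≠ []) (l1 l2 l3 l4 l5 l6 : α) :
    Bfun f g (U ++ [l1, l2, l3, l4]) V W l5 l6 - Bfun f g (U ++ [l1, l2]) (V ++ [l3, l4]) W l5 l6 - Bfun f g (U ++ [l1, l2]) V (W ++ [l3, l4]) l5 l6 = 0 := by
  have r0 : Bfun f g (V ++ [l3, l4]) (U ++ [l1, l5]) W l2 l6 + Bfun f g (U ++ [l1, l2]) (V ++ [l3, l6]) W l4 l5 + Bfun f g U (V ++ [l3, l4, l2, l6]) W l1 l5 + Bfun f g V (U ++ [l1, l2, l4, l5]) W l3 l6 - Bfun f g U (V ++ [l3, l4]) (W ++ [l6, l5]) l1 l2 - Bfun f g V (U ++ [l1, l2]) (W ++ [l5, l6]) l3 l4 = 0 :=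
    h.KB U V W l1 l2 l3 l4 l5 l6
  have r1 : Bfun f g (W ++ [l3, l4]) (U ++ [l1, l5]) V l2 l6 + Bfun f g (U ++ [l1, l2]) (W ++ [l3, l6]) V l4 l5 + Bfun f g U (W ++ [l3, l4, l2, l6]) V l1 l5 + Bfun f g W (U ++ [l1, l2, l4, l5]) V l3 l6 - Bfun f g U (W ++ [l3, l4]) (V ++ [l6, l5]) l1 l2 - Bfun f g W (U ++ [l1, l2]) (V ++ [l5, l6]) l3 l4 = 0 :=
    h.KB U W V l1 l2 l3 l4 l5 l6
  have r2 : Bfun f g (W ++ [l3, l4]) (V ++ [l1, l5]) U l2 l6 + Bfun f g (V ++ [l1, l2]) (W ++ [l3, l6]) U l4 l5 + Bfun f g V (W ++ [l3, l4, l2, l6]) U l1 l5 + Bfun f g W (V ++ [l1, l2, l4, l5]) U l3 l6 - Bfun f g V (W ++ [l3, l4]) (U ++ [l6, l5]) l1 l2 - Bfun f g W (V ++ [l1, l2]) (U ++ [l5, l6]) l3 l4 = 0 :=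
    h.KB V W U l1 l2 l3 l4 l5 l6
  have s0 : Bfun f g (V ++ [l3, l4]) (U ++ [l1, l5]) W l2 l6 = - Bfun f g (U ++ [l1, l5]) (V ++ [l3, l4]) W l2 l6 :=
    h.B12 (V ++ [l3, l4]) (U ++ [l1, l5]) W l2 l6
  have s1 : Bfun f g (U ++ [l1, l5]) (V ++ [l3, l4]) W l2 l6 = - Bfun f g (U ++ [l1, l2]) (V ++ [l3, l4]) W l5 l6 :=
    h.Bl1 U [l1] (V ++ [l3, l4]) W l5 l2 l6 (Or.inr (List.cons_ne_nil _ _))
  have s2 : Bfun f g (U ++ [l1, l2]) (V ++ [l3, l6]) W l4 l5 = - Bfun f g (U ++ [l1, l2]) (V ++ [l3, l4]) W l6 l5 :=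
    h.Bl2 V [l3] (U ++ [l1, l2]) W l6 l4 l5 (Or.inr (List.cons_ne_nil _ _))
  have s3 : Bfun f g (U ++ [l1, l2]) (V ++ [l3, l4]) W l6 l5 = - Bfun f g (U ++ [l1, l2]) (V ++ [l3, l4]) W l5 l6 :=
    h.Bzz (U ++ [l1, l2]) (V ++ [l3, l4]) W l6 l5
  have s4 : Bfun f g U (V ++ [l3, l4, l2, l6]) W l1 l5 = - Bfun f g U (V ++ [l3, l4, l2, l1]) W l6 l5 :=
    h.Bl2 V [l3, l4, l2] U W l6 l1 l5 (Or.inr (List.cons_ne_nil _ _))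
  have s5 : Bfun f g U (V ++ [l3, l4, l2, l1]) W l6 l5 = - Bfun f g U (V ++ [l3, l4, l1, l2]) W l6 l5 :=
    h.Bi2 V [l3, l4] [] U W l2 l1 l6 l5 (Or.inr (List.cons_ne_nil _ _))
  have s6 : Bfun f g U (V ++ [l3, l4, l1, l2]) W l6 l5 = - Bfun f g U (V ++ [l3, l1, l4, l2]) W l6 l5 :=
    h.Bi2 V [l3] [l2] U W l4 l1 l6 l5 (Or.inr (List.cons_ne_nil _ _))
  have s7 : Bfun f g U (V ++ [l3, l1, l4, l2]) W l6 l5 = - Bfun f g U (V ++ [l1, l3, l4, l2]) W l6 l5 :=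
    h.Bi2 V [] [l4, l2] U W l3 l1 l6 l5 (Or.inl hV)
  have s8 : Bfun f g U (V ++ [l1, l3, l4, l2]) W l6 l5 = - Bfun f g U (V ++ [l1, l3, l2, l4]) W l6 l5 :=
    h.Bi2 V [l1, l3] [] U W l4 l2 l6 l5 (Or.inr (List.cons_ne_nil _ _))
  have s9 : Bfun f g U (V ++ [l1, l3, l2, l4]) W l6 l5 = - Bfun f g U (V ++ [l1, l2, l3, l4]) W l6 l5 :=
    h.Bi2 V [l1] [l4] U W l3 l2 l6 l5 (Or.inr (List.cons_ne_nil _ _))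
  have s10 : Bfun f g U (V ++ [l1, l2, l3, l4]) W l6 l5 = - Bfun f g U (V ++ [l1, l2, l3, l4]) W l5 l6 :=
    h.Bzz U (V ++ [l1, l2, l3, l4]) W l6 l5
  have s11 : Bfun f g V (U ++ [l1, l2, l4, l5]) W l3 l6 = - Bfun f g (U ++ [l1, l2, l4, l5]) V W l3 l6 :=
    h.B12 V (U ++ [l1, l2, l4, l5]) W l3 l6
  have s12 : Bfun f g (U ++ [l1, l2, l4, l5]) V W l3 l6 = - Bfun f g (U ++ [l1, l2, l4, l3]) V W l5 l6 :=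
    h.Bl1 U [l1, l2, l4] V W l5 l3 l6 (Or.inr (List.cons_ne_nil _ _))
  have s13 : Bfun f g (U ++ [l1, l2, l4, l3]) V W l5 l6 = - Bfun f g (U ++ [l1, l2, l3, l4]) V W l5 l6 :=
    h.Bi1 U [l1, l2] [] V W l4 l3 l5 l6 (Or.inr (List.cons_ne_nil _ _))
  have s14 : Bfun f g U (V ++ [l3, l4]) (W ++ [l6, l5]) l1 l2 = - Bfun f g U (V ++ [l3, l1]) (W ++ [l6, l5]) l4 l2 :=
    h.Bl2 V [l3] U (W ++ [l6, l5]) l4 l1 l2 (Or.inr (List.cons_ne_nil _ _))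
  have s15 : Bfun f g U (V ++ [l3, l1]) (W ++ [l6, l5]) l4 l2 = - Bfun f g U (V ++ [l1, l3]) (W ++ [l6, l5]) l4 l2 :=
    h.Bi2 V [] [] U (W ++ [l6, l5]) l3 l1 l4 l2 (Or.inl hV)
  have s16 : Bfun f g U (V ++ [l1, l3]) (W ++ [l6, l5]) l4 l2 = - Bfun f g U (V ++ [l1, l3]) (W ++ [l6, l5]) l2 l4 :=
    h.Bzz U (V ++ [l1, l3]) (W ++ [l6, l5]) l4 l2
  have s17 : Bfun f g U (V ++ [l1, l3]) (W ++ [l6, l5]) l2 l4 = - Bfun f g U (V ++ [l1, l2]) (W ++ [l6, l5]) l3 l4 :=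
    h.Bl2 V [l1] U (W ++ [l6, l5]) l3 l2 l4 (Or.inr (List.cons_ne_nil _ _))
  have s18 : Bfun f g U (V ++ [l1, l2]) (W ++ [l6, l5]) l3 l4 = - Bfun f g U (V ++ [l1, l2]) (W ++ [l6, l3]) l5 l4 :=
    h.Bl3 W [l6] U (V ++ [l1, l2]) l5 l3 l4 (Or.inr (List.cons_ne_nil _ _))
  have s19 : Bfun f g U (V ++ [l1, l2]) (W ++ [l6, l3]) l5 l4 = - Bfun f g U (V ++ [l1, l2]) (W ++ [l3, l6]) l5 l4 :=
    h.Bi3 W [] [] U (V ++ [l1, l2]) l6 l3 l5 l4 (Or.inl hW)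
  have s20 : Bfun f g U (V ++ [l1, l2]) (W ++ [l3, l6]) l5 l4 = - Bfun f g U (V ++ [l1, l2]) (W ++ [l3, l6]) l4 l5 :=
    h.Bzz U (V ++ [l1, l2]) (W ++ [l3, l6]) l5 l4
  have s21 : Bfun f g U (V ++ [l1, l2]) (W ++ [l3, l6]) l4 l5 = - Bfun f g U (V ++ [l1, l2]) (W ++ [l3, l4]) l6 l5 :=
    h.Bl3 W [l3] U (V ++ [l1, l2]) l6 l4 l5 (Or.inr (List.cons_ne_nil _ _))
  have s22 : Bfun f g U (V ++ [l1, l2]) (W ++ [l3, l4]) l6 l5 = - Bfun f g U (V ++ [l1, l2]) (W ++ [l3, l4]) l5 l6 :=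
    h.Bzz U (V ++ [l1, l2]) (W ++ [l3, l4]) l6 l5
  have s23 : Bfun f g V (U ++ [l1, l2]) (W ++ [l5, l6]) l3 l4 = - Bfun f g (U ++ [l1, l2]) V (W ++ [l5, l6]) l3 l4 :=
    h.B12 V (U ++ [l1, l2]) (W ++ [l5, l6]) l3 l4
  have s24 : Bfun f g (U ++ [l1, l2]) V (W ++ [l5, l6]) l3 l4 = - Bfun f g (U ++ [l1, l2]) V (W ++ [l5, l3]) l6 l4 :=
    h.Bl3 W [l5] (U ++ [l1, l2]) V l6 l3 l4 (Or.inr (List.cons_ne_nil _ _))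
  have s25 : Bfun f g (U ++ [l1, l2]) V (W ++ [l5, l3]) l6 l4 = - Bfun f g (U ++ [l1, l2]) V (W ++ [l3, l5]) l6 l4 :=
    h.Bi3 W [] [] (U ++ [l1, l2]) V l5 l3 l6 l4 (Or.inl hW)
  have s26 : Bfun f g (U ++ [l1, l2]) V (W ++ [l3, l5]) l6 l4 = - Bfun f g (U ++ [l1, l2]) V (W ++ [l3, l5]) l4 l6 :=
    h.Bzz (U ++ [l1, l2]) V (W ++ [l3, l5]) l6 l4
  have s27 : Bfun f g (U ++ [l1, l2]) V (W ++ [l3, l5]) l4 l6 = - Bfun f g (U ++ [l1, l2]) V (W ++ [l3, l4]) l5 l6 :=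
    h.Bl3 W [l3] (U ++ [l1, l2]) V l5 l4 l6 (Or.inr (List.cons_ne_nil _ _))
  have s28 : Bfun f g (W ++ [l3, l4]) (U ++ [l1, l5]) V l2 l6 = - Bfun f g (U ++ [l1, l5]) (W ++ [l3, l4]) V l2 l6 :=
    h.B12 (W ++ [l3, l4]) (U ++ [l1, l5]) V l2 l6
  have s29 : Bfun f g (U ++ [l1, l5]) (W ++ [l3, l4]) V l2 l6 = - Bfun f g (U ++ [l1, l5]) V (W ++ [l3, l4]) l2 l6 :=
    h.B23 (U ++ [l1, l5]) (W ++ [l3, l4]) V l2 l6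
  have s30 : Bfun f g (U ++ [l1, l5]) V (W ++ [l3, l4]) l2 l6 = - Bfun f g (U ++ [l1, l2]) V (W ++ [l3, l4]) l5 l6 :=
    h.Bl1 U [l1] V (W ++ [l3, l4]) l5 l2 l6 (Or.inr (List.cons_ne_nil _ _))
  have s31 : Bfun f g (U ++ [l1, l2]) (W ++ [l3, l6]) V l4 l5 = - Bfun f g (U ++ [l1, l2]) V (W ++ [l3, l6]) l4 l5 :=
    h.B23 (U ++ [l1, l2]) (W ++ [l3, l6]) V l4 l5
  have s32 : Bfun f g (U ++ [l1, l2]) V (W ++ [l3, l6]) l4 l5 = - Bfun f g (U ++ [l1, l2]) V (W ++ [l3, l4]) l6 l5 :=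
    h.Bl3 W [l3] (U ++ [l1, l2]) V l6 l4 l5 (Or.inr (List.cons_ne_nil _ _))
  have s33 : Bfun f g (U ++ [l1, l2]) V (W ++ [l3, l4]) l6 l5 = - Bfun f g (U ++ [l1, l2]) V (W ++ [l3, l4]) l5 l6 :=
    h.Bzz (U ++ [l1, l2]) V (W ++ [l3, l4]) l6 l5
  have s34 : Bfun f g U (W ++ [l3, l4, l2, l6]) V l1 l5 = - Bfun f g U V (W ++ [l3, l4, l2, l6]) l1 l5 :=
    h.B23 U (W ++ [l3, l4, l2, l6]) V l1 l5
  have s35 : Bfun f g U V (W ++ [l3, l4, l2, l6]) l1 l5 = - Bfun f g U V (W ++ [l3, l4, l2, l1]) l6 l5 :=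
    h.Bl3 W [l3, l4, l2] U V l6 l1 l5 (Or.inr (List.cons_ne_nil _ _))
  have s36 : Bfun f g U V (W ++ [l3, l4, l2, l1]) l6 l5 = - Bfun f g U V (W ++ [l3, l4, l1, l2]) l6 l5 :=
    h.Bi3 W [l3, l4] [] U V l2 l1 l6 l5 (Or.inr (List.cons_ne_nil _ _))
  have s37 : Bfun f g U V (W ++ [l3, l4, l1, l2]) l6 l5 = - Bfun f g U V (W ++ [l3, l1, l4, l2]) l6 l5 :=
    h.Bi3 W [l3] [l2] U V l4 l1 l6 l5 (Or.inr (List.cons_ne_nil _ _))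
  have s38 : Bfun f g U V (W ++ [l3, l1, l4, l2]) l6 l5 = - Bfun f g U V (W ++ [l1, l3, l4, l2]) l6 l5 :=
    h.Bi3 W [] [l4, l2] U V l3 l1 l6 l5 (Or.inl hW)
  have s39 : Bfun f g U V (W ++ [l1, l3, l4, l2]) l6 l5 = - Bfun f g U V (W ++ [l1, l3, l2, l4]) l6 l5 :=
    h.Bi3 W [l1, l3] [] U V l4 l2 l6 l5 (Or.inr (List.cons_ne_nil _ _))
  have s40 : Bfun f g U V (W ++ [l1, l3, l2, l4]) l6 l5 = - Bfun f g U V (W ++ [l1, l2, l3, l4]) l6 l5 :=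
    h.Bi3 W [l1] [l4] U V l3 l2 l6 l5 (Or.inr (List.cons_ne_nil _ _))
  have s41 : Bfun f g U V (W ++ [l1, l2, l3, l4]) l6 l5 = - Bfun f g U V (W ++ [l1, l2, l3, l4]) l5 l6 :=
    h.Bzz U V (W ++ [l1, l2, l3, l4]) l6 l5
  have s42 : Bfun f g W (U ++ [l1, l2, l4, l5]) V l3 l6 = - Bfun f g (U ++ [l1, l2, l4, l5]) W V l3 l6 :=
    h.B12 W (U ++ [l1, l2, l4, l5]) V l3 l6
  have s43 : Bfun f g (U ++ [l1, l2, l4, l5]) W V l3 l6 = - Bfun f g (U ++ [l1, l2, l4, l5]) V W l3 l6 :=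
    h.B23 (U ++ [l1, l2, l4, l5]) W V l3 l6
  have s44 : Bfun f g U (W ++ [l3, l4]) (V ++ [l6, l5]) l1 l2 = - Bfun f g U (V ++ [l6, l5]) (W ++ [l3, l4]) l1 l2 :=
    h.B23 U (W ++ [l3, l4]) (V ++ [l6, l5]) l1 l2
  have s45 : Bfun f g U (V ++ [l6, l5]) (W ++ [l3, l4]) l1 l2 = - Bfun f g U (V ++ [l6, l1]) (W ++ [l3, l4]) l5 l2 :=
    h.Bl2 V [l6] U (W ++ [l3, l4]) l5 l1 l2 (Or.inr (List.cons_ne_nil _ _))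
  have s46 : Bfun f g U (V ++ [l6, l1]) (W ++ [l3, l4]) l5 l2 = - Bfun f g U (V ++ [l1, l6]) (W ++ [l3, l4]) l5 l2 :=
    h.Bi2 V [] [] U (W ++ [l3, l4]) l6 l1 l5 l2 (Or.inl hV)
  have s47 : Bfun f g U (V ++ [l1, l6]) (W ++ [l3, l4]) l5 l2 = - Bfun f g U (V ++ [l1, l6]) (W ++ [l3, l4]) l2 l5 :=
    h.Bzz U (V ++ [l1, l6]) (W ++ [l3, l4]) l5 l2
  have s48 : Bfun f g U (V ++ [l1, l6]) (W ++ [l3, l4]) l2 l5 = - Bfun f g U (V ++ [l1, l2]) (W ++ [l3, l4]) l6 l5 :=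
    h.Bl2 V [l1] U (W ++ [l3, l4]) l6 l2 l5 (Or.inr (List.cons_ne_nil _ _))
  have s49 : Bfun f g W (U ++ [l1, l2]) (V ++ [l5, l6]) l3 l4 = - Bfun f g (U ++ [l1, l2]) W (V ++ [l5, l6]) l3 l4 :=
    h.B12 W (U ++ [l1, l2]) (V ++ [l5, l6]) l3 l4
  have s50 : Bfun f g (U ++ [l1, l2]) W (V ++ [l5, l6]) l3 l4 = - Bfun f g (U ++ [l1, l2]) (V ++ [l5, l6]) W l3 l4 :=
    h.B23 (U ++ [l1, l2]) W (V ++ [l5, l6]) l3 l4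
  have s51 : Bfun f g (U ++ [l1, l2]) (V ++ [l5, l6]) W l3 l4 = - Bfun f g (U ++ [l1, l2]) (V ++ [l5, l3]) W l6 l4 :=
    h.Bl2 V [l5] (U ++ [l1, l2]) W l6 l3 l4 (Or.inr (List.cons_ne_nil _ _))
  have s52 : Bfun f g (U ++ [l1, l2]) (V ++ [l5, l3]) W l6 l4 = - Bfun f g (U ++ [l1, l2]) (V ++ [l3, l5]) W l6 l4 :=
    h.Bi2 V [] [] (U ++ [l1, l2]) W l5 l3 l6 l4 (Or.inl hV)
  have s53 : Bfun f g (U ++ [l1, l2]) (V ++ [l3, l5]) W l6 l4 = - Bfun f g (U ++ [l1, l2]) (V ++ [l3, l5]) W l4 l6 :=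
    h.Bzz (U ++ [l1, l2]) (V ++ [l3, l5]) W l6 l4
  have s54 : Bfun f g (U ++ [l1, l2]) (V ++ [l3, l5]) W l4 l6 = - Bfun f g (U ++ [l1, l2]) (V ++ [l3, l4]) W l5 l6 :=
    h.Bl2 V [l3] (U ++ [l1, l2]) W l5 l4 l6 (Or.inr (List.cons_ne_nil _ _))
  have s55 : Bfun f g (W ++ [l3, l4]) (V ++ [l1, l5]) U l2 l6 = - Bfun f g (V ++ [l1, l5]) (W ++ [l3, l4]) U l2 l6 :=
    h.B12 (W ++ [l3, l4]) (V ++ [l1, l5]) U l2 l6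
  have s56 : Bfun f g (V ++ [l1, l5]) (W ++ [l3, l4]) U l2 l6 = - Bfun f g (V ++ [l1, l5]) U (W ++ [l3, l4]) l2 l6 :=
    h.B23 (V ++ [l1, l5]) (W ++ [l3, l4]) U l2 l6
  have s57 : Bfun f g (V ++ [l1, l5]) U (W ++ [l3, l4]) l2 l6 = - Bfun f g U (V ++ [l1, l5]) (W ++ [l3, l4]) l2 l6 :=
    h.B12 (V ++ [l1, l5]) U (W ++ [l3, l4]) l2 l6
  have s58 : Bfun f g U (V ++ [l1, l5]) (W ++ [l3, l4]) l2 l6 = - Bfun f g U (V ++ [l1, l2]) (W ++ [l3, l4]) l5 l6 :=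
    h.Bl2 V [l1] U (W ++ [l3, l4]) l5 l2 l6 (Or.inr (List.cons_ne_nil _ _))
  have s59 : Bfun f g (V ++ [l1, l2]) (W ++ [l3, l6]) U l4 l5 = - Bfun f g (V ++ [l1, l2]) U (W ++ [l3, l6]) l4 l5 :=
    h.B23 (V ++ [l1, l2]) (W ++ [l3, l6]) U l4 l5
  have s60 : Bfun f g (V ++ [l1, l2]) U (W ++ [l3, l6]) l4 l5 = - Bfun f g U (V ++ [l1, l2]) (W ++ [l3, l6]) l4 l5 :=
    h.B12 (V ++ [l1, l2]) U (W ++ [l3, l6]) l4 l5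
  have s61 : Bfun f g V (W ++ [l3, l4, l2, l6]) U l1 l5 = - Bfun f g V U (W ++ [l3, l4, l2, l6]) l1 l5 :=
    h.B23 V (W ++ [l3, l4, l2, l6]) U l1 l5
  have s62 : Bfun f g V U (W ++ [l3, l4, l2, l6]) l1 l5 = - Bfun f g U V (W ++ [l3, l4, l2, l6]) l1 l5 :=
    h.B12 V U (W ++ [l3, l4, l2, l6]) l1 l5
  have s63 : Bfun f g W (V ++ [l1, l2, l4, l5]) U l3 l6 = - Bfun f g (V ++ [l1, l2, l4, l5]) W U l3 l6 :=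
    h.B12 W (V ++ [l1, l2, l4, l5]) U l3 l6
  have s64 : Bfun f g (V ++ [l1, l2, l4, l5]) W U l3 l6 = - Bfun f g (V ++ [l1, l2, l4, l5]) U W l3 l6 :=
    h.B23 (V ++ [l1, l2, l4, l5]) W U l3 l6
  have s65 : Bfun f g (V ++ [l1, l2, l4, l5]) U W l3 l6 = - Bfun f g U (V ++ [l1, l2, l4, l5]) W l3 l6 :=
    h.B12 (V ++ [l1, l2, l4, l5]) U W l3 l6
  have s66 : Bfun f g U (V ++ [l1, l2, l4, l5]) W l3 l6 = - Bfun f g U (V ++ [l1, l2, l4, l3]) W l5 l6 :=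
    h.Bl2 V [l1, l2, l4] U W l5 l3 l6 (Or.inr (List.cons_ne_nil _ _))
  have s67 : Bfun f g U (V ++ [l1, l2, l4, l3]) W l5 l6 = - Bfun f g U (V ++ [l1, l2, l3, l4]) W l5 l6 :=
    h.Bi2 V [l1, l2] [] U W l4 l3 l5 l6 (Or.inr (List.cons_ne_nil _ _))
  have s68 : Bfun f g V (W ++ [l3, l4]) (U ++ [l6, l5]) l1 l2 = - Bfun f g V (U ++ [l6, l5]) (W ++ [l3, l4]) l1 l2 :=
    h.B23 V (W ++ [l3, l4]) (U ++ [l6, l5]) l1 l2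
  have s69 : Bfun f g V (U ++ [l6, l5]) (W ++ [l3, l4]) l1 l2 = - Bfun f g (U ++ [l6, l5]) V (W ++ [l3, l4]) l1 l2 :=
    h.B12 V (U ++ [l6, l5]) (W ++ [l3, l4]) l1 l2
  have s70 : Bfun f g (U ++ [l6, l5]) V (W ++ [l3, l4]) l1 l2 = - Bfun f g (U ++ [l6, l1]) V (W ++ [l3, l4]) l5 l2 :=
    h.Bl1 U [l6] V (W ++ [l3, l4]) l5 l1 l2 (Or.inr (List.cons_ne_nil _ _))
  have s71 : Bfun f g (U ++ [l6, l1]) V (W ++ [l3, l4]) l5 l2 = - Bfun f g (U ++ [l1, l6]) V (W ++ [l3, l4]) l5 l2 :=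
    h.Bi1 U [] [] V (W ++ [l3, l4]) l6 l1 l5 l2 (Or.inl hU)
  have s72 : Bfun f g (U ++ [l1, l6]) V (W ++ [l3, l4]) l5 l2 = - Bfun f g (U ++ [l1, l6]) V (W ++ [l3, l4]) l2 l5 :=
    h.Bzz (U ++ [l1, l6]) V (W ++ [l3, l4]) l5 l2
  have s73 : Bfun f g (U ++ [l1, l6]) V (W ++ [l3, l4]) l2 l5 = - Bfun f g (U ++ [l1, l2]) V (W ++ [l3, l4]) l6 l5 :=
    h.Bl1 U [l1] V (W ++ [l3, l4]) l6 l2 l5 (Or.inr (List.cons_ne_nil _ _))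
  have s74 : Bfun f g W (V ++ [l1, l2]) (U ++ [l5, l6]) l3 l4 = - Bfun f g (V ++ [l1, l2]) W (U ++ [l5, l6]) l3 l4 :=
    h.B12 W (V ++ [l1, l2]) (U ++ [l5, l6]) l3 l4
  have s75 : Bfun f g (V ++ [l1, l2]) W (U ++ [l5, l6]) l3 l4 = - Bfun f g (V ++ [l1, l2]) (U ++ [l5, l6]) W l3 l4 :=
    h.B23 (V ++ [l1, l2]) W (U ++ [l5, l6]) l3 l4
  have s76 : Bfun f g (V ++ [l1, l2]) (U ++ [l5, l6]) W l3 l4 = - Bfun f g (U ++ [l5, l6]) (V ++ [l1, l2]) W l3 l4 :=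
    h.B12 (V ++ [l1, l2]) (U ++ [l5, l6]) W l3 l4
  have s77 : Bfun f g (U ++ [l5, l6]) (V ++ [l1, l2]) W l3 l4 = - Bfun f g (U ++ [l5, l6]) (V ++ [l2, l1]) W l3 l4 :=
    h.Bi2 V [] [] (U ++ [l5, l6]) W l1 l2 l3 l4 (Or.inl hV)
  have s78 : Bfun f g (U ++ [l5, l6]) (V ++ [l2, l1]) W l3 l4 = - Bfun f g (U ++ [l5, l6]) (V ++ [l2, l3]) W l1 l4 :=
    h.Bl2 V [l2] (U ++ [l5, l6]) W l1 l3 l4 (Or.inr (List.cons_ne_nil _ _))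
  have s79 : Bfun f g (U ++ [l5, l6]) (V ++ [l2, l3]) W l1 l4 = - Bfun f g (U ++ [l5, l1]) (V ++ [l2, l3]) W l6 l4 :=
    h.Bl1 U [l5] (V ++ [l2, l3]) W l6 l1 l4 (Or.inr (List.cons_ne_nil _ _))
  have s80 : Bfun f g (U ++ [l5, l1]) (V ++ [l2, l3]) W l6 l4 = - Bfun f g (U ++ [l1, l5]) (V ++ [l2, l3]) W l6 l4 :=
    h.Bi1 U [] [] (V ++ [l2, l3]) W l5 l1 l6 l4 (Or.inl hU)
  have s81 : Bfun f g (U ++ [l1, l5]) (V ++ [l2, l3]) W l6 l4 = - Bfun f g (U ++ [l1, l5]) (V ++ [l3, l2]) W l6 l4 :=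
    h.Bi2 V [] [] (U ++ [l1, l5]) W l2 l3 l6 l4 (Or.inl hV)
  have s82 : Bfun f g (U ++ [l1, l5]) (V ++ [l3, l2]) W l6 l4 = - Bfun f g (U ++ [l1, l5]) (V ++ [l3, l6]) W l2 l4 :=
    h.Bl2 V [l3] (U ++ [l1, l5]) W l2 l6 l4 (Or.inr (List.cons_ne_nil _ _))
  have s83 : Bfun f g (U ++ [l1, l5]) (V ++ [l3, l6]) W l2 l4 = - Bfun f g (U ++ [l1, l2]) (V ++ [l3, l6]) W l5 l4 :=
    h.Bl1 U [l1] (V ++ [l3, l6]) W l5 l2 l4 (Or.inr (List.cons_ne_nil _ _))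
  have s84 : Bfun f g (U ++ [l1, l2]) (V ++ [l3, l6]) W l5 l4 = - Bfun f g (U ++ [l1, l2]) (V ++ [l3, l6]) W l4 l5 :=
    h.Bzz (U ++ [l1, l2]) (V ++ [l3, l6]) W l5 l4
  apply tf.n2
  linear_combination (norm := module) (-1 : ℤ) • r0 + (1 : ℤ) • r1 + (1 : ℤ) • r2 + (1 : ℤ) • s0 + (-1 : ℤ) • s1 + (1 : ℤ) • s4 + (-1 : ℤ) • s5 + (1 : ℤ) • s6 + (-1 : ℤ) • s7 + (1 : ℤ) • s8 + (-1 : ℤ) • s9 + (1 : ℤ) • s10 + (1 : ℤ) • s11 + (-2 : ℤ) • s12 + (2 : ℤ) • s13 + (-1 : ℤ) • s14 + (1 : ℤ) • s15 + (-1 : ℤ) • s16 + (1 : ℤ) • s17 + (-1 : ℤ) • s18 + (1 : ℤ) • s19 + (-1 : ℤ) • s20 + (-1 : ℤ) • s22 + (-1 : ℤ) • s23 + (1 : ℤ) • s24 + (-1 : ℤ) • s25 + (1 : ℤ) • s26 + (-1 : ℤ) • s27 + (-1 : ℤ) • s28 + (1 : ℤ) • s29 + (-1 : ℤ) • s30 + (-1 : ℤ) • s31 + (1 : ℤ) • s32 + (-1 : ℤ) • s34 + (-1 : ℤ) • s42 + (1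 : ℤ) • s43 + (1 : ℤ) • s44 + (-1 : ℤ) • s45 + (1 : ℤ) • s46 + (-1 : ℤ) • s47 + (1 : ℤ) • s48 + (1 : ℤ) • s49 + (-1 : ℤ) • s50 + (1 : ℤ) • s51 + (-1 : ℤ) • s52 + (1 : ℤ) • s53 + (-1 : ℤ) • s54 + (-1 : ℤ) • s55 + (1 : ℤ) • s56 + (-1 : ℤ) • s57 + (1 : ℤ) • s58 + (-1 : ℤ) • s59 + (1 : ℤ) • s60 + (-1 : ℤ) • s61 + (1 : ℤ) • s62 + (-1 : ℤ) • s63 + (1 : ℤ) • s64 + (-1 : ℤ) • s65 + (1 : ℤ) • s66 + (-1 : ℤ) • s67 + (1 : ℤ) • s68 + (-1 : ℤ) • s69 + (1 : ℤ) • s70 + (-1 : ℤ) • s71 + (1 : ℤ) • s72 + (-1 : ℤ) • s73 + (1 : ℤ) • s74 + (-1 : ℤ) • s75 + (1 : ℤ) • s76 + (-1 : ℤ) • s77 + (1 : ℤ) • s78 + (-1 : ℤ) • s79 + (1 : ℤ) • s80 + (-1 : ℤ) • s81 + (1 : ℤ) • s82 + (-1 : ℤ) • s83 + (1 : ℤ) • s84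

theorem XYZ (h : Lvl f g) (tf : TF G) (U V W : List α) (hU : U ≠ []) (hV : V ≠ [])
    (hW : W ≠ []) (l1 l2 l3 l4 l5 l6 l7 l8 : α) :
    Bfun f g (U ++ [l1, l2]) (V ++ [l3, l4]) (W ++ [l5, l6]) l7 l8 = 0 := by
  have r0 : Bfun f g (U ++ [l3, l4, l5, l6]) (V ++ [l1, l2]) W l7 l8 - Bfun f g (U ++ [l3, l4]) (V ++ [l1, l2, l5, l6]) W l7 l8 - Bfun f g (U ++ [l3, l4]) (V ++ [l1, l2]) (W ++ [l5, l6]) l7 l8 = 0 := by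
    simpa only [List.append_assoc, List.cons_append, List.nil_append] using h.SQ tf U (V ++ [l1, l2]) W hU (by simp) hW l3 l4 l5 l6 l7 l8
  have r1 : Bfun f g (V ++ [l3, l4, l5, l6]) (U ++ [l1, l2]) W l7 l8 - Bfun f g (V ++ [l3, l4]) (U ++ [l1, l2, l5, l6]) W l7 l8 - Bfun f g (V ++ [l3, l4]) (U ++ [l1, l2]) (W ++ [l5, l6]) l7 l8 = 0 := by
    simpa only [List.append_assoc, List.cons_append, List.nil_append] using h.SQ tf V (U ++ [l1, l2]) W hV (by simp) hW l3 l4 l5 l6 l7 l8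
  have s0 : Bfun f g (U ++ [l3, l4, l5, l6]) (V ++ [l1, l2]) W l7 l8 = - Bfun f g (U ++ [l3, l4, l5, l6]) (V ++ [l2, l1]) W l7 l8 :=
    h.Bi2 V [] [] (U ++ [l3, l4, l5, l6]) W l1 l2 l7 l8 (Or.inl hV)
  have s1 : Bfun f g (U ++ [l3, l4, l5, l6]) (V ++ [l2, l1]) W l7 l8 = - Bfun f g (U ++ [l3, l4, l5, l6]) (V ++ [l2, l7]) W l1 l8 :=
    h.Bl2 V [l2] (U ++ [l3, l4, l5, l6]) W l1 l7 l8 (Or.inr (List.cons_ne_nil _ _))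
  have s2 : Bfun f g (U ++ [l3, l4, l5, l6]) (V ++ [l2, l7]) W l1 l8 = - Bfun f g (U ++ [l3, l4, l5, l1]) (V ++ [l2, l7]) W l6 l8 :=
    h.Bl1 U [l3, l4, l5] (V ++ [l2, l7]) W l6 l1 l8 (Or.inr (List.cons_ne_nil _ _))
  have s3 : Bfun f g (U ++ [l3, l4, l5, l1]) (V ++ [l2, l7]) W l6 l8 = - Bfun f g (U ++ [l3, l4, l1, l5]) (V ++ [l2, l7]) W l6 l8 :=
    h.Bi1 U [l3, l4] [] (V ++ [l2, l7]) W l5 l1 l6 l8 (Or.inr (List.cons_ne_nil _ _))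
  have s4 : Bfun f g (U ++ [l3, l4, l1, l5]) (V ++ [l2, l7]) W l6 l8 = - Bfun f g (U ++ [l3, l1, l4, l5]) (V ++ [l2, l7]) W l6 l8 :=
    h.Bi1 U [l3] [l5] (V ++ [l2, l7]) W l4 l1 l6 l8 (Or.inr (List.cons_ne_nil _ _))
  have s5 : Bfun f g (U ++ [l3, l1, l4, l5]) (V ++ [l2, l7]) W l6 l8 = - Bfun f g (U ++ [l1, l3, l4, l5]) (V ++ [l2, l7]) W l6 l8 :=
    h.Bi1 U [] [l4, l5] (V ++ [l2, l7]) W l3 l1 l6 l8 (Or.inl hU)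
  have s6 : Bfun f g (U ++ [l1, l3, l4, l5]) (V ++ [l2, l7]) W l6 l8 = - Bfun f g (U ++ [l1, l3, l4, l5]) (V ++ [l7, l2]) W l6 l8 :=
    h.Bi2 V [] [] (U ++ [l1, l3, l4, l5]) W l2 l7 l6 l8 (Or.inl hV)
  have s7 : Bfun f g (U ++ [l1, l3, l4, l5]) (V ++ [l7, l2]) W l6 l8 = - Bfun f g (U ++ [l1, l3, l4, l5]) (V ++ [l7, l6]) W l2 l8 :=
    h.Bl2 V [l7] (U ++ [l1, l3, l4, l5]) W l2 l6 l8 (Or.inr (List.cons_ne_nil _ _))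
  have s8 : Bfun f g (U ++ [l1, l3, l4, l5]) (V ++ [l7, l6]) W l2 l8 = - Bfun f g (U ++ [l1, l3, l4, l2]) (V ++ [l7, l6]) W l5 l8 :=
    h.Bl1 U [l1, l3, l4] (V ++ [l7, l6]) W l5 l2 l8 (Or.inr (List.cons_ne_nil _ _))
  have s9 : Bfun f g (U ++ [l1, l3, l4, l2]) (V ++ [l7, l6]) W l5 l8 = - Bfun f g (U ++ [l1, l3, l2, l4]) (V ++ [l7, l6]) W l5 l8 :=
    h.Bi1 U [l1, l3] [] (V ++ [l7, l6]) W l4 l2 l5 l8 (Or.inr (List.cons_ne_nil _ _))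
  have s10 : Bfun f g (U ++ [l1, l3, l2, l4]) (V ++ [l7, l6]) W l5 l8 = - Bfun f g (U ++ [l1, l2, l3, l4]) (V ++ [l7, l6]) W l5 l8 :=
    h.Bi1 U [l1] [l4] (V ++ [l7, l6]) W l3 l2 l5 l8 (Or.inr (List.cons_ne_nil _ _))
  have s11 : Bfun f g (U ++ [l1, l2, l3, l4]) (V ++ [l7, l6]) W l5 l8 = - Bfun f g (U ++ [l1, l2, l3, l4]) (V ++ [l7, l5]) W l6 l8 :=
    h.Bl2 V [l7] (U ++ [l1, l2, l3, l4]) W l6 l5 l8 (Or.inr (List.cons_ne_nil _ _))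
  have s12 : Bfun f g (U ++ [l1, l2, l3, l4]) (V ++ [l7, l5]) W l6 l8 = - Bfun f g (U ++ [l1, l2, l3, l4]) (V ++ [l5, l7]) W l6 l8 :=
    h.Bi2 V [] [] (U ++ [l1, l2, l3, l4]) W l7 l5 l6 l8 (Or.inl hV)
  have s13 : Bfun f g (U ++ [l1, l2, l3, l4]) (V ++ [l5, l7]) W l6 l8 = - Bfun f g (U ++ [l1, l2, l3, l4]) (V ++ [l5, l6]) W l7 l8 :=
    h.Bl2 V [l5] (U ++ [l1, l2, l3, l4]) W l7 l6 l8 (Or.inr (List.cons_ne_nil _ _))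
  have s14 : Bfun f g (U ++ [l3, l4]) (V ++ [l1, l2, l5, l6]) W l7 l8 = - Bfun f g (U ++ [l3, l4]) (V ++ [l2, l1, l5, l6]) W l7 l8 :=
    h.Bi2 V [] [l5, l6] (U ++ [l3, l4]) W l1 l2 l7 l8 (Or.inl hV)
  have s15 : Bfun f g (U ++ [l3, l4]) (V ++ [l2, l1, l5, l6]) W l7 l8 = - Bfun f g (U ++ [l3, l4]) (V ++ [l2, l5, l1, l6]) W l7 l8 :=
    h.Bi2 V [l2] [l6] (U ++ [l3, l4]) W l1 l5 l7 l8 (Or.inr (List.cons_ne_nil _ _))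
  have s16 : Bfun f g (U ++ [l3, l4]) (V ++ [l2, l5, l1, l6]) W l7 l8 = - Bfun f g (U ++ [l3, l4]) (V ++ [l2, l5, l6, l1]) W l7 l8 :=
    h.Bi2 V [l2, l5] [] (U ++ [l3, l4]) W l1 l6 l7 l8 (Or.inr (List.cons_ne_nil _ _))
  have s17 : Bfun f g (U ++ [l3, l4]) (V ++ [l2, l5, l6, l1]) W l7 l8 = - Bfun f g (U ++ [l3, l4]) (V ++ [l2, l5, l6, l7]) W l1 l8 :=
    h.Bl2 V [l2, l5, l6] (U ++ [l3, l4]) W l1 l7 l8 (Or.inr (List.cons_ne_nil _ _))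
  have s18 : Bfun f g (U ++ [l3, l4]) (V ++ [l2, l5, l6, l7]) W l1 l8 = - Bfun f g (U ++ [l3, l1]) (V ++ [l2, l5, l6, l7]) W l4 l8 :=
    h.Bl1 U [l3] (V ++ [l2, l5, l6, l7]) W l4 l1 l8 (Or.inr (List.cons_ne_nil _ _))
  have s19 : Bfun f g (U ++ [l3, l1]) (V ++ [l2, l5, l6, l7]) W l4 l8 = - Bfun f g (U ++ [l1, l3]) (V ++ [l2, l5, l6, l7]) W l4 l8 :=
    h.Bi1 U [] [] (V ++ [l2, l5, l6, l7]) W l3 l1 l4 l8 (Or.inl hU)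
  have s20 : Bfun f g (U ++ [l1, l3]) (V ++ [l2, l5, l6, l7]) W l4 l8 = - Bfun f g (U ++ [l1, l3]) (V ++ [l5, l2, l6, l7]) W l4 l8 :=
    h.Bi2 V [] [l6, l7] (U ++ [l1, l3]) W l2 l5 l4 l8 (Or.inl hV)
  have s21 : Bfun f g (U ++ [l1, l3]) (V ++ [l5, l2, l6, l7]) W l4 l8 = - Bfun f g (U ++ [l1, l3]) (V ++ [l5, l6, l2, l7]) W l4 l8 :=
    h.Bi2 V [l5] [l7] (U ++ [l1, l3]) W l2 l6 l4 l8 (Or.inr (List.cons_ne_nil _ _))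
  have s22 : Bfun f g (U ++ [l1, l3]) (V ++ [l5, l6, l2, l7]) W l4 l8 = - Bfun f g (U ++ [l1, l3]) (V ++ [l5, l6, l7, l2]) W l4 l8 :=
    h.Bi2 V [l5, l6] [] (U ++ [l1, l3]) W l2 l7 l4 l8 (Or.inr (List.cons_ne_nil _ _))
  have s23 : Bfun f g (U ++ [l1, l3]) (V ++ [l5, l6, l7, l2]) W l4 l8 = - Bfun f g (U ++ [l1, l3]) (V ++ [l5, l6, l7, l4]) W l2 l8 :=
    h.Bl2 V [l5, l6, l7] (U ++ [l1, l3]) W l2 l4 l8 (Or.inr (List.cons_ne_nil _ _))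
  have s24 : Bfun f g (U ++ [l1, l3]) (V ++ [l5, l6, l7, l4]) W l2 l8 = - Bfun f g (U ++ [l1, l2]) (V ++ [l5, l6, l7, l4]) W l3 l8 :=
    h.Bl1 U [l1] (V ++ [l5, l6, l7, l4]) W l3 l2 l8 (Or.inr (List.cons_ne_nil _ _))
  have s25 : Bfun f g (U ++ [l1, l2]) (V ++ [l5, l6, l7, l4]) W l3 l8 = - Bfun f g (U ++ [l1, l2]) (V ++ [l5, l6, l7, l3]) W l4 l8 :=
    h.Bl2 V [l5, l6, l7] (U ++ [l1, l2]) W l4 l3 l8 (Or.inr (List.cons_ne_nil _ _))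
  have s26 : Bfun f g (U ++ [l1, l2]) (V ++ [l5, l6, l7, l3]) W l4 l8 = - Bfun f g (U ++ [l1, l2]) (V ++ [l5, l6, l3, l7]) W l4 l8 :=
    h.Bi2 V [l5, l6] [] (U ++ [l1, l2]) W l7 l3 l4 l8 (Or.inr (List.cons_ne_nil _ _))
  have s27 : Bfun f g (U ++ [l1, l2]) (V ++ [l5, l6, l3, l7]) W l4 l8 = - Bfun f g (U ++ [l1, l2]) (V ++ [l5, l3, l6, l7]) W l4 l8 :=
    h.Bi2 V [l5] [l7] (U ++ [l1, l2]) W l6 l3 l4 l8 (Or.inr (List.cons_ne_nil _ _))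
  have s28 : Bfun f g (U ++ [l1, l2]) (V ++ [l5, l3, l6, l7]) W l4 l8 = - Bfun f g (U ++ [l1, l2]) (V ++ [l3, l5, l6, l7]) W l4 l8 :=
    h.Bi2 V [] [l6, l7] (U ++ [l1, l2]) W l5 l3 l4 l8 (Or.inl hV)
  have s29 : Bfun f g (U ++ [l1, l2]) (V ++ [l3, l5, l6, l7]) W l4 l8 = - Bfun f g (U ++ [l1, l2]) (V ++ [l3, l5, l6, l4]) W l7 l8 :=
    h.Bl2 V [l3, l5, l6] (U ++ [l1, l2]) W l7 l4 l8 (Or.inr (List.cons_ne_nil _ _))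
  have s30 : Bfun f g (U ++ [l1, l2]) (V ++ [l3, l5, l6, l4]) W l7 l8 = - Bfun f g (U ++ [l1, l2]) (V ++ [l3, l5, l4, l6]) W l7 l8 :=
    h.Bi2 V [l3, l5] [] (U ++ [l1, l2]) W l6 l4 l7 l8 (Or.inr (List.cons_ne_nil _ _))
  have s31 : Bfun f g (U ++ [l1, l2]) (V ++ [l3, l5, l4, l6]) W l7 l8 = - Bfun f g (U ++ [l1, l2]) (V ++ [l3, l4, l5, l6]) W l7 l8 :=
    h.Bi2 V [l3] [l6] (U ++ [l1, l2]) W l5 l4 l7 l8 (Or.inr (List.cons_ne_nil _ _))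
  have s32 : Bfun f g (U ++ [l3, l4]) (V ++ [l1, l2]) (W ++ [l5, l6]) l7 l8 = - Bfun f g (U ++ [l3, l4]) (V ++ [l2, l1]) (W ++ [l5, l6]) l7 l8 :=
    h.Bi2 V [] [] (U ++ [l3, l4]) (W ++ [l5, l6]) l1 l2 l7 l8 (Or.inl hV)
  have s33 : Bfun f g (U ++ [l3, l4]) (V ++ [l2, l1]) (W ++ [l5, l6]) l7 l8 = - Bfun f g (U ++ [l3, l4]) (V ++ [l2, l7]) (W ++ [l5, l6]) l1 l8 :=
    h.Bl2 V [l2] (U ++ [l3, l4]) (W ++ [l5, l6]) l1 l7 l8 (Or.inr (List.cons_ne_nil _ _))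
  have s34 : Bfun f g (U ++ [l3, l4]) (V ++ [l2, l7]) (W ++ [l5, l6]) l1 l8 = - Bfun f g (U ++ [l3, l1]) (V ++ [l2, l7]) (W ++ [l5, l6]) l4 l8 :=
    h.Bl1 U [l3] (V ++ [l2, l7]) (W ++ [l5, l6]) l4 l1 l8 (Or.inr (List.cons_ne_nil _ _))
  have s35 : Bfun f g (U ++ [l3, l1]) (V ++ [l2, l7]) (W ++ [l5, l6]) l4 l8 = - Bfun f g (U ++ [l1, l3]) (V ++ [l2, l7]) (W ++ [l5, l6]) l4 l8 :=
    h.Bi1 U [] [] (V ++ [l2, l7]) (W ++ [l5, l6]) l3 l1 l4 l8 (Or.inl hU)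
  have s36 : Bfun f g (U ++ [l1, l3]) (V ++ [l2, l7]) (W ++ [l5, l6]) l4 l8 = - Bfun f g (U ++ [l1, l3]) (V ++ [l7, l2]) (W ++ [l5, l6]) l4 l8 :=
    h.Bi2 V [] [] (U ++ [l1, l3]) (W ++ [l5, l6]) l2 l7 l4 l8 (Or.inl hV)
  have s37 : Bfun f g (U ++ [l1, l3]) (V ++ [l7, l2]) (W ++ [l5, l6]) l4 l8 = - Bfun f g (U ++ [l1, l3]) (V ++ [l7, l4]) (W ++ [l5, l6]) l2 l8 :=
    h.Bl2 V [l7] (U ++ [l1, l3]) (W ++ [l5, l6]) l2 l4 l8 (Or.inr (List.cons_ne_nil _ _))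
  have s38 : Bfun f g (U ++ [l1, l3]) (V ++ [l7, l4]) (W ++ [l5, l6]) l2 l8 = - Bfun f g (U ++ [l1, l2]) (V ++ [l7, l4]) (W ++ [l5, l6]) l3 l8 :=
    h.Bl1 U [l1] (V ++ [l7, l4]) (W ++ [l5, l6]) l3 l2 l8 (Or.inr (List.cons_ne_nil _ _))
  have s39 : Bfun f g (U ++ [l1, l2]) (V ++ [l7, l4]) (W ++ [l5, l6]) l3 l8 = - Bfun f g (U ++ [l1, l2]) (V ++ [l7, l3]) (W ++ [l5, l6]) l4 l8 :=
    h.Bl2 V [l7] (U ++ [l1, l2]) (W ++ [l5, l6]) l4 l3 l8 (Or.inr (List.cons_ne_nil _ _))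
  have s40 : Bfun f g (U ++ [l1, l2]) (V ++ [l7, l3]) (W ++ [l5, l6]) l4 l8 = - Bfun f g (U ++ [l1, l2]) (V ++ [l3, l7]) (W ++ [l5, l6]) l4 l8 :=
    h.Bi2 V [] [] (U ++ [l1, l2]) (W ++ [l5, l6]) l7 l3 l4 l8 (Or.inl hV)
  have s41 : Bfun f g (U ++ [l1, l2]) (V ++ [l3, l7]) (W ++ [l5, l6]) l4 l8 = - Bfun f g (U ++ [l1, l2]) (V ++ [l3, l4]) (W ++ [l5, l6]) l7 l8 :=
    h.Bl2 V [l3] (U ++ [l1, l2]) (W ++ [l5, l6]) l7 l4 l8 (Or.inr (List.cons_ne_nil _ _))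
  have s42 : Bfun f g (V ++ [l3, l4, l5, l6]) (U ++ [l1, l2]) W l7 l8 = - Bfun f g (U ++ [l1, l2]) (V ++ [l3, l4, l5, l6]) W l7 l8 :=
    h.B12 (V ++ [l3, l4, l5, l6]) (U ++ [l1, l2]) W l7 l8
  have s43 : Bfun f g (V ++ [l3, l4]) (U ++ [l1, l2, l5, l6]) W l7 l8 = - Bfun f g (U ++ [l1, l2, l5, l6]) (V ++ [l3, l4]) W l7 l8 :=
    h.B12 (V ++ [l3, l4]) (U ++ [l1, l2, l5, l6]) W l7 l8
  have s44 : Bfun f g (U ++ [l1, l2, l5, l6]) (V ++ [l3, l4]) W l7 l8 = - Bfun f g (U ++ [l1, l2, l5, l6]) (V ++ [l4, l3]) W l7 l8 :=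
    h.Bi2 V [] [] (U ++ [l1, l2, l5, l6]) W l3 l4 l7 l8 (Or.inl hV)
  have s45 : Bfun f g (U ++ [l1, l2, l5, l6]) (V ++ [l4, l3]) W l7 l8 = - Bfun f g (U ++ [l1, l2, l5, l6]) (V ++ [l4, l7]) W l3 l8 :=
    h.Bl2 V [l4] (U ++ [l1, l2, l5, l6]) W l3 l7 l8 (Or.inr (List.cons_ne_nil _ _))
  have s46 : Bfun f g (U ++ [l1, l2, l5, l6]) (V ++ [l4, l7]) W l3 l8 = - Bfun f g (U ++ [l1, l2, l5, l3]) (V ++ [l4, l7]) W l6 l8 :=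
    h.Bl1 U [l1, l2, l5] (V ++ [l4, l7]) W l6 l3 l8 (Or.inr (List.cons_ne_nil _ _))
  have s47 : Bfun f g (U ++ [l1, l2, l5, l3]) (V ++ [l4, l7]) W l6 l8 = - Bfun f g (U ++ [l1, l2, l3, l5]) (V ++ [l4, l7]) W l6 l8 :=
    h.Bi1 U [l1, l2] [] (V ++ [l4, l7]) W l5 l3 l6 l8 (Or.inr (List.cons_ne_nil _ _))
  have s48 : Bfun f g (U ++ [l1, l2, l3, l5]) (V ++ [l4, l7]) W l6 l8 = - Bfun f g (U ++ [l1, l2, l3, l5]) (V ++ [l7, l4]) W l6 l8 :=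
    h.Bi2 V [] [] (U ++ [l1, l2, l3, l5]) W l4 l7 l6 l8 (Or.inl hV)
  have s49 : Bfun f g (U ++ [l1, l2, l3, l5]) (V ++ [l7, l4]) W l6 l8 = - Bfun f g (U ++ [l1, l2, l3, l5]) (V ++ [l7, l6]) W l4 l8 :=
    h.Bl2 V [l7] (U ++ [l1, l2, l3, l5]) W l4 l6 l8 (Or.inr (List.cons_ne_nil _ _))
  have s50 : Bfun f g (U ++ [l1, l2, l3, l5]) (V ++ [l7, l6]) W l4 l8 = - Bfun f g (U ++ [l1, l2, l3, l4]) (V ++ [l7, l6]) W l5 l8 :=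
    h.Bl1 U [l1, l2, l3] (V ++ [l7, l6]) W l5 l4 l8 (Or.inr (List.cons_ne_nil _ _))
  have s51 : Bfun f g (V ++ [l3, l4]) (U ++ [l1, l2]) (W ++ [l5, l6]) l7 l8 = - Bfun f g (U ++ [l1, l2]) (V ++ [l3, l4]) (W ++ [l5, l6]) l7 l8 :=
    h.B12 (V ++ [l3, l4]) (U ++ [l1, l2]) (W ++ [l5, l6]) l7 l8
  apply tf.n2
  linear_combination (norm := module) (-1 : ℤ) • r0 + (1 : ℤ) • r1 + (1 : ℤ) • s0 + (-1 : ℤ) • s1 + (1 : ℤ) • s2 + (-1 : ℤ) • s3 + (1 : ℤ) • s4 + (-1 : ℤ) • s5 + (1 : ℤ) • s6 + (-1 : ℤ) • s7 + (1 : ℤ) • s8 + (-1 : ℤ) • s9 + (1 : ℤ) • s10 + (-1 : ℤ) • s14 + (1 : ℤ) • s15 + (-1 : ℤ) • s16 + (1 : ℤ) • s17 + (-1 : ℤ) • s18 + (1 : ℤ) • s19 + (-1 : ℤ) • s20 + (1 : ℤ) • s21 + (-1 : ℤ) • s22 + (1 : ℤ) • s23 + (-1 : ℤ) • s24 + (1 : ℤ) • s25 + (-1 : ℤ) • s26 + (1 : ℤ) • s27 + (-1 : ℤ) •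 s28 + (1 : ℤ) • s29 + (-1 : ℤ) • s30 + (1 : ℤ) • s31 + (-1 : ℤ) • s32 + (1 : ℤ) • s33 + (-1 : ℤ) • s34 + (1 : ℤ) • s35 + (-1 : ℤ) • s36 + (1 : ℤ) • s37 + (-1 : ℤ) • s38 + (1 : ℤ) • s39 + (-1 : ℤ) • s40 + (1 : ℤ) • s41 + (-1 : ℤ) • s42 + (1 : ℤ) • s43 + (-1 : ℤ) • s44 + (1 : ℤ) • s45 + (-1 : ℤ) • s46 + (1 : ℤ) • s47 + (-1 : ℤ) • s48 + (1 : ℤ) • s49 + (-1 : ℤ) • s50 + (1 : ℤ) • s51

theorem SQ0a (h : Lvl f g) (tf : TF G) (V W : List α) (hV : V ≠ []) (hW : W ≠ [])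
    (x1 x2 x3 x4 x5 x6 : α) :
    Bfun f g [x1, x2] V (W ++ [x3, x4]) x5 x6 - Bfun f g [] V (W ++ [x1, x2, x3, x4]) x5 x6 + Bfun f g [] (V ++ [x1, x2]) (W ++ [x3, x4]) x5 x6 = 0 := by
  have r0 : Bfun f g (W ++ [x5, x6]) (V ++ [x1, x2]) [] x4 x3 + Bfun f g (V ++ [x1, x4]) (W ++ [x5, x3]) [] x6 x2 + Bfun f g V (W ++ [x5, x6, x4, x3]) [] x1 x2 + Bfun f g W (V ++ [x1, x4, x6, x2]) [] x5 x3 - Bfun f g V (W ++ [x5, x6]) [x3, x2] x1 x4 - Bfun f g W (V ++ [x1, x4]) [x2, x3] x5 x6 = 0 :=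
    h.KB V W [] x1 x4 x5 x6 x2 x3
  have r1 : Bfun f g (W ++ [x5, x6]) (V ++ [x2, x3]) [] x4 x1 + Bfun f g (V ++ [x2, x4]) (W ++ [x5, x1]) [] x6 x3 + Bfun f g V (W ++ [x5, x6, x4, x1]) [] x2 x3 + Bfun f g W (V ++ [x2, x4, x6, x3]) [] x5 x1 - Bfun f g V (W ++ [x5, x6]) [x1, x3] x2 x4 - Bfun f g W (V ++ [x2, x4]) [x3, x1] x5 x6 = 0 :=
    h.KB V W [] x2 x4 x5 x6 x3 x1
  have r2 : Bfun f g (V ++ [x2, x4]) [x3, x5] W x1 x6 + Bfun f g [x3, x1] (V ++ [x2, x6]) W x4 x5 + Bfun f g [] (V ++ [x2, x4, x1, x6]) W x3 x5 + Bfun f g V [x3, x1, x4, x5] W x2 x6 - Bfun f g [] (V ++ [x2, x4]) (W ++ [x6, x5]) x3 x1 - Bfun f g V [x3, x1] (W ++ [x5, x6]) x2 x4 = 0 :=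
    h.KB [] V W x3 x1 x2 x4 x5 x6
  have r3 : Bfun f g (W ++ [x2, x4]) [x3, x5] V x1 x6 + Bfun f g [x3, x1] (W ++ [x2, x6]) V x4 x5 + Bfun f g [] (W ++ [x2, x4, x1, x6]) V x3 x5 + Bfun f g W [x3, x1, x4, x5] V x2 x6 - Bfun f g [] (W ++ [x2, x4]) (V ++ [x6, x5]) x3 x1 - Bfun f g W [x3, x1] (V ++ [x5, x6]) x2 x4 = 0 :=
    h.KB [] W V x3 x1 x2 x4 x5 x6
  have r4 : Bfun f g (W ++ [x5, x6]) (V ++ [x3, x2]) [] x4 x1 + Bfun f g (V ++ [x3, x4]) (W ++ [x5, x1]) [] x6 x2 + Bfun f g V (W ++ [x5, x6, x4, x1]) [] x3 x2 + Bfun f g W (V ++ [x3, x4, x6, x2]) [] x5 x1 - Bfun f g V (W ++ [x5, x6]) [x1, x2] x3 x4 - Bfun f g W (V ++ [x3, x4]) [x2, x1] x5 x6 = 0 :=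
    h.KB V W [] x3 x4 x5 x6 x2 x1
  have s0 : Bfun f g (W ++ [x5, x6]) (V ++ [x1, x2]) [] x4 x3 = - Bfun f g (V ++ [x1, x2]) (W ++ [x5, x6]) [] x4 x3 :=
    h.B12 (W ++ [x5, x6]) (V ++ [x1, x2]) [] x4 x3
  have s1 : Bfun f g (V ++ [x1, x2]) (W ++ [x5, x6]) [] x4 x3 = - Bfun f g (V ++ [x1, x2]) [] (W ++ [x5, x6]) x4 x3 :=
    h.B23 (V ++ [x1, x2]) (W ++ [x5, x6]) [] x4 x3
  have s2 : Bfun f g (V ++ [x1, x2]) [] (W ++ [x5, x6]) x4 x3 = - Bfun f g [] (V ++ [x1, x2]) (W ++ [x5, x6]) x4 x3 :=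
    h.B12 (V ++ [x1, x2]) [] (W ++ [x5, x6]) x4 x3
  have s3 : Bfun f g [] (V ++ [x1, x2]) (W ++ [x5, x6]) x4 x3 = - Bfun f g [] (V ++ [x1, x2]) (W ++ [x5, x6]) x3 x4 :=
    h.Bzz [] (V ++ [x1, x2]) (W ++ [x5, x6]) x4 x3
  have s4 : Bfun f g [] (V ++ [x1, x2]) (W ++ [x5, x6]) x3 x4 = - Bfun f g [] (V ++ [x1, x2]) (W ++ [x5, x3]) x6 x4 :=
    h.Bl3 W [x5] [] (V ++ [x1, x2]) x6 x3 x4 (Or.inr (List.cons_ne_nil _ _))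
  have s5 : Bfun f g [] (V ++ [x1, x2]) (W ++ [x5, x3]) x6 x4 = - Bfun f g [] (V ++ [x1, x2]) (W ++ [x3, x5]) x6 x4 :=
    h.Bi3 W [] [] [] (V ++ [x1, x2]) x5 x3 x6 x4 (Or.inl hW)
  have s6 : Bfun f g [] (V ++ [x1, x2]) (W ++ [x3, x5]) x6 x4 = - Bfun f g [] (V ++ [x1, x2]) (W ++ [x3, x5]) x4 x6 :=
    h.Bzz [] (V ++ [x1, x2]) (W ++ [x3, x5]) x6 x4
  have s7 : Bfun f g [] (V ++ [x1, x2]) (W ++ [x3, x5]) x4 x6 = - Bfun f g [] (V ++ [x1, x2]) (W ++ [x3, x4]) x5 x6 :=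
    h.Bl3 W [x3] [] (V ++ [x1, x2]) x5 x4 x6 (Or.inr (List.cons_ne_nil _ _))
  have s8 : Bfun f g (V ++ [x1, x4]) (W ++ [x5, x3]) [] x6 x2 = - Bfun f g (V ++ [x1, x4]) [] (W ++ [x5, x3]) x6 x2 :=
    h.B23 (V ++ [x1, x4]) (W ++ [x5, x3]) [] x6 x2
  have s9 : Bfun f g (V ++ [x1, x4]) [] (W ++ [x5, x3]) x6 x2 = - Bfun f g [] (V ++ [x1, x4]) (W ++ [x5, x3]) x6 x2 :=
    h.B12 (V ++ [x1, x4]) [] (W ++ [x5, x3]) x6 x2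
  have s10 : Bfun f g [] (V ++ [x1, x4]) (W ++ [x5, x3]) x6 x2 = - Bfun f g [] (V ++ [x1, x4]) (W ++ [x5, x3]) x2 x6 :=
    h.Bzz [] (V ++ [x1, x4]) (W ++ [x5, x3]) x6 x2
  have s11 : Bfun f g [] (V ++ [x1, x4]) (W ++ [x5, x3]) x2 x6 = - Bfun f g [] (V ++ [x1, x2]) (W ++ [x5, x3]) x4 x6 :=
    h.Bl2 V [x1] [] (W ++ [x5, x3]) x4 x2 x6 (Or.inr (List.cons_ne_nil _ _))
  have s12 : Bfun f g [] (V ++ [x1, x2]) (W ++ [x5, x3]) x4 x6 = - Bfun f g [] (V ++ [x1, x2]) (W ++ [x3, x5]) x4 x6 :=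
    h.Bi3 W [] [] [] (V ++ [x1, x2]) x5 x3 x4 x6 (Or.inl hW)
  have s13 : Bfun f g V (W ++ [x5, x6, x4, x3]) [] x1 x2 = - Bfun f g V [] (W ++ [x5, x6, x4, x3]) x1 x2 :=
    h.B23 V (W ++ [x5, x6, x4, x3]) [] x1 x2
  have s14 : Bfun f g V [] (W ++ [x5, x6, x4, x3]) x1 x2 = - Bfun f g [] V (W ++ [x5, x6, x4, x3]) x1 x2 :=
    h.B12 V [] (W ++ [x5, x6, x4, x3]) x1 x2
  have s15 : Bfun f g [] V (W ++ [x5, x6, x4, x3]) x1 x2 = - Bfun f g [] V (W ++ [x5, x6, x4, x1]) x3 x2 :=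
    h.Bl3 W [x5, x6, x4] [] V x3 x1 x2 (Or.inr (List.cons_ne_nil _ _))
  have s16 : Bfun f g [] V (W ++ [x5, x6, x4, x1]) x3 x2 = - Bfun f g [] V (W ++ [x5, x6, x1, x4]) x3 x2 :=
    h.Bi3 W [x5, x6] [] [] V x4 x1 x3 x2 (Or.inr (List.cons_ne_nil _ _))
  have s17 : Bfun f g [] V (W ++ [x5, x6, x1, x4]) x3 x2 = - Bfun f g [] V (W ++ [x5, x1, x6, x4]) x3 x2 :=
    h.Bi3 W [x5] [x4] [] V x6 x1 x3 x2 (Or.inr (List.cons_ne_nil _ _))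
  have s18 : Bfun f g [] V (W ++ [x5, x1, x6, x4]) x3 x2 = - Bfun f g [] V (W ++ [x1, x5, x6, x4]) x3 x2 :=
    h.Bi3 W [] [x6, x4] [] V x5 x1 x3 x2 (Or.inl hW)
  have s19 : Bfun f g [] V (W ++ [x1, x5, x6, x4]) x3 x2 = - Bfun f g [] V (W ++ [x1, x5, x6, x4]) x2 x3 :=
    h.Bzz [] V (W ++ [x1, x5, x6, x4]) x3 x2
  have s20 : Bfun f g [] V (W ++ [x1, x5, x6, x4]) x2 x3 = - Bfun f g [] V (W ++ [x1, x5, x6, x2]) x4 x3 :=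
    h.Bl3 W [x1, x5, x6] [] V x4 x2 x3 (Or.inr (List.cons_ne_nil _ _))
  have s21 : Bfun f g [] V (W ++ [x1, x5, x6, x2]) x4 x3 = - Bfun f g [] V (W ++ [x1, x5, x2, x6]) x4 x3 :=
    h.Bi3 W [x1, x5] [] [] V x6 x2 x4 x3 (Or.inr (List.cons_ne_nil _ _))
  have s22 : Bfun f g [] V (W ++ [x1, x5, x2, x6]) x4 x3 = - Bfun f g [] V (W ++ [x1, x2, x5, x6]) x4 x3 :=
    h.Bi3 W [x1] [x6] [] V x5 x2 x4 x3 (Or.inr (List.cons_ne_nil _ _))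
  have s23 : Bfun f g [] V (W ++ [x1, x2, x5, x6]) x4 x3 = - Bfun f g [] V (W ++ [x1, x2, x5, x6]) x3 x4 :=
    h.Bzz [] V (W ++ [x1, x2, x5, x6]) x4 x3
  have s24 : Bfun f g [] V (W ++ [x1, x2, x5, x6]) x3 x4 = - Bfun f g [] V (W ++ [x1, x2, x5, x3]) x6 x4 :=
    h.Bl3 W [x1, x2, x5] [] V x6 x3 x4 (Or.inr (List.cons_ne_nil _ _))
  have s25 : Bfun f g [] V (W ++ [x1, x2, x5, x3]) x6 x4 = - Bfun f g [] V (W ++ [x1, x2, x3, x5]) x6 x4 :=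
    h.Bi3 W [x1, x2] [] [] V x5 x3 x6 x4 (Or.inr (List.cons_ne_nil _ _))
  have s26 : Bfun f g [] V (W ++ [x1, x2, x3, x5]) x6 x4 = - Bfun f g [] V (W ++ [x1, x2, x3, x5]) x4 x6 :=
    h.Bzz [] V (W ++ [x1, x2, x3, x5]) x6 x4
  have s27 : Bfun f g [] V (W ++ [x1, x2, x3, x5]) x4 x6 = - Bfun f g [] V (W ++ [x1, x2, x3, x4]) x5 x6 :=
    h.Bl3 W [x1, x2, x3] [] V x5 x4 x6 (Or.inr (List.cons_ne_nil _ _))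
  have s28 : Bfun f g W (V ++ [x1, x4, x6, x2]) [] x5 x3 = - Bfun f g (V ++ [x1, x4, x6, x2]) W [] x5 x3 :=
    h.B12 W (V ++ [x1, x4, x6, x2]) [] x5 x3
  have s29 : Bfun f g (V ++ [x1, x4, x6, x2]) W [] x5 x3 = - Bfun f g (V ++ [x1, x4, x6, x2]) [] W x5 x3 :=
    h.B23 (V ++ [x1, x4, x6, x2]) W [] x5 x3
  have s30 : Bfun f g (V ++ [x1, x4, x6, x2]) [] W x5 x3 = - Bfun f g [] (V ++ [x1, x4, x6, x2]) W x5 x3 :=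
    h.B12 (V ++ [x1, x4, x6, x2]) [] W x5 x3
  have s31 : Bfun f g [] (V ++ [x1, x4, x6, x2]) W x5 x3 = - Bfun f g [] (V ++ [x1, x4, x2, x6]) W x5 x3 :=
    h.Bi2 V [x1, x4] [] [] W x6 x2 x5 x3 (Or.inr (List.cons_ne_nil _ _))
  have s32 : Bfun f g [] (V ++ [x1, x4, x2, x6]) W x5 x3 = - Bfun f g [] (V ++ [x1, x2, x4, x6]) W x5 x3 :=
    h.Bi2 V [x1] [x6] [] W x4 x2 x5 x3 (Or.inr (List.cons_ne_nil _ _))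
  have s33 : Bfun f g [] (V ++ [x1, x2, x4, x6]) W x5 x3 = - Bfun f g [] (V ++ [x1, x2, x4, x6]) W x3 x5 :=
    h.Bzz [] (V ++ [x1, x2, x4, x6]) W x5 x3
  have s34 : Bfun f g [] (V ++ [x1, x2, x4, x6]) W x3 x5 = - Bfun f g [] (V ++ [x1, x2, x4, x3]) W x6 x5 :=
    h.Bl2 V [x1, x2, x4] [] W x6 x3 x5 (Or.inr (List.cons_ne_nil _ _))
  have s35 : Bfun f g [] (V ++ [x1, x2, x4, x3]) W x6 x5 = - Bfun f g [] (V ++ [x1, x2, x3, x4]) W x6 x5 :=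
    h.Bi2 V [x1, x2] [] [] W x4 x3 x6 x5 (Or.inr (List.cons_ne_nil _ _))
  have s36 : Bfun f g [] (V ++ [x1, x2, x3, x4]) W x6 x5 = - Bfun f g [] (V ++ [x1, x2, x3, x4]) W x5 x6 :=
    h.Bzz [] (V ++ [x1, x2, x3, x4]) W x6 x5
  have s37 : Bfun f g V (W ++ [x5, x6]) [x3, x2] x1 x4 = - Bfun f g V [x3, x2] (W ++ [x5, x6]) x1 x4 :=
    h.B23 V (W ++ [x5, x6]) [x3, x2] x1 x4
  have s38 : Bfun f g V [x3, x2] (W ++ [x5, x6]) x1 x4 = - Bfun f g [x3, x2] V (W ++ [x5, x6]) x1 x4 :=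
    h.B12 V [x3, x2] (W ++ [x5, x6]) x1 x4
  have s39 : Bfun f g [x3, x2] V (W ++ [x5, x6]) x1 x4 = - Bfun f g [x3, x1] V (W ++ [x5, x6]) x2 x4 :=
    h.Bl1 [] [x3] V (W ++ [x5, x6]) x2 x1 x4 (Or.inr (List.cons_ne_nil _ _))
  have s40 : Bfun f g [x3, x1] V (W ++ [x5, x6]) x2 x4 = - Bfun f g [x3, x1] V (W ++ [x5, x2]) x6 x4 :=
    h.Bl3 W [x5] [x3, x1] V x6 x2 x4 (Or.inr (List.cons_ne_nil _ _))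
  have s41 : Bfun f g [x3, x1] V (W ++ [x5, x2]) x6 x4 = - Bfun f g [x3, x1] V (W ++ [x2, x5]) x6 x4 :=
    h.Bi3 W [] [] [x3, x1] V x5 x2 x6 x4 (Or.inl hW)
  have s42 : Bfun f g [x3, x1] V (W ++ [x2, x5]) x6 x4 = - Bfun f g [x3, x1] V (W ++ [x2, x5]) x4 x6 :=
    h.Bzz [x3, x1] V (W ++ [x2, x5]) x6 x4
  have s43 : Bfun f g [x3, x1] V (W ++ [x2, x5]) x4 x6 = - Bfun f g [x3, x1] V (W ++ [x2, x4]) x5 x6 :=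
    h.Bl3 W [x2] [x3, x1] V x5 x4 x6 (Or.inr (List.cons_ne_nil _ _))
  have s44 : Bfun f g W (V ++ [x1, x4]) [x2, x3] x5 x6 = - Bfun f g (V ++ [x1, x4]) W [x2, x3] x5 x6 :=
    h.B12 W (V ++ [x1, x4]) [x2, x3] x5 x6
  have s45 : Bfun f g (V ++ [x1, x4]) W [x2, x3] x5 x6 = - Bfun f g (V ++ [x1, x4]) [x2, x3] W x5 x6 :=
    h.B23 (V ++ [x1, x4]) W [x2, x3] x5 x6
  have s46 : Bfun f g (V ++ [x1, x4]) [x2, x3] W x5 x6 = - Bfun f g [x2, x3] (V ++ [x1, x4]) W x5 x6 :=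
    h.B12 (V ++ [x1, x4]) [x2, x3] W x5 x6
  have s47 : Bfun f g [x2, x3] (V ++ [x1, x4]) W x5 x6 = - Bfun f g [x2, x3] (V ++ [x4, x1]) W x5 x6 :=
    h.Bi2 V [] [] [x2, x3] W x1 x4 x5 x6 (Or.inl hV)
  have s48 : Bfun f g [x2, x3] (V ++ [x4, x1]) W x5 x6 = - Bfun f g [x2, x3] (V ++ [x4, x5]) W x1 x6 :=
    h.Bl2 V [x4] [x2, x3] W x1 x5 x6 (Or.inr (List.cons_ne_nil _ _))
  have s49 : Bfun f g [x2, x3] (V ++ [x4, x5]) W x1 x6 = - Bfun f g [x2, x1] (V ++ [x4, x5]) W x3 x6 :=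
    h.Bl1 [] [x2] (V ++ [x4, x5]) W x3 x1 x6 (Or.inr (List.cons_ne_nil _ _))
  have s50 : Bfun f g [x2, x1] (V ++ [x4, x5]) W x3 x6 = - Bfun f g [x2, x1] (V ++ [x4, x3]) W x5 x6 :=
    h.Bl2 V [x4] [x2, x1] W x5 x3 x6 (Or.inr (List.cons_ne_nil _ _))
  have s51 : Bfun f g [x2, x1] (V ++ [x4, x3]) W x5 x6 = - Bfun f g [x2, x1] (V ++ [x3, x4]) W x5 x6 :=
    h.Bi2 V [] [] [x2, x1] W x4 x3 x5 x6 (Or.inl hV)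
  have s52 : Bfun f g (W ++ [x5, x6]) (V ++ [x2, x3]) [] x4 x1 = - Bfun f g (V ++ [x2, x3]) (W ++ [x5, x6]) [] x4 x1 :=
    h.B12 (W ++ [x5, x6]) (V ++ [x2, x3]) [] x4 x1
  have s53 : Bfun f g (V ++ [x2, x3]) (W ++ [x5, x6]) [] x4 x1 = - Bfun f g (V ++ [x2, x3]) [] (W ++ [x5, x6]) x4 x1 :=
    h.B23 (V ++ [x2, x3]) (W ++ [x5, x6]) [] x4 x1
  have s54 : Bfun f g (V ++ [x2, x3]) [] (W ++ [x5, x6]) x4 x1 = - Bfun f g [] (V ++ [x2, x3]) (W ++ [x5, x6]) x4 x1 :=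
    h.B12 (V ++ [x2, x3]) [] (W ++ [x5, x6]) x4 x1
  have s55 : Bfun f g [] (V ++ [x2, x3]) (W ++ [x5, x6]) x4 x1 = - Bfun f g [] (V ++ [x2, x3]) (W ++ [x5, x6]) x1 x4 :=
    h.Bzz [] (V ++ [x2, x3]) (W ++ [x5, x6]) x4 x1
  have s56 : Bfun f g [] (V ++ [x2, x3]) (W ++ [x5, x6]) x1 x4 = - Bfun f g [] (V ++ [x2, x1]) (W ++ [x5, x6]) x3 x4 :=
    h.Bl2 V [x2] [] (W ++ [x5, x6]) x3 x1 x4 (Or.inr (List.cons_ne_nil _ _))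
  have s57 : Bfun f g [] (V ++ [x2, x1]) (W ++ [x5, x6]) x3 x4 = - Bfun f g [] (V ++ [x1, x2]) (W ++ [x5, x6]) x3 x4 :=
    h.Bi2 V [] [] [] (W ++ [x5, x6]) x2 x1 x3 x4 (Or.inl hV)
  have s58 : Bfun f g (V ++ [x2, x4]) (W ++ [x5, x1]) [] x6 x3 = - Bfun f g (V ++ [x2, x4]) [] (W ++ [x5, x1]) x6 x3 :=
    h.B23 (V ++ [x2, x4]) (W ++ [x5, x1]) [] x6 x3
  have s59 : Bfun f g (V ++ [x2, x4]) [] (W ++ [x5, x1]) x6 x3 = - Bfun f g [] (V ++ [x2, x4]) (W ++ [x5, x1]) x6 x3 :=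
    h.B12 (V ++ [x2, x4]) [] (W ++ [x5, x1]) x6 x3
  have s60 : Bfun f g [] (V ++ [x2, x4]) (W ++ [x5, x1]) x6 x3 = - Bfun f g [] (V ++ [x2, x4]) (W ++ [x5, x6]) x1 x3 :=
    h.Bl3 W [x5] [] (V ++ [x2, x4]) x1 x6 x3 (Or.inr (List.cons_ne_nil _ _))
  have s61 : Bfun f g [] (V ++ [x2, x4]) (W ++ [x5, x6]) x1 x3 = - Bfun f g [] (V ++ [x2, x1]) (W ++ [x5, x6]) x4 x3 :=
    h.Bl2 V [x2] [] (W ++ [x5, x6]) x4 x1 x3 (Or.inr (List.cons_ne_nil _ _))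
  have s62 : Bfun f g [] (V ++ [x2, x1]) (W ++ [x5, x6]) x4 x3 = - Bfun f g [] (V ++ [x1, x2]) (W ++ [x5, x6]) x4 x3 :=
    h.Bi2 V [] [] [] (W ++ [x5, x6]) x2 x1 x4 x3 (Or.inl hV)
  have s63 : Bfun f g V (W ++ [x5, x6, x4, x1]) [] x2 x3 = - Bfun f g V [] (W ++ [x5, x6, x4, x1]) x2 x3 :=
    h.B23 V (W ++ [x5, x6, x4, x1]) [] x2 x3
  have s64 : Bfun f g V [] (W ++ [x5, x6, x4, x1]) x2 x3 = - Bfun f g [] V (W ++ [x5, x6, x4, x1]) x2 x3 :=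
    h.B12 V [] (W ++ [x5, x6, x4, x1]) x2 x3
  have s65 : Bfun f g [] V (W ++ [x5, x6, x4, x1]) x2 x3 = - Bfun f g [] V (W ++ [x5, x6, x1, x4]) x2 x3 :=
    h.Bi3 W [x5, x6] [] [] V x4 x1 x2 x3 (Or.inr (List.cons_ne_nil _ _))
  have s66 : Bfun f g [] V (W ++ [x5, x6, x1, x4]) x2 x3 = - Bfun f g [] V (W ++ [x5, x1, x6, x4]) x2 x3 :=
    h.Bi3 W [x5] [x4] [] V x6 x1 x2 x3 (Or.inr (List.cons_ne_nil _ _))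
  have s67 : Bfun f g [] V (W ++ [x5, x1, x6, x4]) x2 x3 = - Bfun f g [] V (W ++ [x1, x5, x6, x4]) x2 x3 :=
    h.Bi3 W [] [x6, x4] [] V x5 x1 x2 x3 (Or.inl hW)
  have s68 : Bfun f g W (V ++ [x2, x4, x6, x3]) [] x5 x1 = - Bfun f g (V ++ [x2, x4, x6, x3]) W [] x5 x1 :=
    h.B12 W (V ++ [x2, x4, x6, x3]) [] x5 x1
  have s69 : Bfun f g (V ++ [x2, x4, x6, x3]) W [] x5 x1 = - Bfun f g (V ++ [x2, x4, x6, x3]) [] W x5 x1 :=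
    h.B23 (V ++ [x2, x4, x6, x3]) W [] x5 x1
  have s70 : Bfun f g (V ++ [x2, x4, x6, x3]) [] W x5 x1 = - Bfun f g [] (V ++ [x2, x4, x6, x3]) W x5 x1 :=
    h.B12 (V ++ [x2, x4, x6, x3]) [] W x5 x1
  have s71 : Bfun f g [] (V ++ [x2, x4, x6, x3]) W x5 x1 = - Bfun f g [] (V ++ [x2, x4, x6, x3]) W x1 x5 :=
    h.Bzz [] (V ++ [x2, x4, x6, x3]) W x5 x1
  have s72 : Bfun f g [] (V ++ [x2, x4, x6, x3]) W x1 x5 = - Bfun f g [] (V ++ [x2, x4, x6, x1]) W x3 x5 :=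
    h.Bl2 V [x2, x4, x6] [] W x3 x1 x5 (Or.inr (List.cons_ne_nil _ _))
  have s73 : Bfun f g [] (V ++ [x2, x4, x6, x1]) W x3 x5 = - Bfun f g [] (V ++ [x2, x4, x1, x6]) W x3 x5 :=
    h.Bi2 V [x2, x4] [] [] W x6 x1 x3 x5 (Or.inr (List.cons_ne_nil _ _))
  have s74 : Bfun f g [] (V ++ [x2, x4, x1, x6]) W x3 x5 = - Bfun f g [] (V ++ [x2, x1, x4, x6]) W x3 x5 :=
    h.Bi2 V [x2] [x6] [] W x4 x1 x3 x5 (Or.inr (List.cons_ne_nil _ _))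
  have s75 : Bfun f g [] (V ++ [x2, x1, x4, x6]) W x3 x5 = - Bfun f g [] (V ++ [x1, x2, x4, x6]) W x3 x5 :=
    h.Bi2 V [] [x4, x6] [] W x2 x1 x3 x5 (Or.inl hV)
  have s76 : Bfun f g V (W ++ [x5, x6]) [x1, x3] x2 x4 = - Bfun f g V [x1, x3] (W ++ [x5, x6]) x2 x4 :=
    h.B23 V (W ++ [x5, x6]) [x1, x3] x2 x4
  have s77 : Bfun f g V [x1, x3] (W ++ [x5, x6]) x2 x4 = - Bfun f g [x1, x3] V (W ++ [x5, x6]) x2 x4 :=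
    h.B12 V [x1, x3] (W ++ [x5, x6]) x2 x4
  have s78 : Bfun f g [x1, x3] V (W ++ [x5, x6]) x2 x4 = - Bfun f g [x1, x2] V (W ++ [x5, x6]) x3 x4 :=
    h.Bl1 [] [x1] V (W ++ [x5, x6]) x3 x2 x4 (Or.inr (List.cons_ne_nil _ _))
  have s79 : Bfun f g [x1, x2] V (W ++ [x5, x6]) x3 x4 = - Bfun f g [x1, x2] V (W ++ [x5, x3]) x6 x4 :=
    h.Bl3 W [x5] [x1, x2] V x6 x3 x4 (Or.inr (List.cons_ne_nil _ _))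
  have s80 : Bfun f g [x1, x2] V (W ++ [x5, x3]) x6 x4 = - Bfun f g [x1, x2] V (W ++ [x3, x5]) x6 x4 :=
    h.Bi3 W [] [] [x1, x2] V x5 x3 x6 x4 (Or.inl hW)
  have s81 : Bfun f g [x1, x2] V (W ++ [x3, x5]) x6 x4 = - Bfun f g [x1, x2] V (W ++ [x3, x5]) x4 x6 :=
    h.Bzz [x1, x2] V (W ++ [x3, x5]) x6 x4
  have s82 : Bfun f g [x1, x2] V (W ++ [x3, x5]) x4 x6 = - Bfun f g [x1, x2] V (W ++ [x3, x4]) x5 x6 :=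
    h.Bl3 W [x3] [x1, x2] V x5 x4 x6 (Or.inr (List.cons_ne_nil _ _))
  have s83 : Bfun f g W (V ++ [x2, x4]) [x3, x1] x5 x6 = - Bfun f g (V ++ [x2, x4]) W [x3, x1] x5 x6 :=
    h.B12 W (V ++ [x2, x4]) [x3, x1] x5 x6
  have s84 : Bfun f g (V ++ [x2, x4]) W [x3, x1] x5 x6 = - Bfun f g (V ++ [x2, x4]) [x3, x1] W x5 x6 :=
    h.B23 (V ++ [x2, x4]) W [x3, x1] x5 x6
  have s85 : Bfun f g (V ++ [x2, x4]) [x3, x1] W x5 x6 = - Bfun f g [x3, x1] (V ++ [x2, x4]) W x5 x6 :=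
    h.B12 (V ++ [x2, x4]) [x3, x1] W x5 x6
  have s86 : Bfun f g (V ++ [x2, x4]) [x3, x5] W x1 x6 = - Bfun f g [x3, x5] (V ++ [x2, x4]) W x1 x6 :=
    h.B12 (V ++ [x2, x4]) [x3, x5] W x1 x6
  have s87 : Bfun f g [x3, x5] (V ++ [x2, x4]) W x1 x6 = - Bfun f g [x3, x1] (V ++ [x2, x4]) W x5 x6 :=
    h.Bl1 [] [x3] (V ++ [x2, x4]) W x5 x1 x6 (Or.inr (List.cons_ne_nil _ _))
  have s88 : Bfun f g [x3, x1] (V ++ [x2, x6]) W x4 x5 = - Bfun f g [x3, x1] (V ++ [x2, x4]) W x6 x5 :=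
    h.Bl2 V [x2] [x3, x1] W x6 x4 x5 (Or.inr (List.cons_ne_nil _ _))
  have s89 : Bfun f g [x3, x1] (V ++ [x2, x4]) W x6 x5 = - Bfun f g [x3, x1] (V ++ [x2, x4]) W x5 x6 :=
    h.Bzz [x3, x1] (V ++ [x2, x4]) W x6 x5
  have s90 : Bfun f g V [x3, x1, x4, x5] W x2 x6 = - Bfun f g [x3, x1, x4, x5] V W x2 x6 :=
    h.B12 V [x3, x1, x4, x5] W x2 x6
  have s91 : Bfun f g [x3, x1, x4, x5] V W x2 x6 = - Bfun f g [x3, x1, x4, x2] V W x5 x6 :=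
    h.Bl1 [] [x3, x1, x4] V W x5 x2 x6 (Or.inr (List.cons_ne_nil _ _))
  have s92 : Bfun f g [x3, x1, x4, x2] V W x5 x6 = - Bfun f g [x3, x1, x2, x4] V W x5 x6 :=
    h.Bi1 [] [x3, x1] [] V W x4 x2 x5 x6 (Or.inr (List.cons_ne_nil _ _))
  have s93 : Bfun f g [] (V ++ [x2, x4]) (W ++ [x6, x5]) x3 x1 = - Bfun f g [] (V ++ [x2, x4]) (W ++ [x6, x5]) x1 x3 :=
    h.Bzz [] (V ++ [x2, x4]) (W ++ [x6, x5]) x3 x1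
  have s94 : Bfun f g [] (V ++ [x2, x4]) (W ++ [x6, x5]) x1 x3 = - Bfun f g [] (V ++ [x2, x1]) (W ++ [x6, x5]) x4 x3 :=
    h.Bl2 V [x2] [] (W ++ [x6, x5]) x4 x1 x3 (Or.inr (List.cons_ne_nil _ _))
  have s95 : Bfun f g [] (V ++ [x2, x1]) (W ++ [x6, x5]) x4 x3 = - Bfun f g [] (V ++ [x1, x2]) (W ++ [x6, x5]) x4 x3 :=
    h.Bi2 V [] [] [] (W ++ [x6, x5]) x2 x1 x4 x3 (Or.inl hV)
  have s96 : Bfun f g [] (V ++ [x1, x2]) (W ++ [x6, x5]) x4 x3 = - Bfun f g [] (V ++ [x1, x2]) (W ++ [x6, x5]) x3 x4 :=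
    h.Bzz [] (V ++ [x1, x2]) (W ++ [x6, x5]) x4 x3
  have s97 : Bfun f g [] (V ++ [x1, x2]) (W ++ [x6, x5]) x3 x4 = - Bfun f g [] (V ++ [x1, x2]) (W ++ [x6, x3]) x5 x4 :=
    h.Bl3 W [x6] [] (V ++ [x1, x2]) x5 x3 x4 (Or.inr (List.cons_ne_nil _ _))
  have s98 : Bfun f g [] (V ++ [x1, x2]) (W ++ [x6, x3]) x5 x4 = - Bfun f g [] (V ++ [x1, x2]) (W ++ [x3, x6]) x5 x4 :=
    h.Bi3 W [] [] [] (V ++ [x1, x2]) x6 x3 x5 x4 (Or.inl hW)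
  have s99 : Bfun f g [] (V ++ [x1, x2]) (W ++ [x3, x6]) x5 x4 = - Bfun f g [] (V ++ [x1, x2]) (W ++ [x3, x6]) x4 x5 :=
    h.Bzz [] (V ++ [x1, x2]) (W ++ [x3, x6]) x5 x4
  have s100 : Bfun f g [] (V ++ [x1, x2]) (W ++ [x3, x6]) x4 x5 = - Bfun f g [] (V ++ [x1, x2]) (W ++ [x3, x4]) x6 x5 :=
    h.Bl3 W [x3] [] (V ++ [x1, x2]) x6 x4 x5 (Or.inr (List.cons_ne_nil _ _))
  have s101 : Bfun f g [] (V ++ [x1, x2]) (W ++ [x3, x4]) x6 x5 = - Bfun f g [] (V ++ [x1, x2]) (W ++ [x3, x4]) x5 x6 :=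
    h.Bzz [] (V ++ [x1, x2]) (W ++ [x3, x4]) x6 x5
  have s102 : Bfun f g V [x3, x1] (W ++ [x5, x6]) x2 x4 = - Bfun f g [x3, x1] V (W ++ [x5, x6]) x2 x4 :=
    h.B12 V [x3, x1] (W ++ [x5, x6]) x2 x4
  have s103 : Bfun f g (W ++ [x2, x4]) [x3, x5] V x1 x6 = - Bfun f g [x3, x5] (W ++ [x2, x4]) V x1 x6 :=
    h.B12 (W ++ [x2, x4]) [x3, x5] V x1 x6
  have s104 : Bfun f g [x3, x5] (W ++ [x2, x4]) V x1 x6 = - Bfun f g [x3, x5] V (W ++ [x2, x4]) x1 x6 :=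
    h.B23 [x3, x5] (W ++ [x2, x4]) V x1 x6
  have s105 : Bfun f g [x3, x5] V (W ++ [x2, x4]) x1 x6 = - Bfun f g [x3, x1] V (W ++ [x2, x4]) x5 x6 :=
    h.Bl1 [] [x3] V (W ++ [x2, x4]) x5 x1 x6 (Or.inr (List.cons_ne_nil _ _))
  have s106 : Bfun f g [x3, x1] (W ++ [x2, x6]) V x4 x5 = - Bfun f g [x3, x1] V (W ++ [x2, x6]) x4 x5 :=
    h.B23 [x3, x1] (W ++ [x2, x6]) V x4 x5
  have s107 : Bfun f g [x3, x1] V (W ++ [x2, x6]) x4 x5 = - Bfun f g [x3, x1] V (W ++ [x2, x4]) x6 x5 :=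
    h.Bl3 W [x2] [x3, x1] V x6 x4 x5 (Or.inr (List.cons_ne_nil _ _))
  have s108 : Bfun f g [x3, x1] V (W ++ [x2, x4]) x6 x5 = - Bfun f g [x3, x1] V (W ++ [x2, x4]) x5 x6 :=
    h.Bzz [x3, x1] V (W ++ [x2, x4]) x6 x5
  have s109 : Bfun f g [] (W ++ [x2, x4, x1, x6]) V x3 x5 = - Bfun f g [] V (W ++ [x2, x4, x1, x6]) x3 x5 :=
    h.B23 [] (W ++ [x2, x4, x1, x6]) V x3 x5
  have s110 : Bfun f g [] V (W ++ [x2, x4, x1, x6]) x3 x5 = - Bfun f g [] V (W ++ [x2, x1, x4, x6]) x3 x5 :=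
    h.Bi3 W [x2] [x6] [] V x4 x1 x3 x5 (Or.inr (List.cons_ne_nil _ _))
  have s111 : Bfun f g [] V (W ++ [x2, x1, x4, x6]) x3 x5 = - Bfun f g [] V (W ++ [x1, x2, x4, x6]) x3 x5 :=
    h.Bi3 W [] [x4, x6] [] V x2 x1 x3 x5 (Or.inl hW)
  have s112 : Bfun f g [] V (W ++ [x1, x2, x4, x6]) x3 x5 = - Bfun f g [] V (W ++ [x1, x2, x4, x3]) x6 x5 :=
    h.Bl3 W [x1, x2, x4] [] V x6 x3 x5 (Or.inr (List.cons_ne_nil _ _))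
  have s113 : Bfun f g [] V (W ++ [x1, x2, x4, x3]) x6 x5 = - Bfun f g [] V (W ++ [x1, x2, x3, x4]) x6 x5 :=
    h.Bi3 W [x1, x2] [] [] V x4 x3 x6 x5 (Or.inr (List.cons_ne_nil _ _))
  have s114 : Bfun f g [] V (W ++ [x1, x2, x3, x4]) x6 x5 = - Bfun f g [] V (W ++ [x1, x2, x3, x4]) x5 x6 :=
    h.Bzz [] V (W ++ [x1, x2, x3, x4]) x6 x5
  have s115 : Bfun f g W [x3, x1, x4, x5] V x2 x6 = - Bfun f g [x3, x1, x4, x5] W V x2 x6 :=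
    h.B12 W [x3, x1, x4, x5] V x2 x6
  have s116 : Bfun f g [x3, x1, x4, x5] W V x2 x6 = - Bfun f g [x3, x1, x4, x5] V W x2 x6 :=
    h.B23 [x3, x1, x4, x5] W V x2 x6
  have s117 : Bfun f g [] (W ++ [x2, x4]) (V ++ [x6, x5]) x3 x1 = - Bfun f g [] (V ++ [x6, x5]) (W ++ [x2, x4]) x3 x1 :=
    h.B23 [] (W ++ [x2, x4]) (V ++ [x6, x5]) x3 x1
  have s118 : Bfun f g [] (V ++ [x6, x5]) (W ++ [x2, x4]) x3 x1 = - Bfun f g [] (V ++ [x6, x5]) (W ++ [x2, x4]) x1 x3 :=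
    h.Bzz [] (V ++ [x6, x5]) (W ++ [x2, x4]) x3 x1
  have s119 : Bfun f g [] (V ++ [x6, x5]) (W ++ [x2, x4]) x1 x3 = - Bfun f g [] (V ++ [x6, x1]) (W ++ [x2, x4]) x5 x3 :=
    h.Bl2 V [x6] [] (W ++ [x2, x4]) x5 x1 x3 (Or.inr (List.cons_ne_nil _ _))
  have s120 : Bfun f g [] (V ++ [x6, x1]) (W ++ [x2, x4]) x5 x3 = - Bfun f g [] (V ++ [x1, x6]) (W ++ [x2, x4]) x5 x3 :=
    h.Bi2 V [] [] [] (W ++ [x2, x4]) x6 x1 x5 x3 (Or.inl hV)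
  have s121 : Bfun f g [] (V ++ [x1, x6]) (W ++ [x2, x4]) x5 x3 = - Bfun f g [] (V ++ [x1, x6]) (W ++ [x4, x2]) x5 x3 :=
    h.Bi3 W [] [] [] (V ++ [x1, x6]) x2 x4 x5 x3 (Or.inl hW)
  have s122 : Bfun f g [] (V ++ [x1, x6]) (W ++ [x4, x2]) x5 x3 = - Bfun f g [] (V ++ [x1, x6]) (W ++ [x4, x5]) x2 x3 :=
    h.Bl3 W [x4] [] (V ++ [x1, x6]) x2 x5 x3 (Or.inr (List.cons_ne_nil _ _))
  have s123 : Bfun f g [] (V ++ [x1, x6]) (W ++ [x4, x5]) x2 x3 = - Bfun f g [] (V ++ [x1, x2]) (W ++ [x4, x5]) x6 x3 :=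
    h.Bl2 V [x1] [] (W ++ [x4, x5]) x6 x2 x3 (Or.inr (List.cons_ne_nil _ _))
  have s124 : Bfun f g [] (V ++ [x1, x2]) (W ++ [x4, x5]) x6 x3 = - Bfun f g [] (V ++ [x1, x2]) (W ++ [x4, x5]) x3 x6 :=
    h.Bzz [] (V ++ [x1, x2]) (W ++ [x4, x5]) x6 x3
  have s125 : Bfun f g [] (V ++ [x1, x2]) (W ++ [x4, x5]) x3 x6 = - Bfun f g [] (V ++ [x1, x2]) (W ++ [x4, x3]) x5 x6 :=
    h.Bl3 W [x4] [] (V ++ [x1, x2]) x5 x3 x6 (Or.inr (List.cons_ne_nil _ _))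
  have s126 : Bfun f g [] (V ++ [x1, x2]) (W ++ [x4, x3]) x5 x6 = - Bfun f g [] (V ++ [x1, x2]) (W ++ [x3, x4]) x5 x6 :=
    h.Bi3 W [] [] [] (V ++ [x1, x2]) x4 x3 x5 x6 (Or.inl hW)
  have s127 : Bfun f g W [x3, x1] (V ++ [x5, x6]) x2 x4 = - Bfun f g [x3, x1] W (V ++ [x5, x6]) x2 x4 :=
    h.B12 W [x3, x1] (V ++ [x5, x6]) x2 x4
  have s128 : Bfun f g [x3, x1] W (V ++ [x5, x6]) x2 x4 = - Bfun f g [x3, x1] (V ++ [x5, x6]) W x2 x4 :=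
    h.B23 [x3, x1] W (V ++ [x5, x6]) x2 x4
  have s129 : Bfun f g [x3, x1] (V ++ [x5, x6]) W x2 x4 = - Bfun f g [x3, x1] (V ++ [x5, x2]) W x6 x4 :=
    h.Bl2 V [x5] [x3, x1] W x6 x2 x4 (Or.inr (List.cons_ne_nil _ _))
  have s130 : Bfun f g [x3, x1] (V ++ [x5, x2]) W x6 x4 = - Bfun f g [x3, x1] (V ++ [x2, x5]) W x6 x4 :=
    h.Bi2 V [] [] [x3, x1] W x5 x2 x6 x4 (Or.inl hV)
  have s131 : Bfun f g [x3, x1] (V ++ [x2, x5]) W x6 x4 = - Bfun f g [x3, x1] (V ++ [x2, x5]) W x4 x6 :=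
    h.Bzz [x3, x1] (V ++ [x2, x5]) W x6 x4
  have s132 : Bfun f g [x3, x1] (V ++ [x2, x5]) W x4 x6 = - Bfun f g [x3, x1] (V ++ [x2, x4]) W x5 x6 :=
    h.Bl2 V [x2] [x3, x1] W x5 x4 x6 (Or.inr (List.cons_ne_nil _ _))
  have s133 : Bfun f g (W ++ [x5, x6]) (V ++ [x3, x2]) [] x4 x1 = - Bfun f g (V ++ [x3, x2]) (W ++ [x5, x6]) [] x4 x1 :=
    h.B12 (W ++ [x5, x6]) (V ++ [x3, x2]) [] x4 x1
  have s134 : Bfun f g (V ++ [x3, x2]) (W ++ [x5, x6]) [] x4 x1 = - Bfun f g (V ++ [x3, x2]) [] (W ++ [x5, x6]) x4 x1 :=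
    h.B23 (V ++ [x3, x2]) (W ++ [x5, x6]) [] x4 x1
  have s135 : Bfun f g (V ++ [x3, x2]) [] (W ++ [x5, x6]) x4 x1 = - Bfun f g [] (V ++ [x3, x2]) (W ++ [x5, x6]) x4 x1 :=
    h.B12 (V ++ [x3, x2]) [] (W ++ [x5, x6]) x4 x1
  have s136 : Bfun f g [] (V ++ [x3, x2]) (W ++ [x5, x6]) x4 x1 = - Bfun f g [] (V ++ [x3, x2]) (W ++ [x5, x6]) x1 x4 :=
    h.Bzz [] (V ++ [x3, x2]) (W ++ [x5, x6]) x4 x1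
  have s137 : Bfun f g [] (V ++ [x3, x2]) (W ++ [x5, x6]) x1 x4 = - Bfun f g [] (V ++ [x3, x1]) (W ++ [x5, x6]) x2 x4 :=
    h.Bl2 V [x3] [] (W ++ [x5, x6]) x2 x1 x4 (Or.inr (List.cons_ne_nil _ _))
  have s138 : Bfun f g [] (V ++ [x3, x1]) (W ++ [x5, x6]) x2 x4 = - Bfun f g [] (V ++ [x1, x3]) (W ++ [x5, x6]) x2 x4 :=
    h.Bi2 V [] [] [] (W ++ [x5, x6]) x3 x1 x2 x4 (Or.inl hV)
  have s139 : Bfun f g [] (V ++ [x1, x3]) (W ++ [x5, x6]) x2 x4 = - Bfun f g [] (V ++ [x1, x2]) (W ++ [x5, x6]) x3 x4 :=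
    h.Bl2 V [x1] [] (W ++ [x5, x6]) x3 x2 x4 (Or.inr (List.cons_ne_nil _ _))
  have s140 : Bfun f g (V ++ [x3, x4]) (W ++ [x5, x1]) [] x6 x2 = - Bfun f g (V ++ [x3, x4]) [] (W ++ [x5, x1]) x6 x2 :=
    h.B23 (V ++ [x3, x4]) (W ++ [x5, x1]) [] x6 x2
  have s141 : Bfun f g (V ++ [x3, x4]) [] (W ++ [x5, x1]) x6 x2 = - Bfun f g [] (V ++ [x3, x4]) (W ++ [x5, x1]) x6 x2 :=
    h.B12 (V ++ [x3, x4]) [] (W ++ [x5, x1]) x6 x2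
  have s142 : Bfun f g [] (V ++ [x3, x4]) (W ++ [x5, x1]) x6 x2 = - Bfun f g [] (V ++ [x3, x4]) (W ++ [x5, x6]) x1 x2 :=
    h.Bl3 W [x5] [] (V ++ [x3, x4]) x1 x6 x2 (Or.inr (List.cons_ne_nil _ _))
  have s143 : Bfun f g [] (V ++ [x3, x4]) (W ++ [x5, x6]) x1 x2 = - Bfun f g [] (V ++ [x3, x1]) (W ++ [x5, x6]) x4 x2 :=
    h.Bl2 V [x3] [] (W ++ [x5, x6]) x4 x1 x2 (Or.inr (List.cons_ne_nil _ _))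
  have s144 : Bfun f g [] (V ++ [x3, x1]) (W ++ [x5, x6]) x4 x2 = - Bfun f g [] (V ++ [x1, x3]) (W ++ [x5, x6]) x4 x2 :=
    h.Bi2 V [] [] [] (W ++ [x5, x6]) x3 x1 x4 x2 (Or.inl hV)
  have s145 : Bfun f g [] (V ++ [x1, x3]) (W ++ [x5, x6]) x4 x2 = - Bfun f g [] (V ++ [x1, x3]) (W ++ [x5, x6]) x2 x4 :=
    h.Bzz [] (V ++ [x1, x3]) (W ++ [x5, x6]) x4 x2
  have s146 : Bfun f g V (W ++ [x5, x6, x4, x1]) [] x3 x2 = - Bfun f g V [] (W ++ [x5, x6, x4, x1]) x3 x2 :=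
    h.B23 V (W ++ [x5, x6, x4, x1]) [] x3 x2
  have s147 : Bfun f g V [] (W ++ [x5, x6, x4, x1]) x3 x2 = - Bfun f g [] V (W ++ [x5, x6, x4, x1]) x3 x2 :=
    h.B12 V [] (W ++ [x5, x6, x4, x1]) x3 x2
  have s148 : Bfun f g W (V ++ [x3, x4, x6, x2]) [] x5 x1 = - Bfun f g (V ++ [x3, x4, x6, x2]) W [] x5 x1 :=
    h.B12 W (V ++ [x3, x4, x6, x2]) [] x5 x1
  have s149 : Bfun f g (V ++ [x3, x4, x6, x2]) W [] x5 x1 = - Bfun f g (V ++ [x3, x4, x6, x2]) [] W x5 x1 :=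
    h.B23 (V ++ [x3, x4, x6, x2]) W [] x5 x1
  have s150 : Bfun f g (V ++ [x3, x4, x6, x2]) [] W x5 x1 = - Bfun f g [] (V ++ [x3, x4, x6, x2]) W x5 x1 :=
    h.B12 (V ++ [x3, x4, x6, x2]) [] W x5 x1
  have s151 : Bfun f g [] (V ++ [x3, x4, x6, x2]) W x5 x1 = - Bfun f g [] (V ++ [x3, x4, x6, x2]) W x1 x5 :=
    h.Bzz [] (V ++ [x3, x4, x6, x2]) W x5 x1
  have s152 : Bfun f g [] (V ++ [x3, x4, x6, x2]) W x1 x5 = - Bfun f g [] (V ++ [x3, x4, x6, x1]) W x2 x5 :=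
    h.Bl2 V [x3, x4, x6] [] W x2 x1 x5 (Or.inr (List.cons_ne_nil _ _))
  have s153 : Bfun f g [] (V ++ [x3, x4, x6, x1]) W x2 x5 = - Bfun f g [] (V ++ [x3, x4, x1, x6]) W x2 x5 :=
    h.Bi2 V [x3, x4] [] [] W x6 x1 x2 x5 (Or.inr (List.cons_ne_nil _ _))
  have s154 : Bfun f g [] (V ++ [x3, x4, x1, x6]) W x2 x5 = - Bfun f g [] (V ++ [x3, x1, x4, x6]) W x2 x5 :=
    h.Bi2 V [x3] [x6] [] W x4 x1 x2 x5 (Or.inr (List.cons_ne_nil _ _))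
  have s155 : Bfun f g [] (V ++ [x3, x1, x4, x6]) W x2 x5 = - Bfun f g [] (V ++ [x1, x3, x4, x6]) W x2 x5 :=
    h.Bi2 V [] [x4, x6] [] W x3 x1 x2 x5 (Or.inl hV)
  have s156 : Bfun f g [] (V ++ [x1, x3, x4, x6]) W x2 x5 = - Bfun f g [] (V ++ [x1, x3, x4, x2]) W x6 x5 :=
    h.Bl2 V [x1, x3, x4] [] W x6 x2 x5 (Or.inr (List.cons_ne_nil _ _))
  have s157 : Bfun f g [] (V ++ [x1, x3, x4, x2]) W x6 x5 = - Bfun f g [] (V ++ [x1, x3, x2, x4]) W x6 x5 :=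
    h.Bi2 V [x1, x3] [] [] W x4 x2 x6 x5 (Or.inr (List.cons_ne_nil _ _))
  have s158 : Bfun f g [] (V ++ [x1, x3, x2, x4]) W x6 x5 = - Bfun f g [] (V ++ [x1, x2, x3, x4]) W x6 x5 :=
    h.Bi2 V [x1] [x4] [] W x3 x2 x6 x5 (Or.inr (List.cons_ne_nil _ _))
  have s159 : Bfun f g V (W ++ [x5, x6]) [x1, x2] x3 x4 = - Bfun f g V [x1, x2] (W ++ [x5, x6]) x3 x4 :=
    h.B23 V (W ++ [x5, x6]) [x1, x2] x3 x4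
  have s160 : Bfun f g V [x1, x2] (W ++ [x5, x6]) x3 x4 = - Bfun f g [x1, x2] V (W ++ [x5, x6]) x3 x4 :=
    h.B12 V [x1, x2] (W ++ [x5, x6]) x3 x4
  have s161 : Bfun f g W (V ++ [x3, x4]) [x2, x1] x5 x6 = - Bfun f g (V ++ [x3, x4]) W [x2, x1] x5 x6 :=
    h.B12 W (V ++ [x3, x4]) [x2, x1] x5 x6
  have s162 : Bfun f g (V ++ [x3, x4]) W [x2, x1] x5 x6 = - Bfun f g (V ++ [x3, x4]) [x2, x1] W x5 x6 :=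
    h.B23 (V ++ [x3, x4]) W [x2, x1] x5 x6
  have s163 : Bfun f g (V ++ [x3, x4]) [x2, x1] W x5 x6 = - Bfun f g [x2, x1] (V ++ [x3, x4]) W x5 x6 :=
    h.B12 (V ++ [x3, x4]) [x2, x1] W x5 x6
  apply tf.n2
  linear_combination (norm := module) (-1 : ℤ) • r0 + (1 : ℤ) • r1 + (-1 : ℤ) • r2 + (-1 : ℤ) • r3 + (-1 : ℤ) • r4 + (1 : ℤ) • s0 + (-1 : ℤ) • s1 + (1 : ℤ) • s2 + (-3 : ℤ) • s4 + (3 : ℤ) • s5 + (-3 : ℤ) • s6 + (2 : ℤ) • s7 + (1 : ℤ) • s8 + (-1 : ℤ) • s9 + (1 : ℤ) • s10 + (-1 : ℤ) • s11 + (1 : ℤ) • s12 + (1 : ℤ) • s13 + (-1 : ℤ) • s14 + (1 : ℤ) • s15 + (1 : ℤ) • s20 + (-1 : ℤ) • s21 + (1 : ℤ) • s22 + (-1 : ℤ) • s23 + (1 : ℤ) • s24 + (-1 : ℤ) • s25 + (1 : ℤ) • s26 + (-1 : ℤ) • s27 + (1 : ℤ) • s28 + (-1 : ℤ) • s29 + (1 : ℤ) • s30 + (-1 : ℤ) • s31 + (1 : ℤ) • s32 + (-1 : ℤ) • s33 +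 (1 : ℤ) • s34 + (-1 : ℤ) • s35 + (-1 : ℤ) • s37 + (1 : ℤ) • s38 + (-1 : ℤ) • s39 + (2 : ℤ) • s40 + (-2 : ℤ) • s41 + (2 : ℤ) • s42 + (-2 : ℤ) • s43 + (-1 : ℤ) • s44 + (1 : ℤ) • s45 + (-1 : ℤ) • s46 + (1 : ℤ) • s47 + (-1 : ℤ) • s48 + (1 : ℤ) • s49 + (-1 : ℤ) • s50 + (1 : ℤ) • s51 + (-1 : ℤ) • s52 + (1 : ℤ) • s53 + (-1 : ℤ) • s54 + (1 : ℤ) • s55 + (-1 : ℤ) • s56 + (1 : ℤ) • s57 + (-1 : ℤ) • s58 + (1 : ℤ) • s59 + (-1 : ℤ) • s60 + (1 : ℤ) • s61 + (-1 : ℤ) • s62 + (-1 : ℤ) • s63 + (1 : ℤ) • s64 + (-1 : ℤ) • s65 + (1 : ℤ) • s66 + (-1 : ℤ) • s67 + (-1 : ℤ) • s68 + (1 : ℤ) • s69 + (-1 : ℤ) • s70 + (1 : ℤ) • s71 + (-1 : ℤ) • s72 + (1 : ℤ) • s73 + (1 : ℤ) • s76 + (-1 : ℤ) • s77 + (1 : ℤ) • s78 + (-2 : ℤ) • s79 + (2 : ℤ) • s80 + (-2 : ℤ) • s81 + (2 : ℤ) • s82 + (1 : ℤ) • s83 + (-1 : ℤ) • s84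 + (1 : ℤ) • s85 + (1 : ℤ) • s86 + (-1 : ℤ) • s87 + (1 : ℤ) • s88 + (-1 : ℤ) • s89 + (1 : ℤ) • s90 + (-1 : ℤ) • s93 + (1 : ℤ) • s94 + (-1 : ℤ) • s95 + (1 : ℤ) • s96 + (-1 : ℤ) • s97 + (1 : ℤ) • s98 + (-1 : ℤ) • s99 + (1 : ℤ) • s100 + (-1 : ℤ) • s101 + (-1 : ℤ) • s102 + (1 : ℤ) • s103 + (-1 : ℤ) • s104 + (1 : ℤ) • s105 + (1 : ℤ) • s106 + (-1 : ℤ) • s107 + (1 : ℤ) • s108 + (1 : ℤ) • s109 + (-1 : ℤ) • s110 + (1 : ℤ) • s111 + (-1 : ℤ) • s112 + (1 : ℤ) • s113 + (-1 : ℤ) • s114 + (1 : ℤ) • s115 + (-1 : ℤ) • s116 + (-1 : ℤ) • s117 + (1 : ℤ) • s118 + (-1 : ℤ) • s119 + (1 : ℤ) • s120 + (-1 : ℤ) • s121 + (1 : ℤ) • s122 + (-1 : ℤ) • s123 + (1 : ℤ) • s124 + (-1 : ℤ) • s125 + (1 : ℤ) • s126 + (-1 : ℤ) • s127 + (1 : ℤ) • s128 + (-1 : ℤ) • s129 + (1 : ℤ) • s130 + (-1 : ℤ) • s131 + (1 : ℤ) • s132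 + (1 : ℤ) • s133 + (-1 : ℤ) • s134 + (1 : ℤ) • s135 + (-1 : ℤ) • s136 + (1 : ℤ) • s137 + (-1 : ℤ) • s138 + (2 : ℤ) • s139 + (1 : ℤ) • s140 + (-1 : ℤ) • s141 + (1 : ℤ) • s142 + (-1 : ℤ) • s143 + (1 : ℤ) • s144 + (-1 : ℤ) • s145 + (1 : ℤ) • s146 + (-1 : ℤ) • s147 + (1 : ℤ) • s148 + (-1 : ℤ) • s149 + (1 : ℤ) • s150 + (-1 : ℤ) • s151 + (1 : ℤ) • s152 + (-1 : ℤ) • s153 + (1 : ℤ) • s154 + (-1 : ℤ) • s155 + (1 : ℤ) • s156 + (-1 : ℤ) • s157 + (1 : ℤ) • s158 + (-1 : ℤ) • s159 + (1 : ℤ) • s160 + (-1 : ℤ) • s161 + (1 : ℤ) • s162 + (-1 : ℤ) • s163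

theorem SQ0c (h : Lvl f g) (tf : TF G) (V W : List α) (hV : V ≠ []) (hW : W ≠ [])
    (x1 x2 x3 x4 x5 x6 : α) :
    Bfun f g [x1, x2, x3, x4] V W x5 x6 - Bfun f g [x1, x2] (V ++ [x3, x4]) W x5 x6 - Bfun f g [x1, x2] V (W ++ [x3, x4]) x5 x6 = 0 := by
  have r0 : Bfun f g (V ++ [x3, x4]) [x1, x5] W x2 x6 + Bfun f g [x1, x2] (V ++ [x3, x6]) W x4 x5 + Bfun f g [] (V ++ [x3, x4, x2, x6]) W x1 x5 + Bfun f g V [x1, x2, x4, x5] W x3 x6 - Bfun f g [] (V ++ [x3, x4]) (W ++ [x6, x5]) x1 x2 - Bfun f g V [x1, x2] (W ++ [x5, x6]) x3 x4 = 0 :=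
    h.KB [] V W x1 x2 x3 x4 x5 x6
  have r1 : Bfun f g (W ++ [x3, x4]) [x1, x5] V x2 x6 + Bfun f g [x1, x2] (W ++ [x3, x6]) V x4 x5 + Bfun f g [] (W ++ [x3, x4, x2, x6]) V x1 x5 + Bfun f g W [x1, x2, x4, x5] V x3 x6 - Bfun f g [] (W ++ [x3, x4]) (V ++ [x6, x5]) x1 x2 - Bfun f g W [x1, x2] (V ++ [x5, x6]) x3 x4 = 0 :=
    h.KB [] W V x1 x2 x3 x4 x5 x6
  have r2 : Bfun f g (W ++ [x4, x5]) (V ++ [x1, x3]) [] x2 x6 + Bfun f g (V ++ [x1, x2]) (W ++ [x4, x6]) [] x5 x3 + Bfun f g V (W ++ [x4, x5, x2, x6]) [] x1 x3 + Bfun f g W (V ++ [x1, x2, x5, x3]) [] x4 x6 - Bfun f g V (W ++ [x4, x5]) [x6, x3] x1 x2 - Bfun f g W (V ++ [x1, x2]) [x3, x6] x4 x5 = 0 :=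
    h.KB V W [] x1 x2 x4 x5 x3 x6
  have r3 : Bfun f g (W ++ [x4, x5]) (V ++ [x2, x1]) [] x3 x6 + Bfun f g (V ++ [x2, x3]) (W ++ [x4, x6]) [] x5 x1 + Bfun f g V (W ++ [x4, x5, x3, x6]) [] x2 x1 + Bfun f g W (V ++ [x2, x3, x5, x1]) [] x4 x6 - Bfun f g V (W ++ [x4, x5]) [x6, x1] x2 x3 - Bfun f g W (V ++ [x2, x3]) [x1, x6] x4 x5 = 0 :=
    h.KB V W [] x2 x3 x4 x5 x1 x6
  have r4 : Bfun f g (W ++ [x5, x6]) (V ++ [x2, x3]) [] x4 x1 + Bfun f g (V ++ [x2, x4]) (W ++ [x5, x1]) [] x6 x3 + Bfun f g V (W ++ [x5, x6, x4, x1]) [] x2 x3 + Bfun f g W (V ++ [x2, x4, x6, x3]) [] x5 x1 - Bfun f g V (W ++ [x5, x6]) [x1, x3] x2 x4 - Bfun f g W (V ++ [x2, x4]) [x3, x1] x5 x6 = 0 :=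
    h.KB V W [] x2 x4 x5 x6 x3 x1
  have s0 : Bfun f g (V ++ [x3, x4]) [x1, x5] W x2 x6 = - Bfun f g [x1, x5] (V ++ [x3, x4]) W x2 x6 :=
    h.B12 (V ++ [x3, x4]) [x1, x5] W x2 x6
  have s1 : Bfun f g [x1, x5] (V ++ [x3, x4]) W x2 x6 = - Bfun f g [x1, x2] (V ++ [x3, x4]) W x5 x6 :=
    h.Bl1 [] [x1] (V ++ [x3, x4]) W x5 x2 x6 (Or.inr (List.cons_ne_nil _ _))
  have s2 : Bfun f g [x1, x2] (V ++ [x3, x6]) W x4 x5 = - Bfun f g [x1, x2] (V ++ [x3, x4]) W x6 x5 :=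
    h.Bl2 V [x3] [x1, x2] W x6 x4 x5 (Or.inr (List.cons_ne_nil _ _))
  have s3 : Bfun f g [x1, x2] (V ++ [x3, x4]) W x6 x5 = - Bfun f g [x1, x2] (V ++ [x3, x4]) W x5 x6 :=
    h.Bzz [x1, x2] (V ++ [x3, x4]) W x6 x5
  have s4 : Bfun f g [] (V ++ [x3, x4, x2, x6]) W x1 x5 = - Bfun f g [] (V ++ [x3, x4, x2, x1]) W x6 x5 :=
    h.Bl2 V [x3, x4, x2] [] W x6 x1 x5 (Or.inr (List.cons_ne_nil _ _))
  have s5 : Bfun f g [] (V ++ [x3, x4, x2, x1]) W x6 x5 = - Bfun f g [] (V ++ [x3, x4, x1, x2]) W x6 x5 :=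
    h.Bi2 V [x3, x4] [] [] W x2 x1 x6 x5 (Or.inr (List.cons_ne_nil _ _))
  have s6 : Bfun f g [] (V ++ [x3, x4, x1, x2]) W x6 x5 = - Bfun f g [] (V ++ [x3, x1, x4, x2]) W x6 x5 :=
    h.Bi2 V [x3] [x2] [] W x4 x1 x6 x5 (Or.inr (List.cons_ne_nil _ _))
  have s7 : Bfun f g [] (V ++ [x3, x1, x4, x2]) W x6 x5 = - Bfun f g [] (V ++ [x1, x3, x4, x2]) W x6 x5 :=
    h.Bi2 V [] [x4, x2] [] W x3 x1 x6 x5 (Or.inl hV)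
  have s8 : Bfun f g [] (V ++ [x1, x3, x4, x2]) W x6 x5 = - Bfun f g [] (V ++ [x1, x3, x2, x4]) W x6 x5 :=
    h.Bi2 V [x1, x3] [] [] W x4 x2 x6 x5 (Or.inr (List.cons_ne_nil _ _))
  have s9 : Bfun f g [] (V ++ [x1, x3, x2, x4]) W x6 x5 = - Bfun f g [] (V ++ [x1, x2, x3, x4]) W x6 x5 :=
    h.Bi2 V [x1] [x4] [] W x3 x2 x6 x5 (Or.inr (List.cons_ne_nil _ _))
  have s10 : Bfun f g [] (V ++ [x1, x2, x3, x4]) W x6 x5 = - Bfun f g [] (V ++ [x1, x2, x3, x4]) W x5 x6 :=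
    h.Bzz [] (V ++ [x1, x2, x3, x4]) W x6 x5
  have s11 : Bfun f g V [x1, x2, x4, x5] W x3 x6 = - Bfun f g [x1, x2, x4, x5] V W x3 x6 :=
    h.B12 V [x1, x2, x4, x5] W x3 x6
  have s12 : Bfun f g [x1, x2, x4, x5] V W x3 x6 = - Bfun f g [x1, x2, x4, x3] V W x5 x6 :=
    h.Bl1 [] [x1, x2, x4] V W x5 x3 x6 (Or.inr (List.cons_ne_nil _ _))
  have s13 : Bfun f g [x1, x2, x4, x3] V W x5 x6 = - Bfun f g [x1, x2, x3, x4] V W x5 x6 :=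
    h.Bi1 [] [x1, x2] [] V W x4 x3 x5 x6 (Or.inr (List.cons_ne_nil _ _))
  have s14 : Bfun f g [] (V ++ [x3, x4]) (W ++ [x6, x5]) x1 x2 = - Bfun f g [] (V ++ [x3, x1]) (W ++ [x6, x5]) x4 x2 :=
    h.Bl2 V [x3] [] (W ++ [x6, x5]) x4 x1 x2 (Or.inr (List.cons_ne_nil _ _))
  have s15 : Bfun f g [] (V ++ [x3, x1]) (W ++ [x6, x5]) x4 x2 = - Bfun f g [] (V ++ [x1, x3]) (W ++ [x6, x5]) x4 x2 :=
    h.Bi2 V [] [] [] (W ++ [x6, x5]) x3 x1 x4 x2 (Or.inl hV)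
  have s16 : Bfun f g [] (V ++ [x1, x3]) (W ++ [x6, x5]) x4 x2 = - Bfun f g [] (V ++ [x1, x3]) (W ++ [x6, x5]) x2 x4 :=
    h.Bzz [] (V ++ [x1, x3]) (W ++ [x6, x5]) x4 x2
  have s17 : Bfun f g [] (V ++ [x1, x3]) (W ++ [x6, x5]) x2 x4 = - Bfun f g [] (V ++ [x1, x2]) (W ++ [x6, x5]) x3 x4 :=
    h.Bl2 V [x1] [] (W ++ [x6, x5]) x3 x2 x4 (Or.inr (List.cons_ne_nil _ _))
  have s18 : Bfun f g [] (V ++ [x1, x2]) (W ++ [x6, x5]) x3 x4 = - Bfun f g [] (V ++ [x1, x2]) (W ++ [x6, x3]) x5 x4 :=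
    h.Bl3 W [x6] [] (V ++ [x1, x2]) x5 x3 x4 (Or.inr (List.cons_ne_nil _ _))
  have s19 : Bfun f g [] (V ++ [x1, x2]) (W ++ [x6, x3]) x5 x4 = - Bfun f g [] (V ++ [x1, x2]) (W ++ [x3, x6]) x5 x4 :=
    h.Bi3 W [] [] [] (V ++ [x1, x2]) x6 x3 x5 x4 (Or.inl hW)
  have s20 : Bfun f g [] (V ++ [x1, x2]) (W ++ [x3, x6]) x5 x4 = - Bfun f g [] (V ++ [x1, x2]) (W ++ [x3, x6]) x4 x5 :=
    h.Bzz [] (V ++ [x1, x2]) (W ++ [x3, x6]) x5 x4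
  have s21 : Bfun f g [] (V ++ [x1, x2]) (W ++ [x3, x6]) x4 x5 = - Bfun f g [] (V ++ [x1, x2]) (W ++ [x3, x4]) x6 x5 :=
    h.Bl3 W [x3] [] (V ++ [x1, x2]) x6 x4 x5 (Or.inr (List.cons_ne_nil _ _))
  have s22 : Bfun f g [] (V ++ [x1, x2]) (W ++ [x3, x4]) x6 x5 = - Bfun f g [] (V ++ [x1, x2]) (W ++ [x3, x4]) x5 x6 :=
    h.Bzz [] (V ++ [x1, x2]) (W ++ [x3, x4]) x6 x5
  have s23 : Bfun f g V [x1, x2] (W ++ [x5, x6]) x3 x4 = - Bfun f g [x1, x2] V (W ++ [x5, x6]) x3 x4 :=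
    h.B12 V [x1, x2] (W ++ [x5, x6]) x3 x4
  have s24 : Bfun f g [x1, x2] V (W ++ [x5, x6]) x3 x4 = - Bfun f g [x1, x2] V (W ++ [x5, x3]) x6 x4 :=
    h.Bl3 W [x5] [x1, x2] V x6 x3 x4 (Or.inr (List.cons_ne_nil _ _))
  have s25 : Bfun f g [x1, x2] V (W ++ [x5, x3]) x6 x4 = - Bfun f g [x1, x2] V (W ++ [x3, x5]) x6 x4 :=
    h.Bi3 W [] [] [x1, x2] V x5 x3 x6 x4 (Or.inl hW)
  have s26 : Bfun f g [x1, x2] V (W ++ [x3, x5]) x6 x4 = - Bfun f g [x1, x2] V (W ++ [x3, x5]) x4 x6 :=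
    h.Bzz [x1, x2] V (W ++ [x3, x5]) x6 x4
  have s27 : Bfun f g [x1, x2] V (W ++ [x3, x5]) x4 x6 = - Bfun f g [x1, x2] V (W ++ [x3, x4]) x5 x6 :=
    h.Bl3 W [x3] [x1, x2] V x5 x4 x6 (Or.inr (List.cons_ne_nil _ _))
  have s28 : Bfun f g (W ++ [x3, x4]) [x1, x5] V x2 x6 = - Bfun f g [x1, x5] (W ++ [x3, x4]) V x2 x6 :=
    h.B12 (W ++ [x3, x4]) [x1, x5] V x2 x6
  have s29 : Bfun f g [x1, x5] (W ++ [x3, x4]) V x2 x6 = - Bfun f g [x1, x5] V (W ++ [x3, x4]) x2 x6 :=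
    h.B23 [x1, x5] (W ++ [x3, x4]) V x2 x6
  have s30 : Bfun f g [x1, x5] V (W ++ [x3, x4]) x2 x6 = - Bfun f g [x1, x2] V (W ++ [x3, x4]) x5 x6 :=
    h.Bl1 [] [x1] V (W ++ [x3, x4]) x5 x2 x6 (Or.inr (List.cons_ne_nil _ _))
  have s31 : Bfun f g [x1, x2] (W ++ [x3, x6]) V x4 x5 = - Bfun f g [x1, x2] V (W ++ [x3, x6]) x4 x5 :=
    h.B23 [x1, x2] (W ++ [x3, x6]) V x4 x5
  have s32 : Bfun f g [x1, x2] V (W ++ [x3, x6]) x4 x5 = - Bfun f g [x1, x2] V (W ++ [x3, x4]) x6 x5 :=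
    h.Bl3 W [x3] [x1, x2] V x6 x4 x5 (Or.inr (List.cons_ne_nil _ _))
  have s33 : Bfun f g [x1, x2] V (W ++ [x3, x4]) x6 x5 = - Bfun f g [x1, x2] V (W ++ [x3, x4]) x5 x6 :=
    h.Bzz [x1, x2] V (W ++ [x3, x4]) x6 x5
  have s34 : Bfun f g [] (W ++ [x3, x4, x2, x6]) V x1 x5 = - Bfun f g [] V (W ++ [x3, x4, x2, x6]) x1 x5 :=
    h.B23 [] (W ++ [x3, x4, x2, x6]) V x1 x5
  have s35 : Bfun f g [] V (W ++ [x3, x4, x2, x6]) x1 x5 = - Bfun f g [] V (W ++ [x3, x4, x2, x1]) x6 x5 :=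
    h.Bl3 W [x3, x4, x2] [] V x6 x1 x5 (Or.inr (List.cons_ne_nil _ _))
  have s36 : Bfun f g [] V (W ++ [x3, x4, x2, x1]) x6 x5 = - Bfun f g [] V (W ++ [x3, x4, x1, x2]) x6 x5 :=
    h.Bi3 W [x3, x4] [] [] V x2 x1 x6 x5 (Or.inr (List.cons_ne_nil _ _))
  have s37 : Bfun f g [] V (W ++ [x3, x4, x1, x2]) x6 x5 = - Bfun f g [] V (W ++ [x3, x1, x4, x2]) x6 x5 :=
    h.Bi3 W [x3] [x2] [] V x4 x1 x6 x5 (Or.inr (List.cons_ne_nil _ _))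
  have s38 : Bfun f g [] V (W ++ [x3, x1, x4, x2]) x6 x5 = - Bfun f g [] V (W ++ [x1, x3, x4, x2]) x6 x5 :=
    h.Bi3 W [] [x4, x2] [] V x3 x1 x6 x5 (Or.inl hW)
  have s39 : Bfun f g [] V (W ++ [x1, x3, x4, x2]) x6 x5 = - Bfun f g [] V (W ++ [x1, x3, x2, x4]) x6 x5 :=
    h.Bi3 W [x1, x3] [] [] V x4 x2 x6 x5 (Or.inr (List.cons_ne_nil _ _))
  have s40 : Bfun f g [] V (W ++ [x1, x3, x2, x4]) x6 x5 = - Bfun f g [] V (W ++ [x1, x2, x3, x4]) x6 x5 :=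
    h.Bi3 W [x1] [x4] [] V x3 x2 x6 x5 (Or.inr (List.cons_ne_nil _ _))
  have s41 : Bfun f g [] V (W ++ [x1, x2, x3, x4]) x6 x5 = - Bfun f g [] V (W ++ [x1, x2, x3, x4]) x5 x6 :=
    h.Bzz [] V (W ++ [x1, x2, x3, x4]) x6 x5
  have s42 : Bfun f g W [x1, x2, x4, x5] V x3 x6 = - Bfun f g [x1, x2, x4, x5] W V x3 x6 :=
    h.B12 W [x1, x2, x4, x5] V x3 x6
  have s43 : Bfun f g [x1, x2, x4, x5] W V x3 x6 = - Bfun f g [x1, x2, x4, x5] V W x3 x6 :=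
    h.B23 [x1, x2, x4, x5] W V x3 x6
  have s44 : Bfun f g [] (W ++ [x3, x4]) (V ++ [x6, x5]) x1 x2 = - Bfun f g [] (V ++ [x6, x5]) (W ++ [x3, x4]) x1 x2 :=
    h.B23 [] (W ++ [x3, x4]) (V ++ [x6, x5]) x1 x2
  have s45 : Bfun f g [] (V ++ [x6, x5]) (W ++ [x3, x4]) x1 x2 = - Bfun f g [] (V ++ [x6, x1]) (W ++ [x3, x4]) x5 x2 :=
    h.Bl2 V [x6] [] (W ++ [x3, x4]) x5 x1 x2 (Or.inr (List.cons_ne_nil _ _))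
  have s46 : Bfun f g [] (V ++ [x6, x1]) (W ++ [x3, x4]) x5 x2 = - Bfun f g [] (V ++ [x1, x6]) (W ++ [x3, x4]) x5 x2 :=
    h.Bi2 V [] [] [] (W ++ [x3, x4]) x6 x1 x5 x2 (Or.inl hV)
  have s47 : Bfun f g [] (V ++ [x1, x6]) (W ++ [x3, x4]) x5 x2 = - Bfun f g [] (V ++ [x1, x6]) (W ++ [x3, x4]) x2 x5 :=
    h.Bzz [] (V ++ [x1, x6]) (W ++ [x3, x4]) x5 x2
  have s48 : Bfun f g [] (V ++ [x1, x6]) (W ++ [x3, x4]) x2 x5 = - Bfun f g [] (V ++ [x1, x2]) (W ++ [x3, x4]) x6 x5 :=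
    h.Bl2 V [x1] [] (W ++ [x3, x4]) x6 x2 x5 (Or.inr (List.cons_ne_nil _ _))
  have s49 : Bfun f g W [x1, x2] (V ++ [x5, x6]) x3 x4 = - Bfun f g [x1, x2] W (V ++ [x5, x6]) x3 x4 :=
    h.B12 W [x1, x2] (V ++ [x5, x6]) x3 x4
  have s50 : Bfun f g [x1, x2] W (V ++ [x5, x6]) x3 x4 = - Bfun f g [x1, x2] (V ++ [x5, x6]) W x3 x4 :=
    h.B23 [x1, x2] W (V ++ [x5, x6]) x3 x4
  have s51 : Bfun f g [x1, x2] (V ++ [x5, x6]) W x3 x4 = - Bfun f g [x1, x2] (V ++ [x5, x3]) W x6 x4 :=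
    h.Bl2 V [x5] [x1, x2] W x6 x3 x4 (Or.inr (List.cons_ne_nil _ _))
  have s52 : Bfun f g [x1, x2] (V ++ [x5, x3]) W x6 x4 = - Bfun f g [x1, x2] (V ++ [x3, x5]) W x6 x4 :=
    h.Bi2 V [] [] [x1, x2] W x5 x3 x6 x4 (Or.inl hV)
  have s53 : Bfun f g [x1, x2] (V ++ [x3, x5]) W x6 x4 = - Bfun f g [x1, x2] (V ++ [x3, x5]) W x4 x6 :=
    h.Bzz [x1, x2] (V ++ [x3, x5]) W x6 x4
  have s54 : Bfun f g [x1, x2] (V ++ [x3, x5]) W x4 x6 = - Bfun f g [x1, x2] (V ++ [x3, x4]) W x5 x6 :=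
    h.Bl2 V [x3] [x1, x2] W x5 x4 x6 (Or.inr (List.cons_ne_nil _ _))
  have s55 : Bfun f g (W ++ [x4, x5]) (V ++ [x1, x3]) [] x2 x6 = - Bfun f g (V ++ [x1, x3]) (W ++ [x4, x5]) [] x2 x6 :=
    h.B12 (W ++ [x4, x5]) (V ++ [x1, x3]) [] x2 x6
  have s56 : Bfun f g (V ++ [x1, x3]) (W ++ [x4, x5]) [] x2 x6 = - Bfun f g (V ++ [x1, x3]) [] (W ++ [x4, x5]) x2 x6 :=
    h.B23 (V ++ [x1, x3]) (W ++ [x4, x5]) [] x2 x6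
  have s57 : Bfun f g (V ++ [x1, x3]) [] (W ++ [x4, x5]) x2 x6 = - Bfun f g [] (V ++ [x1, x3]) (W ++ [x4, x5]) x2 x6 :=
    h.B12 (V ++ [x1, x3]) [] (W ++ [x4, x5]) x2 x6
  have s58 : Bfun f g [] (V ++ [x1, x3]) (W ++ [x4, x5]) x2 x6 = - Bfun f g [] (V ++ [x1, x2]) (W ++ [x4, x5]) x3 x6 :=
    h.Bl2 V [x1] [] (W ++ [x4, x5]) x3 x2 x6 (Or.inr (List.cons_ne_nil _ _))
  have s59 : Bfun f g [] (V ++ [x1, x2]) (W ++ [x4, x5]) x3 x6 = - Bfun f g [] (V ++ [x1, x2]) (W ++ [x4, x3]) x5 x6 :=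
    h.Bl3 W [x4] [] (V ++ [x1, x2]) x5 x3 x6 (Or.inr (List.cons_ne_nil _ _))
  have s60 : Bfun f g [] (V ++ [x1, x2]) (W ++ [x4, x3]) x5 x6 = - Bfun f g [] (V ++ [x1, x2]) (W ++ [x3, x4]) x5 x6 :=
    h.Bi3 W [] [] [] (V ++ [x1, x2]) x4 x3 x5 x6 (Or.inl hW)
  have s61 : Bfun f g (V ++ [x1, x2]) (W ++ [x4, x6]) [] x5 x3 = - Bfun f g (V ++ [x1, x2]) [] (W ++ [x4, x6]) x5 x3 :=
    h.B23 (V ++ [x1, x2]) (W ++ [x4, x6]) [] x5 x3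
  have s62 : Bfun f g (V ++ [x1, x2]) [] (W ++ [x4, x6]) x5 x3 = - Bfun f g [] (V ++ [x1, x2]) (W ++ [x4, x6]) x5 x3 :=
    h.B12 (V ++ [x1, x2]) [] (W ++ [x4, x6]) x5 x3
  have s63 : Bfun f g [] (V ++ [x1, x2]) (W ++ [x4, x6]) x5 x3 = - Bfun f g [] (V ++ [x1, x2]) (W ++ [x4, x6]) x3 x5 :=
    h.Bzz [] (V ++ [x1, x2]) (W ++ [x4, x6]) x5 x3
  have s64 : Bfun f g [] (V ++ [x1, x2]) (W ++ [x4, x6]) x3 x5 = - Bfun f g [] (V ++ [x1, x2]) (W ++ [x4, x3]) x6 x5 :=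
    h.Bl3 W [x4] [] (V ++ [x1, x2]) x6 x3 x5 (Or.inr (List.cons_ne_nil _ _))
  have s65 : Bfun f g [] (V ++ [x1, x2]) (W ++ [x4, x3]) x6 x5 = - Bfun f g [] (V ++ [x1, x2]) (W ++ [x3, x4]) x6 x5 :=
    h.Bi3 W [] [] [] (V ++ [x1, x2]) x4 x3 x6 x5 (Or.inl hW)
  have s66 : Bfun f g V (W ++ [x4, x5, x2, x6]) [] x1 x3 = - Bfun f g V [] (W ++ [x4, x5, x2, x6]) x1 x3 :=
    h.B23 V (W ++ [x4, x5, x2, x6]) [] x1 x3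
  have s67 : Bfun f g V [] (W ++ [x4, x5, x2, x6]) x1 x3 = - Bfun f g [] V (W ++ [x4, x5, x2, x6]) x1 x3 :=
    h.B12 V [] (W ++ [x4, x5, x2, x6]) x1 x3
  have s68 : Bfun f g [] V (W ++ [x4, x5, x2, x6]) x1 x3 = - Bfun f g [] V (W ++ [x4, x5, x2, x1]) x6 x3 :=
    h.Bl3 W [x4, x5, x2] [] V x6 x1 x3 (Or.inr (List.cons_ne_nil _ _))
  have s69 : Bfun f g [] V (W ++ [x4, x5, x2, x1]) x6 x3 = - Bfun f g [] V (W ++ [x4, x5, x1, x2]) x6 x3 :=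
    h.Bi3 W [x4, x5] [] [] V x2 x1 x6 x3 (Or.inr (List.cons_ne_nil _ _))
  have s70 : Bfun f g [] V (W ++ [x4, x5, x1, x2]) x6 x3 = - Bfun f g [] V (W ++ [x4, x1, x5, x2]) x6 x3 :=
    h.Bi3 W [x4] [x2] [] V x5 x1 x6 x3 (Or.inr (List.cons_ne_nil _ _))
  have s71 : Bfun f g [] V (W ++ [x4, x1, x5, x2]) x6 x3 = - Bfun f g [] V (W ++ [x1, x4, x5, x2]) x6 x3 :=
    h.Bi3 W [] [x5, x2] [] V x4 x1 x6 x3 (Or.inl hW)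
  have s72 : Bfun f g [] V (W ++ [x1, x4, x5, x2]) x6 x3 = - Bfun f g [] V (W ++ [x1, x4, x2, x5]) x6 x3 :=
    h.Bi3 W [x1, x4] [] [] V x5 x2 x6 x3 (Or.inr (List.cons_ne_nil _ _))
  have s73 : Bfun f g [] V (W ++ [x1, x4, x2, x5]) x6 x3 = - Bfun f g [] V (W ++ [x1, x2, x4, x5]) x6 x3 :=
    h.Bi3 W [x1] [x5] [] V x4 x2 x6 x3 (Or.inr (List.cons_ne_nil _ _))
  have s74 : Bfun f g [] V (W ++ [x1, x2, x4, x5]) x6 x3 = - Bfun f g [] V (W ++ [x1, x2, x4, x5]) x3 x6 :=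
    h.Bzz [] V (W ++ [x1, x2, x4, x5]) x6 x3
  have s75 : Bfun f g [] V (W ++ [x1, x2, x4, x5]) x3 x6 = - Bfun f g [] V (W ++ [x1, x2, x4, x3]) x5 x6 :=
    h.Bl3 W [x1, x2, x4] [] V x5 x3 x6 (Or.inr (List.cons_ne_nil _ _))
  have s76 : Bfun f g [] V (W ++ [x1, x2, x4, x3]) x5 x6 = - Bfun f g [] V (W ++ [x1, x2, x3, x4]) x5 x6 :=
    h.Bi3 W [x1, x2] [] [] V x4 x3 x5 x6 (Or.inr (List.cons_ne_nil _ _))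
  have s77 : Bfun f g W (V ++ [x1, x2, x5, x3]) [] x4 x6 = - Bfun f g (V ++ [x1, x2, x5, x3]) W [] x4 x6 :=
    h.B12 W (V ++ [x1, x2, x5, x3]) [] x4 x6
  have s78 : Bfun f g (V ++ [x1, x2, x5, x3]) W [] x4 x6 = - Bfun f g (V ++ [x1, x2, x5, x3]) [] W x4 x6 :=
    h.B23 (V ++ [x1, x2, x5, x3]) W [] x4 x6
  have s79 : Bfun f g (V ++ [x1, x2, x5, x3]) [] W x4 x6 = - Bfun f g [] (V ++ [x1, x2, x5, x3]) W x4 x6 :=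
    h.B12 (V ++ [x1, x2, x5, x3]) [] W x4 x6
  have s80 : Bfun f g [] (V ++ [x1, x2, x5, x3]) W x4 x6 = - Bfun f g [] (V ++ [x1, x2, x3, x5]) W x4 x6 :=
    h.Bi2 V [x1, x2] [] [] W x5 x3 x4 x6 (Or.inr (List.cons_ne_nil _ _))
  have s81 : Bfun f g [] (V ++ [x1, x2, x3, x5]) W x4 x6 = - Bfun f g [] (V ++ [x1, x2, x3, x4]) W x5 x6 :=
    h.Bl2 V [x1, x2, x3] [] W x5 x4 x6 (Or.inr (List.cons_ne_nil _ _))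
  have s82 : Bfun f g V (W ++ [x4, x5]) [x6, x3] x1 x2 = - Bfun f g V [x6, x3] (W ++ [x4, x5]) x1 x2 :=
    h.B23 V (W ++ [x4, x5]) [x6, x3] x1 x2
  have s83 : Bfun f g V [x6, x3] (W ++ [x4, x5]) x1 x2 = - Bfun f g [x6, x3] V (W ++ [x4, x5]) x1 x2 :=
    h.B12 V [x6, x3] (W ++ [x4, x5]) x1 x2
  have s84 : Bfun f g [x6, x3] V (W ++ [x4, x5]) x1 x2 = - Bfun f g [x6, x1] V (W ++ [x4, x5]) x3 x2 :=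
    h.Bl1 [] [x6] V (W ++ [x4, x5]) x3 x1 x2 (Or.inr (List.cons_ne_nil _ _))
  have s85 : Bfun f g [x6, x1] V (W ++ [x4, x5]) x3 x2 = - Bfun f g [x6, x1] V (W ++ [x4, x5]) x2 x3 :=
    h.Bzz [x6, x1] V (W ++ [x4, x5]) x3 x2
  have s86 : Bfun f g [x6, x1] V (W ++ [x4, x5]) x2 x3 = - Bfun f g [x6, x1] V (W ++ [x4, x2]) x5 x3 :=
    h.Bl3 W [x4] [x6, x1] V x5 x2 x3 (Or.inr (List.cons_ne_nil _ _))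
  have s87 : Bfun f g [x6, x1] V (W ++ [x4, x2]) x5 x3 = - Bfun f g [x6, x1] V (W ++ [x2, x4]) x5 x3 :=
    h.Bi3 W [] [] [x6, x1] V x4 x2 x5 x3 (Or.inl hW)
  have s88 : Bfun f g [x6, x1] V (W ++ [x2, x4]) x5 x3 = - Bfun f g [x6, x1] V (W ++ [x2, x4]) x3 x5 :=
    h.Bzz [x6, x1] V (W ++ [x2, x4]) x5 x3
  have s89 : Bfun f g [x6, x1] V (W ++ [x2, x4]) x3 x5 = - Bfun f g [x6, x1] V (W ++ [x2, x3]) x4 x5 :=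
    h.Bl3 W [x2] [x6, x1] V x4 x3 x5 (Or.inr (List.cons_ne_nil _ _))
  have s90 : Bfun f g W (V ++ [x1, x2]) [x3, x6] x4 x5 = - Bfun f g (V ++ [x1, x2]) W [x3, x6] x4 x5 :=
    h.B12 W (V ++ [x1, x2]) [x3, x6] x4 x5
  have s91 : Bfun f g (V ++ [x1, x2]) W [x3, x6] x4 x5 = - Bfun f g (V ++ [x1, x2]) [x3, x6] W x4 x5 :=
    h.B23 (V ++ [x1, x2]) W [x3, x6] x4 x5
  have s92 : Bfun f g (V ++ [x1, x2]) [x3, x6] W x4 x5 = - Bfun f g [x3, x6] (V ++ [x1, x2]) W x4 x5 :=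
    h.B12 (V ++ [x1, x2]) [x3, x6] W x4 x5
  have s93 : Bfun f g [x3, x6] (V ++ [x1, x2]) W x4 x5 = - Bfun f g [x3, x6] (V ++ [x2, x1]) W x4 x5 :=
    h.Bi2 V [] [] [x3, x6] W x1 x2 x4 x5 (Or.inl hV)
  have s94 : Bfun f g [x3, x6] (V ++ [x2, x1]) W x4 x5 = - Bfun f g [x3, x6] (V ++ [x2, x4]) W x1 x5 :=
    h.Bl2 V [x2] [x3, x6] W x1 x4 x5 (Or.inr (List.cons_ne_nil _ _))
  have s95 : Bfun f g [x3, x6] (V ++ [x2, x4]) W x1 x5 = - Bfun f g [x3, x1] (V ++ [x2, x4]) W x6 x5 :=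
    h.Bl1 [] [x3] (V ++ [x2, x4]) W x6 x1 x5 (Or.inr (List.cons_ne_nil _ _))
  have s96 : Bfun f g [x3, x1] (V ++ [x2, x4]) W x6 x5 = - Bfun f g [x3, x1] (V ++ [x2, x4]) W x5 x6 :=
    h.Bzz [x3, x1] (V ++ [x2, x4]) W x6 x5
  have s97 : Bfun f g (W ++ [x4, x5]) (V ++ [x2, x1]) [] x3 x6 = - Bfun f g (V ++ [x2, x1]) (W ++ [x4, x5]) [] x3 x6 :=
    h.B12 (W ++ [x4, x5]) (V ++ [x2, x1]) [] x3 x6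
  have s98 : Bfun f g (V ++ [x2, x1]) (W ++ [x4, x5]) [] x3 x6 = - Bfun f g (V ++ [x2, x1]) [] (W ++ [x4, x5]) x3 x6 :=
    h.B23 (V ++ [x2, x1]) (W ++ [x4, x5]) [] x3 x6
  have s99 : Bfun f g (V ++ [x2, x1]) [] (W ++ [x4, x5]) x3 x6 = - Bfun f g [] (V ++ [x2, x1]) (W ++ [x4, x5]) x3 x6 :=
    h.B12 (V ++ [x2, x1]) [] (W ++ [x4, x5]) x3 x6
  have s100 : Bfun f g [] (V ++ [x2, x1]) (W ++ [x4, x5]) x3 x6 = - Bfun f g [] (V ++ [x1, x2]) (W ++ [x4, x5]) x3 x6 :=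
    h.Bi2 V [] [] [] (W ++ [x4, x5]) x2 x1 x3 x6 (Or.inl hV)
  have s101 : Bfun f g (V ++ [x2, x3]) (W ++ [x4, x6]) [] x5 x1 = - Bfun f g (V ++ [x2, x3]) [] (W ++ [x4, x6]) x5 x1 :=
    h.B23 (V ++ [x2, x3]) (W ++ [x4, x6]) [] x5 x1
  have s102 : Bfun f g (V ++ [x2, x3]) [] (W ++ [x4, x6]) x5 x1 = - Bfun f g [] (V ++ [x2, x3]) (W ++ [x4, x6]) x5 x1 :=
    h.B12 (V ++ [x2, x3]) [] (W ++ [x4, x6]) x5 x1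
  have s103 : Bfun f g [] (V ++ [x2, x3]) (W ++ [x4, x6]) x5 x1 = - Bfun f g [] (V ++ [x2, x3]) (W ++ [x4, x6]) x1 x5 :=
    h.Bzz [] (V ++ [x2, x3]) (W ++ [x4, x6]) x5 x1
  have s104 : Bfun f g [] (V ++ [x2, x3]) (W ++ [x4, x6]) x1 x5 = - Bfun f g [] (V ++ [x2, x1]) (W ++ [x4, x6]) x3 x5 :=
    h.Bl2 V [x2] [] (W ++ [x4, x6]) x3 x1 x5 (Or.inr (List.cons_ne_nil _ _))
  have s105 : Bfun f g [] (V ++ [x2, x1]) (W ++ [x4, x6]) x3 x5 = - Bfun f g [] (V ++ [x1, x2]) (W ++ [x4, x6]) x3 x5 :=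
    h.Bi2 V [] [] [] (W ++ [x4, x6]) x2 x1 x3 x5 (Or.inl hV)
  have s106 : Bfun f g V (W ++ [x4, x5, x3, x6]) [] x2 x1 = - Bfun f g V [] (W ++ [x4, x5, x3, x6]) x2 x1 :=
    h.B23 V (W ++ [x4, x5, x3, x6]) [] x2 x1
  have s107 : Bfun f g V [] (W ++ [x4, x5, x3, x6]) x2 x1 = - Bfun f g [] V (W ++ [x4, x5, x3, x6]) x2 x1 :=
    h.B12 V [] (W ++ [x4, x5, x3, x6]) x2 x1
  have s108 : Bfun f g [] V (W ++ [x4, x5, x3, x6]) x2 x1 = - Bfun f g [] V (W ++ [x4, x5, x3, x6]) x1 x2 :=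
    h.Bzz [] V (W ++ [x4, x5, x3, x6]) x2 x1
  have s109 : Bfun f g [] V (W ++ [x4, x5, x3, x6]) x1 x2 = - Bfun f g [] V (W ++ [x4, x5, x3, x1]) x6 x2 :=
    h.Bl3 W [x4, x5, x3] [] V x6 x1 x2 (Or.inr (List.cons_ne_nil _ _))
  have s110 : Bfun f g [] V (W ++ [x4, x5, x3, x1]) x6 x2 = - Bfun f g [] V (W ++ [x4, x5, x1, x3]) x6 x2 :=
    h.Bi3 W [x4, x5] [] [] V x3 x1 x6 x2 (Or.inr (List.cons_ne_nil _ _))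
  have s111 : Bfun f g [] V (W ++ [x4, x5, x1, x3]) x6 x2 = - Bfun f g [] V (W ++ [x4, x1, x5, x3]) x6 x2 :=
    h.Bi3 W [x4] [x3] [] V x5 x1 x6 x2 (Or.inr (List.cons_ne_nil _ _))
  have s112 : Bfun f g [] V (W ++ [x4, x1, x5, x3]) x6 x2 = - Bfun f g [] V (W ++ [x1, x4, x5, x3]) x6 x2 :=
    h.Bi3 W [] [x5, x3] [] V x4 x1 x6 x2 (Or.inl hW)
  have s113 : Bfun f g [] V (W ++ [x1, x4, x5, x3]) x6 x2 = - Bfun f g [] V (W ++ [x1, x4, x5, x3]) x2 x6 :=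
    h.Bzz [] V (W ++ [x1, x4, x5, x3]) x6 x2
  have s114 : Bfun f g [] V (W ++ [x1, x4, x5, x3]) x2 x6 = - Bfun f g [] V (W ++ [x1, x4, x5, x2]) x3 x6 :=
    h.Bl3 W [x1, x4, x5] [] V x3 x2 x6 (Or.inr (List.cons_ne_nil _ _))
  have s115 : Bfun f g [] V (W ++ [x1, x4, x5, x2]) x3 x6 = - Bfun f g [] V (W ++ [x1, x4, x2, x5]) x3 x6 :=
    h.Bi3 W [x1, x4] [] [] V x5 x2 x3 x6 (Or.inr (List.cons_ne_nil _ _))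
  have s116 : Bfun f g [] V (W ++ [x1, x4, x2, x5]) x3 x6 = - Bfun f g [] V (W ++ [x1, x2, x4, x5]) x3 x6 :=
    h.Bi3 W [x1] [x5] [] V x4 x2 x3 x6 (Or.inr (List.cons_ne_nil _ _))
  have s117 : Bfun f g W (V ++ [x2, x3, x5, x1]) [] x4 x6 = - Bfun f g (V ++ [x2, x3, x5, x1]) W [] x4 x6 :=
    h.B12 W (V ++ [x2, x3, x5, x1]) [] x4 x6
  have s118 : Bfun f g (V ++ [x2, x3, x5, x1]) W [] x4 x6 = - Bfun f g (V ++ [x2, x3, x5, x1]) [] W x4 x6 :=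
    h.B23 (V ++ [x2, x3, x5, x1]) W [] x4 x6
  have s119 : Bfun f g (V ++ [x2, x3, x5, x1]) [] W x4 x6 = - Bfun f g [] (V ++ [x2, x3, x5, x1]) W x4 x6 :=
    h.B12 (V ++ [x2, x3, x5, x1]) [] W x4 x6
  have s120 : Bfun f g [] (V ++ [x2, x3, x5, x1]) W x4 x6 = - Bfun f g [] (V ++ [x2, x3, x1, x5]) W x4 x6 :=
    h.Bi2 V [x2, x3] [] [] W x5 x1 x4 x6 (Or.inr (List.cons_ne_nil _ _))
  have s121 : Bfun f g [] (V ++ [x2, x3, x1, x5]) W x4 x6 = - Bfun f g [] (V ++ [x2, x1, x3, x5]) W x4 x6 :=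
    h.Bi2 V [x2] [x5] [] W x3 x1 x4 x6 (Or.inr (List.cons_ne_nil _ _))
  have s122 : Bfun f g [] (V ++ [x2, x1, x3, x5]) W x4 x6 = - Bfun f g [] (V ++ [x1, x2, x3, x5]) W x4 x6 :=
    h.Bi2 V [] [x3, x5] [] W x2 x1 x4 x6 (Or.inl hV)
  have s123 : Bfun f g V (W ++ [x4, x5]) [x6, x1] x2 x3 = - Bfun f g V [x6, x1] (W ++ [x4, x5]) x2 x3 :=
    h.B23 V (W ++ [x4, x5]) [x6, x1] x2 x3
  have s124 : Bfun f g V [x6, x1] (W ++ [x4, x5]) x2 x3 = - Bfun f g [x6, x1] V (W ++ [x4, x5]) x2 x3 :=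
    h.B12 V [x6, x1] (W ++ [x4, x5]) x2 x3
  have s125 : Bfun f g W (V ++ [x2, x3]) [x1, x6] x4 x5 = - Bfun f g (V ++ [x2, x3]) W [x1, x6] x4 x5 :=
    h.B12 W (V ++ [x2, x3]) [x1, x6] x4 x5
  have s126 : Bfun f g (V ++ [x2, x3]) W [x1, x6] x4 x5 = - Bfun f g (V ++ [x2, x3]) [x1, x6] W x4 x5 :=
    h.B23 (V ++ [x2, x3]) W [x1, x6] x4 x5
  have s127 : Bfun f g (V ++ [x2, x3]) [x1, x6] W x4 x5 = - Bfun f g [x1, x6] (V ++ [x2, x3]) W x4 x5 :=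
    h.B12 (V ++ [x2, x3]) [x1, x6] W x4 x5
  have s128 : Bfun f g [x1, x6] (V ++ [x2, x3]) W x4 x5 = - Bfun f g [x1, x6] (V ++ [x3, x2]) W x4 x5 :=
    h.Bi2 V [] [] [x1, x6] W x2 x3 x4 x5 (Or.inl hV)
  have s129 : Bfun f g [x1, x6] (V ++ [x3, x2]) W x4 x5 = - Bfun f g [x1, x6] (V ++ [x3, x4]) W x2 x5 :=
    h.Bl2 V [x3] [x1, x6] W x2 x4 x5 (Or.inr (List.cons_ne_nil _ _))
  have s130 : Bfun f g [x1, x6] (V ++ [x3, x4]) W x2 x5 = - Bfun f g [x1, x2] (V ++ [x3, x4]) W x6 x5 :=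
    h.Bl1 [] [x1] (V ++ [x3, x4]) W x6 x2 x5 (Or.inr (List.cons_ne_nil _ _))
  have s131 : Bfun f g (W ++ [x5, x6]) (V ++ [x2, x3]) [] x4 x1 = - Bfun f g (V ++ [x2, x3]) (W ++ [x5, x6]) [] x4 x1 :=
    h.B12 (W ++ [x5, x6]) (V ++ [x2, x3]) [] x4 x1
  have s132 : Bfun f g (V ++ [x2, x3]) (W ++ [x5, x6]) [] x4 x1 = - Bfun f g (V ++ [x2, x3]) [] (W ++ [x5, x6]) x4 x1 :=
    h.B23 (V ++ [x2, x3]) (W ++ [x5, x6]) [] x4 x1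
  have s133 : Bfun f g (V ++ [x2, x3]) [] (W ++ [x5, x6]) x4 x1 = - Bfun f g [] (V ++ [x2, x3]) (W ++ [x5, x6]) x4 x1 :=
    h.B12 (V ++ [x2, x3]) [] (W ++ [x5, x6]) x4 x1
  have s134 : Bfun f g [] (V ++ [x2, x3]) (W ++ [x5, x6]) x4 x1 = - Bfun f g [] (V ++ [x2, x3]) (W ++ [x5, x6]) x1 x4 :=
    h.Bzz [] (V ++ [x2, x3]) (W ++ [x5, x6]) x4 x1
  have s135 : Bfun f g [] (V ++ [x2, x3]) (W ++ [x5, x6]) x1 x4 = - Bfun f g [] (V ++ [x2, x1]) (W ++ [x5, x6]) x3 x4 :=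
    h.Bl2 V [x2] [] (W ++ [x5, x6]) x3 x1 x4 (Or.inr (List.cons_ne_nil _ _))
  have s136 : Bfun f g [] (V ++ [x2, x1]) (W ++ [x5, x6]) x3 x4 = - Bfun f g [] (V ++ [x1, x2]) (W ++ [x5, x6]) x3 x4 :=
    h.Bi2 V [] [] [] (W ++ [x5, x6]) x2 x1 x3 x4 (Or.inl hV)
  have s137 : Bfun f g [] (V ++ [x1, x2]) (W ++ [x5, x6]) x3 x4 = - Bfun f g [] (V ++ [x1, x2]) (W ++ [x5, x3]) x6 x4 :=
    h.Bl3 W [x5] [] (V ++ [x1, x2]) x6 x3 x4 (Or.inr (List.cons_ne_nil _ _))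
  have s138 : Bfun f g [] (V ++ [x1, x2]) (W ++ [x5, x3]) x6 x4 = - Bfun f g [] (V ++ [x1, x2]) (W ++ [x3, x5]) x6 x4 :=
    h.Bi3 W [] [] [] (V ++ [x1, x2]) x5 x3 x6 x4 (Or.inl hW)
  have s139 : Bfun f g [] (V ++ [x1, x2]) (W ++ [x3, x5]) x6 x4 = - Bfun f g [] (V ++ [x1, x2]) (W ++ [x3, x5]) x4 x6 :=
    h.Bzz [] (V ++ [x1, x2]) (W ++ [x3, x5]) x6 x4
  have s140 : Bfun f g [] (V ++ [x1, x2]) (W ++ [x3, x5]) x4 x6 = - Bfun f g [] (V ++ [x1, x2]) (W ++ [x3, x4]) x5 x6 :=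
    h.Bl3 W [x3] [] (V ++ [x1, x2]) x5 x4 x6 (Or.inr (List.cons_ne_nil _ _))
  have s141 : Bfun f g (V ++ [x2, x4]) (W ++ [x5, x1]) [] x6 x3 = - Bfun f g (V ++ [x2, x4]) [] (W ++ [x5, x1]) x6 x3 :=
    h.B23 (V ++ [x2, x4]) (W ++ [x5, x1]) [] x6 x3
  have s142 : Bfun f g (V ++ [x2, x4]) [] (W ++ [x5, x1]) x6 x3 = - Bfun f g [] (V ++ [x2, x4]) (W ++ [x5, x1]) x6 x3 :=
    h.B12 (V ++ [x2, x4]) [] (W ++ [x5, x1]) x6 x3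
  have s143 : Bfun f g [] (V ++ [x2, x4]) (W ++ [x5, x1]) x6 x3 = - Bfun f g [] (V ++ [x2, x4]) (W ++ [x5, x6]) x1 x3 :=
    h.Bl3 W [x5] [] (V ++ [x2, x4]) x1 x6 x3 (Or.inr (List.cons_ne_nil _ _))
  have s144 : Bfun f g [] (V ++ [x2, x4]) (W ++ [x5, x6]) x1 x3 = - Bfun f g [] (V ++ [x2, x1]) (W ++ [x5, x6]) x4 x3 :=
    h.Bl2 V [x2] [] (W ++ [x5, x6]) x4 x1 x3 (Or.inr (List.cons_ne_nil _ _))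
  have s145 : Bfun f g [] (V ++ [x2, x1]) (W ++ [x5, x6]) x4 x3 = - Bfun f g [] (V ++ [x1, x2]) (W ++ [x5, x6]) x4 x3 :=
    h.Bi2 V [] [] [] (W ++ [x5, x6]) x2 x1 x4 x3 (Or.inl hV)
  have s146 : Bfun f g [] (V ++ [x1, x2]) (W ++ [x5, x6]) x4 x3 = - Bfun f g [] (V ++ [x1, x2]) (W ++ [x5, x6]) x3 x4 :=
    h.Bzz [] (V ++ [x1, x2]) (W ++ [x5, x6]) x4 x3
  have s147 : Bfun f g V (W ++ [x5, x6, x4, x1]) [] x2 x3 = - Bfun f g V [] (W ++ [x5, x6, x4, x1]) x2 x3 :=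
    h.B23 V (W ++ [x5, x6, x4, x1]) [] x2 x3
  have s148 : Bfun f g V [] (W ++ [x5, x6, x4, x1]) x2 x3 = - Bfun f g [] V (W ++ [x5, x6, x4, x1]) x2 x3 :=
    h.B12 V [] (W ++ [x5, x6, x4, x1]) x2 x3
  have s149 : Bfun f g [] V (W ++ [x5, x6, x4, x1]) x2 x3 = - Bfun f g [] V (W ++ [x5, x6, x1, x4]) x2 x3 :=
    h.Bi3 W [x5, x6] [] [] V x4 x1 x2 x3 (Or.inr (List.cons_ne_nil _ _))
  have s150 : Bfun f g [] V (W ++ [x5, x6, x1, x4]) x2 x3 = - Bfun f g [] V (W ++ [x5, x1, x6, x4]) x2 x3 :=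
    h.Bi3 W [x5] [x4] [] V x6 x1 x2 x3 (Or.inr (List.cons_ne_nil _ _))
  have s151 : Bfun f g [] V (W ++ [x5, x1, x6, x4]) x2 x3 = - Bfun f g [] V (W ++ [x1, x5, x6, x4]) x2 x3 :=
    h.Bi3 W [] [x6, x4] [] V x5 x1 x2 x3 (Or.inl hW)
  have s152 : Bfun f g [] V (W ++ [x1, x5, x6, x4]) x2 x3 = - Bfun f g [] V (W ++ [x1, x5, x6, x2]) x4 x3 :=
    h.Bl3 W [x1, x5, x6] [] V x4 x2 x3 (Or.inr (List.cons_ne_nil _ _))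
  have s153 : Bfun f g [] V (W ++ [x1, x5, x6, x2]) x4 x3 = - Bfun f g [] V (W ++ [x1, x5, x2, x6]) x4 x3 :=
    h.Bi3 W [x1, x5] [] [] V x6 x2 x4 x3 (Or.inr (List.cons_ne_nil _ _))
  have s154 : Bfun f g [] V (W ++ [x1, x5, x2, x6]) x4 x3 = - Bfun f g [] V (W ++ [x1, x2, x5, x6]) x4 x3 :=
    h.Bi3 W [x1] [x6] [] V x5 x2 x4 x3 (Or.inr (List.cons_ne_nil _ _))
  have s155 : Bfun f g [] V (W ++ [x1, x2, x5, x6]) x4 x3 = - Bfun f g [] V (W ++ [x1, x2, x5, x6]) x3 x4 :=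
    h.Bzz [] V (W ++ [x1, x2, x5, x6]) x4 x3
  have s156 : Bfun f g [] V (W ++ [x1, x2, x5, x6]) x3 x4 = - Bfun f g [] V (W ++ [x1, x2, x5, x3]) x6 x4 :=
    h.Bl3 W [x1, x2, x5] [] V x6 x3 x4 (Or.inr (List.cons_ne_nil _ _))
  have s157 : Bfun f g [] V (W ++ [x1, x2, x5, x3]) x6 x4 = - Bfun f g [] V (W ++ [x1, x2, x3, x5]) x6 x4 :=
    h.Bi3 W [x1, x2] [] [] V x5 x3 x6 x4 (Or.inr (List.cons_ne_nil _ _))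
  have s158 : Bfun f g [] V (W ++ [x1, x2, x3, x5]) x6 x4 = - Bfun f g [] V (W ++ [x1, x2, x3, x5]) x4 x6 :=
    h.Bzz [] V (W ++ [x1, x2, x3, x5]) x6 x4
  have s159 : Bfun f g [] V (W ++ [x1, x2, x3, x5]) x4 x6 = - Bfun f g [] V (W ++ [x1, x2, x3, x4]) x5 x6 :=
    h.Bl3 W [x1, x2, x3] [] V x5 x4 x6 (Or.inr (List.cons_ne_nil _ _))
  have s160 : Bfun f g W (V ++ [x2, x4, x6, x3]) [] x5 x1 = - Bfun f g (V ++ [x2, x4, x6, x3]) W [] x5 x1 :=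
    h.B12 W (V ++ [x2, x4, x6, x3]) [] x5 x1
  have s161 : Bfun f g (V ++ [x2, x4, x6, x3]) W [] x5 x1 = - Bfun f g (V ++ [x2, x4, x6, x3]) [] W x5 x1 :=
    h.B23 (V ++ [x2, x4, x6, x3]) W [] x5 x1
  have s162 : Bfun f g (V ++ [x2, x4, x6, x3]) [] W x5 x1 = - Bfun f g [] (V ++ [x2, x4, x6, x3]) W x5 x1 :=
    h.B12 (V ++ [x2, x4, x6, x3]) [] W x5 x1
  have s163 : Bfun f g [] (V ++ [x2, x4, x6, x3]) W x5 x1 = - Bfun f g [] (V ++ [x2, x4, x6, x3]) W x1 x5 :=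
    h.Bzz [] (V ++ [x2, x4, x6, x3]) W x5 x1
  have s164 : Bfun f g [] (V ++ [x2, x4, x6, x3]) W x1 x5 = - Bfun f g [] (V ++ [x2, x4, x6, x1]) W x3 x5 :=
    h.Bl2 V [x2, x4, x6] [] W x3 x1 x5 (Or.inr (List.cons_ne_nil _ _))
  have s165 : Bfun f g [] (V ++ [x2, x4, x6, x1]) W x3 x5 = - Bfun f g [] (V ++ [x2, x4, x1, x6]) W x3 x5 :=
    h.Bi2 V [x2, x4] [] [] W x6 x1 x3 x5 (Or.inr (List.cons_ne_nil _ _))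
  have s166 : Bfun f g [] (V ++ [x2, x4, x1, x6]) W x3 x5 = - Bfun f g [] (V ++ [x2, x1, x4, x6]) W x3 x5 :=
    h.Bi2 V [x2] [x6] [] W x4 x1 x3 x5 (Or.inr (List.cons_ne_nil _ _))
  have s167 : Bfun f g [] (V ++ [x2, x1, x4, x6]) W x3 x5 = - Bfun f g [] (V ++ [x1, x2, x4, x6]) W x3 x5 :=
    h.Bi2 V [] [x4, x6] [] W x2 x1 x3 x5 (Or.inl hV)
  have s168 : Bfun f g [] (V ++ [x1, x2, x4, x6]) W x3 x5 = - Bfun f g [] (V ++ [x1, x2, x4, x3]) W x6 x5 :=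
    h.Bl2 V [x1, x2, x4] [] W x6 x3 x5 (Or.inr (List.cons_ne_nil _ _))
  have s169 : Bfun f g [] (V ++ [x1, x2, x4, x3]) W x6 x5 = - Bfun f g [] (V ++ [x1, x2, x3, x4]) W x6 x5 :=
    h.Bi2 V [x1, x2] [] [] W x4 x3 x6 x5 (Or.inr (List.cons_ne_nil _ _))
  have s170 : Bfun f g V (W ++ [x5, x6]) [x1, x3] x2 x4 = - Bfun f g V [x1, x3] (W ++ [x5, x6]) x2 x4 :=
    h.B23 V (W ++ [x5, x6]) [x1, x3] x2 x4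
  have s171 : Bfun f g V [x1, x3] (W ++ [x5, x6]) x2 x4 = - Bfun f g [x1, x3] V (W ++ [x5, x6]) x2 x4 :=
    h.B12 V [x1, x3] (W ++ [x5, x6]) x2 x4
  have s172 : Bfun f g [x1, x3] V (W ++ [x5, x6]) x2 x4 = - Bfun f g [x1, x2] V (W ++ [x5, x6]) x3 x4 :=
    h.Bl1 [] [x1] V (W ++ [x5, x6]) x3 x2 x4 (Or.inr (List.cons_ne_nil _ _))
  have s173 : Bfun f g W (V ++ [x2, x4]) [x3, x1] x5 x6 = - Bfun f g (V ++ [x2, x4]) W [x3, x1] x5 x6 :=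
    h.B12 W (V ++ [x2, x4]) [x3, x1] x5 x6
  have s174 : Bfun f g (V ++ [x2, x4]) W [x3, x1] x5 x6 = - Bfun f g (V ++ [x2, x4]) [x3, x1] W x5 x6 :=
    h.B23 (V ++ [x2, x4]) W [x3, x1] x5 x6
  have s175 : Bfun f g (V ++ [x2, x4]) [x3, x1] W x5 x6 = - Bfun f g [x3, x1] (V ++ [x2, x4]) W x5 x6 :=
    h.B12 (V ++ [x2, x4]) [x3, x1] W x5 x6
  apply tf.n2
  linear_combination (norm := module) (-1 : ℤ) • r0 + (1 : ℤ) • r1 + (-1 : ℤ) • r2 + (1 : ℤ) • r3 + (1 : ℤ) • r4 + (1 : ℤ) • s0 + (-1 : ℤ) • s1 + (1 : ℤ) • s2 + (1 : ℤ) • s4 + (-1 : ℤ) • s5 + (1 : ℤ) • s6 + (-1 : ℤ) • s7 + (1 : ℤ) • s8 + (-1 : ℤ) • s9 + (1 : ℤ) • s11 + (-2 : ℤ) • s12 + (2 : ℤ) • s13 + (-1 : ℤ) • s14 + (1 : ℤ) • s15 + (-1 : ℤ) • s16 + (1 : ℤ) • s17 + (-1 : ℤ) • s18 + (1 : ℤ) • s19 + (-1 : ℤ) • s20 + (1 : ℤ) • s21 + (-2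 : ℤ) • s22 + (-1 : ℤ) • s23 + (-1 : ℤ) • s28 + (1 : ℤ) • s29 + (-1 : ℤ) • s30 + (-1 : ℤ) • s31 + (1 : ℤ) • s32 + (-1 : ℤ) • s33 + (-1 : ℤ) • s34 + (1 : ℤ) • s35 + (-1 : ℤ) • s36 + (1 : ℤ) • s37 + (-1 : ℤ) • s38 + (1 : ℤ) • s39 + (-1 : ℤ) • s40 + (1 : ℤ) • s41 + (-1 : ℤ) • s42 + (1 : ℤ) • s43 + (1 : ℤ) • s44 + (-1 : ℤ) • s45 + (1 : ℤ) • s46 + (-1 : ℤ) • s47 + (1 : ℤ) • s48 + (1 : ℤ) • s49 + (-1 : ℤ) • s50 + (1 : ℤ) • s51 + (-1 : ℤ) • s52 + (1 : ℤ) • s53 + (-1 : ℤ) • s54 + (1 : ℤ) • s55 + (-1 : ℤ) • s56 + (1 : ℤ) • s57 + (-1 : ℤ) • s58 + (1 : ℤ) • s61 + (-1 : ℤ) • s62 + (1 : ℤ) • s63 + (1 : ℤ) • s66 + (-1 : ℤ) • s67 + (1 : ℤ) • s68 + (-1 : ℤ) • s69 + (1 : ℤ) • s70 + (-1 : ℤ) • s71 + (1 : ℤ) • s72 + (-1 : ℤ) • s73 + (1 : ℤ) • s74 + (1 : ℤ) • s77 + (-1 : ℤ) • s78 + (1 : ℤ) • s79 + (-1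 : ℤ) • s80 + (-1 : ℤ) • s82 + (1 : ℤ) • s83 + (-1 : ℤ) • s84 + (1 : ℤ) • s85 + (-1 : ℤ) • s90 + (1 : ℤ) • s91 + (-1 : ℤ) • s92 + (1 : ℤ) • s93 + (-1 : ℤ) • s94 + (1 : ℤ) • s95 + (-1 : ℤ) • s96 + (-1 : ℤ) • s97 + (1 : ℤ) • s98 + (-1 : ℤ) • s99 + (1 : ℤ) • s100 + (-1 : ℤ) • s101 + (1 : ℤ) • s102 + (-1 : ℤ) • s103 + (1 : ℤ) • s104 + (-1 : ℤ) • s105 + (-1 : ℤ) • s106 + (1 : ℤ) • s107 + (-1 : ℤ) • s108 + (1 : ℤ) • s109 + (-1 : ℤ) • s110 + (1 : ℤ) • s111 + (-1 : ℤ) • s112 + (1 : ℤ) • s113 + (-1 : ℤ) • s114 + (1 : ℤ) • s115 + (-1 : ℤ) • s116 + (-1 : ℤ) • s117 + (1 : ℤ) • s118 + (-1 : ℤ) • s119 + (1 : ℤ) • s120 + (-1 : ℤ) • s121 + (1 : ℤ) • s122 + (1 : ℤ) • s123 + (-1 : ℤ) • s124 + (1 : ℤ) • s125 + (-1 : ℤ) • s126 + (1 : ℤ) • s127 + (-1 : ℤ) • s128 + (1 : ℤ) • s129 + (-1 : ℤ) • s130 + (-1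 : ℤ) • s131 + (1 : ℤ) • s132 + (-1 : ℤ) • s133 + (1 : ℤ) • s134 + (-1 : ℤ) • s135 + (1 : ℤ) • s136 + (-2 : ℤ) • s137 + (2 : ℤ) • s138 + (-2 : ℤ) • s139 + (2 : ℤ) • s140 + (-1 : ℤ) • s141 + (1 : ℤ) • s142 + (-1 : ℤ) • s143 + (1 : ℤ) • s144 + (-1 : ℤ) • s145 + (1 : ℤ) • s146 + (-1 : ℤ) • s147 + (1 : ℤ) • s148 + (-1 : ℤ) • s149 + (1 : ℤ) • s150 + (-1 : ℤ) • s151 + (1 : ℤ) • s152 + (-1 : ℤ) • s153 + (1 : ℤ) • s154 + (-1 : ℤ) • s155 + (1 : ℤ) • s156 + (-1 : ℤ) • s157 + (1 : ℤ) • s158 + (-1 : ℤ) • s159 + (-1 : ℤ) • s160 + (1 : ℤ) • s161 + (-1 : ℤ) • s162 + (1 : ℤ) • s163 + (-1 : ℤ) • s164 + (1 : ℤ) • s165 + (-1 : ℤ) • s166 + (1 : ℤ) • s167 + (-1 : ℤ) • s168 + (1 : ℤ) • s169 + (1 : ℤ) • s170 + (-1 : ℤ) • s171 + (1 : ℤ) • s172 + (1 : ℤ) • s173 + (-1 : ℤ) • s174 + (1 : ℤ) • s175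

end Lvl
end Eng
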