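import Pool.Agent.H86.Eng.Comb3

/-! Generated linear algebra certificates for the thick sandwich theorem. -/

set_option linter.style.longLine false
set_option linter.unusedVariables false

namespace Eng

variable {α G : Type*} [AddCommGroup G] {f : List α → List α → List α → G}
  {g : List α → List α → List α → α → G}

namespace Lvl

theorem z011 (h : Lvl f g) (tf : TF G) (x1 x2 x3 x4 : α) :
    Bfun f g [] [x1] [x2] x3 x4 = 0 := by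
  have r0 : Afun f g [] [x3, x4] [x2] x1 + Bfun f g [] [x1] [x2] x3 x4 = 0 := by
    simpa only [List.append_assoc, List.cons_append, List.nil_append] using h.J1z x3 x4 [x2] x1
  have s0 : Afun f g [] [x3, x4] [x2] x1 = 0 :=
    h.a1'' x2 [x3, x4] x1
  linear_combination (norm := module) (1 : ℤ) • r0 + (-1 : ℤ) • s0

theorem z012 (h : Lvl f g) (tf : TF G) (x1 x2 x3 x4 x5 : α) :
    Bfun f g [] [x1] [x2, x3] x4 x5 = 0 := by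
  have r0 : Afun f g [] [x2, x4, x5, x3] [] x1 + Afun f g [] [x2, x4] [x3, x5] x1 + Bfun f g [x2, x4] [x1] [] x5 x3 - Bfun f g [x1] [x2, x3] [] x4 x5 - Bfun f g [] [x1, x4, x5] [] x2 x3 + Bfun f g [] [x1] [x5, x3] x2 x4 = 0 :=
    h.K0 [] [] x2 x4 x1 x5 x3
  have r1 : Afun f g [] [x3, x2, x4, x5] [] x1 + Afun f g [] [x3, x2] [x5, x4] x1 + Bfun f g [x3, x2] [x1] [] x4 x5 - Bfun f g [x1] [x3, x5] [] x2 x4 - Bfun f g [] [x1, x2, x4] [] x3 x5 + Bfun f g [] [x1] [x4, x5] x3 x2 = 0 :=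
    h.K0 [] [] x3 x2 x1 x4 x5
  have r2 : Afun f g [] [x3, x5, x4, x2] [] x1 + Afun f g [] [x3, x5] [x2, x4] x1 + Bfun f g [x3, x5] [x1] [] x4 x2 - Bfun f g [x1] [x3, x2] [] x5 x4 - Bfun f g [] [x1, x5, x4] [] x3 x2 + Bfun f g [] [x1] [x4, x2] x3 x5 = 0 :=
    h.K0 [] [] x3 x5 x1 x4 x2
  have r3 : Afun f g [] [x3, x2] [x5, x4] x1 + Bfun f g [] [x1] [x5, x4] x3 x2 = 0 := by
    simpa only [List.append_assoc, List.cons_append, List.nil_append] using h.J1z x3 x2 [x5, x4] x1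
  have s0 : Afun f g [] [x2, x4, x5, x3] [] x1 = 0 :=
    h.a0' [x2, x4, x5, x3] x1
  have s1 : Bfun f g [x2, x4] [x1] [] x5 x3 = - Bfun f g [x1] [x2, x4] [] x5 x3 :=
    h.B12 [x2, x4] [x1] [] x5 x3
  have s2 : Bfun f g [x1] [x2, x4] [] x5 x3 = - Bfun f g [x1] [] [x2, x4] x5 x3 :=
    h.B23 [x1] [x2, x4] [] x5 x3
  have s3 : Bfun f g [x1] [] [x2, x4] x5 x3 = - Bfun f g [] [x1] [x2, x4] x5 x3 :=
    h.B12 [x1] [] [x2, x4] x5 x3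
  have s4 : Bfun f g [] [x1] [x2, x4] x5 x3 = - Bfun f g [] [x1] [x2, x4] x3 x5 :=
    h.Bzz [] [x1] [x2, x4] x5 x3
  have s5 : Bfun f g [] [x1] [x2, x4] x3 x5 = - Bfun f g [] [x1] [x2, x3] x4 x5 :=
    h.Bl3 [] [x2] [] [x1] x4 x3 x5 (Or.inr (List.cons_ne_nil _ _))
  have s6 : Bfun f g [x1] [x2, x3] [] x4 x5 = - Bfun f g [x1] [] [x2, x3] x4 x5 :=
    h.B23 [x1] [x2, x3] [] x4 x5
  have s7 : Bfun f g [x1] [] [x2, x3] x4 x5 = - Bfun f g [] [x1] [x2, x3] x4 x5 :=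
    h.B12 [x1] [] [x2, x3] x4 x5
  have s8 : Bfun f g [] [x1, x4, x5] [] x2 x3 = 0 :=
    h.B00_13 [x1, x4, x5] x2 x3
  have s9 : Bfun f g [] [x1] [x5, x3] x2 x4 = - Bfun f g [] [x1] [x5, x2] x3 x4 :=
    h.Bl3 [] [x5] [] [x1] x3 x2 x4 (Or.inr (List.cons_ne_nil _ _))
  have s10 : Afun f g [] [x3, x2, x4, x5] [] x1 = 0 :=
    h.a0' [x3, x2, x4, x5] x1
  have s11 : Bfun f g [x3, x2] [x1] [] x4 x5 = - Bfun f g [x1] [x3, x2] [] x4 x5 :=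
    h.B12 [x3, x2] [x1] [] x4 x5
  have s12 : Bfun f g [x1] [x3, x2] [] x4 x5 = - Bfun f g [x1] [] [x3, x2] x4 x5 :=
    h.B23 [x1] [x3, x2] [] x4 x5
  have s13 : Bfun f g [x1] [] [x3, x2] x4 x5 = - Bfun f g [] [x1] [x3, x2] x4 x5 :=
    h.B12 [x1] [] [x3, x2] x4 x5
  have s14 : Bfun f g [x1] [x3, x5] [] x2 x4 = - Bfun f g [x1] [] [x3, x5] x2 x4 :=
    h.B23 [x1] [x3, x5] [] x2 x4
  have s15 : Bfun f g [x1] [] [x3, x5] x2 x4 = - Bfun f g [] [x1] [x3, x5] x2 x4 :=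
    h.B12 [x1] [] [x3, x5] x2 x4
  have s16 : Bfun f g [] [x1] [x3, x5] x2 x4 = - Bfun f g [] [x1] [x3, x2] x5 x4 :=
    h.Bl3 [] [x3] [] [x1] x5 x2 x4 (Or.inr (List.cons_ne_nil _ _))
  have s17 : Bfun f g [] [x1] [x3, x2] x5 x4 = - Bfun f g [] [x1] [x3, x2] x4 x5 :=
    h.Bzz [] [x1] [x3, x2] x5 x4
  have s18 : Bfun f g [] [x1, x2, x4] [] x3 x5 = 0 :=
    h.B00_13 [x1, x2, x4] x3 x5
  have s19 : Bfun f g [] [x1] [x4, x5] x3 x2 = - Bfun f g [] [x1] [x4, x5] x2 x3 :=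
    h.Bzz [] [x1] [x4, x5] x3 x2
  have s20 : Bfun f g [] [x1] [x4, x5] x2 x3 = - Bfun f g [] [x1] [x4, x2] x5 x3 :=
    h.Bl3 [] [x4] [] [x1] x5 x2 x3 (Or.inr (List.cons_ne_nil _ _))
  have s21 : Bfun f g [] [x1] [x4, x2] x5 x3 = - Bfun f g [] [x1] [x4, x2] x3 x5 :=
    h.Bzz [] [x1] [x4, x2] x5 x3
  have s22 : Afun f g [] [x3, x5, x4, x2] [] x1 = 0 :=
    h.a0' [x3, x5, x4, x2] x1
  have s23 : Afun f g [] [x3, x5] [x2, x4] x1 = - Afun f g [] [x2, x4] [x3, x5] x1 :=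
    h.r3 [] [x3, x5] [x2, x4] x1
  have s24 : Bfun f g [x3, x5] [x1] [] x4 x2 = - Bfun f g [x1] [x3, x5] [] x4 x2 :=
    h.B12 [x3, x5] [x1] [] x4 x2
  have s25 : Bfun f g [x1] [x3, x5] [] x4 x2 = - Bfun f g [x1] [] [x3, x5] x4 x2 :=
    h.B23 [x1] [x3, x5] [] x4 x2
  have s26 : Bfun f g [x1] [] [x3, x5] x4 x2 = - Bfun f g [] [x1] [x3, x5] x4 x2 :=
    h.B12 [x1] [] [x3, x5] x4 x2
  have s27 : Bfun f g [] [x1] [x3, x5] x4 x2 = - Bfun f g [] [x1] [x3, x5] x2 x4 :=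
    h.Bzz [] [x1] [x3, x5] x4 x2
  have s28 : Bfun f g [x1] [x3, x2] [] x5 x4 = - Bfun f g [x1] [] [x3, x2] x5 x4 :=
    h.B23 [x1] [x3, x2] [] x5 x4
  have s29 : Bfun f g [x1] [] [x3, x2] x5 x4 = - Bfun f g [] [x1] [x3, x2] x5 x4 :=
    h.B12 [x1] [] [x3, x2] x5 x4
  have s30 : Bfun f g [] [x1, x5, x4] [] x3 x2 = 0 :=
    h.B00_13 [x1, x5, x4] x3 x2
  have s31 : Bfun f g [] [x1] [x5, x4] x3 x2 = - Bfun f g [] [x1] [x5, x4] x2 x3 :=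
    h.Bzz [] [x1] [x5, x4] x3 x2
  have s32 : Bfun f g [] [x1] [x5, x4] x2 x3 = - Bfun f g [] [x1] [x5, x2] x4 x3 :=
    h.Bl3 [] [x5] [] [x1] x4 x2 x3 (Or.inr (List.cons_ne_nil _ _))
  have s33 : Bfun f g [] [x1] [x5, x2] x4 x3 = - Bfun f g [] [x1] [x5, x2] x3 x4 :=
    h.Bzz [] [x1] [x5, x2] x4 x3
  apply tf.n2
  linear_combination (norm := module) (-1 : ℤ) • r0 + (-1 : ℤ) • r1 + (-1 : ℤ) • r2 + (1 : ℤ) • r3 + (1 : ℤ) • s0 + (1 : ℤ) • s1 + (-1 : ℤ) • s2 + (1 : ℤ) • s3 + (-1 : ℤ) • s4 + (1 : ℤ) • s5 + (-1 : ℤ) • s6 + (1 : ℤ) • s7 + (-1 : ℤ) • s8 + (1 : ℤ) • s9 + (1 : ℤ) • s10 + (1 : ℤ) • s11 + (-1 : ℤ) • s12 + (1 : ℤ) • s13 + (-1 : ℤ) • s14 + (1 : ℤ) • s15 + (-1 : ℤ) • s17 + (-1 : ℤ) • s18 + (1 : ℤ) • s19 + (-1 : ℤ) • s20 + (1 : ℤ) • s21 + (1 : ℤ) • s22 + (1 : ℤ) • s23 + (1 : ℤ) • s24 + (-1 : ℤ) • s25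 + (1 : ℤ) • s26 + (-1 : ℤ) • s27 + (-1 : ℤ) • s28 + (1 : ℤ) • s29 + (-1 : ℤ) • s30 + (-1 : ℤ) • s31 + (1 : ℤ) • s32 + (-1 : ℤ) • s33

theorem z111 (h : Lvl f g) (tf : TF G) (x1 x2 x3 x4 x5 : α) :
    Bfun f g [x1] [x2] [x3] x4 x5 = 0 := by
  have r0 : Afun f g [] [x2, x4, x5] [x1] x3 + Bfun f g [] [x3, x2] [x1] x4 x5 + Bfun f g [] [x2, x3] [x1] x4 x5 + Bfun f g [x2] [x3] [x1] x4 x5 = 0 := by
    simpa only [List.append_assoc, List.cons_append, List.nil_append] using h.N3z x2 x4 x5 [x1] x3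
  have r1 : Afun f g [] [x3, x4, x5] [x1] x2 + Bfun f g [] [x2, x3] [x1] x4 x5 + Bfun f g [] [x3, x2] [x1] x4 x5 + Bfun f g [x3] [x2] [x1] x4 x5 = 0 := by
    simpa only [List.append_assoc, List.cons_append, List.nil_append] using h.N3z x3 x4 x5 [x1] x2
  have s0 : Afun f g [] [x2, x4, x5] [x1] x3 = 0 :=
    h.a1'' x1 [x2, x4, x5] x3
  have s1 : Bfun f g [x2] [x3] [x1] x4 x5 = - Bfun f g [x2] [x1] [x3] x4 x5 :=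
    h.B23 [x2] [x3] [x1] x4 x5
  have s2 : Bfun f g [x2] [x1] [x3] x4 x5 = - Bfun f g [x1] [x2] [x3] x4 x5 :=
    h.B12 [x2] [x1] [x3] x4 x5
  have s3 : Afun f g [] [x3, x4, x5] [x1] x2 = 0 :=
    h.a1'' x1 [x3, x4, x5] x2
  have s4 : Bfun f g [x3] [x2] [x1] x4 x5 = - Bfun f g [x2] [x3] [x1] x4 x5 :=
    h.B12 [x3] [x2] [x1] x4 x5
  apply tf.n2
  linear_combination (norm := module) (1 : ℤ) • r0 + (-1 : ℤ) • r1 + (-1 : ℤ) • s0 + (-2 : ℤ) • s1 + (2 : ℤ) • s2 + (1 : ℤ) • s3 + (1 : ℤ) • s4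

theorem z022 (h : Lvl f g) (tf : TF G) (x1 x2 x3 x4 x5 x6 : α) :
    Bfun f g [] [x1, x2] [x3, x4] x5 x6 = 0 := by
  have r0 : Bfun f g [x3, x4] [x1, x6] [] x2 x5 + Bfun f g [x1, x2] [x3, x5] [] x4 x6 + Bfun f g [] [x3, x4, x2, x5] [] x1 x6 + Bfun f g [] [x1, x2, x4, x6] [] x3 x5 - Bfun f g [] [x3, x4] [x5, x6] x1 x2 - Bfun f g [] [x1, x2] [x6, x5] x3 x4 = 0 :=
    h.KB [] [] [] x1 x2 x3 x4 x6 x5
  have r1 : Bfun f g [x3, x5] [x1, x6] [] x2 x4 + Bfun f g [x1, x2] [x3, x4] [] x5 x6 + Bfun f g [] [x3, x5, x2, x4] [] x1 x6 + Bfun f g [] [x1, x2, x5, x6] [] x3 x4 - Bfun f g [] [x3, x5] [x4, x6] x1 x2 - Bfun f g [] [x1, x2] [x6, x4] x3 x5 = 0 :=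
    h.KB [] [] [] x1 x2 x3 x5 x6 x4
  have r2 : Bfun f g [x3, x6] [x1, x4] [] x2 x5 + Bfun f g [x1, x2] [x3, x5] [] x6 x4 + Bfun f g [] [x3, x6, x2, x5] [] x1 x4 + Bfun f g [] [x1, x2, x6, x4] [] x3 x5 - Bfun f g [] [x3, x6] [x5, x4] x1 x2 - Bfun f g [] [x1, x2] [x4, x5] x3 x6 = 0 :=
    h.KB [] [] [] x1 x2 x3 x6 x4 x5
  have r3 : Bfun f g [x4, x5] [x1, x6] [] x2 x3 + Bfun f g [x1, x2] [x4, x3] [] x5 x6 + Bfun f g [] [x4, x5, x2, x3] [] x1 x6 + Bfun f g [] [x1, x2, x5, x6] [] x4 x3 - Bfun f g [] [x4, x5] [x3, x6] x1 x2 - Bfun f g [] [x1, x2] [x6, x3] x4 x5 = 0 :=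
    h.KB [] [] [] x1 x2 x4 x5 x6 x3
  have s0 : Bfun f g [x3, x4] [x1, x6] [] x2 x5 = - Bfun f g [x1, x6] [x3, x4] [] x2 x5 :=
    h.B12 [x3, x4] [x1, x6] [] x2 x5
  have s1 : Bfun f g [x1, x6] [x3, x4] [] x2 x5 = - Bfun f g [x1, x6] [] [x3, x4] x2 x5 :=
    h.B23 [x1, x6] [x3, x4] [] x2 x5
  have s2 : Bfun f g [x1, x6] [] [x3, x4] x2 x5 = - Bfun f g [] [x1, x6] [x3, x4] x2 x5 :=
    h.B12 [x1, x6] [] [x3, x4] x2 x5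
  have s3 : Bfun f g [] [x1, x6] [x3, x4] x2 x5 = - Bfun f g [] [x1, x2] [x3, x4] x6 x5 :=
    h.Bl2 [] [x1] [] [x3, x4] x6 x2 x5 (Or.inr (List.cons_ne_nil _ _))
  have s4 : Bfun f g [] [x1, x2] [x3, x4] x6 x5 = - Bfun f g [] [x1, x2] [x3, x4] x5 x6 :=
    h.Bzz [] [x1, x2] [x3, x4] x6 x5
  have s5 : Bfun f g [x1, x2] [x3, x5] [] x4 x6 = - Bfun f g [x1, x2] [] [x3, x5] x4 x6 :=
    h.B23 [x1, x2] [x3, x5] [] x4 x6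
  have s6 : Bfun f g [x1, x2] [] [x3, x5] x4 x6 = - Bfun f g [] [x1, x2] [x3, x5] x4 x6 :=
    h.B12 [x1, x2] [] [x3, x5] x4 x6
  have s7 : Bfun f g [] [x1, x2] [x3, x5] x4 x6 = - Bfun f g [] [x1, x2] [x3, x4] x5 x6 :=
    h.Bl3 [] [x3] [] [x1, x2] x5 x4 x6 (Or.inr (List.cons_ne_nil _ _))
  have s8 : Bfun f g [] [x3, x4, x2, x5] [] x1 x6 = 0 :=
    h.B00_13 [x3, x4, x2, x5] x1 x6
  have s9 : Bfun f g [] [x1, x2, x4, x6] [] x3 x5 = 0 :=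
    h.B00_13 [x1, x2, x4, x6] x3 x5
  have s10 : Bfun f g [] [x3, x4] [x5, x6] x1 x2 = - Bfun f g [] [x3, x1] [x5, x6] x4 x2 :=
    h.Bl2 [] [x3] [] [x5, x6] x4 x1 x2 (Or.inr (List.cons_ne_nil _ _))
  have s11 : Bfun f g [] [x3, x1] [x5, x6] x4 x2 = - Bfun f g [] [x3, x1] [x5, x6] x2 x4 :=
    h.Bzz [] [x3, x1] [x5, x6] x4 x2
  have s12 : Bfun f g [] [x3, x1] [x5, x6] x2 x4 = - Bfun f g [] [x3, x1] [x5, x2] x6 x4 :=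
    h.Bl3 [] [x5] [] [x3, x1] x6 x2 x4 (Or.inr (List.cons_ne_nil _ _))
  have s13 : Bfun f g [] [x3, x1] [x5, x2] x6 x4 = - Bfun f g [] [x3, x1] [x5, x2] x4 x6 :=
    h.Bzz [] [x3, x1] [x5, x2] x6 x4
  have s14 : Bfun f g [] [x1, x2] [x6, x5] x3 x4 = - Bfun f g [] [x1, x2] [x6, x3] x5 x4 :=
    h.Bl3 [] [x6] [] [x1, x2] x5 x3 x4 (Or.inr (List.cons_ne_nil _ _))
  have s15 : Bfun f g [] [x1, x2] [x6, x3] x5 x4 = - Bfun f g [] [x1, x2] [x6, x3] x4 x5 :=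
    h.Bzz [] [x1, x2] [x6, x3] x5 x4
  have s16 : Bfun f g [x3, x5] [x1, x6] [] x2 x4 = - Bfun f g [x1, x6] [x3, x5] [] x2 x4 :=
    h.B12 [x3, x5] [x1, x6] [] x2 x4
  have s17 : Bfun f g [x1, x6] [x3, x5] [] x2 x4 = - Bfun f g [x1, x6] [] [x3, x5] x2 x4 :=
    h.B23 [x1, x6] [x3, x5] [] x2 x4
  have s18 : Bfun f g [x1, x6] [] [x3, x5] x2 x4 = - Bfun f g [] [x1, x6] [x3, x5] x2 x4 :=
    h.B12 [x1, x6] [] [x3, x5] x2 x4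
  have s19 : Bfun f g [] [x1, x6] [x3, x5] x2 x4 = - Bfun f g [] [x1, x2] [x3, x5] x6 x4 :=
    h.Bl2 [] [x1] [] [x3, x5] x6 x2 x4 (Or.inr (List.cons_ne_nil _ _))
  have s20 : Bfun f g [] [x1, x2] [x3, x5] x6 x4 = - Bfun f g [] [x1, x2] [x3, x5] x4 x6 :=
    h.Bzz [] [x1, x2] [x3, x5] x6 x4
  have s21 : Bfun f g [x1, x2] [x3, x4] [] x5 x6 = - Bfun f g [x1, x2] [] [x3, x4] x5 x6 :=
    h.B23 [x1, x2] [x3, x4] [] x5 x6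
  have s22 : Bfun f g [x1, x2] [] [x3, x4] x5 x6 = - Bfun f g [] [x1, x2] [x3, x4] x5 x6 :=
    h.B12 [x1, x2] [] [x3, x4] x5 x6
  have s23 : Bfun f g [] [x3, x5, x2, x4] [] x1 x6 = 0 :=
    h.B00_13 [x3, x5, x2, x4] x1 x6
  have s24 : Bfun f g [] [x1, x2, x5, x6] [] x3 x4 = 0 :=
    h.B00_13 [x1, x2, x5, x6] x3 x4
  have s25 : Bfun f g [] [x3, x5] [x4, x6] x1 x2 = - Bfun f g [] [x3, x1] [x4, x6] x5 x2 :=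
    h.Bl2 [] [x3] [] [x4, x6] x5 x1 x2 (Or.inr (List.cons_ne_nil _ _))
  have s26 : Bfun f g [] [x3, x1] [x4, x6] x5 x2 = - Bfun f g [] [x3, x1] [x4, x6] x2 x5 :=
    h.Bzz [] [x3, x1] [x4, x6] x5 x2
  have s27 : Bfun f g [] [x3, x1] [x4, x6] x2 x5 = - Bfun f g [] [x3, x1] [x4, x2] x6 x5 :=
    h.Bl3 [] [x4] [] [x3, x1] x6 x2 x5 (Or.inr (List.cons_ne_nil _ _))
  have s28 : Bfun f g [] [x3, x1] [x4, x2] x6 x5 = - Bfun f g [] [x3, x1] [x4, x2] x5 x6 :=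
    h.Bzz [] [x3, x1] [x4, x2] x6 x5
  have s29 : Bfun f g [] [x1, x2] [x6, x4] x3 x5 = - Bfun f g [] [x1, x2] [x6, x3] x4 x5 :=
    h.Bl3 [] [x6] [] [x1, x2] x4 x3 x5 (Or.inr (List.cons_ne_nil _ _))
  have s30 : Bfun f g [x3, x6] [x1, x4] [] x2 x5 = - Bfun f g [x1, x4] [x3, x6] [] x2 x5 :=
    h.B12 [x3, x6] [x1, x4] [] x2 x5
  have s31 : Bfun f g [x1, x4] [x3, x6] [] x2 x5 = - Bfun f g [x1, x4] [] [x3, x6] x2 x5 :=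
    h.B23 [x1, x4] [x3, x6] [] x2 x5
  have s32 : Bfun f g [x1, x4] [] [x3, x6] x2 x5 = - Bfun f g [] [x1, x4] [x3, x6] x2 x5 :=
    h.B12 [x1, x4] [] [x3, x6] x2 x5
  have s33 : Bfun f g [] [x1, x4] [x3, x6] x2 x5 = - Bfun f g [] [x1, x2] [x3, x6] x4 x5 :=
    h.Bl2 [] [x1] [] [x3, x6] x4 x2 x5 (Or.inr (List.cons_ne_nil _ _))
  have s34 : Bfun f g [] [x1, x2] [x3, x6] x4 x5 = - Bfun f g [] [x1, x2] [x3, x4] x6 x5 :=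
    h.Bl3 [] [x3] [] [x1, x2] x6 x4 x5 (Or.inr (List.cons_ne_nil _ _))
  have s35 : Bfun f g [x1, x2] [x3, x5] [] x6 x4 = - Bfun f g [x1, x2] [] [x3, x5] x6 x4 :=
    h.B23 [x1, x2] [x3, x5] [] x6 x4
  have s36 : Bfun f g [x1, x2] [] [x3, x5] x6 x4 = - Bfun f g [] [x1, x2] [x3, x5] x6 x4 :=
    h.B12 [x1, x2] [] [x3, x5] x6 x4
  have s37 : Bfun f g [] [x3, x6, x2, x5] [] x1 x4 = 0 :=
    h.B00_13 [x3, x6, x2, x5] x1 x4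
  have s38 : Bfun f g [] [x1, x2, x6, x4] [] x3 x5 = 0 :=
    h.B00_13 [x1, x2, x6, x4] x3 x5
  have s39 : Bfun f g [] [x3, x6] [x5, x4] x1 x2 = - Bfun f g [] [x3, x1] [x5, x4] x6 x2 :=
    h.Bl2 [] [x3] [] [x5, x4] x6 x1 x2 (Or.inr (List.cons_ne_nil _ _))
  have s40 : Bfun f g [] [x3, x1] [x5, x4] x6 x2 = - Bfun f g [] [x3, x1] [x5, x4] x2 x6 :=
    h.Bzz [] [x3, x1] [x5, x4] x6 x2
  have s41 : Bfun f g [] [x3, x1] [x5, x4] x2 x6 = - Bfun f g [] [x3, x1] [x5, x2] x4 x6 :=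
    h.Bl3 [] [x5] [] [x3, x1] x4 x2 x6 (Or.inr (List.cons_ne_nil _ _))
  have s42 : Bfun f g [] [x1, x2] [x4, x5] x3 x6 = - Bfun f g [] [x1, x2] [x4, x3] x5 x6 :=
    h.Bl3 [] [x4] [] [x1, x2] x5 x3 x6 (Or.inr (List.cons_ne_nil _ _))
  have s43 : Bfun f g [x4, x5] [x1, x6] [] x2 x3 = - Bfun f g [x1, x6] [x4, x5] [] x2 x3 :=
    h.B12 [x4, x5] [x1, x6] [] x2 x3
  have s44 : Bfun f g [x1, x6] [x4, x5] [] x2 x3 = - Bfun f g [x1, x6] [] [x4, x5] x2 x3 :=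
    h.B23 [x1, x6] [x4, x5] [] x2 x3
  have s45 : Bfun f g [x1, x6] [] [x4, x5] x2 x3 = - Bfun f g [] [x1, x6] [x4, x5] x2 x3 :=
    h.B12 [x1, x6] [] [x4, x5] x2 x3
  have s46 : Bfun f g [] [x1, x6] [x4, x5] x2 x3 = - Bfun f g [] [x1, x2] [x4, x5] x6 x3 :=
    h.Bl2 [] [x1] [] [x4, x5] x6 x2 x3 (Or.inr (List.cons_ne_nil _ _))
  have s47 : Bfun f g [] [x1, x2] [x4, x5] x6 x3 = - Bfun f g [] [x1, x2] [x4, x5] x3 x6 :=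
    h.Bzz [] [x1, x2] [x4, x5] x6 x3
  have s48 : Bfun f g [x1, x2] [x4, x3] [] x5 x6 = - Bfun f g [x1, x2] [] [x4, x3] x5 x6 :=
    h.B23 [x1, x2] [x4, x3] [] x5 x6
  have s49 : Bfun f g [x1, x2] [] [x4, x3] x5 x6 = - Bfun f g [] [x1, x2] [x4, x3] x5 x6 :=
    h.B12 [x1, x2] [] [x4, x3] x5 x6
  have s50 : Bfun f g [] [x4, x5, x2, x3] [] x1 x6 = 0 :=
    h.B00_13 [x4, x5, x2, x3] x1 x6
  have s51 : Bfun f g [] [x1, x2, x5, x6] [] x4 x3 = 0 :=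
    h.B00_13 [x1, x2, x5, x6] x4 x3
  have s52 : Bfun f g [] [x4, x5] [x3, x6] x1 x2 = - Bfun f g [] [x3, x6] [x4, x5] x1 x2 :=
    h.B23 [] [x4, x5] [x3, x6] x1 x2
  have s53 : Bfun f g [] [x3, x6] [x4, x5] x1 x2 = - Bfun f g [] [x3, x1] [x4, x5] x6 x2 :=
    h.Bl2 [] [x3] [] [x4, x5] x6 x1 x2 (Or.inr (List.cons_ne_nil _ _))
  have s54 : Bfun f g [] [x3, x1] [x4, x5] x6 x2 = - Bfun f g [] [x3, x1] [x4, x5] x2 x6 :=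
    h.Bzz [] [x3, x1] [x4, x5] x6 x2
  have s55 : Bfun f g [] [x3, x1] [x4, x5] x2 x6 = - Bfun f g [] [x3, x1] [x4, x2] x5 x6 :=
    h.Bl3 [] [x4] [] [x3, x1] x5 x2 x6 (Or.inr (List.cons_ne_nil _ _))
  apply tf.n2
  linear_combination (norm := module) (2 : ℤ) • r0 + (1 : ℤ) • r1 + (2 : ℤ) • r2 + (-1 : ℤ) • r3 + (-2 : ℤ) • s0 + (2 : ℤ) • s1 + (-2 : ℤ) • s2 + (2 : ℤ) • s3 + (-2 : ℤ) • s5 + (2 : ℤ) • s6 + (1 : ℤ) • s7 + (-2 : ℤ) • s8 + (-2 : ℤ) • s9 + (2 : ℤ) • s10 + (-2 : ℤ) • s11 + (2 : ℤ) • s12 + (-2 : ℤ) • s13 + (2 : ℤ) • s14 + (-2 : ℤ) • s15 + (-1 : ℤ) • s16 + (1 : ℤ) • s17 + (-1 : ℤ) • s18 + (1 : ℤ) • s19 + (-3 : ℤ) • s20 + (-1 : ℤ) • s21 + (1 : ℤ) • s22 + (-1 : ℤ) • s23 + (-1 : ℤ) • s24 + (1 : ℤ) • s25 + (-1 : ℤ) • s26 + (1 : ℤ) • s27 + (-1 : ℤ) • s28 + (1 : ℤ) • s29 + (-2 : ℤ) • s30 + (2 : ℤ) • s31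 + (-2 : ℤ) • s32 + (2 : ℤ) • s33 + (-2 : ℤ) • s34 + (-2 : ℤ) • s35 + (2 : ℤ) • s36 + (-2 : ℤ) • s37 + (-2 : ℤ) • s38 + (2 : ℤ) • s39 + (-2 : ℤ) • s40 + (2 : ℤ) • s41 + (1 : ℤ) • s42 + (1 : ℤ) • s43 + (-1 : ℤ) • s44 + (1 : ℤ) • s45 + (-1 : ℤ) • s46 + (1 : ℤ) • s47 + (1 : ℤ) • s48 + (-1 : ℤ) • s49 + (1 : ℤ) • s50 + (1 : ℤ) • s51 + (-1 : ℤ) • s52 + (1 : ℤ) • s53 + (-1 : ℤ) • s54 + (1 : ℤ) • s55

theorem z013 (h : Lvl f g) (tf : TF G) (x1 x2 x3 x4 x5 x6 : α) :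
    Bfun f g [] [x1] [x2, x3, x4] x5 x6 = 0 := by
  have r0 : Afun f g [] [x5, x3, x4, x6] [x2] x1 + Afun f g [] [x5, x3] [x2, x6, x4] x1 + Bfun f g [x5, x3] [x1] [x2] x4 x6 - Bfun f g [x1] [x5, x6] [x2] x3 x4 - Bfun f g [] [x1, x3, x4] [x2] x5 x6 + Bfun f g [] [x1] [x2, x4, x6] x5 x3 = 0 := by
    simpa only [List.append_assoc, List.cons_append, List.nil_append] using h.K0 [] [x2] x5 x3 x1 x4 x6
  have r1 : Afun f g [] [x6, x3, x4, x5] [x1] x2 + Afun f g [] [x6, x3] [x1, x5, x4] x2 + Bfun f g [x6, x3] [x2] [x1] x4 x5 - Bfun f g [x2] [x6, x5] [x1] x3 x4 - Bfun f g [] [x2, x3, x4] [x1] x6 x5 + Bfun f g [] [x2] [x1, x4, x5] x6 x3 = 0 := by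
    simpa only [List.append_assoc, List.cons_append, List.nil_append] using h.K0 [] [x1] x6 x3 x2 x4 x5
  have r2 : Afun f g [] [x6, x5, x3, x4] [x1] x2 + Afun f g [] [x6, x5] [x1, x4, x3] x2 + Bfun f g [x6, x5] [x2] [x1] x3 x4 - Bfun f g [x2] [x6, x4] [x1] x5 x3 - Bfun f g [] [x2, x5, x3] [x1] x6 x4 + Bfun f g [] [x2] [x1, x3, x4] x6 x5 = 0 := by
    simpa only [List.append_assoc, List.cons_append, List.nil_append] using h.K0 [] [x1] x6 x5 x2 x3 x4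
  have r3 : Afun f g [] [x1, x3, x4, x5, x6] [] x2 + Afun f g [] [x1, x3, x4] [x6, x5] x2 + Bfun f g [x1, x3, x4] [x2] [] x5 x6 - Bfun f g [x2] [x1, x3, x6] [] x4 x5 - Bfun f g [x1] [x2, x4, x5] [] x3 x6 + Bfun f g [x1] [x2] [x5, x6] x3 x4 = 0 := by
    simpa only [List.append_assoc, List.cons_append, List.nil_append] using h.K0 [x1] [] x3 x4 x2 x5 x6
  have r4 : Afun f g [] [x2, x4, x5, x3, x6] [] x1 + Afun f g [] [x2, x4, x5] [x6, x3] x1 + Bfun f g [x2, x4, x5] [x1] [] x3 x6 - Bfun f g [x1] [x2, x4, x6] [] x5 x3 - Bfun f g [x2] [x1, x5, x3] [] x4 x6 + Bfun f g [x2] [x1] [x3, x6] x4 x5 = 0 := by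
    simpa only [List.append_assoc, List.cons_append, List.nil_append] using h.K0 [x2] [] x4 x5 x1 x3 x6
  have r5 : Afun f g [] [x1, x4, x5, x3, x6] [] x2 + Afun f g [] [x1, x4, x5] [x6, x3] x2 + Bfun f g [x1, x4, x5] [x2] [] x3 x6 - Bfun f g [x2] [x1, x4, x6] [] x5 x3 - Bfun f g [x1] [x2, x5, x3] [] x4 x6 + Bfun f g [x1] [x2] [x3, x6] x4 x5 = 0 := by
    simpa only [List.append_assoc, List.cons_append, List.nil_append] using h.K0 [x1] [] x4 x5 x2 x3 x6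
  have r6 : Afun f g [] [x2, x4, x6, x3, x5] [] x1 + Afun f g [] [x2, x4, x6] [x5, x3] x1 + Bfun f g [x2, x4, x6] [x1] [] x3 x5 - Bfun f g [x1] [x2, x4, x5] [] x6 x3 - Bfun f g [x2] [x1, x6, x3] [] x4 x5 + Bfun f g [x2] [x1] [x3, x5] x4 x6 = 0 := by
    simpa only [List.append_assoc, List.cons_append, List.nil_append] using h.K0 [x2] [] x4 x6 x1 x3 x5
  have r7 : Afun f g [] [x6, x3] [x2, x4, x5] x1 + Bfun f g [] [x1] [x2, x4, x5] x6 x3 = 0 := by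
    simpa only [List.append_assoc, List.cons_append, List.nil_append] using h.J1z x6 x3 [x2, x4, x5] x1
  have r8 : Afun f g [] [x6, x3] [x1, x4, x5] x2 + Bfun f g [] [x2] [x1, x4, x5] x6 x3 = 0 := by
    simpa only [List.append_assoc, List.cons_append, List.nil_append] using h.J1z x6 x3 [x1, x4, x5] x2
  have s0 : Afun f g [] [x5, x3, x4, x6] [x2] x1 = 0 :=
    h.a1'' x2 [x5, x3, x4, x6] x1
  have s1 : Afun f g [] [x5, x3] [x2, x6, x4] x1 = - Afun f g [] [x5, x3] [x2, x4, x6] x1 :=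
    h.Ai3 [] [] [x2] [] [x5, x3] x6 x4 x1 (Or.inr (List.cons_ne_nil _ _))
  have s2 : Bfun f g [x5, x3] [x1] [x2] x4 x6 = - Bfun f g [x1] [x5, x3] [x2] x4 x6 :=
    h.B12 [x5, x3] [x1] [x2] x4 x6
  have s3 : Bfun f g [x1] [x5, x3] [x2] x4 x6 = - Bfun f g [x1] [x2] [x5, x3] x4 x6 :=
    h.B23 [x1] [x5, x3] [x2] x4 x6
  have s4 : Bfun f g [x1] [x5, x6] [x2] x3 x4 = - Bfun f g [x1] [x2] [x5, x6] x3 x4 :=
    h.B23 [x1] [x5, x6] [x2] x3 x4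
  have s5 : Bfun f g [x1] [x2] [x5, x6] x3 x4 = - Bfun f g [x1] [x2] [x5, x3] x6 x4 :=
    h.Bl3 [] [x5] [x1] [x2] x6 x3 x4 (Or.inr (List.cons_ne_nil _ _))
  have s6 : Bfun f g [x1] [x2] [x5, x3] x6 x4 = - Bfun f g [x1] [x2] [x5, x3] x4 x6 :=
    h.Bzz [x1] [x2] [x5, x3] x6 x4
  have s7 : Bfun f g [] [x1, x3, x4] [x2] x5 x6 = - Bfun f g [] [x2] [x1, x3, x4] x5 x6 :=
    h.B23 [] [x1, x3, x4] [x2] x5 x6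
  have s8 : Bfun f g [] [x1] [x2, x4, x6] x5 x3 = - Bfun f g [] [x1] [x2, x4, x6] x3 x5 :=
    h.Bzz [] [x1] [x2, x4, x6] x5 x3
  have s9 : Bfun f g [] [x1] [x2, x4, x6] x3 x5 = - Bfun f g [] [x1] [x2, x4, x3] x6 x5 :=
    h.Bl3 [] [x2, x4] [] [x1] x6 x3 x5 (Or.inr (List.cons_ne_nil _ _))
  have s10 : Bfun f g [] [x1] [x2, x4, x3] x6 x5 = - Bfun f g [] [x1] [x2, x3, x4] x6 x5 :=
    h.Bi3 [] [x2] [] [] [x1] x4 x3 x6 x5 (Or.inr (List.cons_ne_nil _ _))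
  have s11 : Bfun f g [] [x1] [x2, x3, x4] x6 x5 = - Bfun f g [] [x1] [x2, x3, x4] x5 x6 :=
    h.Bzz [] [x1] [x2, x3, x4] x6 x5
  have s12 : Afun f g [] [x6, x3, x4, x5] [x1] x2 = 0 :=
    h.a1'' x1 [x6, x3, x4, x5] x2
  have s13 : Afun f g [] [x6, x3] [x1, x5, x4] x2 = - Afun f g [] [x6, x3] [x1, x4, x5] x2 :=
    h.Ai3 [] [] [x1] [] [x6, x3] x5 x4 x2 (Or.inr (List.cons_ne_nil _ _))
  have s14 : Bfun f g [x6, x3] [x2] [x1] x4 x5 = - Bfun f g [x2] [x6, x3] [x1] x4 x5 :=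
    h.B12 [x6, x3] [x2] [x1] x4 x5
  have s15 : Bfun f g [x2] [x6, x3] [x1] x4 x5 = - Bfun f g [x2] [x1] [x6, x3] x4 x5 :=
    h.B23 [x2] [x6, x3] [x1] x4 x5
  have s16 : Bfun f g [x2] [x1] [x6, x3] x4 x5 = - Bfun f g [x1] [x2] [x6, x3] x4 x5 :=
    h.B12 [x2] [x1] [x6, x3] x4 x5
  have s17 : Bfun f g [x2] [x6, x5] [x1] x3 x4 = - Bfun f g [x2] [x1] [x6, x5] x3 x4 :=
    h.B23 [x2] [x6, x5] [x1] x3 x4
  have s18 : Bfun f g [x2] [x1] [x6, x5] x3 x4 = - Bfun f g [x1] [x2] [x6, x5] x3 x4 :=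
    h.B12 [x2] [x1] [x6, x5] x3 x4
  have s19 : Bfun f g [x1] [x2] [x6, x5] x3 x4 = - Bfun f g [x1] [x2] [x6, x3] x5 x4 :=
    h.Bl3 [] [x6] [x1] [x2] x5 x3 x4 (Or.inr (List.cons_ne_nil _ _))
  have s20 : Bfun f g [x1] [x2] [x6, x3] x5 x4 = - Bfun f g [x1] [x2] [x6, x3] x4 x5 :=
    h.Bzz [x1] [x2] [x6, x3] x5 x4
  have s21 : Bfun f g [] [x2, x3, x4] [x1] x6 x5 = - Bfun f g [] [x1] [x2, x3, x4] x6 x5 :=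
    h.B23 [] [x2, x3, x4] [x1] x6 x5
  have s22 : Bfun f g [] [x2] [x1, x4, x5] x6 x3 = - Bfun f g [] [x2] [x1, x4, x5] x3 x6 :=
    h.Bzz [] [x2] [x1, x4, x5] x6 x3
  have s23 : Bfun f g [] [x2] [x1, x4, x5] x3 x6 = - Bfun f g [] [x2] [x1, x4, x3] x5 x6 :=
    h.Bl3 [] [x1, x4] [] [x2] x5 x3 x6 (Or.inr (List.cons_ne_nil _ _))
  have s24 : Bfun f g [] [x2] [x1, x4, x3] x5 x6 = - Bfun f g [] [x2] [x1, x3, x4] x5 x6 :=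
    h.Bi3 [] [x1] [] [] [x2] x4 x3 x5 x6 (Or.inr (List.cons_ne_nil _ _))
  have s25 : Afun f g [] [x6, x5, x3, x4] [x1] x2 = 0 :=
    h.a1'' x1 [x6, x5, x3, x4] x2
  have s26 : Afun f g [] [x6, x5] [x1, x4, x3] x2 = - Afun f g [] [x6, x5] [x1, x3, x4] x2 :=
    h.Ai3 [] [] [x1] [] [x6, x5] x4 x3 x2 (Or.inr (List.cons_ne_nil _ _))
  have s27 : Bfun f g [x6, x5] [x2] [x1] x3 x4 = - Bfun f g [x2] [x6, x5] [x1] x3 x4 :=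
    h.B12 [x6, x5] [x2] [x1] x3 x4
  have s28 : Bfun f g [x2] [x6, x4] [x1] x5 x3 = - Bfun f g [x2] [x1] [x6, x4] x5 x3 :=
    h.B23 [x2] [x6, x4] [x1] x5 x3
  have s29 : Bfun f g [x2] [x1] [x6, x4] x5 x3 = - Bfun f g [x1] [x2] [x6, x4] x5 x3 :=
    h.B12 [x2] [x1] [x6, x4] x5 x3
  have s30 : Bfun f g [x1] [x2] [x6, x4] x5 x3 = - Bfun f g [x1] [x2] [x6, x4] x3 x5 :=
    h.Bzz [x1] [x2] [x6, x4] x5 x3
  have s31 : Bfun f g [x1] [x2] [x6, x4] x3 x5 = - Bfun f g [x1] [x2] [x6, x3] x4 x5 :=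
    h.Bl3 [] [x6] [x1] [x2] x4 x3 x5 (Or.inr (List.cons_ne_nil _ _))
  have s32 : Bfun f g [] [x2, x5, x3] [x1] x6 x4 = - Bfun f g [] [x1] [x2, x5, x3] x6 x4 :=
    h.B23 [] [x2, x5, x3] [x1] x6 x4
  have s33 : Bfun f g [] [x1] [x2, x5, x3] x6 x4 = - Bfun f g [] [x1] [x2, x3, x5] x6 x4 :=
    h.Bi3 [] [x2] [] [] [x1] x5 x3 x6 x4 (Or.inr (List.cons_ne_nil _ _))
  have s34 : Bfun f g [] [x1] [x2, x3, x5] x6 x4 = - Bfun f g [] [x1] [x2, x3, x5] x4 x6 :=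
    h.Bzz [] [x1] [x2, x3, x5] x6 x4
  have s35 : Bfun f g [] [x1] [x2, x3, x5] x4 x6 = - Bfun f g [] [x1] [x2, x3, x4] x5 x6 :=
    h.Bl3 [] [x2, x3] [] [x1] x5 x4 x6 (Or.inr (List.cons_ne_nil _ _))
  have s36 : Bfun f g [] [x2] [x1, x3, x4] x6 x5 = - Bfun f g [] [x2] [x1, x3, x4] x5 x6 :=
    h.Bzz [] [x2] [x1, x3, x4] x6 x5
  have s37 : Afun f g [] [x1, x3, x4, x5, x6] [] x2 = 0 :=
    h.a0' [x1, x3, x4, x5, x6] x2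
  have s38 : Afun f g [] [x1, x3, x4] [x6, x5] x2 = - Afun f g [] [x6, x5] [x1, x3, x4] x2 :=
    h.r3 [] [x1, x3, x4] [x6, x5] x2
  have s39 : Bfun f g [x1, x3, x4] [x2] [] x5 x6 = - Bfun f g [x2] [x1, x3, x4] [] x5 x6 :=
    h.B12 [x1, x3, x4] [x2] [] x5 x6
  have s40 : Bfun f g [x2] [x1, x3, x4] [] x5 x6 = - Bfun f g [x2] [] [x1, x3, x4] x5 x6 :=
    h.B23 [x2] [x1, x3, x4] [] x5 x6
  have s41 : Bfun f g [x2] [] [x1, x3, x4] x5 x6 = - Bfun f g [] [x2] [x1, x3, x4] x5 x6 :=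
    h.B12 [x2] [] [x1, x3, x4] x5 x6
  have s42 : Bfun f g [x2] [x1, x3, x6] [] x4 x5 = - Bfun f g [x2] [] [x1, x3, x6] x4 x5 :=
    h.B23 [x2] [x1, x3, x6] [] x4 x5
  have s43 : Bfun f g [x2] [] [x1, x3, x6] x4 x5 = - Bfun f g [] [x2] [x1, x3, x6] x4 x5 :=
    h.B12 [x2] [] [x1, x3, x6] x4 x5
  have s44 : Bfun f g [] [x2] [x1, x3, x6] x4 x5 = - Bfun f g [] [x2] [x1, x3, x4] x6 x5 :=
    h.Bl3 [] [x1, x3] [] [x2] x6 x4 x5 (Or.inr (List.cons_ne_nil _ _))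
  have s45 : Bfun f g [x1] [x2, x4, x5] [] x3 x6 = - Bfun f g [x1] [] [x2, x4, x5] x3 x6 :=
    h.B23 [x1] [x2, x4, x5] [] x3 x6
  have s46 : Bfun f g [x1] [] [x2, x4, x5] x3 x6 = - Bfun f g [] [x1] [x2, x4, x5] x3 x6 :=
    h.B12 [x1] [] [x2, x4, x5] x3 x6
  have s47 : Bfun f g [] [x1] [x2, x4, x5] x3 x6 = - Bfun f g [] [x1] [x2, x4, x3] x5 x6 :=
    h.Bl3 [] [x2, x4] [] [x1] x5 x3 x6 (Or.inr (List.cons_ne_nil _ _))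
  have s48 : Bfun f g [] [x1] [x2, x4, x3] x5 x6 = - Bfun f g [] [x1] [x2, x3, x4] x5 x6 :=
    h.Bi3 [] [x2] [] [] [x1] x4 x3 x5 x6 (Or.inr (List.cons_ne_nil _ _))
  have s49 : Afun f g [] [x2, x4, x5, x3, x6] [] x1 = 0 :=
    h.a0' [x2, x4, x5, x3, x6] x1
  have s50 : Afun f g [] [x2, x4, x5] [x6, x3] x1 = - Afun f g [] [x6, x3] [x2, x4, x5] x1 :=
    h.r3 [] [x2, x4, x5] [x6, x3] x1
  have s51 : Bfun f g [x2, x4, x5] [x1] [] x3 x6 = - Bfun f g [x1] [x2, x4, x5] [] x3 x6 :=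
    h.B12 [x2, x4, x5] [x1] [] x3 x6
  have s52 : Bfun f g [x1] [x2, x4, x6] [] x5 x3 = - Bfun f g [x1] [] [x2, x4, x6] x5 x3 :=
    h.B23 [x1] [x2, x4, x6] [] x5 x3
  have s53 : Bfun f g [x1] [] [x2, x4, x6] x5 x3 = - Bfun f g [] [x1] [x2, x4, x6] x5 x3 :=
    h.B12 [x1] [] [x2, x4, x6] x5 x3
  have s54 : Bfun f g [x2] [x1, x5, x3] [] x4 x6 = - Bfun f g [x2] [] [x1, x5, x3] x4 x6 :=
    h.B23 [x2] [x1, x5, x3] [] x4 x6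
  have s55 : Bfun f g [x2] [] [x1, x5, x3] x4 x6 = - Bfun f g [] [x2] [x1, x5, x3] x4 x6 :=
    h.B12 [x2] [] [x1, x5, x3] x4 x6
  have s56 : Bfun f g [] [x2] [x1, x5, x3] x4 x6 = - Bfun f g [] [x2] [x1, x3, x5] x4 x6 :=
    h.Bi3 [] [x1] [] [] [x2] x5 x3 x4 x6 (Or.inr (List.cons_ne_nil _ _))
  have s57 : Bfun f g [] [x2] [x1, x3, x5] x4 x6 = - Bfun f g [] [x2] [x1, x3, x4] x5 x6 :=
    h.Bl3 [] [x1, x3] [] [x2] x5 x4 x6 (Or.inr (List.cons_ne_nil _ _))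
  have s58 : Bfun f g [x2] [x1] [x3, x6] x4 x5 = - Bfun f g [x1] [x2] [x3, x6] x4 x5 :=
    h.B12 [x2] [x1] [x3, x6] x4 x5
  have s59 : Bfun f g [x1] [x2] [x3, x6] x4 x5 = - Bfun f g [x1] [x2] [x3, x4] x6 x5 :=
    h.Bl3 [] [x3] [x1] [x2] x6 x4 x5 (Or.inr (List.cons_ne_nil _ _))
  have s60 : Bfun f g [x1] [x2] [x3, x4] x6 x5 = - Bfun f g [x1] [x2] [x3, x4] x5 x6 :=
    h.Bzz [x1] [x2] [x3, x4] x6 x5
  have s61 : Afun f g [] [x1, x4, x5, x3, x6] [] x2 = 0 :=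
    h.a0' [x1, x4, x5, x3, x6] x2
  have s62 : Afun f g [] [x1, x4, x5] [x6, x3] x2 = - Afun f g [] [x6, x3] [x1, x4, x5] x2 :=
    h.r3 [] [x1, x4, x5] [x6, x3] x2
  have s63 : Bfun f g [x1, x4, x5] [x2] [] x3 x6 = - Bfun f g [x2] [x1, x4, x5] [] x3 x6 :=
    h.B12 [x1, x4, x5] [x2] [] x3 x6
  have s64 : Bfun f g [x2] [x1, x4, x5] [] x3 x6 = - Bfun f g [x2] [] [x1, x4, x5] x3 x6 :=
    h.B23 [x2] [x1, x4, x5] [] x3 x6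
  have s65 : Bfun f g [x2] [] [x1, x4, x5] x3 x6 = - Bfun f g [] [x2] [x1, x4, x5] x3 x6 :=
    h.B12 [x2] [] [x1, x4, x5] x3 x6
  have s66 : Bfun f g [x2] [x1, x4, x6] [] x5 x3 = - Bfun f g [x2] [] [x1, x4, x6] x5 x3 :=
    h.B23 [x2] [x1, x4, x6] [] x5 x3
  have s67 : Bfun f g [x2] [] [x1, x4, x6] x5 x3 = - Bfun f g [] [x2] [x1, x4, x6] x5 x3 :=
    h.B12 [x2] [] [x1, x4, x6] x5 x3
  have s68 : Bfun f g [] [x2] [x1, x4, x6] x5 x3 = - Bfun f g [] [x2] [x1, x4, x6] x3 x5 :=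
    h.Bzz [] [x2] [x1, x4, x6] x5 x3
  have s69 : Bfun f g [] [x2] [x1, x4, x6] x3 x5 = - Bfun f g [] [x2] [x1, x4, x3] x6 x5 :=
    h.Bl3 [] [x1, x4] [] [x2] x6 x3 x5 (Or.inr (List.cons_ne_nil _ _))
  have s70 : Bfun f g [] [x2] [x1, x4, x3] x6 x5 = - Bfun f g [] [x2] [x1, x3, x4] x6 x5 :=
    h.Bi3 [] [x1] [] [] [x2] x4 x3 x6 x5 (Or.inr (List.cons_ne_nil _ _))
  have s71 : Bfun f g [x1] [x2, x5, x3] [] x4 x6 = - Bfun f g [x1] [] [x2, x5, x3] x4 x6 :=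
    h.B23 [x1] [x2, x5, x3] [] x4 x6
  have s72 : Bfun f g [x1] [] [x2, x5, x3] x4 x6 = - Bfun f g [] [x1] [x2, x5, x3] x4 x6 :=
    h.B12 [x1] [] [x2, x5, x3] x4 x6
  have s73 : Bfun f g [] [x1] [x2, x5, x3] x4 x6 = - Bfun f g [] [x1] [x2, x3, x5] x4 x6 :=
    h.Bi3 [] [x2] [] [] [x1] x5 x3 x4 x6 (Or.inr (List.cons_ne_nil _ _))
  have s74 : Afun f g [] [x2, x4, x6, x3, x5] [] x1 = 0 :=
    h.a0' [x2, x4, x6, x3, x5] x1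
  have s75 : Afun f g [] [x2, x4, x6] [x5, x3] x1 = - Afun f g [] [x5, x3] [x2, x4, x6] x1 :=
    h.r3 [] [x2, x4, x6] [x5, x3] x1
  have s76 : Bfun f g [x2, x4, x6] [x1] [] x3 x5 = - Bfun f g [x1] [x2, x4, x6] [] x3 x5 :=
    h.B12 [x2, x4, x6] [x1] [] x3 x5
  have s77 : Bfun f g [x1] [x2, x4, x6] [] x3 x5 = - Bfun f g [x1] [] [x2, x4, x6] x3 x5 :=
    h.B23 [x1] [x2, x4, x6] [] x3 x5
  have s78 : Bfun f g [x1] [] [x2, x4, x6] x3 x5 = - Bfun f g [] [x1] [x2, x4, x6] x3 x5 :=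
    h.B12 [x1] [] [x2, x4, x6] x3 x5
  have s79 : Bfun f g [x1] [x2, x4, x5] [] x6 x3 = - Bfun f g [x1] [] [x2, x4, x5] x6 x3 :=
    h.B23 [x1] [x2, x4, x5] [] x6 x3
  have s80 : Bfun f g [x1] [] [x2, x4, x5] x6 x3 = - Bfun f g [] [x1] [x2, x4, x5] x6 x3 :=
    h.B12 [x1] [] [x2, x4, x5] x6 x3
  have s81 : Bfun f g [] [x1] [x2, x4, x5] x6 x3 = - Bfun f g [] [x1] [x2, x4, x5] x3 x6 :=
    h.Bzz [] [x1] [x2, x4, x5] x6 x3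
  have s82 : Bfun f g [x2] [x1, x6, x3] [] x4 x5 = - Bfun f g [x2] [] [x1, x6, x3] x4 x5 :=
    h.B23 [x2] [x1, x6, x3] [] x4 x5
  have s83 : Bfun f g [x2] [] [x1, x6, x3] x4 x5 = - Bfun f g [] [x2] [x1, x6, x3] x4 x5 :=
    h.B12 [x2] [] [x1, x6, x3] x4 x5
  have s84 : Bfun f g [] [x2] [x1, x6, x3] x4 x5 = - Bfun f g [] [x2] [x1, x3, x6] x4 x5 :=
    h.Bi3 [] [x1] [] [] [x2] x6 x3 x4 x5 (Or.inr (List.cons_ne_nil _ _))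
  have s85 : Bfun f g [x2] [x1] [x3, x5] x4 x6 = - Bfun f g [x1] [x2] [x3, x5] x4 x6 :=
    h.B12 [x2] [x1] [x3, x5] x4 x6
  have s86 : Bfun f g [x1] [x2] [x3, x5] x4 x6 = - Bfun f g [x1] [x2] [x3, x4] x5 x6 :=
    h.Bl3 [] [x3] [x1] [x2] x5 x4 x6 (Or.inr (List.cons_ne_nil _ _))
  apply tf.n12
  linear_combination (norm := module) (-4 : ℤ) • r0 + (8 : ℤ) • r1 + (-8 : ℤ) • r2 + (8 : ℤ) • r3 + (-3 : ℤ) • r4 + (-7 : ℤ) • r5 + (4 : ℤ) • r6 + (-3 : ℤ) • r7 + (1 : ℤ) • r8 + (4 : ℤ) • s0 + (4 : ℤ) • s1 + (4 : ℤ) • s2 + (-4 : ℤ) • s3 + (-4 : ℤ) • s4 + (-4 : ℤ) • s5 + (4 : ℤ) • s6 + (-4 : ℤ) • s7 + (1 : ℤ) • s8 + (3 : ℤ) • s9 + (-3 : ℤ) • s10 + (-5 : ℤ) • s11 + (-8 : ℤ) • s12 + (-8 : ℤ) • s13 + (-8 : ℤ) • s14 + (8 : ℤ) • s15 + (-8 : ℤ) • s16 + (8 : ℤ) • s21 + (-9 : ℤ) • s22 + (2 : ℤ) • s23 + (-2 : ℤ) • s24 + (8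 : ℤ) • s25 + (8 : ℤ) • s26 + (8 : ℤ) • s27 + (-8 : ℤ) • s28 + (8 : ℤ) • s29 + (-8 : ℤ) • s30 + (8 : ℤ) • s31 + (-8 : ℤ) • s32 + (8 : ℤ) • s33 + (-8 : ℤ) • s34 + (15 : ℤ) • s35 + (11 : ℤ) • s36 + (-8 : ℤ) • s37 + (-8 : ℤ) • s38 + (-8 : ℤ) • s39 + (8 : ℤ) • s40 + (-8 : ℤ) • s41 + (8 : ℤ) • s42 + (-8 : ℤ) • s43 + (4 : ℤ) • s44 + (5 : ℤ) • s45 + (-5 : ℤ) • s46 + (-2 : ℤ) • s47 + (2 : ℤ) • s48 + (3 : ℤ) • s49 + (3 : ℤ) • s50 + (3 : ℤ) • s51 + (-3 : ℤ) • s52 + (3 : ℤ) • s53 + (-3 : ℤ) • s54 + (3 : ℤ) • s55 + (-3 : ℤ) • s56 + (3 : ℤ) • s57 + (3 : ℤ) • s58 + (4 : ℤ) • s59 + (-4 : ℤ) • s60 + (7 : ℤ) • s61 + (7 : ℤ) • s62 + (7 : ℤ) • s63 + (-7 : ℤ) • s64 + (7 : ℤ) • s65 + (-7 : ℤ) • s66 + (7 : ℤ) • s67 + (-7 : ℤ) • s68 + (7 : ℤ) • s69 + (-7 : ℤ) • s70 + (-7 : ℤ) • s71 + (7 : ℤ) • s72 + (-7 : ℤ) • s73 + (-4 : ℤ)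 • s74 + (-4 : ℤ) • s75 + (-4 : ℤ) • s76 + (4 : ℤ) • s77 + (-4 : ℤ) • s78 + (4 : ℤ) • s79 + (-4 : ℤ) • s80 + (7 : ℤ) • s81 + (4 : ℤ) • s82 + (-4 : ℤ) • s83 + (4 : ℤ) • s84 + (-4 : ℤ) • s85 + (4 : ℤ) • s86

theorem z112 (h : Lvl f g) (tf : TF G) (x1 x2 x3 x4 x5 x6 : α) :
    Bfun f g [x1] [x2] [x3, x4] x5 x6 = 0 := by
  have r0 : Afun f g [] [x5, x3, x4, x6] [x2] x1 + Afun f g [] [x5, x3] [x2, x6, x4] x1 + Bfun f g [x5, x3] [x1] [x2] x4 x6 - Bfun f g [x1] [x5, x6] [x2] x3 x4 - Bfun f g [] [x1, x3, x4] [x2] x5 x6 + Bfun f g [] [x1] [x2, x4, x6] x5 x3 = 0 := by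
    simpa only [List.append_assoc, List.cons_append, List.nil_append] using h.K0 [] [x2] x5 x3 x1 x4 x6
  have r1 : Afun f g [] [x6, x3, x4, x5] [x1] x2 + Afun f g [] [x6, x3] [x1, x5, x4] x2 + Bfun f g [x6, x3] [x2] [x1] x4 x5 - Bfun f g [x2] [x6, x5] [x1] x3 x4 - Bfun f g [] [x2, x3, x4] [x1] x6 x5 + Bfun f g [] [x2] [x1, x4, x5] x6 x3 = 0 := by
    simpa only [List.append_assoc, List.cons_append, List.nil_append] using h.K0 [] [x1] x6 x3 x2 x4 x5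
  have r2 : Afun f g [] [x6, x5, x3, x4] [x1] x2 + Afun f g [] [x6, x5] [x1, x4, x3] x2 + Bfun f g [x6, x5] [x2] [x1] x3 x4 - Bfun f g [x2] [x6, x4] [x1] x5 x3 - Bfun f g [] [x2, x5, x3] [x1] x6 x4 + Bfun f g [] [x2] [x1, x3, x4] x6 x5 = 0 := by
    simpa only [List.append_assoc, List.cons_append, List.nil_append] using h.K0 [] [x1] x6 x5 x2 x3 x4
  have r3 : Afun f g [] [x1, x3, x4, x5, x6] [] x2 + Afun f g [] [x1, x3, x4] [x6, x5] x2 + Bfun f g [x1, x3, x4] [x2] [] x5 x6 - Bfun f g [x2] [x1, x3, x6] [] x4 x5 - Bfun f g [x1] [x2, x4, x5] [] x3 x6 + Bfun f g [x1] [x2] [x5, x6] x3 x4 = 0 := by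
    simpa only [List.append_assoc, List.cons_append, List.nil_append] using h.K0 [x1] [] x3 x4 x2 x5 x6
  have r4 : Afun f g [] [x2, x4, x5, x3, x6] [] x1 + Afun f g [] [x2, x4, x5] [x6, x3] x1 + Bfun f g [x2, x4, x5] [x1] [] x3 x6 - Bfun f g [x1] [x2, x4, x6] [] x5 x3 - Bfun f g [x2] [x1, x5, x3] [] x4 x6 + Bfun f g [x2] [x1] [x3, x6] x4 x5 = 0 := by
    simpa only [List.append_assoc, List.cons_append, List.nil_append] using h.K0 [x2] [] x4 x5 x1 x3 x6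
  have r5 : Afun f g [] [x1, x4, x5, x3, x6] [] x2 + Afun f g [] [x1, x4, x5] [x6, x3] x2 + Bfun f g [x1, x4, x5] [x2] [] x3 x6 - Bfun f g [x2] [x1, x4, x6] [] x5 x3 - Bfun f g [x1] [x2, x5, x3] [] x4 x6 + Bfun f g [x1] [x2] [x3, x6] x4 x5 = 0 := by
    simpa only [List.append_assoc, List.cons_append, List.nil_append] using h.K0 [x1] [] x4 x5 x2 x3 x6
  have r6 : Afun f g [] [x2, x4, x6, x3, x5] [] x1 + Afun f g [] [x2, x4, x6] [x5, x3] x1 + Bfun f g [x2, x4, x6] [x1] [] x3 x5 - Bfun f g [x1] [x2, x4, x5] [] x6 x3 - Bfun f g [x2] [x1, x6, x3] [] x4 x5 + Bfun f g [x2] [x1] [x3, x5] x4 x6 = 0 := by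
    simpa only [List.append_assoc, List.cons_append, List.nil_append] using h.K0 [x2] [] x4 x6 x1 x3 x5
  have r7 : Afun f g [] [x6, x3] [x2, x4, x5] x1 + Bfun f g [] [x1] [x2, x4, x5] x6 x3 = 0 := by
    simpa only [List.append_assoc, List.cons_append, List.nil_append] using h.J1z x6 x3 [x2, x4, x5] x1
  have r8 : Afun f g [] [x6, x3] [x1, x4, x5] x2 + Bfun f g [] [x2] [x1, x4, x5] x6 x3 = 0 := by
    simpa only [List.append_assoc, List.cons_append, List.nil_append] using h.J1z x6 x3 [x1, x4, x5] x2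
  have s0 : Afun f g [] [x5, x3, x4, x6] [x2] x1 = 0 :=
    h.a1'' x2 [x5, x3, x4, x6] x1
  have s1 : Afun f g [] [x5, x3] [x2, x6, x4] x1 = - Afun f g [] [x5, x3] [x2, x4, x6] x1 :=
    h.Ai3 [] [] [x2] [] [x5, x3] x6 x4 x1 (Or.inr (List.cons_ne_nil _ _))
  have s2 : Bfun f g [x5, x3] [x1] [x2] x4 x6 = - Bfun f g [x1] [x5, x3] [x2] x4 x6 :=
    h.B12 [x5, x3] [x1] [x2] x4 x6
  have s3 : Bfun f g [x1] [x5, x3] [x2] x4 x6 = - Bfun f g [x1] [x2] [x5, x3] x4 x6 :=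
    h.B23 [x1] [x5, x3] [x2] x4 x6
  have s4 : Bfun f g [x1] [x5, x6] [x2] x3 x4 = - Bfun f g [x1] [x2] [x5, x6] x3 x4 :=
    h.B23 [x1] [x5, x6] [x2] x3 x4
  have s5 : Bfun f g [x1] [x2] [x5, x6] x3 x4 = - Bfun f g [x1] [x2] [x5, x3] x6 x4 :=
    h.Bl3 [] [x5] [x1] [x2] x6 x3 x4 (Or.inr (List.cons_ne_nil _ _))
  have s6 : Bfun f g [x1] [x2] [x5, x3] x6 x4 = - Bfun f g [x1] [x2] [x5, x3] x4 x6 :=
    h.Bzz [x1] [x2] [x5, x3] x6 x4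
  have s7 : Bfun f g [] [x1, x3, x4] [x2] x5 x6 = - Bfun f g [] [x2] [x1, x3, x4] x5 x6 :=
    h.B23 [] [x1, x3, x4] [x2] x5 x6
  have s8 : Bfun f g [] [x1] [x2, x4, x6] x5 x3 = - Bfun f g [] [x1] [x2, x4, x6] x3 x5 :=
    h.Bzz [] [x1] [x2, x4, x6] x5 x3
  have s9 : Bfun f g [] [x1] [x2, x4, x6] x3 x5 = - Bfun f g [] [x1] [x2, x4, x3] x6 x5 :=
    h.Bl3 [] [x2, x4] [] [x1] x6 x3 x5 (Or.inr (List.cons_ne_nil _ _))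
  have s10 : Bfun f g [] [x1] [x2, x4, x3] x6 x5 = - Bfun f g [] [x1] [x2, x3, x4] x6 x5 :=
    h.Bi3 [] [x2] [] [] [x1] x4 x3 x6 x5 (Or.inr (List.cons_ne_nil _ _))
  have s11 : Bfun f g [] [x1] [x2, x3, x4] x6 x5 = - Bfun f g [] [x1] [x2, x3, x4] x5 x6 :=
    h.Bzz [] [x1] [x2, x3, x4] x6 x5
  have s12 : Afun f g [] [x6, x3, x4, x5] [x1] x2 = 0 :=
    h.a1'' x1 [x6, x3, x4, x5] x2
  have s13 : Afun f g [] [x6, x3] [x1, x5, x4] x2 = - Afun f g [] [x6, x3] [x1, x4, x5] x2 :=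
    h.Ai3 [] [] [x1] [] [x6, x3] x5 x4 x2 (Or.inr (List.cons_ne_nil _ _))
  have s14 : Bfun f g [x6, x3] [x2] [x1] x4 x5 = - Bfun f g [x2] [x6, x3] [x1] x4 x5 :=
    h.B12 [x6, x3] [x2] [x1] x4 x5
  have s15 : Bfun f g [x2] [x6, x3] [x1] x4 x5 = - Bfun f g [x2] [x1] [x6, x3] x4 x5 :=
    h.B23 [x2] [x6, x3] [x1] x4 x5
  have s16 : Bfun f g [x2] [x1] [x6, x3] x4 x5 = - Bfun f g [x1] [x2] [x6, x3] x4 x5 :=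
    h.B12 [x2] [x1] [x6, x3] x4 x5
  have s17 : Bfun f g [x2] [x6, x5] [x1] x3 x4 = - Bfun f g [x2] [x1] [x6, x5] x3 x4 :=
    h.B23 [x2] [x6, x5] [x1] x3 x4
  have s18 : Bfun f g [x2] [x1] [x6, x5] x3 x4 = - Bfun f g [x1] [x2] [x6, x5] x3 x4 :=
    h.B12 [x2] [x1] [x6, x5] x3 x4
  have s19 : Bfun f g [x1] [x2] [x6, x5] x3 x4 = - Bfun f g [x1] [x2] [x6, x3] x5 x4 :=
    h.Bl3 [] [x6] [x1] [x2] x5 x3 x4 (Or.inr (List.cons_ne_nil _ _))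
  have s20 : Bfun f g [x1] [x2] [x6, x3] x5 x4 = - Bfun f g [x1] [x2] [x6, x3] x4 x5 :=
    h.Bzz [x1] [x2] [x6, x3] x5 x4
  have s21 : Bfun f g [] [x2, x3, x4] [x1] x6 x5 = - Bfun f g [] [x1] [x2, x3, x4] x6 x5 :=
    h.B23 [] [x2, x3, x4] [x1] x6 x5
  have s22 : Bfun f g [] [x2] [x1, x4, x5] x6 x3 = - Bfun f g [] [x2] [x1, x4, x5] x3 x6 :=
    h.Bzz [] [x2] [x1, x4, x5] x6 x3
  have s23 : Bfun f g [] [x2] [x1, x4, x5] x3 x6 = - Bfun f g [] [x2] [x1, x4, x3] x5 x6 :=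
    h.Bl3 [] [x1, x4] [] [x2] x5 x3 x6 (Or.inr (List.cons_ne_nil _ _))
  have s24 : Bfun f g [] [x2] [x1, x4, x3] x5 x6 = - Bfun f g [] [x2] [x1, x3, x4] x5 x6 :=
    h.Bi3 [] [x1] [] [] [x2] x4 x3 x5 x6 (Or.inr (List.cons_ne_nil _ _))
  have s25 : Afun f g [] [x6, x5, x3, x4] [x1] x2 = 0 :=
    h.a1'' x1 [x6, x5, x3, x4] x2
  have s26 : Afun f g [] [x6, x5] [x1, x4, x3] x2 = - Afun f g [] [x6, x5] [x1, x3, x4] x2 :=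
    h.Ai3 [] [] [x1] [] [x6, x5] x4 x3 x2 (Or.inr (List.cons_ne_nil _ _))
  have s27 : Bfun f g [x6, x5] [x2] [x1] x3 x4 = - Bfun f g [x2] [x6, x5] [x1] x3 x4 :=
    h.B12 [x6, x5] [x2] [x1] x3 x4
  have s28 : Bfun f g [x2] [x6, x4] [x1] x5 x3 = - Bfun f g [x2] [x1] [x6, x4] x5 x3 :=
    h.B23 [x2] [x6, x4] [x1] x5 x3
  have s29 : Bfun f g [x2] [x1] [x6, x4] x5 x3 = - Bfun f g [x1] [x2] [x6, x4] x5 x3 :=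
    h.B12 [x2] [x1] [x6, x4] x5 x3
  have s30 : Bfun f g [x1] [x2] [x6, x4] x5 x3 = - Bfun f g [x1] [x2] [x6, x4] x3 x5 :=
    h.Bzz [x1] [x2] [x6, x4] x5 x3
  have s31 : Bfun f g [x1] [x2] [x6, x4] x3 x5 = - Bfun f g [x1] [x2] [x6, x3] x4 x5 :=
    h.Bl3 [] [x6] [x1] [x2] x4 x3 x5 (Or.inr (List.cons_ne_nil _ _))
  have s32 : Bfun f g [] [x2, x5, x3] [x1] x6 x4 = - Bfun f g [] [x1] [x2, x5, x3] x6 x4 :=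
    h.B23 [] [x2, x5, x3] [x1] x6 x4
  have s33 : Bfun f g [] [x1] [x2, x5, x3] x6 x4 = - Bfun f g [] [x1] [x2, x3, x5] x6 x4 :=
    h.Bi3 [] [x2] [] [] [x1] x5 x3 x6 x4 (Or.inr (List.cons_ne_nil _ _))
  have s34 : Bfun f g [] [x1] [x2, x3, x5] x6 x4 = - Bfun f g [] [x1] [x2, x3, x5] x4 x6 :=
    h.Bzz [] [x1] [x2, x3, x5] x6 x4
  have s35 : Bfun f g [] [x1] [x2, x3, x5] x4 x6 = - Bfun f g [] [x1] [x2, x3, x4] x5 x6 :=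
    h.Bl3 [] [x2, x3] [] [x1] x5 x4 x6 (Or.inr (List.cons_ne_nil _ _))
  have s36 : Bfun f g [] [x2] [x1, x3, x4] x6 x5 = - Bfun f g [] [x2] [x1, x3, x4] x5 x6 :=
    h.Bzz [] [x2] [x1, x3, x4] x6 x5
  have s37 : Afun f g [] [x1, x3, x4, x5, x6] [] x2 = 0 :=
    h.a0' [x1, x3, x4, x5, x6] x2
  have s38 : Afun f g [] [x1, x3, x4] [x6, x5] x2 = - Afun f g [] [x6, x5] [x1, x3, x4] x2 :=
    h.r3 [] [x1, x3, x4] [x6, x5] x2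
  have s39 : Bfun f g [x1, x3, x4] [x2] [] x5 x6 = - Bfun f g [x2] [x1, x3, x4] [] x5 x6 :=
    h.B12 [x1, x3, x4] [x2] [] x5 x6
  have s40 : Bfun f g [x2] [x1, x3, x4] [] x5 x6 = - Bfun f g [x2] [] [x1, x3, x4] x5 x6 :=
    h.B23 [x2] [x1, x3, x4] [] x5 x6
  have s41 : Bfun f g [x2] [] [x1, x3, x4] x5 x6 = - Bfun f g [] [x2] [x1, x3, x4] x5 x6 :=
    h.B12 [x2] [] [x1, x3, x4] x5 x6
  have s42 : Bfun f g [x2] [x1, x3, x6] [] x4 x5 = - Bfun f g [x2] [] [x1, x3, x6] x4 x5 :=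
    h.B23 [x2] [x1, x3, x6] [] x4 x5
  have s43 : Bfun f g [x2] [] [x1, x3, x6] x4 x5 = - Bfun f g [] [x2] [x1, x3, x6] x4 x5 :=
    h.B12 [x2] [] [x1, x3, x6] x4 x5
  have s44 : Bfun f g [] [x2] [x1, x3, x6] x4 x5 = - Bfun f g [] [x2] [x1, x3, x4] x6 x5 :=
    h.Bl3 [] [x1, x3] [] [x2] x6 x4 x5 (Or.inr (List.cons_ne_nil _ _))
  have s45 : Bfun f g [x1] [x2, x4, x5] [] x3 x6 = - Bfun f g [x1] [] [x2, x4, x5] x3 x6 :=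
    h.B23 [x1] [x2, x4, x5] [] x3 x6
  have s46 : Bfun f g [x1] [] [x2, x4, x5] x3 x6 = - Bfun f g [] [x1] [x2, x4, x5] x3 x6 :=
    h.B12 [x1] [] [x2, x4, x5] x3 x6
  have s47 : Bfun f g [] [x1] [x2, x4, x5] x3 x6 = - Bfun f g [] [x1] [x2, x4, x3] x5 x6 :=
    h.Bl3 [] [x2, x4] [] [x1] x5 x3 x6 (Or.inr (List.cons_ne_nil _ _))
  have s48 : Bfun f g [] [x1] [x2, x4, x3] x5 x6 = - Bfun f g [] [x1] [x2, x3, x4] x5 x6 :=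
    h.Bi3 [] [x2] [] [] [x1] x4 x3 x5 x6 (Or.inr (List.cons_ne_nil _ _))
  have s49 : Afun f g [] [x2, x4, x5, x3, x6] [] x1 = 0 :=
    h.a0' [x2, x4, x5, x3, x6] x1
  have s50 : Afun f g [] [x2, x4, x5] [x6, x3] x1 = - Afun f g [] [x6, x3] [x2, x4, x5] x1 :=
    h.r3 [] [x2, x4, x5] [x6, x3] x1
  have s51 : Bfun f g [x2, x4, x5] [x1] [] x3 x6 = - Bfun f g [x1] [x2, x4, x5] [] x3 x6 :=
    h.B12 [x2, x4, x5] [x1] [] x3 x6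
  have s52 : Bfun f g [x1] [x2, x4, x6] [] x5 x3 = - Bfun f g [x1] [] [x2, x4, x6] x5 x3 :=
    h.B23 [x1] [x2, x4, x6] [] x5 x3
  have s53 : Bfun f g [x1] [] [x2, x4, x6] x5 x3 = - Bfun f g [] [x1] [x2, x4, x6] x5 x3 :=
    h.B12 [x1] [] [x2, x4, x6] x5 x3
  have s54 : Bfun f g [x2] [x1, x5, x3] [] x4 x6 = - Bfun f g [x2] [] [x1, x5, x3] x4 x6 :=
    h.B23 [x2] [x1, x5, x3] [] x4 x6
  have s55 : Bfun f g [x2] [] [x1, x5, x3] x4 x6 = - Bfun f g [] [x2] [x1, x5, x3] x4 x6 :=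
    h.B12 [x2] [] [x1, x5, x3] x4 x6
  have s56 : Bfun f g [] [x2] [x1, x5, x3] x4 x6 = - Bfun f g [] [x2] [x1, x3, x5] x4 x6 :=
    h.Bi3 [] [x1] [] [] [x2] x5 x3 x4 x6 (Or.inr (List.cons_ne_nil _ _))
  have s57 : Bfun f g [] [x2] [x1, x3, x5] x4 x6 = - Bfun f g [] [x2] [x1, x3, x4] x5 x6 :=
    h.Bl3 [] [x1, x3] [] [x2] x5 x4 x6 (Or.inr (List.cons_ne_nil _ _))
  have s58 : Bfun f g [x2] [x1] [x3, x6] x4 x5 = - Bfun f g [x1] [x2] [x3, x6] x4 x5 :=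
    h.B12 [x2] [x1] [x3, x6] x4 x5
  have s59 : Bfun f g [x1] [x2] [x3, x6] x4 x5 = - Bfun f g [x1] [x2] [x3, x4] x6 x5 :=
    h.Bl3 [] [x3] [x1] [x2] x6 x4 x5 (Or.inr (List.cons_ne_nil _ _))
  have s60 : Bfun f g [x1] [x2] [x3, x4] x6 x5 = - Bfun f g [x1] [x2] [x3, x4] x5 x6 :=
    h.Bzz [x1] [x2] [x3, x4] x6 x5
  have s61 : Afun f g [] [x1, x4, x5, x3, x6] [] x2 = 0 :=
    h.a0' [x1, x4, x5, x3, x6] x2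
  have s62 : Afun f g [] [x1, x4, x5] [x6, x3] x2 = - Afun f g [] [x6, x3] [x1, x4, x5] x2 :=
    h.r3 [] [x1, x4, x5] [x6, x3] x2
  have s63 : Bfun f g [x1, x4, x5] [x2] [] x3 x6 = - Bfun f g [x2] [x1, x4, x5] [] x3 x6 :=
    h.B12 [x1, x4, x5] [x2] [] x3 x6
  have s64 : Bfun f g [x2] [x1, x4, x5] [] x3 x6 = - Bfun f g [x2] [] [x1, x4, x5] x3 x6 :=
    h.B23 [x2] [x1, x4, x5] [] x3 x6
  have s65 : Bfun f g [x2] [] [x1, x4, x5] x3 x6 = - Bfun f g [] [x2] [x1, x4, x5] x3 x6 :=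
    h.B12 [x2] [] [x1, x4, x5] x3 x6
  have s66 : Bfun f g [x2] [x1, x4, x6] [] x5 x3 = - Bfun f g [x2] [] [x1, x4, x6] x5 x3 :=
    h.B23 [x2] [x1, x4, x6] [] x5 x3
  have s67 : Bfun f g [x2] [] [x1, x4, x6] x5 x3 = - Bfun f g [] [x2] [x1, x4, x6] x5 x3 :=
    h.B12 [x2] [] [x1, x4, x6] x5 x3
  have s68 : Bfun f g [] [x2] [x1, x4, x6] x5 x3 = - Bfun f g [] [x2] [x1, x4, x6] x3 x5 :=
    h.Bzz [] [x2] [x1, x4, x6] x5 x3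
  have s69 : Bfun f g [] [x2] [x1, x4, x6] x3 x5 = - Bfun f g [] [x2] [x1, x4, x3] x6 x5 :=
    h.Bl3 [] [x1, x4] [] [x2] x6 x3 x5 (Or.inr (List.cons_ne_nil _ _))
  have s70 : Bfun f g [] [x2] [x1, x4, x3] x6 x5 = - Bfun f g [] [x2] [x1, x3, x4] x6 x5 :=
    h.Bi3 [] [x1] [] [] [x2] x4 x3 x6 x5 (Or.inr (List.cons_ne_nil _ _))
  have s71 : Bfun f g [x1] [x2, x5, x3] [] x4 x6 = - Bfun f g [x1] [] [x2, x5, x3] x4 x6 :=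
    h.B23 [x1] [x2, x5, x3] [] x4 x6
  have s72 : Bfun f g [x1] [] [x2, x5, x3] x4 x6 = - Bfun f g [] [x1] [x2, x5, x3] x4 x6 :=
    h.B12 [x1] [] [x2, x5, x3] x4 x6
  have s73 : Bfun f g [] [x1] [x2, x5, x3] x4 x6 = - Bfun f g [] [x1] [x2, x3, x5] x4 x6 :=
    h.Bi3 [] [x2] [] [] [x1] x5 x3 x4 x6 (Or.inr (List.cons_ne_nil _ _))
  have s74 : Afun f g [] [x2, x4, x6, x3, x5] [] x1 = 0 :=
    h.a0' [x2, x4, x6, x3, x5] x1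
  have s75 : Afun f g [] [x2, x4, x6] [x5, x3] x1 = - Afun f g [] [x5, x3] [x2, x4, x6] x1 :=
    h.r3 [] [x2, x4, x6] [x5, x3] x1
  have s76 : Bfun f g [x2, x4, x6] [x1] [] x3 x5 = - Bfun f g [x1] [x2, x4, x6] [] x3 x5 :=
    h.B12 [x2, x4, x6] [x1] [] x3 x5
  have s77 : Bfun f g [x1] [x2, x4, x6] [] x3 x5 = - Bfun f g [x1] [] [x2, x4, x6] x3 x5 :=
    h.B23 [x1] [x2, x4, x6] [] x3 x5
  have s78 : Bfun f g [x1] [] [x2, x4, x6] x3 x5 = - Bfun f g [] [x1] [x2, x4, x6] x3 x5 :=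
    h.B12 [x1] [] [x2, x4, x6] x3 x5
  have s79 : Bfun f g [x1] [x2, x4, x5] [] x6 x3 = - Bfun f g [x1] [] [x2, x4, x5] x6 x3 :=
    h.B23 [x1] [x2, x4, x5] [] x6 x3
  have s80 : Bfun f g [x1] [] [x2, x4, x5] x6 x3 = - Bfun f g [] [x1] [x2, x4, x5] x6 x3 :=
    h.B12 [x1] [] [x2, x4, x5] x6 x3
  have s81 : Bfun f g [] [x1] [x2, x4, x5] x6 x3 = - Bfun f g [] [x1] [x2, x4, x5] x3 x6 :=
    h.Bzz [] [x1] [x2, x4, x5] x6 x3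
  have s82 : Bfun f g [x2] [x1, x6, x3] [] x4 x5 = - Bfun f g [x2] [] [x1, x6, x3] x4 x5 :=
    h.B23 [x2] [x1, x6, x3] [] x4 x5
  have s83 : Bfun f g [x2] [] [x1, x6, x3] x4 x5 = - Bfun f g [] [x2] [x1, x6, x3] x4 x5 :=
    h.B12 [x2] [] [x1, x6, x3] x4 x5
  have s84 : Bfun f g [] [x2] [x1, x6, x3] x4 x5 = - Bfun f g [] [x2] [x1, x3, x6] x4 x5 :=
    h.Bi3 [] [x1] [] [] [x2] x6 x3 x4 x5 (Or.inr (List.cons_ne_nil _ _))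
  have s85 : Bfun f g [x2] [x1] [x3, x5] x4 x6 = - Bfun f g [x1] [x2] [x3, x5] x4 x6 :=
    h.B12 [x2] [x1] [x3, x5] x4 x6
  have s86 : Bfun f g [x1] [x2] [x3, x5] x4 x6 = - Bfun f g [x1] [x2] [x3, x4] x5 x6 :=
    h.Bl3 [] [x3] [x1] [x2] x5 x4 x6 (Or.inr (List.cons_ne_nil _ _))
  apply tf.n12
  linear_combination (norm := module) (8 : ℤ) • r0 + (-16 : ℤ) • r1 + (16 : ℤ) • r2 + (-16 : ℤ) • r3 + (-3 : ℤ) • r4 + (17 : ℤ) • r5 + (-8 : ℤ) • r6 + (-3 : ℤ) • r7 + (1 : ℤ) • r8 + (-8 : ℤ) • s0 + (-8 : ℤ) • s1 + (-8 : ℤ) • s2 + (8 : ℤ) • s3 + (8 : ℤ) • s4 + (8 : ℤ) • s5 + (-8 : ℤ) • s6 + (8 : ℤ) • s7 + (-11 : ℤ) • s8 + (3 : ℤ) • s9 + (-3 : ℤ) • s10 + (19 : ℤ) • s11 + (16 : ℤ) • s12 + (16 : ℤ) • s13 + (16 : ℤ) • s14 + (-16 : ℤ) • s15 + (16 : ℤ) • s16 + (-16 : ℤ) • s21 + (15 : ℤ) • s22 + (2 : ℤ) • s23 + (-2 : ℤ)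 • s24 + (-16 : ℤ) • s25 + (-16 : ℤ) • s26 + (-16 : ℤ) • s27 + (16 : ℤ) • s28 + (-16 : ℤ) • s29 + (16 : ℤ) • s30 + (-16 : ℤ) • s31 + (16 : ℤ) • s32 + (-16 : ℤ) • s33 + (16 : ℤ) • s34 + (-33 : ℤ) • s35 + (-25 : ℤ) • s36 + (16 : ℤ) • s37 + (16 : ℤ) • s38 + (16 : ℤ) • s39 + (-16 : ℤ) • s40 + (16 : ℤ) • s41 + (-16 : ℤ) • s42 + (16 : ℤ) • s43 + (-8 : ℤ) • s44 + (-19 : ℤ) • s45 + (19 : ℤ) • s46 + (-14 : ℤ) • s47 + (14 : ℤ) • s48 + (3 : ℤ) • s49 + (3 : ℤ) • s50 + (3 : ℤ) • s51 + (-3 : ℤ) • s52 + (3 : ℤ) • s53 + (-3 : ℤ) • s54 + (3 : ℤ) • s55 + (-3 : ℤ) • s56 + (3 : ℤ) • s57 + (3 : ℤ) • s58 + (-20 : ℤ) • s59 + (20 : ℤ) • s60 + (-17 : ℤ) • s61 + (-17 : ℤ) • s62 + (-17 : ℤ) • s63 + (17 : ℤ) • s64 + (-17 : ℤ) • s65 + (17 : ℤ) • s66 + (-17 : ℤ) • s67 + (17 : ℤ) • s68 + (-17 : ℤ) • s69 + (17 : ℤ) • s70 + (17 : ℤ) •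 s71 + (-17 : ℤ) • s72 + (17 : ℤ) • s73 + (8 : ℤ) • s74 + (8 : ℤ) • s75 + (8 : ℤ) • s76 + (-8 : ℤ) • s77 + (8 : ℤ) • s78 + (-8 : ℤ) • s79 + (8 : ℤ) • s80 + (-5 : ℤ) • s81 + (-8 : ℤ) • s82 + (8 : ℤ) • s83 + (-8 : ℤ) • s84 + (8 : ℤ) • s85 + (-8 : ℤ) • s86

end Lvl
end Eng
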