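import Pool.Agent.H86.Eng.CertA

/-! Generated linear algebra certificates for the thick sandwich theorem. -/

set_option linter.style.longLine false
set_option linter.unusedVariables false

namespace Eng

variable {α G : Type*} [AddCommGroup G] {f : List α → List α → List α → G}
  {g : List α → List α → List α → α → G}

namespace Lvl

theorem y11 (h : Lvl f g) (tf : TF G) (W : List α) (hW : W ≠ [])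
    (x1 x2 x3 x4 x5 x6 : α) :
    Bfun f g [x1] [x2] (W ++ [x3, x4]) x5 x6 = 0 := by
  have r0 : Afun f g [] (W ++ [x5, x6, x3, x4]) [x2] x1 + Afun f g [] (W ++ [x5, x6]) [x2, x4, x3] x1 + Bfun f g (W ++ [x5, x6]) [x1] [x2] x3 x4 - Bfun f g [x1] (W ++ [x5, x4]) [x2] x6 x3 - Bfun f g W [x1, x6, x3] [x2] x5 x4 + Bfun f g W [x1] [x2, x3, x4] x5 x6 = 0 := by
    simpa only [List.append_assoc, List.cons_append, List.nil_append] using h.K0 W [x2] x5 x6 x1 x3 x4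
  have r1 : Afun f g [] (W ++ [x5, x6, x3, x4]) [x1] x2 + Afun f g [] (W ++ [x5, x6]) [x1, x4, x3] x2 + Bfun f g (W ++ [x5, x6]) [x2] [x1] x3 x4 - Bfun f g [x2] (W ++ [x5, x4]) [x1] x6 x3 - Bfun f g W [x2, x6, x3] [x1] x5 x4 + Bfun f g W [x2] [x1, x3, x4] x5 x6 = 0 := by
    simpa only [List.append_assoc, List.cons_append, List.nil_append] using h.K0 W [x1] x5 x6 x2 x3 x4
  have r2 : Afun f g [] [x1, x3, x4] (W ++ [x5, x6]) x2 + Bfun f g [] [x2, x1] (W ++ [x5, x6]) x3 x4 + Bfun f g [] [x1, x2] (W ++ [x5, x6]) x3 x4 + Bfun f g [x1] [x2] (W ++ [x5, x6]) x3 x4 = 0 := by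
    simpa only [List.append_assoc, List.cons_append, List.nil_append] using h.N3z x1 x3 x4 (W ++ [x5, x6]) x2
  have r3 : Afun f g [] [x2, x3, x4] (W ++ [x5, x6]) x1 + Bfun f g [] [x1, x2] (W ++ [x5, x6]) x3 x4 + Bfun f g [] [x2, x1] (W ++ [x5, x6]) x3 x4 + Bfun f g [x2] [x1] (W ++ [x5, x6]) x3 x4 = 0 := by
    simpa only [List.append_assoc, List.cons_append, List.nil_append] using h.N3z x2 x3 x4 (W ++ [x5, x6]) x1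
  have s0 : Afun f g [] (W ++ [x5, x6, x3, x4]) [x2] x1 = 0 :=
    h.a1'' x2 (W ++ [x5, x6, x3, x4]) x1
  have s1 : Afun f g [] (W ++ [x5, x6]) [x2, x4, x3] x1 = - Afun f g [] [x2, x4, x3] (W ++ [x5, x6]) x1 :=
    h.r3 [] (W ++ [x5, x6]) [x2, x4, x3] x1
  have s2 : Afun f g [] [x2, x4, x3] (W ++ [x5, x6]) x1 = - Afun f g [] [x2, x3, x4] (W ++ [x5, x6]) x1 :=
    h.Ai2 [] [] [x2] [] (W ++ [x5, x6]) x4 x3 x1 (Or.inr (List.cons_ne_nil _ _))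
  have s3 : Bfun f g (W ++ [x5, x6]) [x1] [x2] x3 x4 = - Bfun f g [x1] (W ++ [x5, x6]) [x2] x3 x4 :=
    h.B12 (W ++ [x5, x6]) [x1] [x2] x3 x4
  have s4 : Bfun f g [x1] (W ++ [x5, x6]) [x2] x3 x4 = - Bfun f g [x1] [x2] (W ++ [x5, x6]) x3 x4 :=
    h.B23 [x1] (W ++ [x5, x6]) [x2] x3 x4
  have s5 : Bfun f g [x1] [x2] (W ++ [x5, x6]) x3 x4 = - Bfun f g [x1] [x2] (W ++ [x5, x3]) x6 x4 :=
    h.Bl3 W [x5] [x1] [x2] x6 x3 x4 (Or.inr (List.cons_ne_nil _ _))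
  have s6 : Bfun f g [x1] [x2] (W ++ [x5, x3]) x6 x4 = - Bfun f g [x1] [x2] (W ++ [x3, x5]) x6 x4 :=
    h.Bi3 W [] [] [x1] [x2] x5 x3 x6 x4 (Or.inl hW)
  have s7 : Bfun f g [x1] [x2] (W ++ [x3, x5]) x6 x4 = - Bfun f g [x1] [x2] (W ++ [x3, x5]) x4 x6 :=
    h.Bzz [x1] [x2] (W ++ [x3, x5]) x6 x4
  have s8 : Bfun f g [x1] [x2] (W ++ [x3, x5]) x4 x6 = - Bfun f g [x1] [x2] (W ++ [x3, x4]) x5 x6 :=
    h.Bl3 W [x3] [x1] [x2] x5 x4 x6 (Or.inr (List.cons_ne_nil _ _))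
  have s9 : Bfun f g [x1] (W ++ [x5, x4]) [x2] x6 x3 = - Bfun f g [x1] [x2] (W ++ [x5, x4]) x6 x3 :=
    h.B23 [x1] (W ++ [x5, x4]) [x2] x6 x3
  have s10 : Bfun f g [x1] [x2] (W ++ [x5, x4]) x6 x3 = - Bfun f g [x1] [x2] (W ++ [x5, x4]) x3 x6 :=
    h.Bzz [x1] [x2] (W ++ [x5, x4]) x6 x3
  have s11 : Bfun f g [x1] [x2] (W ++ [x5, x4]) x3 x6 = - Bfun f g [x1] [x2] (W ++ [x5, x3]) x4 x6 :=
    h.Bl3 W [x5] [x1] [x2] x4 x3 x6 (Or.inr (List.cons_ne_nil _ _))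
  have s12 : Bfun f g [x1] [x2] (W ++ [x5, x3]) x4 x6 = - Bfun f g [x1] [x2] (W ++ [x3, x5]) x4 x6 :=
    h.Bi3 W [] [] [x1] [x2] x5 x3 x4 x6 (Or.inl hW)
  have s13 : Bfun f g W [x1, x6, x3] [x2] x5 x4 = - Bfun f g [x1, x6, x3] W [x2] x5 x4 :=
    h.B12 W [x1, x6, x3] [x2] x5 x4
  have s14 : Bfun f g [x1, x6, x3] W [x2] x5 x4 = - Bfun f g [x1, x6, x3] [x2] W x5 x4 :=
    h.B23 [x1, x6, x3] W [x2] x5 x4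
  have s15 : Bfun f g [x1, x6, x3] [x2] W x5 x4 = - Bfun f g [x2] [x1, x6, x3] W x5 x4 :=
    h.B12 [x1, x6, x3] [x2] W x5 x4
  have s16 : Bfun f g [x2] [x1, x6, x3] W x5 x4 = - Bfun f g [x2] [x1, x3, x6] W x5 x4 :=
    h.Bi2 [] [x1] [] [x2] W x6 x3 x5 x4 (Or.inr (List.cons_ne_nil _ _))
  have s17 : Bfun f g [x2] [x1, x3, x6] W x5 x4 = - Bfun f g [x2] [x1, x3, x6] W x4 x5 :=
    h.Bzz [x2] [x1, x3, x6] W x5 x4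
  have s18 : Bfun f g [x2] [x1, x3, x6] W x4 x5 = - Bfun f g [x2] [x1, x3, x4] W x6 x5 :=
    h.Bl2 [] [x1, x3] [x2] W x6 x4 x5 (Or.inr (List.cons_ne_nil _ _))
  have s19 : Bfun f g [x2] [x1, x3, x4] W x6 x5 = - Bfun f g [x2] [x1, x3, x4] W x5 x6 :=
    h.Bzz [x2] [x1, x3, x4] W x6 x5
  have s20 : Bfun f g W [x1] [x2, x3, x4] x5 x6 = - Bfun f g [x1] W [x2, x3, x4] x5 x6 :=
    h.B12 W [x1] [x2, x3, x4] x5 x6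
  have s21 : Bfun f g [x1] W [x2, x3, x4] x5 x6 = - Bfun f g [x1] [x2, x3, x4] W x5 x6 :=
    h.B23 [x1] W [x2, x3, x4] x5 x6
  have s22 : Afun f g [] (W ++ [x5, x6, x3, x4]) [x1] x2 = 0 :=
    h.a1'' x1 (W ++ [x5, x6, x3, x4]) x2
  have s23 : Afun f g [] (W ++ [x5, x6]) [x1, x4, x3] x2 = - Afun f g [] [x1, x4, x3] (W ++ [x5, x6]) x2 :=
    h.r3 [] (W ++ [x5, x6]) [x1, x4, x3] x2
  have s24 : Afun f g [] [x1, x4, x3] (W ++ [x5, x6]) x2 = - Afun f g [] [x1, x3, x4] (W ++ [x5, x6]) x2 :=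
    h.Ai2 [] [] [x1] [] (W ++ [x5, x6]) x4 x3 x2 (Or.inr (List.cons_ne_nil _ _))
  have s25 : Bfun f g (W ++ [x5, x6]) [x2] [x1] x3 x4 = - Bfun f g [x2] (W ++ [x5, x6]) [x1] x3 x4 :=
    h.B12 (W ++ [x5, x6]) [x2] [x1] x3 x4
  have s26 : Bfun f g [x2] (W ++ [x5, x6]) [x1] x3 x4 = - Bfun f g [x2] [x1] (W ++ [x5, x6]) x3 x4 :=
    h.B23 [x2] (W ++ [x5, x6]) [x1] x3 x4
  have s27 : Bfun f g [x2] [x1] (W ++ [x5, x6]) x3 x4 = - Bfun f g [x1] [x2] (W ++ [x5, x6]) x3 x4 :=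
    h.B12 [x2] [x1] (W ++ [x5, x6]) x3 x4
  have s28 : Bfun f g [x2] (W ++ [x5, x4]) [x1] x6 x3 = - Bfun f g [x2] [x1] (W ++ [x5, x4]) x6 x3 :=
    h.B23 [x2] (W ++ [x5, x4]) [x1] x6 x3
  have s29 : Bfun f g [x2] [x1] (W ++ [x5, x4]) x6 x3 = - Bfun f g [x1] [x2] (W ++ [x5, x4]) x6 x3 :=
    h.B12 [x2] [x1] (W ++ [x5, x4]) x6 x3
  have s30 : Bfun f g W [x2, x6, x3] [x1] x5 x4 = - Bfun f g [x2, x6, x3] W [x1] x5 x4 :=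
    h.B12 W [x2, x6, x3] [x1] x5 x4
  have s31 : Bfun f g [x2, x6, x3] W [x1] x5 x4 = - Bfun f g [x2, x6, x3] [x1] W x5 x4 :=
    h.B23 [x2, x6, x3] W [x1] x5 x4
  have s32 : Bfun f g [x2, x6, x3] [x1] W x5 x4 = - Bfun f g [x1] [x2, x6, x3] W x5 x4 :=
    h.B12 [x2, x6, x3] [x1] W x5 x4
  have s33 : Bfun f g [x1] [x2, x6, x3] W x5 x4 = - Bfun f g [x1] [x2, x3, x6] W x5 x4 :=
    h.Bi2 [] [x2] [] [x1] W x6 x3 x5 x4 (Or.inr (List.cons_ne_nil _ _))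
  have s34 : Bfun f g [x1] [x2, x3, x6] W x5 x4 = - Bfun f g [x1] [x2, x3, x6] W x4 x5 :=
    h.Bzz [x1] [x2, x3, x6] W x5 x4
  have s35 : Bfun f g [x1] [x2, x3, x6] W x4 x5 = - Bfun f g [x1] [x2, x3, x4] W x6 x5 :=
    h.Bl2 [] [x2, x3] [x1] W x6 x4 x5 (Or.inr (List.cons_ne_nil _ _))
  have s36 : Bfun f g [x1] [x2, x3, x4] W x6 x5 = - Bfun f g [x1] [x2, x3, x4] W x5 x6 :=
    h.Bzz [x1] [x2, x3, x4] W x6 x5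
  have s37 : Bfun f g W [x2] [x1, x3, x4] x5 x6 = - Bfun f g [x2] W [x1, x3, x4] x5 x6 :=
    h.B12 W [x2] [x1, x3, x4] x5 x6
  have s38 : Bfun f g [x2] W [x1, x3, x4] x5 x6 = - Bfun f g [x2] [x1, x3, x4] W x5 x6 :=
    h.B23 [x2] W [x1, x3, x4] x5 x6
  apply tf.n6
  linear_combination (norm := module) (1 : ℤ) • r0 + (-1 : ℤ) • r1 + (1 : ℤ) • r2 + (-1 : ℤ) • r3 + (-1 : ℤ) • s0 + (-1 : ℤ) • s1 + (1 : ℤ) • s2 + (-1 : ℤ) • s3 + (1 : ℤ) • s4 + (-4 : ℤ) • s5 + (4 : ℤ) • s6 + (-4 : ℤ) • s7 + (6 : ℤ) • s8 + (1 : ℤ) • s9 + (-2 : ℤ) • s10 + (2 : ℤ) • s11 + (-2 : ℤ) • s12 + (1 : ℤ) • s13 + (-1 : ℤ) • s14 + (1 : ℤ) • s15 + (-1 : ℤ) • s16 + (1 : ℤ) • s17 + (-1 : ℤ) • s18 + (1 : ℤ) • s19 + (-1 : ℤ) • s20 + (1 : ℤ) • s21 + (1 : ℤ) • s22 + (1 : ℤ) • s23 + (-1 : ℤ) • s24 + (1 : ℤ) • s25 + (-1 : ℤ) • s26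 + (2 : ℤ) • s27 + (-1 : ℤ) • s28 + (1 : ℤ) • s29 + (-1 : ℤ) • s30 + (1 : ℤ) • s31 + (-1 : ℤ) • s32 + (1 : ℤ) • s33 + (-1 : ℤ) • s34 + (1 : ℤ) • s35 + (-1 : ℤ) • s36 + (1 : ℤ) • s37 + (-1 : ℤ) • s38

theorem y22 (h : Lvl f g) (tf : TF G) (W : List α) (hW : W ≠ [])
    (x1 x2 x3 x4 x5 x6 : α) :
    Bfun f g [x1, x2] [x3, x4] W x5 x6 = 0 := by
  have r0 : Bfun f g [x3, x5] (W ++ [x1, x6]) [] x4 x2 + Bfun f g (W ++ [x1, x4]) [x3, x2] [] x5 x6 + Bfun f g W [x3, x5, x4, x2] [] x1 x6 + Bfun f g [] (W ++ [x1, x4, x5, x6]) [] x3 x2 - Bfun f g W [x3, x5] [x2, x6] x1 x4 - Bfun f g [] (W ++ [x1, x4]) [x6, x2] x3 x5 = 0 :=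
    h.KB W [] [] x1 x4 x3 x5 x6 x2
  have r1 : Bfun f g [x2, x6] (W ++ [x1, x4]) [] x5 x3 + Bfun f g (W ++ [x1, x5]) [x2, x3] [] x6 x4 + Bfun f g W [x2, x6, x5, x3] [] x1 x4 + Bfun f g [] (W ++ [x1, x5, x6, x4]) [] x2 x3 - Bfun f g W [x2, x6] [x3, x4] x1 x5 - Bfun f g [] (W ++ [x1, x5]) [x4, x3] x2 x6 = 0 :=
    h.KB W [] [] x1 x5 x2 x6 x4 x3
  have r2 : Bfun f g [x3, x5] (W ++ [x2, x6]) [] x4 x1 + Bfun f g (W ++ [x2, x4]) [x3, x1] [] x5 x6 + Bfun f g W [x3, x5, x4, x1] [] x2 x6 + Bfun f g [] (W ++ [x2, x4, x5, x6]) [] x3 x1 - Bfun f g W [x3, x5] [x1, x6] x2 x4 - Bfun f g [] (W ++ [x2, x4]) [x6, x1] x3 x5 = 0 :=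
    h.KB W [] [] x2 x4 x3 x5 x6 x1
  have r3 : Bfun f g [x1, x6] (W ++ [x2, x4]) [] x5 x3 + Bfun f g (W ++ [x2, x5]) [x1, x3] [] x6 x4 + Bfun f g W [x1, x6, x5, x3] [] x2 x4 + Bfun f g [] (W ++ [x2, x5, x6, x4]) [] x1 x3 - Bfun f g W [x1, x6] [x3, x4] x2 x5 - Bfun f g [] (W ++ [x2, x5]) [x4, x3] x1 x6 = 0 :=
    h.KB W [] [] x2 x5 x1 x6 x4 x3
  have r4 : Bfun f g [x1, x6] (W ++ [x3, x4]) [] x5 x2 + Bfun f g (W ++ [x3, x5]) [x1, x2] [] x6 x4 + Bfun f g W [x1, x6, x5, x2] [] x3 x4 + Bfun f g [] (W ++ [x3, x5, x6, x4]) [] x1 x2 - Bfun f g W [x1, x6] [x2, x4] x3 x5 - Bfun f g [] (W ++ [x3, x5]) [x4, x2] x1 x6 = 0 :=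
    h.KB W [] [] x3 x5 x1 x6 x4 x2
  have r5 : Bfun f g [x2, x6] (W ++ [x3, x4]) [] x5 x1 + Bfun f g (W ++ [x3, x5]) [x2, x1] [] x6 x4 + Bfun f g W [x2, x6, x5, x1] [] x3 x4 + Bfun f g [] (W ++ [x3, x5, x6, x4]) [] x2 x1 - Bfun f g W [x2, x6] [x1, x4] x3 x5 - Bfun f g [] (W ++ [x3, x5]) [x4, x1] x2 x6 = 0 :=
    h.KB W [] [] x3 x5 x2 x6 x4 x1
  have s0 : Bfun f g [x3, x5] (W ++ [x1, x6]) [] x4 x2 = - Bfun f g [x3, x5] [] (W ++ [x1, x6]) x4 x2 :=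
    h.B23 [x3, x5] (W ++ [x1, x6]) [] x4 x2
  have s1 : Bfun f g [x3, x5] [] (W ++ [x1, x6]) x4 x2 = - Bfun f g [] [x3, x5] (W ++ [x1, x6]) x4 x2 :=
    h.B12 [x3, x5] [] (W ++ [x1, x6]) x4 x2
  have s2 : Bfun f g [] [x3, x5] (W ++ [x1, x6]) x4 x2 = - Bfun f g [] [x3, x5] (W ++ [x6, x1]) x4 x2 :=
    h.Bi3 W [] [] [] [x3, x5] x1 x6 x4 x2 (Or.inl hW)
  have s3 : Bfun f g [] [x3, x5] (W ++ [x6, x1]) x4 x2 = - Bfun f g [] [x3, x5] (W ++ [x6, x4]) x1 x2 :=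
    h.Bl3 W [x6] [] [x3, x5] x1 x4 x2 (Or.inr (List.cons_ne_nil _ _))
  have s4 : Bfun f g [] [x3, x5] (W ++ [x6, x4]) x1 x2 = - Bfun f g [] [x3, x1] (W ++ [x6, x4]) x5 x2 :=
    h.Bl2 [] [x3] [] (W ++ [x6, x4]) x5 x1 x2 (Or.inr (List.cons_ne_nil _ _))
  have s5 : Bfun f g [] [x3, x1] (W ++ [x6, x4]) x5 x2 = - Bfun f g [] [x3, x1] (W ++ [x6, x4]) x2 x5 :=
    h.Bzz [] [x3, x1] (W ++ [x6, x4]) x5 x2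
  have s6 : Bfun f g [] [x3, x1] (W ++ [x6, x4]) x2 x5 = - Bfun f g [] [x3, x1] (W ++ [x6, x2]) x4 x5 :=
    h.Bl3 W [x6] [] [x3, x1] x4 x2 x5 (Or.inr (List.cons_ne_nil _ _))
  have s7 : Bfun f g [] [x3, x1] (W ++ [x6, x2]) x4 x5 = - Bfun f g [] [x3, x1] (W ++ [x2, x6]) x4 x5 :=
    h.Bi3 W [] [] [] [x3, x1] x6 x2 x4 x5 (Or.inl hW)
  have s8 : Bfun f g [] [x3, x1] (W ++ [x2, x6]) x4 x5 = - Bfun f g [] [x3, x1] (W ++ [x2, x4]) x6 x5 :=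
    h.Bl3 W [x2] [] [x3, x1] x6 x4 x5 (Or.inr (List.cons_ne_nil _ _))
  have s9 : Bfun f g [] [x3, x1] (W ++ [x2, x4]) x6 x5 = - Bfun f g [] [x3, x1] (W ++ [x2, x4]) x5 x6 :=
    h.Bzz [] [x3, x1] (W ++ [x2, x4]) x6 x5
  have s10 : Bfun f g (W ++ [x1, x4]) [x3, x2] [] x5 x6 = - Bfun f g [x3, x2] (W ++ [x1, x4]) [] x5 x6 :=
    h.B12 (W ++ [x1, x4]) [x3, x2] [] x5 x6
  have s11 : Bfun f g [x3, x2] (W ++ [x1, x4]) [] x5 x6 = - Bfun f g [x3, x2] [] (W ++ [x1, x4]) x5 x6 :=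
    h.B23 [x3, x2] (W ++ [x1, x4]) [] x5 x6
  have s12 : Bfun f g [x3, x2] [] (W ++ [x1, x4]) x5 x6 = - Bfun f g [] [x3, x2] (W ++ [x1, x4]) x5 x6 :=
    h.B12 [x3, x2] [] (W ++ [x1, x4]) x5 x6
  have s13 : Bfun f g [] [x3, x2] (W ++ [x1, x4]) x5 x6 = - Bfun f g [] [x3, x2] (W ++ [x4, x1]) x5 x6 :=
    h.Bi3 W [] [] [] [x3, x2] x1 x4 x5 x6 (Or.inl hW)
  have s14 : Bfun f g [] [x3, x2] (W ++ [x4, x1]) x5 x6 = - Bfun f g [] [x3, x2] (W ++ [x4, x5]) x1 x6 :=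
    h.Bl3 W [x4] [] [x3, x2] x1 x5 x6 (Or.inr (List.cons_ne_nil _ _))
  have s15 : Bfun f g [] [x3, x2] (W ++ [x4, x5]) x1 x6 = - Bfun f g [] [x3, x1] (W ++ [x4, x5]) x2 x6 :=
    h.Bl2 [] [x3] [] (W ++ [x4, x5]) x2 x1 x6 (Or.inr (List.cons_ne_nil _ _))
  have s16 : Bfun f g [] [x3, x1] (W ++ [x4, x5]) x2 x6 = - Bfun f g [] [x3, x1] (W ++ [x4, x2]) x5 x6 :=
    h.Bl3 W [x4] [] [x3, x1] x5 x2 x6 (Or.inr (List.cons_ne_nil _ _))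
  have s17 : Bfun f g [] [x3, x1] (W ++ [x4, x2]) x5 x6 = - Bfun f g [] [x3, x1] (W ++ [x2, x4]) x5 x6 :=
    h.Bi3 W [] [] [] [x3, x1] x4 x2 x5 x6 (Or.inl hW)
  have s18 : Bfun f g W [x3, x5, x4, x2] [] x1 x6 = - Bfun f g [x3, x5, x4, x2] W [] x1 x6 :=
    h.B12 W [x3, x5, x4, x2] [] x1 x6
  have s19 : Bfun f g [x3, x5, x4, x2] W [] x1 x6 = - Bfun f g [x3, x5, x4, x2] [] W x1 x6 :=
    h.B23 [x3, x5, x4, x2] W [] x1 x6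
  have s20 : Bfun f g [x3, x5, x4, x2] [] W x1 x6 = - Bfun f g [] [x3, x5, x4, x2] W x1 x6 :=
    h.B12 [x3, x5, x4, x2] [] W x1 x6
  have s21 : Bfun f g [] [x3, x5, x4, x2] W x1 x6 = - Bfun f g [] [x3, x5, x4, x1] W x2 x6 :=
    h.Bl2 [] [x3, x5, x4] [] W x2 x1 x6 (Or.inr (List.cons_ne_nil _ _))
  have s22 : Bfun f g [] [x3, x5, x4, x1] W x2 x6 = - Bfun f g [] [x3, x5, x1, x4] W x2 x6 :=
    h.Bi2 [] [x3, x5] [] [] W x4 x1 x2 x6 (Or.inr (List.cons_ne_nil _ _))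
  have s23 : Bfun f g [] [x3, x5, x1, x4] W x2 x6 = - Bfun f g [] [x3, x1, x5, x4] W x2 x6 :=
    h.Bi2 [] [x3] [x4] [] W x5 x1 x2 x6 (Or.inr (List.cons_ne_nil _ _))
  have s24 : Bfun f g [] [x3, x1, x5, x4] W x2 x6 = - Bfun f g [] [x3, x1, x5, x2] W x4 x6 :=
    h.Bl2 [] [x3, x1, x5] [] W x4 x2 x6 (Or.inr (List.cons_ne_nil _ _))
  have s25 : Bfun f g [] [x3, x1, x5, x2] W x4 x6 = - Bfun f g [] [x3, x1, x2, x5] W x4 x6 :=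
    h.Bi2 [] [x3, x1] [] [] W x5 x2 x4 x6 (Or.inr (List.cons_ne_nil _ _))
  have s26 : Bfun f g [] [x3, x1, x2, x5] W x4 x6 = - Bfun f g [] [x3, x1, x2, x4] W x5 x6 :=
    h.Bl2 [] [x3, x1, x2] [] W x5 x4 x6 (Or.inr (List.cons_ne_nil _ _))
  have s27 : Bfun f g [] (W ++ [x1, x4, x5, x6]) [] x3 x2 = 0 :=
    h.B00_13 (W ++ [x1, x4, x5, x6]) x3 x2
  have s28 : Bfun f g W [x3, x5] [x2, x6] x1 x4 = - Bfun f g [x3, x5] W [x2, x6] x1 x4 :=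
    h.B12 W [x3, x5] [x2, x6] x1 x4
  have s29 : Bfun f g [x3, x5] W [x2, x6] x1 x4 = - Bfun f g [x3, x5] [x2, x6] W x1 x4 :=
    h.B23 [x3, x5] W [x2, x6] x1 x4
  have s30 : Bfun f g [x3, x5] [x2, x6] W x1 x4 = - Bfun f g [x2, x6] [x3, x5] W x1 x4 :=
    h.B12 [x3, x5] [x2, x6] W x1 x4
  have s31 : Bfun f g [x2, x6] [x3, x5] W x1 x4 = - Bfun f g [x2, x1] [x3, x5] W x6 x4 :=
    h.Bl1 [] [x2] [x3, x5] W x6 x1 x4 (Or.inr (List.cons_ne_nil _ _))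
  have s32 : Bfun f g [x2, x1] [x3, x5] W x6 x4 = - Bfun f g [x2, x1] [x3, x5] W x4 x6 :=
    h.Bzz [x2, x1] [x3, x5] W x6 x4
  have s33 : Bfun f g [x2, x1] [x3, x5] W x4 x6 = - Bfun f g [x2, x1] [x3, x4] W x5 x6 :=
    h.Bl2 [] [x3] [x2, x1] W x5 x4 x6 (Or.inr (List.cons_ne_nil _ _))
  have s34 : Bfun f g [] (W ++ [x1, x4]) [x6, x2] x3 x5 = - Bfun f g [] [x6, x2] (W ++ [x1, x4]) x3 x5 :=
    h.B23 [] (W ++ [x1, x4]) [x6, x2] x3 x5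
  have s35 : Bfun f g [] [x6, x2] (W ++ [x1, x4]) x3 x5 = - Bfun f g [] [x6, x2] (W ++ [x4, x1]) x3 x5 :=
    h.Bi3 W [] [] [] [x6, x2] x1 x4 x3 x5 (Or.inl hW)
  have s36 : Bfun f g [] [x6, x2] (W ++ [x4, x1]) x3 x5 = - Bfun f g [] [x6, x2] (W ++ [x4, x3]) x1 x5 :=
    h.Bl3 W [x4] [] [x6, x2] x1 x3 x5 (Or.inr (List.cons_ne_nil _ _))
  have s37 : Bfun f g [] [x6, x2] (W ++ [x4, x3]) x1 x5 = - Bfun f g [] [x6, x1] (W ++ [x4, x3]) x2 x5 :=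
    h.Bl2 [] [x6] [] (W ++ [x4, x3]) x2 x1 x5 (Or.inr (List.cons_ne_nil _ _))
  have s38 : Bfun f g [] [x6, x1] (W ++ [x4, x3]) x2 x5 = - Bfun f g [] [x6, x1] (W ++ [x4, x2]) x3 x5 :=
    h.Bl3 W [x4] [] [x6, x1] x3 x2 x5 (Or.inr (List.cons_ne_nil _ _))
  have s39 : Bfun f g [] [x6, x1] (W ++ [x4, x2]) x3 x5 = - Bfun f g [] [x6, x1] (W ++ [x2, x4]) x3 x5 :=
    h.Bi3 W [] [] [] [x6, x1] x4 x2 x3 x5 (Or.inl hW)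
  have s40 : Bfun f g [] [x6, x1] (W ++ [x2, x4]) x3 x5 = - Bfun f g [] [x6, x1] (W ++ [x2, x3]) x4 x5 :=
    h.Bl3 W [x2] [] [x6, x1] x4 x3 x5 (Or.inr (List.cons_ne_nil _ _))
  have s41 : Bfun f g [x2, x6] (W ++ [x1, x4]) [] x5 x3 = - Bfun f g [x2, x6] [] (W ++ [x1, x4]) x5 x3 :=
    h.B23 [x2, x6] (W ++ [x1, x4]) [] x5 x3
  have s42 : Bfun f g [x2, x6] [] (W ++ [x1, x4]) x5 x3 = - Bfun f g [] [x2, x6] (W ++ [x1, x4]) x5 x3 :=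
    h.B12 [x2, x6] [] (W ++ [x1, x4]) x5 x3
  have s43 : Bfun f g [] [x2, x6] (W ++ [x1, x4]) x5 x3 = - Bfun f g [] [x2, x6] (W ++ [x4, x1]) x5 x3 :=
    h.Bi3 W [] [] [] [x2, x6] x1 x4 x5 x3 (Or.inl hW)
  have s44 : Bfun f g [] [x2, x6] (W ++ [x4, x1]) x5 x3 = - Bfun f g [] [x2, x6] (W ++ [x4, x5]) x1 x3 :=
    h.Bl3 W [x4] [] [x2, x6] x1 x5 x3 (Or.inr (List.cons_ne_nil _ _))
  have s45 : Bfun f g [] [x2, x6] (W ++ [x4, x5]) x1 x3 = - Bfun f g [] [x2, x1] (W ++ [x4, x5]) x6 x3 :=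
    h.Bl2 [] [x2] [] (W ++ [x4, x5]) x6 x1 x3 (Or.inr (List.cons_ne_nil _ _))
  have s46 : Bfun f g [] [x2, x1] (W ++ [x4, x5]) x6 x3 = - Bfun f g [] [x2, x1] (W ++ [x4, x5]) x3 x6 :=
    h.Bzz [] [x2, x1] (W ++ [x4, x5]) x6 x3
  have s47 : Bfun f g [] [x2, x1] (W ++ [x4, x5]) x3 x6 = - Bfun f g [] [x2, x1] (W ++ [x4, x3]) x5 x6 :=
    h.Bl3 W [x4] [] [x2, x1] x5 x3 x6 (Or.inr (List.cons_ne_nil _ _))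
  have s48 : Bfun f g [] [x2, x1] (W ++ [x4, x3]) x5 x6 = - Bfun f g [] [x2, x1] (W ++ [x3, x4]) x5 x6 :=
    h.Bi3 W [] [] [] [x2, x1] x4 x3 x5 x6 (Or.inl hW)
  have s49 : Bfun f g (W ++ [x1, x5]) [x2, x3] [] x6 x4 = - Bfun f g [x2, x3] (W ++ [x1, x5]) [] x6 x4 :=
    h.B12 (W ++ [x1, x5]) [x2, x3] [] x6 x4
  have s50 : Bfun f g [x2, x3] (W ++ [x1, x5]) [] x6 x4 = - Bfun f g [x2, x3] [] (W ++ [x1, x5]) x6 x4 :=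
    h.B23 [x2, x3] (W ++ [x1, x5]) [] x6 x4
  have s51 : Bfun f g [x2, x3] [] (W ++ [x1, x5]) x6 x4 = - Bfun f g [] [x2, x3] (W ++ [x1, x5]) x6 x4 :=
    h.B12 [x2, x3] [] (W ++ [x1, x5]) x6 x4
  have s52 : Bfun f g [] [x2, x3] (W ++ [x1, x5]) x6 x4 = - Bfun f g [] [x2, x3] (W ++ [x5, x1]) x6 x4 :=
    h.Bi3 W [] [] [] [x2, x3] x1 x5 x6 x4 (Or.inl hW)
  have s53 : Bfun f g [] [x2, x3] (W ++ [x5, x1]) x6 x4 = - Bfun f g [] [x2, x3] (W ++ [x5, x6]) x1 x4 :=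
    h.Bl3 W [x5] [] [x2, x3] x1 x6 x4 (Or.inr (List.cons_ne_nil _ _))
  have s54 : Bfun f g [] [x2, x3] (W ++ [x5, x6]) x1 x4 = - Bfun f g [] [x2, x1] (W ++ [x5, x6]) x3 x4 :=
    h.Bl2 [] [x2] [] (W ++ [x5, x6]) x3 x1 x4 (Or.inr (List.cons_ne_nil _ _))
  have s55 : Bfun f g [] [x2, x1] (W ++ [x5, x6]) x3 x4 = - Bfun f g [] [x2, x1] (W ++ [x5, x3]) x6 x4 :=
    h.Bl3 W [x5] [] [x2, x1] x6 x3 x4 (Or.inr (List.cons_ne_nil _ _))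
  have s56 : Bfun f g [] [x2, x1] (W ++ [x5, x3]) x6 x4 = - Bfun f g [] [x2, x1] (W ++ [x3, x5]) x6 x4 :=
    h.Bi3 W [] [] [] [x2, x1] x5 x3 x6 x4 (Or.inl hW)
  have s57 : Bfun f g [] [x2, x1] (W ++ [x3, x5]) x6 x4 = - Bfun f g [] [x2, x1] (W ++ [x3, x5]) x4 x6 :=
    h.Bzz [] [x2, x1] (W ++ [x3, x5]) x6 x4
  have s58 : Bfun f g [] [x2, x1] (W ++ [x3, x5]) x4 x6 = - Bfun f g [] [x2, x1] (W ++ [x3, x4]) x5 x6 :=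
    h.Bl3 W [x3] [] [x2, x1] x5 x4 x6 (Or.inr (List.cons_ne_nil _ _))
  have s59 : Bfun f g W [x2, x6, x5, x3] [] x1 x4 = - Bfun f g [x2, x6, x5, x3] W [] x1 x4 :=
    h.B12 W [x2, x6, x5, x3] [] x1 x4
  have s60 : Bfun f g [x2, x6, x5, x3] W [] x1 x4 = - Bfun f g [x2, x6, x5, x3] [] W x1 x4 :=
    h.B23 [x2, x6, x5, x3] W [] x1 x4
  have s61 : Bfun f g [x2, x6, x5, x3] [] W x1 x4 = - Bfun f g [] [x2, x6, x5, x3] W x1 x4 :=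
    h.B12 [x2, x6, x5, x3] [] W x1 x4
  have s62 : Bfun f g [] [x2, x6, x5, x3] W x1 x4 = - Bfun f g [] [x2, x6, x5, x1] W x3 x4 :=
    h.Bl2 [] [x2, x6, x5] [] W x3 x1 x4 (Or.inr (List.cons_ne_nil _ _))
  have s63 : Bfun f g [] [x2, x6, x5, x1] W x3 x4 = - Bfun f g [] [x2, x6, x1, x5] W x3 x4 :=
    h.Bi2 [] [x2, x6] [] [] W x5 x1 x3 x4 (Or.inr (List.cons_ne_nil _ _))
  have s64 : Bfun f g [] [x2, x6, x1, x5] W x3 x4 = - Bfun f g [] [x2, x1, x6, x5] W x3 x4 :=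
    h.Bi2 [] [x2] [x5] [] W x6 x1 x3 x4 (Or.inr (List.cons_ne_nil _ _))
  have s65 : Bfun f g [] [x2, x1, x6, x5] W x3 x4 = - Bfun f g [] [x2, x1, x6, x3] W x5 x4 :=
    h.Bl2 [] [x2, x1, x6] [] W x5 x3 x4 (Or.inr (List.cons_ne_nil _ _))
  have s66 : Bfun f g [] [x2, x1, x6, x3] W x5 x4 = - Bfun f g [] [x2, x1, x3, x6] W x5 x4 :=
    h.Bi2 [] [x2, x1] [] [] W x6 x3 x5 x4 (Or.inr (List.cons_ne_nil _ _))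
  have s67 : Bfun f g [] [x2, x1, x3, x6] W x5 x4 = - Bfun f g [] [x2, x1, x3, x6] W x4 x5 :=
    h.Bzz [] [x2, x1, x3, x6] W x5 x4
  have s68 : Bfun f g [] [x2, x1, x3, x6] W x4 x5 = - Bfun f g [] [x2, x1, x3, x4] W x6 x5 :=
    h.Bl2 [] [x2, x1, x3] [] W x6 x4 x5 (Or.inr (List.cons_ne_nil _ _))
  have s69 : Bfun f g [] [x2, x1, x3, x4] W x6 x5 = - Bfun f g [] [x2, x1, x3, x4] W x5 x6 :=
    h.Bzz [] [x2, x1, x3, x4] W x6 x5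
  have s70 : Bfun f g [] (W ++ [x1, x5, x6, x4]) [] x2 x3 = 0 :=
    h.B00_13 (W ++ [x1, x5, x6, x4]) x2 x3
  have s71 : Bfun f g W [x2, x6] [x3, x4] x1 x5 = - Bfun f g [x2, x6] W [x3, x4] x1 x5 :=
    h.B12 W [x2, x6] [x3, x4] x1 x5
  have s72 : Bfun f g [x2, x6] W [x3, x4] x1 x5 = - Bfun f g [x2, x6] [x3, x4] W x1 x5 :=
    h.B23 [x2, x6] W [x3, x4] x1 x5
  have s73 : Bfun f g [x2, x6] [x3, x4] W x1 x5 = - Bfun f g [x2, x1] [x3, x4] W x6 x5 :=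
    h.Bl1 [] [x2] [x3, x4] W x6 x1 x5 (Or.inr (List.cons_ne_nil _ _))
  have s74 : Bfun f g [x2, x1] [x3, x4] W x6 x5 = - Bfun f g [x2, x1] [x3, x4] W x5 x6 :=
    h.Bzz [x2, x1] [x3, x4] W x6 x5
  have s75 : Bfun f g [] (W ++ [x1, x5]) [x4, x3] x2 x6 = - Bfun f g [] [x4, x3] (W ++ [x1, x5]) x2 x6 :=
    h.B23 [] (W ++ [x1, x5]) [x4, x3] x2 x6
  have s76 : Bfun f g [] [x4, x3] (W ++ [x1, x5]) x2 x6 = - Bfun f g [] [x4, x3] (W ++ [x5, x1]) x2 x6 :=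
    h.Bi3 W [] [] [] [x4, x3] x1 x5 x2 x6 (Or.inl hW)
  have s77 : Bfun f g [] [x4, x3] (W ++ [x5, x1]) x2 x6 = - Bfun f g [] [x4, x3] (W ++ [x5, x2]) x1 x6 :=
    h.Bl3 W [x5] [] [x4, x3] x1 x2 x6 (Or.inr (List.cons_ne_nil _ _))
  have s78 : Bfun f g [] [x4, x3] (W ++ [x5, x2]) x1 x6 = - Bfun f g [] [x4, x1] (W ++ [x5, x2]) x3 x6 :=
    h.Bl2 [] [x4] [] (W ++ [x5, x2]) x3 x1 x6 (Or.inr (List.cons_ne_nil _ _))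
  have s79 : Bfun f g [] [x4, x1] (W ++ [x5, x2]) x3 x6 = - Bfun f g [] [x4, x1] (W ++ [x2, x5]) x3 x6 :=
    h.Bi3 W [] [] [] [x4, x1] x5 x2 x3 x6 (Or.inl hW)
  have s80 : Bfun f g [] [x4, x1] (W ++ [x2, x5]) x3 x6 = - Bfun f g [] [x4, x1] (W ++ [x2, x3]) x5 x6 :=
    h.Bl3 W [x2] [] [x4, x1] x5 x3 x6 (Or.inr (List.cons_ne_nil _ _))
  have s81 : Bfun f g [x3, x5] (W ++ [x2, x6]) [] x4 x1 = - Bfun f g [x3, x5] [] (W ++ [x2, x6]) x4 x1 :=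
    h.B23 [x3, x5] (W ++ [x2, x6]) [] x4 x1
  have s82 : Bfun f g [x3, x5] [] (W ++ [x2, x6]) x4 x1 = - Bfun f g [] [x3, x5] (W ++ [x2, x6]) x4 x1 :=
    h.B12 [x3, x5] [] (W ++ [x2, x6]) x4 x1
  have s83 : Bfun f g [] [x3, x5] (W ++ [x2, x6]) x4 x1 = - Bfun f g [] [x3, x5] (W ++ [x2, x6]) x1 x4 :=
    h.Bzz [] [x3, x5] (W ++ [x2, x6]) x4 x1
  have s84 : Bfun f g [] [x3, x5] (W ++ [x2, x6]) x1 x4 = - Bfun f g [] [x3, x1] (W ++ [x2, x6]) x5 x4 :=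
    h.Bl2 [] [x3] [] (W ++ [x2, x6]) x5 x1 x4 (Or.inr (List.cons_ne_nil _ _))
  have s85 : Bfun f g [] [x3, x1] (W ++ [x2, x6]) x5 x4 = - Bfun f g [] [x3, x1] (W ++ [x2, x6]) x4 x5 :=
    h.Bzz [] [x3, x1] (W ++ [x2, x6]) x5 x4
  have s86 : Bfun f g (W ++ [x2, x4]) [x3, x1] [] x5 x6 = - Bfun f g [x3, x1] (W ++ [x2, x4]) [] x5 x6 :=
    h.B12 (W ++ [x2, x4]) [x3, x1] [] x5 x6
  have s87 : Bfun f g [x3, x1] (W ++ [x2, x4]) [] x5 x6 = - Bfun f g [x3, x1] [] (W ++ [x2, x4]) x5 x6 :=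
    h.B23 [x3, x1] (W ++ [x2, x4]) [] x5 x6
  have s88 : Bfun f g [x3, x1] [] (W ++ [x2, x4]) x5 x6 = - Bfun f g [] [x3, x1] (W ++ [x2, x4]) x5 x6 :=
    h.B12 [x3, x1] [] (W ++ [x2, x4]) x5 x6
  have s89 : Bfun f g W [x3, x5, x4, x1] [] x2 x6 = - Bfun f g [x3, x5, x4, x1] W [] x2 x6 :=
    h.B12 W [x3, x5, x4, x1] [] x2 x6
  have s90 : Bfun f g [x3, x5, x4, x1] W [] x2 x6 = - Bfun f g [x3, x5, x4, x1] [] W x2 x6 :=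
    h.B23 [x3, x5, x4, x1] W [] x2 x6
  have s91 : Bfun f g [x3, x5, x4, x1] [] W x2 x6 = - Bfun f g [] [x3, x5, x4, x1] W x2 x6 :=
    h.B12 [x3, x5, x4, x1] [] W x2 x6
  have s92 : Bfun f g [] (W ++ [x2, x4, x5, x6]) [] x3 x1 = 0 :=
    h.B00_13 (W ++ [x2, x4, x5, x6]) x3 x1
  have s93 : Bfun f g W [x3, x5] [x1, x6] x2 x4 = - Bfun f g [x3, x5] W [x1, x6] x2 x4 :=
    h.B12 W [x3, x5] [x1, x6] x2 x4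
  have s94 : Bfun f g [x3, x5] W [x1, x6] x2 x4 = - Bfun f g [x3, x5] [x1, x6] W x2 x4 :=
    h.B23 [x3, x5] W [x1, x6] x2 x4
  have s95 : Bfun f g [x3, x5] [x1, x6] W x2 x4 = - Bfun f g [x1, x6] [x3, x5] W x2 x4 :=
    h.B12 [x3, x5] [x1, x6] W x2 x4
  have s96 : Bfun f g [x1, x6] [x3, x5] W x2 x4 = - Bfun f g [x1, x2] [x3, x5] W x6 x4 :=
    h.Bl1 [] [x1] [x3, x5] W x6 x2 x4 (Or.inr (List.cons_ne_nil _ _))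
  have s97 : Bfun f g [x1, x2] [x3, x5] W x6 x4 = - Bfun f g [x1, x2] [x3, x5] W x4 x6 :=
    h.Bzz [x1, x2] [x3, x5] W x6 x4
  have s98 : Bfun f g [x1, x2] [x3, x5] W x4 x6 = - Bfun f g [x1, x2] [x3, x4] W x5 x6 :=
    h.Bl2 [] [x3] [x1, x2] W x5 x4 x6 (Or.inr (List.cons_ne_nil _ _))
  have s99 : Bfun f g [] (W ++ [x2, x4]) [x6, x1] x3 x5 = - Bfun f g [] [x6, x1] (W ++ [x2, x4]) x3 x5 :=
    h.B23 [] (W ++ [x2, x4]) [x6, x1] x3 x5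
  have s100 : Bfun f g [x1, x6] (W ++ [x2, x4]) [] x5 x3 = - Bfun f g [x1, x6] [] (W ++ [x2, x4]) x5 x3 :=
    h.B23 [x1, x6] (W ++ [x2, x4]) [] x5 x3
  have s101 : Bfun f g [x1, x6] [] (W ++ [x2, x4]) x5 x3 = - Bfun f g [] [x1, x6] (W ++ [x2, x4]) x5 x3 :=
    h.B12 [x1, x6] [] (W ++ [x2, x4]) x5 x3
  have s102 : Bfun f g [] [x1, x6] (W ++ [x2, x4]) x5 x3 = - Bfun f g [] [x1, x6] (W ++ [x4, x2]) x5 x3 :=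
    h.Bi3 W [] [] [] [x1, x6] x2 x4 x5 x3 (Or.inl hW)
  have s103 : Bfun f g [] [x1, x6] (W ++ [x4, x2]) x5 x3 = - Bfun f g [] [x1, x6] (W ++ [x4, x5]) x2 x3 :=
    h.Bl3 W [x4] [] [x1, x6] x2 x5 x3 (Or.inr (List.cons_ne_nil _ _))
  have s104 : Bfun f g [] [x1, x6] (W ++ [x4, x5]) x2 x3 = - Bfun f g [] [x1, x2] (W ++ [x4, x5]) x6 x3 :=
    h.Bl2 [] [x1] [] (W ++ [x4, x5]) x6 x2 x3 (Or.inr (List.cons_ne_nil _ _))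
  have s105 : Bfun f g [] [x1, x2] (W ++ [x4, x5]) x6 x3 = - Bfun f g [] [x1, x2] (W ++ [x4, x5]) x3 x6 :=
    h.Bzz [] [x1, x2] (W ++ [x4, x5]) x6 x3
  have s106 : Bfun f g [] [x1, x2] (W ++ [x4, x5]) x3 x6 = - Bfun f g [] [x1, x2] (W ++ [x4, x3]) x5 x6 :=
    h.Bl3 W [x4] [] [x1, x2] x5 x3 x6 (Or.inr (List.cons_ne_nil _ _))
  have s107 : Bfun f g [] [x1, x2] (W ++ [x4, x3]) x5 x6 = - Bfun f g [] [x1, x2] (W ++ [x3, x4]) x5 x6 :=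
    h.Bi3 W [] [] [] [x1, x2] x4 x3 x5 x6 (Or.inl hW)
  have s108 : Bfun f g (W ++ [x2, x5]) [x1, x3] [] x6 x4 = - Bfun f g [x1, x3] (W ++ [x2, x5]) [] x6 x4 :=
    h.B12 (W ++ [x2, x5]) [x1, x3] [] x6 x4
  have s109 : Bfun f g [x1, x3] (W ++ [x2, x5]) [] x6 x4 = - Bfun f g [x1, x3] [] (W ++ [x2, x5]) x6 x4 :=
    h.B23 [x1, x3] (W ++ [x2, x5]) [] x6 x4
  have s110 : Bfun f g [x1, x3] [] (W ++ [x2, x5]) x6 x4 = - Bfun f g [] [x1, x3] (W ++ [x2, x5]) x6 x4 :=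
    h.B12 [x1, x3] [] (W ++ [x2, x5]) x6 x4
  have s111 : Bfun f g [] [x1, x3] (W ++ [x2, x5]) x6 x4 = - Bfun f g [] [x1, x3] (W ++ [x5, x2]) x6 x4 :=
    h.Bi3 W [] [] [] [x1, x3] x2 x5 x6 x4 (Or.inl hW)
  have s112 : Bfun f g [] [x1, x3] (W ++ [x5, x2]) x6 x4 = - Bfun f g [] [x1, x3] (W ++ [x5, x6]) x2 x4 :=
    h.Bl3 W [x5] [] [x1, x3] x2 x6 x4 (Or.inr (List.cons_ne_nil _ _))
  have s113 : Bfun f g [] [x1, x3] (W ++ [x5, x6]) x2 x4 = - Bfun f g [] [x1, x2] (W ++ [x5, x6]) x3 x4 :=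
    h.Bl2 [] [x1] [] (W ++ [x5, x6]) x3 x2 x4 (Or.inr (List.cons_ne_nil _ _))
  have s114 : Bfun f g [] [x1, x2] (W ++ [x5, x6]) x3 x4 = - Bfun f g [] [x1, x2] (W ++ [x5, x3]) x6 x4 :=
    h.Bl3 W [x5] [] [x1, x2] x6 x3 x4 (Or.inr (List.cons_ne_nil _ _))
  have s115 : Bfun f g [] [x1, x2] (W ++ [x5, x3]) x6 x4 = - Bfun f g [] [x1, x2] (W ++ [x3, x5]) x6 x4 :=
    h.Bi3 W [] [] [] [x1, x2] x5 x3 x6 x4 (Or.inl hW)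
  have s116 : Bfun f g [] [x1, x2] (W ++ [x3, x5]) x6 x4 = - Bfun f g [] [x1, x2] (W ++ [x3, x5]) x4 x6 :=
    h.Bzz [] [x1, x2] (W ++ [x3, x5]) x6 x4
  have s117 : Bfun f g [] [x1, x2] (W ++ [x3, x5]) x4 x6 = - Bfun f g [] [x1, x2] (W ++ [x3, x4]) x5 x6 :=
    h.Bl3 W [x3] [] [x1, x2] x5 x4 x6 (Or.inr (List.cons_ne_nil _ _))
  have s118 : Bfun f g W [x1, x6, x5, x3] [] x2 x4 = - Bfun f g [x1, x6, x5, x3] W [] x2 x4 :=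
    h.B12 W [x1, x6, x5, x3] [] x2 x4
  have s119 : Bfun f g [x1, x6, x5, x3] W [] x2 x4 = - Bfun f g [x1, x6, x5, x3] [] W x2 x4 :=
    h.B23 [x1, x6, x5, x3] W [] x2 x4
  have s120 : Bfun f g [x1, x6, x5, x3] [] W x2 x4 = - Bfun f g [] [x1, x6, x5, x3] W x2 x4 :=
    h.B12 [x1, x6, x5, x3] [] W x2 x4
  have s121 : Bfun f g [] [x1, x6, x5, x3] W x2 x4 = - Bfun f g [] [x1, x6, x5, x2] W x3 x4 :=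
    h.Bl2 [] [x1, x6, x5] [] W x3 x2 x4 (Or.inr (List.cons_ne_nil _ _))
  have s122 : Bfun f g [] [x1, x6, x5, x2] W x3 x4 = - Bfun f g [] [x1, x6, x2, x5] W x3 x4 :=
    h.Bi2 [] [x1, x6] [] [] W x5 x2 x3 x4 (Or.inr (List.cons_ne_nil _ _))
  have s123 : Bfun f g [] [x1, x6, x2, x5] W x3 x4 = - Bfun f g [] [x1, x2, x6, x5] W x3 x4 :=
    h.Bi2 [] [x1] [x5] [] W x6 x2 x3 x4 (Or.inr (List.cons_ne_nil _ _))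
  have s124 : Bfun f g [] [x1, x2, x6, x5] W x3 x4 = - Bfun f g [] [x1, x2, x6, x3] W x5 x4 :=
    h.Bl2 [] [x1, x2, x6] [] W x5 x3 x4 (Or.inr (List.cons_ne_nil _ _))
  have s125 : Bfun f g [] [x1, x2, x6, x3] W x5 x4 = - Bfun f g [] [x1, x2, x3, x6] W x5 x4 :=
    h.Bi2 [] [x1, x2] [] [] W x6 x3 x5 x4 (Or.inr (List.cons_ne_nil _ _))
  have s126 : Bfun f g [] [x1, x2, x3, x6] W x5 x4 = - Bfun f g [] [x1, x2, x3, x6] W x4 x5 :=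
    h.Bzz [] [x1, x2, x3, x6] W x5 x4
  have s127 : Bfun f g [] [x1, x2, x3, x6] W x4 x5 = - Bfun f g [] [x1, x2, x3, x4] W x6 x5 :=
    h.Bl2 [] [x1, x2, x3] [] W x6 x4 x5 (Or.inr (List.cons_ne_nil _ _))
  have s128 : Bfun f g [] [x1, x2, x3, x4] W x6 x5 = - Bfun f g [] [x1, x2, x3, x4] W x5 x6 :=
    h.Bzz [] [x1, x2, x3, x4] W x6 x5
  have s129 : Bfun f g [] (W ++ [x2, x5, x6, x4]) [] x1 x3 = 0 :=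
    h.B00_13 (W ++ [x2, x5, x6, x4]) x1 x3
  have s130 : Bfun f g W [x1, x6] [x3, x4] x2 x5 = - Bfun f g [x1, x6] W [x3, x4] x2 x5 :=
    h.B12 W [x1, x6] [x3, x4] x2 x5
  have s131 : Bfun f g [x1, x6] W [x3, x4] x2 x5 = - Bfun f g [x1, x6] [x3, x4] W x2 x5 :=
    h.B23 [x1, x6] W [x3, x4] x2 x5
  have s132 : Bfun f g [x1, x6] [x3, x4] W x2 x5 = - Bfun f g [x1, x2] [x3, x4] W x6 x5 :=
    h.Bl1 [] [x1] [x3, x4] W x6 x2 x5 (Or.inr (List.cons_ne_nil _ _))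
  have s133 : Bfun f g [x1, x2] [x3, x4] W x6 x5 = - Bfun f g [x1, x2] [x3, x4] W x5 x6 :=
    h.Bzz [x1, x2] [x3, x4] W x6 x5
  have s134 : Bfun f g [] (W ++ [x2, x5]) [x4, x3] x1 x6 = - Bfun f g [] [x4, x3] (W ++ [x2, x5]) x1 x6 :=
    h.B23 [] (W ++ [x2, x5]) [x4, x3] x1 x6
  have s135 : Bfun f g [] [x4, x3] (W ++ [x2, x5]) x1 x6 = - Bfun f g [] [x4, x1] (W ++ [x2, x5]) x3 x6 :=
    h.Bl2 [] [x4] [] (W ++ [x2, x5]) x3 x1 x6 (Or.inr (List.cons_ne_nil _ _))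
  have s136 : Bfun f g [x1, x6] (W ++ [x3, x4]) [] x5 x2 = - Bfun f g [x1, x6] [] (W ++ [x3, x4]) x5 x2 :=
    h.B23 [x1, x6] (W ++ [x3, x4]) [] x5 x2
  have s137 : Bfun f g [x1, x6] [] (W ++ [x3, x4]) x5 x2 = - Bfun f g [] [x1, x6] (W ++ [x3, x4]) x5 x2 :=
    h.B12 [x1, x6] [] (W ++ [x3, x4]) x5 x2
  have s138 : Bfun f g [] [x1, x6] (W ++ [x3, x4]) x5 x2 = - Bfun f g [] [x1, x6] (W ++ [x3, x4]) x2 x5 :=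
    h.Bzz [] [x1, x6] (W ++ [x3, x4]) x5 x2
  have s139 : Bfun f g [] [x1, x6] (W ++ [x3, x4]) x2 x5 = - Bfun f g [] [x1, x2] (W ++ [x3, x4]) x6 x5 :=
    h.Bl2 [] [x1] [] (W ++ [x3, x4]) x6 x2 x5 (Or.inr (List.cons_ne_nil _ _))
  have s140 : Bfun f g [] [x1, x2] (W ++ [x3, x4]) x6 x5 = - Bfun f g [] [x1, x2] (W ++ [x3, x4]) x5 x6 :=
    h.Bzz [] [x1, x2] (W ++ [x3, x4]) x6 x5
  have s141 : Bfun f g (W ++ [x3, x5]) [x1, x2] [] x6 x4 = - Bfun f g [x1, x2] (W ++ [x3, x5]) [] x6 x4 :=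
    h.B12 (W ++ [x3, x5]) [x1, x2] [] x6 x4
  have s142 : Bfun f g [x1, x2] (W ++ [x3, x5]) [] x6 x4 = - Bfun f g [x1, x2] [] (W ++ [x3, x5]) x6 x4 :=
    h.B23 [x1, x2] (W ++ [x3, x5]) [] x6 x4
  have s143 : Bfun f g [x1, x2] [] (W ++ [x3, x5]) x6 x4 = - Bfun f g [] [x1, x2] (W ++ [x3, x5]) x6 x4 :=
    h.B12 [x1, x2] [] (W ++ [x3, x5]) x6 x4
  have s144 : Bfun f g W [x1, x6, x5, x2] [] x3 x4 = - Bfun f g [x1, x6, x5, x2] W [] x3 x4 :=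
    h.B12 W [x1, x6, x5, x2] [] x3 x4
  have s145 : Bfun f g [x1, x6, x5, x2] W [] x3 x4 = - Bfun f g [x1, x6, x5, x2] [] W x3 x4 :=
    h.B23 [x1, x6, x5, x2] W [] x3 x4
  have s146 : Bfun f g [x1, x6, x5, x2] [] W x3 x4 = - Bfun f g [] [x1, x6, x5, x2] W x3 x4 :=
    h.B12 [x1, x6, x5, x2] [] W x3 x4
  have s147 : Bfun f g [] (W ++ [x3, x5, x6, x4]) [] x1 x2 = 0 :=
    h.B00_13 (W ++ [x3, x5, x6, x4]) x1 x2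
  have s148 : Bfun f g W [x1, x6] [x2, x4] x3 x5 = - Bfun f g [x1, x6] W [x2, x4] x3 x5 :=
    h.B12 W [x1, x6] [x2, x4] x3 x5
  have s149 : Bfun f g [x1, x6] W [x2, x4] x3 x5 = - Bfun f g [x1, x6] [x2, x4] W x3 x5 :=
    h.B23 [x1, x6] W [x2, x4] x3 x5
  have s150 : Bfun f g [x1, x6] [x2, x4] W x3 x5 = - Bfun f g [x1, x3] [x2, x4] W x6 x5 :=
    h.Bl1 [] [x1] [x2, x4] W x6 x3 x5 (Or.inr (List.cons_ne_nil _ _))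
  have s151 : Bfun f g [x1, x3] [x2, x4] W x6 x5 = - Bfun f g [x1, x3] [x2, x4] W x5 x6 :=
    h.Bzz [x1, x3] [x2, x4] W x6 x5
  have s152 : Bfun f g [] (W ++ [x3, x5]) [x4, x2] x1 x6 = - Bfun f g [] [x4, x2] (W ++ [x3, x5]) x1 x6 :=
    h.B23 [] (W ++ [x3, x5]) [x4, x2] x1 x6
  have s153 : Bfun f g [] [x4, x2] (W ++ [x3, x5]) x1 x6 = - Bfun f g [] [x4, x1] (W ++ [x3, x5]) x2 x6 :=
    h.Bl2 [] [x4] [] (W ++ [x3, x5]) x2 x1 x6 (Or.inr (List.cons_ne_nil _ _))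
  have s154 : Bfun f g [] [x4, x1] (W ++ [x3, x5]) x2 x6 = - Bfun f g [] [x4, x1] (W ++ [x3, x2]) x5 x6 :=
    h.Bl3 W [x3] [] [x4, x1] x5 x2 x6 (Or.inr (List.cons_ne_nil _ _))
  have s155 : Bfun f g [] [x4, x1] (W ++ [x3, x2]) x5 x6 = - Bfun f g [] [x4, x1] (W ++ [x2, x3]) x5 x6 :=
    h.Bi3 W [] [] [] [x4, x1] x3 x2 x5 x6 (Or.inl hW)
  have s156 : Bfun f g [x2, x6] (W ++ [x3, x4]) [] x5 x1 = - Bfun f g [x2, x6] [] (W ++ [x3, x4]) x5 x1 :=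
    h.B23 [x2, x6] (W ++ [x3, x4]) [] x5 x1
  have s157 : Bfun f g [x2, x6] [] (W ++ [x3, x4]) x5 x1 = - Bfun f g [] [x2, x6] (W ++ [x3, x4]) x5 x1 :=
    h.B12 [x2, x6] [] (W ++ [x3, x4]) x5 x1
  have s158 : Bfun f g [] [x2, x6] (W ++ [x3, x4]) x5 x1 = - Bfun f g [] [x2, x6] (W ++ [x3, x4]) x1 x5 :=
    h.Bzz [] [x2, x6] (W ++ [x3, x4]) x5 x1
  have s159 : Bfun f g [] [x2, x6] (W ++ [x3, x4]) x1 x5 = - Bfun f g [] [x2, x1] (W ++ [x3, x4]) x6 x5 :=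
    h.Bl2 [] [x2] [] (W ++ [x3, x4]) x6 x1 x5 (Or.inr (List.cons_ne_nil _ _))
  have s160 : Bfun f g [] [x2, x1] (W ++ [x3, x4]) x6 x5 = - Bfun f g [] [x2, x1] (W ++ [x3, x4]) x5 x6 :=
    h.Bzz [] [x2, x1] (W ++ [x3, x4]) x6 x5
  have s161 : Bfun f g (W ++ [x3, x5]) [x2, x1] [] x6 x4 = - Bfun f g [x2, x1] (W ++ [x3, x5]) [] x6 x4 :=
    h.B12 (W ++ [x3, x5]) [x2, x1] [] x6 x4
  have s162 : Bfun f g [x2, x1] (W ++ [x3, x5]) [] x6 x4 = - Bfun f g [x2, x1] [] (W ++ [x3, x5]) x6 x4 :=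
    h.B23 [x2, x1] (W ++ [x3, x5]) [] x6 x4
  have s163 : Bfun f g [x2, x1] [] (W ++ [x3, x5]) x6 x4 = - Bfun f g [] [x2, x1] (W ++ [x3, x5]) x6 x4 :=
    h.B12 [x2, x1] [] (W ++ [x3, x5]) x6 x4
  have s164 : Bfun f g W [x2, x6, x5, x1] [] x3 x4 = - Bfun f g [x2, x6, x5, x1] W [] x3 x4 :=
    h.B12 W [x2, x6, x5, x1] [] x3 x4
  have s165 : Bfun f g [x2, x6, x5, x1] W [] x3 x4 = - Bfun f g [x2, x6, x5, x1] [] W x3 x4 :=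
    h.B23 [x2, x6, x5, x1] W [] x3 x4
  have s166 : Bfun f g [x2, x6, x5, x1] [] W x3 x4 = - Bfun f g [] [x2, x6, x5, x1] W x3 x4 :=
    h.B12 [x2, x6, x5, x1] [] W x3 x4
  have s167 : Bfun f g [] (W ++ [x3, x5, x6, x4]) [] x2 x1 = 0 :=
    h.B00_13 (W ++ [x3, x5, x6, x4]) x2 x1
  have s168 : Bfun f g W [x2, x6] [x1, x4] x3 x5 = - Bfun f g [x2, x6] W [x1, x4] x3 x5 :=
    h.B12 W [x2, x6] [x1, x4] x3 x5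
  have s169 : Bfun f g [x2, x6] W [x1, x4] x3 x5 = - Bfun f g [x2, x6] [x1, x4] W x3 x5 :=
    h.B23 [x2, x6] W [x1, x4] x3 x5
  have s170 : Bfun f g [x2, x6] [x1, x4] W x3 x5 = - Bfun f g [x1, x4] [x2, x6] W x3 x5 :=
    h.B12 [x2, x6] [x1, x4] W x3 x5
  have s171 : Bfun f g [x1, x4] [x2, x6] W x3 x5 = - Bfun f g [x1, x3] [x2, x6] W x4 x5 :=
    h.Bl1 [] [x1] [x2, x6] W x4 x3 x5 (Or.inr (List.cons_ne_nil _ _))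
  have s172 : Bfun f g [x1, x3] [x2, x6] W x4 x5 = - Bfun f g [x1, x3] [x2, x4] W x6 x5 :=
    h.Bl2 [] [x2] [x1, x3] W x6 x4 x5 (Or.inr (List.cons_ne_nil _ _))
  have s173 : Bfun f g [] (W ++ [x3, x5]) [x4, x1] x2 x6 = - Bfun f g [] [x4, x1] (W ++ [x3, x5]) x2 x6 :=
    h.B23 [] (W ++ [x3, x5]) [x4, x1] x2 x6
  apply tf.n2
  linear_combination (norm := module) (-1 : ℤ) • r0 + (1 : ℤ) • r1 + (-1 : ℤ) • r2 + (-1 : ℤ) • r3 + (-1 : ℤ) • r4 + (1 : ℤ) • r5 + (1 : ℤ) • s0 + (-1 : ℤ) • s1 + (1 : ℤ) • s2 + (-1 : ℤ) • s3 + (1 : ℤ) • s4 + (-1 : ℤ) • s5 + (1 : ℤ) • s6 + (-1 : ℤ) • s7 + (1 : ℤ) • s10 + (-1 : ℤ) • s11 + (1 : ℤ) • s12 + (-1 : ℤ) • s13 + (1 : ℤ) • s14 + (-1 : ℤ) • s15 + (1 : ℤ) • s16 + (-1 : ℤ) • s17 + (1 : ℤ) • s18 + (-1 : ℤ) • s19 + (1 : ℤ) • s20 + (-1 : ℤ) • s21 + (1 : ℤ) • s27 + (-1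 : ℤ) • s28 + (1 : ℤ) • s29 + (-1 : ℤ) • s30 + (1 : ℤ) • s31 + (-1 : ℤ) • s32 + (1 : ℤ) • s33 + (-1 : ℤ) • s34 + (1 : ℤ) • s35 + (-1 : ℤ) • s36 + (1 : ℤ) • s37 + (-1 : ℤ) • s38 + (1 : ℤ) • s39 + (-1 : ℤ) • s41 + (1 : ℤ) • s42 + (-1 : ℤ) • s43 + (1 : ℤ) • s44 + (-1 : ℤ) • s45 + (1 : ℤ) • s46 + (-1 : ℤ) • s47 + (1 : ℤ) • s48 + (-1 : ℤ) • s49 + (1 : ℤ) • s50 + (-1 : ℤ) • s51 + (1 : ℤ) • s52 + (-1 : ℤ) • s53 + (1 : ℤ) • s54 + (-1 : ℤ) • s55 + (1 : ℤ) • s56 + (-1 : ℤ) • s59 + (1 : ℤ) • s60 + (-1 : ℤ) • s61 + (1 : ℤ) • s62 + (-1 : ℤ) • s70 + (1 : ℤ) • s71 + (-1 : ℤ) • s72 + (1 : ℤ) • s73 + (-1 : ℤ) • s74 + (1 : ℤ) • s75 + (-1 : ℤ) • s76 + (1 : ℤ) • s77 + (-1 : ℤ) • s78 + (1 : ℤ) • s79 + (-2 : ℤ) • s80 + (1 : ℤ) • s81 + (-1 : ℤ) • s82 + (1 : ℤ) • s83 + (-1 : ℤ) • s84 + (1 : ℤ) • s85 + (1 : ℤ) •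 s86 + (-1 : ℤ) • s87 + (1 : ℤ) • s88 + (1 : ℤ) • s89 + (-1 : ℤ) • s90 + (1 : ℤ) • s91 + (1 : ℤ) • s92 + (-1 : ℤ) • s93 + (1 : ℤ) • s94 + (-1 : ℤ) • s95 + (1 : ℤ) • s96 + (-1 : ℤ) • s97 + (1 : ℤ) • s98 + (-1 : ℤ) • s99 + (1 : ℤ) • s100 + (-1 : ℤ) • s101 + (1 : ℤ) • s102 + (-1 : ℤ) • s103 + (1 : ℤ) • s104 + (-1 : ℤ) • s105 + (1 : ℤ) • s106 + (-1 : ℤ) • s107 + (1 : ℤ) • s108 + (-1 : ℤ) • s109 + (1 : ℤ) • s110 + (-1 : ℤ) • s111 + (1 : ℤ) • s112 + (-1 : ℤ) • s113 + (1 : ℤ) • s114 + (-1 : ℤ) • s115 + (1 : ℤ) • s118 + (-1 : ℤ) • s119 + (1 : ℤ) • s120 + (-1 : ℤ) • s121 + (1 : ℤ) • s129 + (-1 : ℤ) • s130 + (1 : ℤ) • s131 + (-1 : ℤ) • s132 + (1 : ℤ) • s133 + (-1 : ℤ) • s134 + (1 : ℤ) • s135 + (1 : ℤ) • s136 + (-1 : ℤ) • s137 + (1 : ℤ) • s138 + (-1 : ℤ) • s139 + (1 : ℤ) • s140 + (1 : ℤ) • s141 + (-1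 : ℤ) • s142 + (1 : ℤ) • s143 + (1 : ℤ) • s144 + (-1 : ℤ) • s145 + (1 : ℤ) • s146 + (1 : ℤ) • s147 + (-1 : ℤ) • s148 + (1 : ℤ) • s149 + (-1 : ℤ) • s150 + (-1 : ℤ) • s152 + (1 : ℤ) • s153 + (-2 : ℤ) • s154 + (2 : ℤ) • s155 + (-1 : ℤ) • s156 + (1 : ℤ) • s157 + (-1 : ℤ) • s158 + (1 : ℤ) • s159 + (-1 : ℤ) • s160 + (-1 : ℤ) • s161 + (1 : ℤ) • s162 + (-1 : ℤ) • s163 + (-1 : ℤ) • s164 + (1 : ℤ) • s165 + (-1 : ℤ) • s166 + (-1 : ℤ) • s167 + (1 : ℤ) • s168 + (-1 : ℤ) • s169 + (1 : ℤ) • s170 + (-1 : ℤ) • s171 + (1 : ℤ) • s172 + (1 : ℤ) • s173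

theorem y4 (h : Lvl f g) (tf : TF G) (W : List α) (hW : W ≠ [])
    (x1 x2 x3 x4 x5 x6 : α) :
    Bfun f g [] [x1, x2, x3, x4] W x5 x6 - Bfun f g [] [x1, x2] (W ++ [x3, x4]) x5 x6 = 0 := by
  have r0 : Bfun f g [x3, x5] (W ++ [x1, x4]) [] x2 x6 + Bfun f g (W ++ [x1, x2]) [x3, x6] [] x5 x4 + Bfun f g W [x3, x5, x2, x6] [] x1 x4 + Bfun f g [] (W ++ [x1, x2, x5, x4]) [] x3 x6 - Bfun f g W [x3, x5] [x6, x4] x1 x2 - Bfun f g [] (W ++ [x1, x2]) [x4, x6] x3 x5 = 0 :=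
    h.KB W [] [] x1 x2 x3 x5 x4 x6
  have r1 : Bfun f g [x6, x4] (W ++ [x1, x5]) [] x2 x3 + Bfun f g (W ++ [x1, x2]) [x6, x3] [] x4 x5 + Bfun f g W [x6, x4, x2, x3] [] x1 x5 + Bfun f g [] (W ++ [x1, x2, x4, x5]) [] x6 x3 - Bfun f g W [x6, x4] [x3, x5] x1 x2 - Bfun f g [] (W ++ [x1, x2]) [x5, x3] x6 x4 = 0 :=
    h.KB W [] [] x1 x2 x6 x4 x5 x3
  have r2 : Bfun f g [x2, x4] (W ++ [x1, x6]) [] x3 x5 + Bfun f g (W ++ [x1, x3]) [x2, x5] [] x4 x6 + Bfun f g W [x2, x4, x3, x5] [] x1 x6 + Bfun f g [] (W ++ [x1, x3, x4, x6]) [] x2 x5 - Bfun f g W [x2, x4] [x5, x6] x1 x3 - Bfun f g [] (W ++ [x1, x3]) [x6, x5] x2 x4 = 0 :=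
    h.KB W [] [] x1 x3 x2 x4 x6 x5
  have r3 : Bfun f g [x1, x6] (W ++ [x2, x5]) [] x3 x4 + Bfun f g (W ++ [x2, x3]) [x1, x4] [] x6 x5 + Bfun f g W [x1, x6, x3, x4] [] x2 x5 + Bfun f g [] (W ++ [x2, x3, x6, x5]) [] x1 x4 - Bfun f g W [x1, x6] [x4, x5] x2 x3 - Bfun f g [] (W ++ [x2, x3]) [x5, x4] x1 x6 = 0 :=
    h.KB W [] [] x2 x3 x1 x6 x5 x4
  have r4 : Bfun f g [x6, x5] (W ++ [x2, x4]) [] x3 x1 + Bfun f g (W ++ [x2, x3]) [x6, x1] [] x5 x4 + Bfun f g W [x6, x5, x3, x1] [] x2 x4 + Bfun f g [] (W ++ [x2, x3, x5, x4]) [] x6 x1 - Bfun f g W [x6, x5] [x1, x4] x2 x3 - Bfun f g [] (W ++ [x2, x3]) [x4, x1] x6 x5 = 0 :=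
    h.KB W [] [] x2 x3 x6 x5 x4 x1
  have r5 : Bfun f g [x1, x5] (W ++ [x2, x6]) [] x4 x3 + Bfun f g (W ++ [x2, x4]) [x1, x3] [] x5 x6 + Bfun f g W [x1, x5, x4, x3] [] x2 x6 + Bfun f g [] (W ++ [x2, x4, x5, x6]) [] x1 x3 - Bfun f g W [x1, x5] [x3, x6] x2 x4 - Bfun f g [] (W ++ [x2, x4]) [x6, x3] x1 x5 = 0 :=
    h.KB W [] [] x2 x4 x1 x5 x6 x3
  have r6 : Bfun f g [x3, x5] (W ++ [x2, x6]) [] x4 x1 + Bfun f g (W ++ [x2, x4]) [x3, x1] [] x5 x6 + Bfun f g W [x3, x5, x4, x1] [] x2 x6 + Bfun f g [] (W ++ [x2, x4, x5, x6]) [] x3 x1 - Bfun f g W [x3, x5] [x1, x6] x2 x4 - Bfun f g [] (W ++ [x2, x4]) [x6, x1] x3 x5 = 0 :=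
    h.KB W [] [] x2 x4 x3 x5 x6 x1
  have r7 : Bfun f g [x1, x5] (W ++ [x3, x2]) [] x4 x6 + Bfun f g (W ++ [x3, x4]) [x1, x6] [] x5 x2 + Bfun f g W [x1, x5, x4, x6] [] x3 x2 + Bfun f g [] (W ++ [x3, x4, x5, x2]) [] x1 x6 - Bfun f g W [x1, x5] [x6, x2] x3 x4 - Bfun f g [] (W ++ [x3, x4]) [x2, x6] x1 x5 = 0 :=
    h.KB W [] [] x3 x4 x1 x5 x2 x6
  have r8 : Bfun f g [x2, x6] (W ++ [x3, x1]) [] x4 x5 + Bfun f g (W ++ [x3, x4]) [x2, x5] [] x6 x1 + Bfun f g W [x2, x6, x4, x5] [] x3 x1 + Bfun f g [] (W ++ [x3, x4, x6, x1]) [] x2 x5 - Bfun f g W [x2, x6] [x5, x1] x3 x4 - Bfun f g [] (W ++ [x3, x4]) [x1, x5] x2 x6 = 0 :=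
    h.KB W [] [] x3 x4 x2 x6 x1 x5
  have r9 : Bfun f g [x1, x6] (W ++ [x3, x2]) [] x5 x4 + Bfun f g (W ++ [x3, x5]) [x1, x4] [] x6 x2 + Bfun f g W [x1, x6, x5, x4] [] x3 x2 + Bfun f g [] (W ++ [x3, x5, x6, x2]) [] x1 x4 - Bfun f g W [x1, x6] [x4, x2] x3 x5 - Bfun f g [] (W ++ [x3, x5]) [x2, x4] x1 x6 = 0 :=
    h.KB W [] [] x3 x5 x1 x6 x2 x4
  have s0 : Bfun f g [x3, x5] (W ++ [x1, x4]) [] x2 x6 = - Bfun f g [x3, x5] [] (W ++ [x1, x4]) x2 x6 :=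
    h.B23 [x3, x5] (W ++ [x1, x4]) [] x2 x6
  have s1 : Bfun f g [x3, x5] [] (W ++ [x1, x4]) x2 x6 = - Bfun f g [] [x3, x5] (W ++ [x1, x4]) x2 x6 :=
    h.B12 [x3, x5] [] (W ++ [x1, x4]) x2 x6
  have s2 : Bfun f g [] [x3, x5] (W ++ [x1, x4]) x2 x6 = - Bfun f g [] [x3, x5] (W ++ [x4, x1]) x2 x6 :=
    h.Bi3 W [] [] [] [x3, x5] x1 x4 x2 x6 (Or.inl hW)
  have s3 : Bfun f g [] [x3, x5] (W ++ [x4, x1]) x2 x6 = - Bfun f g [] [x3, x5] (W ++ [x4, x2]) x1 x6 :=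
    h.Bl3 W [x4] [] [x3, x5] x1 x2 x6 (Or.inr (List.cons_ne_nil _ _))
  have s4 : Bfun f g [] [x3, x5] (W ++ [x4, x2]) x1 x6 = - Bfun f g [] [x3, x1] (W ++ [x4, x2]) x5 x6 :=
    h.Bl2 [] [x3] [] (W ++ [x4, x2]) x5 x1 x6 (Or.inr (List.cons_ne_nil _ _))
  have s5 : Bfun f g [] [x3, x1] (W ++ [x4, x2]) x5 x6 = - Bfun f g [] [x3, x1] (W ++ [x2, x4]) x5 x6 :=
    h.Bi3 W [] [] [] [x3, x1] x4 x2 x5 x6 (Or.inl hW)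
  have s6 : Bfun f g (W ++ [x1, x2]) [x3, x6] [] x5 x4 = - Bfun f g [x3, x6] (W ++ [x1, x2]) [] x5 x4 :=
    h.B12 (W ++ [x1, x2]) [x3, x6] [] x5 x4
  have s7 : Bfun f g [x3, x6] (W ++ [x1, x2]) [] x5 x4 = - Bfun f g [x3, x6] [] (W ++ [x1, x2]) x5 x4 :=
    h.B23 [x3, x6] (W ++ [x1, x2]) [] x5 x4
  have s8 : Bfun f g [x3, x6] [] (W ++ [x1, x2]) x5 x4 = - Bfun f g [] [x3, x6] (W ++ [x1, x2]) x5 x4 :=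
    h.B12 [x3, x6] [] (W ++ [x1, x2]) x5 x4
  have s9 : Bfun f g [] [x3, x6] (W ++ [x1, x2]) x5 x4 = - Bfun f g [] [x3, x6] (W ++ [x2, x1]) x5 x4 :=
    h.Bi3 W [] [] [] [x3, x6] x1 x2 x5 x4 (Or.inl hW)
  have s10 : Bfun f g [] [x3, x6] (W ++ [x2, x1]) x5 x4 = - Bfun f g [] [x3, x6] (W ++ [x2, x5]) x1 x4 :=
    h.Bl3 W [x2] [] [x3, x6] x1 x5 x4 (Or.inr (List.cons_ne_nil _ _))
  have s11 : Bfun f g [] [x3, x6] (W ++ [x2, x5]) x1 x4 = - Bfun f g [] [x3, x1] (W ++ [x2, x5]) x6 x4 :=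
    h.Bl2 [] [x3] [] (W ++ [x2, x5]) x6 x1 x4 (Or.inr (List.cons_ne_nil _ _))
  have s12 : Bfun f g [] [x3, x1] (W ++ [x2, x5]) x6 x4 = - Bfun f g [] [x3, x1] (W ++ [x2, x5]) x4 x6 :=
    h.Bzz [] [x3, x1] (W ++ [x2, x5]) x6 x4
  have s13 : Bfun f g [] [x3, x1] (W ++ [x2, x5]) x4 x6 = - Bfun f g [] [x3, x1] (W ++ [x2, x4]) x5 x6 :=
    h.Bl3 W [x2] [] [x3, x1] x5 x4 x6 (Or.inr (List.cons_ne_nil _ _))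
  have s14 : Bfun f g W [x3, x5, x2, x6] [] x1 x4 = - Bfun f g [x3, x5, x2, x6] W [] x1 x4 :=
    h.B12 W [x3, x5, x2, x6] [] x1 x4
  have s15 : Bfun f g [x3, x5, x2, x6] W [] x1 x4 = - Bfun f g [x3, x5, x2, x6] [] W x1 x4 :=
    h.B23 [x3, x5, x2, x6] W [] x1 x4
  have s16 : Bfun f g [x3, x5, x2, x6] [] W x1 x4 = - Bfun f g [] [x3, x5, x2, x6] W x1 x4 :=
    h.B12 [x3, x5, x2, x6] [] W x1 x4
  have s17 : Bfun f g [] [x3, x5, x2, x6] W x1 x4 = - Bfun f g [] [x3, x5, x2, x1] W x6 x4 :=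
    h.Bl2 [] [x3, x5, x2] [] W x6 x1 x4 (Or.inr (List.cons_ne_nil _ _))
  have s18 : Bfun f g [] [x3, x5, x2, x1] W x6 x4 = - Bfun f g [] [x3, x5, x1, x2] W x6 x4 :=
    h.Bi2 [] [x3, x5] [] [] W x2 x1 x6 x4 (Or.inr (List.cons_ne_nil _ _))
  have s19 : Bfun f g [] [x3, x5, x1, x2] W x6 x4 = - Bfun f g [] [x3, x1, x5, x2] W x6 x4 :=
    h.Bi2 [] [x3] [x2] [] W x5 x1 x6 x4 (Or.inr (List.cons_ne_nil _ _))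
  have s20 : Bfun f g [] [x3, x1, x5, x2] W x6 x4 = - Bfun f g [] [x3, x1, x2, x5] W x6 x4 :=
    h.Bi2 [] [x3, x1] [] [] W x5 x2 x6 x4 (Or.inr (List.cons_ne_nil _ _))
  have s21 : Bfun f g [] [x3, x1, x2, x5] W x6 x4 = - Bfun f g [] [x3, x1, x2, x5] W x4 x6 :=
    h.Bzz [] [x3, x1, x2, x5] W x6 x4
  have s22 : Bfun f g [] [x3, x1, x2, x5] W x4 x6 = - Bfun f g [] [x3, x1, x2, x4] W x5 x6 :=
    h.Bl2 [] [x3, x1, x2] [] W x5 x4 x6 (Or.inr (List.cons_ne_nil _ _))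
  have s23 : Bfun f g [] (W ++ [x1, x2, x5, x4]) [] x3 x6 = 0 :=
    h.B00_13 (W ++ [x1, x2, x5, x4]) x3 x6
  have s24 : Bfun f g W [x3, x5] [x6, x4] x1 x2 = - Bfun f g [x3, x5] W [x6, x4] x1 x2 :=
    h.B12 W [x3, x5] [x6, x4] x1 x2
  have s25 : Bfun f g [x3, x5] W [x6, x4] x1 x2 = - Bfun f g [x3, x5] [x6, x4] W x1 x2 :=
    h.B23 [x3, x5] W [x6, x4] x1 x2
  have s26 : Bfun f g [x3, x5] [x6, x4] W x1 x2 = - Bfun f g [x3, x1] [x6, x4] W x5 x2 :=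
    h.Bl1 [] [x3] [x6, x4] W x5 x1 x2 (Or.inr (List.cons_ne_nil _ _))
  have s27 : Bfun f g [x3, x1] [x6, x4] W x5 x2 = - Bfun f g [x3, x1] [x6, x4] W x2 x5 :=
    h.Bzz [x3, x1] [x6, x4] W x5 x2
  have s28 : Bfun f g [x3, x1] [x6, x4] W x2 x5 = - Bfun f g [x3, x1] [x6, x2] W x4 x5 :=
    h.Bl2 [] [x6] [x3, x1] W x4 x2 x5 (Or.inr (List.cons_ne_nil _ _))
  have s29 : Bfun f g [] (W ++ [x1, x2]) [x4, x6] x3 x5 = - Bfun f g [] [x4, x6] (W ++ [x1, x2]) x3 x5 :=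
    h.B23 [] (W ++ [x1, x2]) [x4, x6] x3 x5
  have s30 : Bfun f g [] [x4, x6] (W ++ [x1, x2]) x3 x5 = - Bfun f g [] [x4, x6] (W ++ [x2, x1]) x3 x5 :=
    h.Bi3 W [] [] [] [x4, x6] x1 x2 x3 x5 (Or.inl hW)
  have s31 : Bfun f g [] [x4, x6] (W ++ [x2, x1]) x3 x5 = - Bfun f g [] [x4, x6] (W ++ [x2, x3]) x1 x5 :=
    h.Bl3 W [x2] [] [x4, x6] x1 x3 x5 (Or.inr (List.cons_ne_nil _ _))
  have s32 : Bfun f g [] [x4, x6] (W ++ [x2, x3]) x1 x5 = - Bfun f g [] [x4, x1] (W ++ [x2, x3]) x6 x5 :=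
    h.Bl2 [] [x4] [] (W ++ [x2, x3]) x6 x1 x5 (Or.inr (List.cons_ne_nil _ _))
  have s33 : Bfun f g [] [x4, x1] (W ++ [x2, x3]) x6 x5 = - Bfun f g [] [x4, x1] (W ++ [x2, x3]) x5 x6 :=
    h.Bzz [] [x4, x1] (W ++ [x2, x3]) x6 x5
  have s34 : Bfun f g [x6, x4] (W ++ [x1, x5]) [] x2 x3 = - Bfun f g [x6, x4] [] (W ++ [x1, x5]) x2 x3 :=
    h.B23 [x6, x4] (W ++ [x1, x5]) [] x2 x3
  have s35 : Bfun f g [x6, x4] [] (W ++ [x1, x5]) x2 x3 = - Bfun f g [] [x6, x4] (W ++ [x1, x5]) x2 x3 :=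
    h.B12 [x6, x4] [] (W ++ [x1, x5]) x2 x3
  have s36 : Bfun f g [] [x6, x4] (W ++ [x1, x5]) x2 x3 = - Bfun f g [] [x6, x4] (W ++ [x5, x1]) x2 x3 :=
    h.Bi3 W [] [] [] [x6, x4] x1 x5 x2 x3 (Or.inl hW)
  have s37 : Bfun f g [] [x6, x4] (W ++ [x5, x1]) x2 x3 = - Bfun f g [] [x6, x4] (W ++ [x5, x2]) x1 x3 :=
    h.Bl3 W [x5] [] [x6, x4] x1 x2 x3 (Or.inr (List.cons_ne_nil _ _))
  have s38 : Bfun f g [] [x6, x4] (W ++ [x5, x2]) x1 x3 = - Bfun f g [] [x6, x1] (W ++ [x5, x2]) x4 x3 :=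
    h.Bl2 [] [x6] [] (W ++ [x5, x2]) x4 x1 x3 (Or.inr (List.cons_ne_nil _ _))
  have s39 : Bfun f g [] [x6, x1] (W ++ [x5, x2]) x4 x3 = - Bfun f g [] [x6, x1] (W ++ [x2, x5]) x4 x3 :=
    h.Bi3 W [] [] [] [x6, x1] x5 x2 x4 x3 (Or.inl hW)
  have s40 : Bfun f g [] [x6, x1] (W ++ [x2, x5]) x4 x3 = - Bfun f g [] [x6, x1] (W ++ [x2, x5]) x3 x4 :=
    h.Bzz [] [x6, x1] (W ++ [x2, x5]) x4 x3
  have s41 : Bfun f g [] [x6, x1] (W ++ [x2, x5]) x3 x4 = - Bfun f g [] [x6, x1] (W ++ [x2, x3]) x5 x4 :=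
    h.Bl3 W [x2] [] [x6, x1] x5 x3 x4 (Or.inr (List.cons_ne_nil _ _))
  have s42 : Bfun f g [] [x6, x1] (W ++ [x2, x3]) x5 x4 = - Bfun f g [] [x6, x1] (W ++ [x2, x3]) x4 x5 :=
    h.Bzz [] [x6, x1] (W ++ [x2, x3]) x5 x4
  have s43 : Bfun f g (W ++ [x1, x2]) [x6, x3] [] x4 x5 = - Bfun f g [x6, x3] (W ++ [x1, x2]) [] x4 x5 :=
    h.B12 (W ++ [x1, x2]) [x6, x3] [] x4 x5
  have s44 : Bfun f g [x6, x3] (W ++ [x1, x2]) [] x4 x5 = - Bfun f g [x6, x3] [] (W ++ [x1, x2]) x4 x5 :=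
    h.B23 [x6, x3] (W ++ [x1, x2]) [] x4 x5
  have s45 : Bfun f g [x6, x3] [] (W ++ [x1, x2]) x4 x5 = - Bfun f g [] [x6, x3] (W ++ [x1, x2]) x4 x5 :=
    h.B12 [x6, x3] [] (W ++ [x1, x2]) x4 x5
  have s46 : Bfun f g [] [x6, x3] (W ++ [x1, x2]) x4 x5 = - Bfun f g [] [x6, x3] (W ++ [x2, x1]) x4 x5 :=
    h.Bi3 W [] [] [] [x6, x3] x1 x2 x4 x5 (Or.inl hW)
  have s47 : Bfun f g [] [x6, x3] (W ++ [x2, x1]) x4 x5 = - Bfun f g [] [x6, x3] (W ++ [x2, x4]) x1 x5 :=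
    h.Bl3 W [x2] [] [x6, x3] x1 x4 x5 (Or.inr (List.cons_ne_nil _ _))
  have s48 : Bfun f g [] [x6, x3] (W ++ [x2, x4]) x1 x5 = - Bfun f g [] [x6, x1] (W ++ [x2, x4]) x3 x5 :=
    h.Bl2 [] [x6] [] (W ++ [x2, x4]) x3 x1 x5 (Or.inr (List.cons_ne_nil _ _))
  have s49 : Bfun f g [] [x6, x1] (W ++ [x2, x4]) x3 x5 = - Bfun f g [] [x6, x1] (W ++ [x2, x3]) x4 x5 :=
    h.Bl3 W [x2] [] [x6, x1] x4 x3 x5 (Or.inr (List.cons_ne_nil _ _))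
  have s50 : Bfun f g W [x6, x4, x2, x3] [] x1 x5 = - Bfun f g [x6, x4, x2, x3] W [] x1 x5 :=
    h.B12 W [x6, x4, x2, x3] [] x1 x5
  have s51 : Bfun f g [x6, x4, x2, x3] W [] x1 x5 = - Bfun f g [x6, x4, x2, x3] [] W x1 x5 :=
    h.B23 [x6, x4, x2, x3] W [] x1 x5
  have s52 : Bfun f g [x6, x4, x2, x3] [] W x1 x5 = - Bfun f g [] [x6, x4, x2, x3] W x1 x5 :=
    h.B12 [x6, x4, x2, x3] [] W x1 x5
  have s53 : Bfun f g [] [x6, x4, x2, x3] W x1 x5 = - Bfun f g [] [x6, x4, x2, x1] W x3 x5 :=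
    h.Bl2 [] [x6, x4, x2] [] W x3 x1 x5 (Or.inr (List.cons_ne_nil _ _))
  have s54 : Bfun f g [] [x6, x4, x2, x1] W x3 x5 = - Bfun f g [] [x6, x4, x1, x2] W x3 x5 :=
    h.Bi2 [] [x6, x4] [] [] W x2 x1 x3 x5 (Or.inr (List.cons_ne_nil _ _))
  have s55 : Bfun f g [] [x6, x4, x1, x2] W x3 x5 = - Bfun f g [] [x6, x1, x4, x2] W x3 x5 :=
    h.Bi2 [] [x6] [x2] [] W x4 x1 x3 x5 (Or.inr (List.cons_ne_nil _ _))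
  have s56 : Bfun f g [] [x6, x1, x4, x2] W x3 x5 = - Bfun f g [] [x6, x1, x2, x4] W x3 x5 :=
    h.Bi2 [] [x6, x1] [] [] W x4 x2 x3 x5 (Or.inr (List.cons_ne_nil _ _))
  have s57 : Bfun f g [] [x6, x1, x2, x4] W x3 x5 = - Bfun f g [] [x6, x1, x2, x3] W x4 x5 :=
    h.Bl2 [] [x6, x1, x2] [] W x4 x3 x5 (Or.inr (List.cons_ne_nil _ _))
  have s58 : Bfun f g [] (W ++ [x1, x2, x4, x5]) [] x6 x3 = 0 :=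
    h.B00_13 (W ++ [x1, x2, x4, x5]) x6 x3
  have s59 : Bfun f g W [x6, x4] [x3, x5] x1 x2 = - Bfun f g [x6, x4] W [x3, x5] x1 x2 :=
    h.B12 W [x6, x4] [x3, x5] x1 x2
  have s60 : Bfun f g [x6, x4] W [x3, x5] x1 x2 = - Bfun f g [x6, x4] [x3, x5] W x1 x2 :=
    h.B23 [x6, x4] W [x3, x5] x1 x2
  have s61 : Bfun f g [x6, x4] [x3, x5] W x1 x2 = - Bfun f g [x3, x5] [x6, x4] W x1 x2 :=
    h.B12 [x6, x4] [x3, x5] W x1 x2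
  have s62 : Bfun f g [] (W ++ [x1, x2]) [x5, x3] x6 x4 = - Bfun f g [] [x5, x3] (W ++ [x1, x2]) x6 x4 :=
    h.B23 [] (W ++ [x1, x2]) [x5, x3] x6 x4
  have s63 : Bfun f g [] [x5, x3] (W ++ [x1, x2]) x6 x4 = - Bfun f g [] [x5, x3] (W ++ [x2, x1]) x6 x4 :=
    h.Bi3 W [] [] [] [x5, x3] x1 x2 x6 x4 (Or.inl hW)
  have s64 : Bfun f g [] [x5, x3] (W ++ [x2, x1]) x6 x4 = - Bfun f g [] [x5, x3] (W ++ [x2, x6]) x1 x4 :=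
    h.Bl3 W [x2] [] [x5, x3] x1 x6 x4 (Or.inr (List.cons_ne_nil _ _))
  have s65 : Bfun f g [] [x5, x3] (W ++ [x2, x6]) x1 x4 = - Bfun f g [] [x5, x1] (W ++ [x2, x6]) x3 x4 :=
    h.Bl2 [] [x5] [] (W ++ [x2, x6]) x3 x1 x4 (Or.inr (List.cons_ne_nil _ _))
  have s66 : Bfun f g [] [x5, x1] (W ++ [x2, x6]) x3 x4 = - Bfun f g [] [x5, x1] (W ++ [x2, x3]) x6 x4 :=
    h.Bl3 W [x2] [] [x5, x1] x6 x3 x4 (Or.inr (List.cons_ne_nil _ _))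
  have s67 : Bfun f g [] [x5, x1] (W ++ [x2, x3]) x6 x4 = - Bfun f g [] [x5, x1] (W ++ [x2, x3]) x4 x6 :=
    h.Bzz [] [x5, x1] (W ++ [x2, x3]) x6 x4
  have s68 : Bfun f g [x2, x4] (W ++ [x1, x6]) [] x3 x5 = - Bfun f g [x2, x4] [] (W ++ [x1, x6]) x3 x5 :=
    h.B23 [x2, x4] (W ++ [x1, x6]) [] x3 x5
  have s69 : Bfun f g [x2, x4] [] (W ++ [x1, x6]) x3 x5 = - Bfun f g [] [x2, x4] (W ++ [x1, x6]) x3 x5 :=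
    h.B12 [x2, x4] [] (W ++ [x1, x6]) x3 x5
  have s70 : Bfun f g [] [x2, x4] (W ++ [x1, x6]) x3 x5 = - Bfun f g [] [x2, x4] (W ++ [x6, x1]) x3 x5 :=
    h.Bi3 W [] [] [] [x2, x4] x1 x6 x3 x5 (Or.inl hW)
  have s71 : Bfun f g [] [x2, x4] (W ++ [x6, x1]) x3 x5 = - Bfun f g [] [x2, x4] (W ++ [x6, x3]) x1 x5 :=
    h.Bl3 W [x6] [] [x2, x4] x1 x3 x5 (Or.inr (List.cons_ne_nil _ _))
  have s72 : Bfun f g [] [x2, x4] (W ++ [x6, x3]) x1 x5 = - Bfun f g [] [x2, x1] (W ++ [x6, x3]) x4 x5 :=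
    h.Bl2 [] [x2] [] (W ++ [x6, x3]) x4 x1 x5 (Or.inr (List.cons_ne_nil _ _))
  have s73 : Bfun f g [] [x2, x1] (W ++ [x6, x3]) x4 x5 = - Bfun f g [] [x2, x1] (W ++ [x3, x6]) x4 x5 :=
    h.Bi3 W [] [] [] [x2, x1] x6 x3 x4 x5 (Or.inl hW)
  have s74 : Bfun f g [] [x2, x1] (W ++ [x3, x6]) x4 x5 = - Bfun f g [] [x2, x1] (W ++ [x3, x4]) x6 x5 :=
    h.Bl3 W [x3] [] [x2, x1] x6 x4 x5 (Or.inr (List.cons_ne_nil _ _))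
  have s75 : Bfun f g [] [x2, x1] (W ++ [x3, x4]) x6 x5 = - Bfun f g [] [x2, x1] (W ++ [x3, x4]) x5 x6 :=
    h.Bzz [] [x2, x1] (W ++ [x3, x4]) x6 x5
  have s76 : Bfun f g (W ++ [x1, x3]) [x2, x5] [] x4 x6 = - Bfun f g [x2, x5] (W ++ [x1, x3]) [] x4 x6 :=
    h.B12 (W ++ [x1, x3]) [x2, x5] [] x4 x6
  have s77 : Bfun f g [x2, x5] (W ++ [x1, x3]) [] x4 x6 = - Bfun f g [x2, x5] [] (W ++ [x1, x3]) x4 x6 :=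
    h.B23 [x2, x5] (W ++ [x1, x3]) [] x4 x6
  have s78 : Bfun f g [x2, x5] [] (W ++ [x1, x3]) x4 x6 = - Bfun f g [] [x2, x5] (W ++ [x1, x3]) x4 x6 :=
    h.B12 [x2, x5] [] (W ++ [x1, x3]) x4 x6
  have s79 : Bfun f g [] [x2, x5] (W ++ [x1, x3]) x4 x6 = - Bfun f g [] [x2, x5] (W ++ [x3, x1]) x4 x6 :=
    h.Bi3 W [] [] [] [x2, x5] x1 x3 x4 x6 (Or.inl hW)
  have s80 : Bfun f g [] [x2, x5] (W ++ [x3, x1]) x4 x6 = - Bfun f g [] [x2, x5] (W ++ [x3, x4]) x1 x6 :=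
    h.Bl3 W [x3] [] [x2, x5] x1 x4 x6 (Or.inr (List.cons_ne_nil _ _))
  have s81 : Bfun f g [] [x2, x5] (W ++ [x3, x4]) x1 x6 = - Bfun f g [] [x2, x1] (W ++ [x3, x4]) x5 x6 :=
    h.Bl2 [] [x2] [] (W ++ [x3, x4]) x5 x1 x6 (Or.inr (List.cons_ne_nil _ _))
  have s82 : Bfun f g W [x2, x4, x3, x5] [] x1 x6 = - Bfun f g [x2, x4, x3, x5] W [] x1 x6 :=
    h.B12 W [x2, x4, x3, x5] [] x1 x6
  have s83 : Bfun f g [x2, x4, x3, x5] W [] x1 x6 = - Bfun f g [x2, x4, x3, x5] [] W x1 x6 :=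
    h.B23 [x2, x4, x3, x5] W [] x1 x6
  have s84 : Bfun f g [x2, x4, x3, x5] [] W x1 x6 = - Bfun f g [] [x2, x4, x3, x5] W x1 x6 :=
    h.B12 [x2, x4, x3, x5] [] W x1 x6
  have s85 : Bfun f g [] [x2, x4, x3, x5] W x1 x6 = - Bfun f g [] [x2, x4, x3, x1] W x5 x6 :=
    h.Bl2 [] [x2, x4, x3] [] W x5 x1 x6 (Or.inr (List.cons_ne_nil _ _))
  have s86 : Bfun f g [] [x2, x4, x3, x1] W x5 x6 = - Bfun f g [] [x2, x4, x1, x3] W x5 x6 :=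
    h.Bi2 [] [x2, x4] [] [] W x3 x1 x5 x6 (Or.inr (List.cons_ne_nil _ _))
  have s87 : Bfun f g [] [x2, x4, x1, x3] W x5 x6 = - Bfun f g [] [x2, x1, x4, x3] W x5 x6 :=
    h.Bi2 [] [x2] [x3] [] W x4 x1 x5 x6 (Or.inr (List.cons_ne_nil _ _))
  have s88 : Bfun f g [] [x2, x1, x4, x3] W x5 x6 = - Bfun f g [] [x2, x1, x3, x4] W x5 x6 :=
    h.Bi2 [] [x2, x1] [] [] W x4 x3 x5 x6 (Or.inr (List.cons_ne_nil _ _))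
  have s89 : Bfun f g [] (W ++ [x1, x3, x4, x6]) [] x2 x5 = 0 :=
    h.B00_13 (W ++ [x1, x3, x4, x6]) x2 x5
  have s90 : Bfun f g W [x2, x4] [x5, x6] x1 x3 = - Bfun f g [x2, x4] W [x5, x6] x1 x3 :=
    h.B12 W [x2, x4] [x5, x6] x1 x3
  have s91 : Bfun f g [x2, x4] W [x5, x6] x1 x3 = - Bfun f g [x2, x4] [x5, x6] W x1 x3 :=
    h.B23 [x2, x4] W [x5, x6] x1 x3
  have s92 : Bfun f g [x2, x4] [x5, x6] W x1 x3 = - Bfun f g [x2, x1] [x5, x6] W x4 x3 :=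
    h.Bl1 [] [x2] [x5, x6] W x4 x1 x3 (Or.inr (List.cons_ne_nil _ _))
  have s93 : Bfun f g [x2, x1] [x5, x6] W x4 x3 = - Bfun f g [x2, x1] [x5, x6] W x3 x4 :=
    h.Bzz [x2, x1] [x5, x6] W x4 x3
  have s94 : Bfun f g [x2, x1] [x5, x6] W x3 x4 = - Bfun f g [x2, x1] [x5, x3] W x6 x4 :=
    h.Bl2 [] [x5] [x2, x1] W x6 x3 x4 (Or.inr (List.cons_ne_nil _ _))
  have s95 : Bfun f g [x2, x1] [x5, x3] W x6 x4 = - Bfun f g [x2, x1] [x5, x3] W x4 x6 :=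
    h.Bzz [x2, x1] [x5, x3] W x6 x4
  have s96 : Bfun f g [] (W ++ [x1, x3]) [x6, x5] x2 x4 = - Bfun f g [] [x6, x5] (W ++ [x1, x3]) x2 x4 :=
    h.B23 [] (W ++ [x1, x3]) [x6, x5] x2 x4
  have s97 : Bfun f g [] [x6, x5] (W ++ [x1, x3]) x2 x4 = - Bfun f g [] [x6, x5] (W ++ [x3, x1]) x2 x4 :=
    h.Bi3 W [] [] [] [x6, x5] x1 x3 x2 x4 (Or.inl hW)
  have s98 : Bfun f g [] [x6, x5] (W ++ [x3, x1]) x2 x4 = - Bfun f g [] [x6, x5] (W ++ [x3, x2]) x1 x4 :=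
    h.Bl3 W [x3] [] [x6, x5] x1 x2 x4 (Or.inr (List.cons_ne_nil _ _))
  have s99 : Bfun f g [] [x6, x5] (W ++ [x3, x2]) x1 x4 = - Bfun f g [] [x6, x1] (W ++ [x3, x2]) x5 x4 :=
    h.Bl2 [] [x6] [] (W ++ [x3, x2]) x5 x1 x4 (Or.inr (List.cons_ne_nil _ _))
  have s100 : Bfun f g [] [x6, x1] (W ++ [x3, x2]) x5 x4 = - Bfun f g [] [x6, x1] (W ++ [x2, x3]) x5 x4 :=
    h.Bi3 W [] [] [] [x6, x1] x3 x2 x5 x4 (Or.inl hW)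
  have s101 : Bfun f g [x1, x6] (W ++ [x2, x5]) [] x3 x4 = - Bfun f g [x1, x6] [] (W ++ [x2, x5]) x3 x4 :=
    h.B23 [x1, x6] (W ++ [x2, x5]) [] x3 x4
  have s102 : Bfun f g [x1, x6] [] (W ++ [x2, x5]) x3 x4 = - Bfun f g [] [x1, x6] (W ++ [x2, x5]) x3 x4 :=
    h.B12 [x1, x6] [] (W ++ [x2, x5]) x3 x4
  have s103 : Bfun f g [] [x1, x6] (W ++ [x2, x5]) x3 x4 = - Bfun f g [] [x1, x6] (W ++ [x5, x2]) x3 x4 :=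
    h.Bi3 W [] [] [] [x1, x6] x2 x5 x3 x4 (Or.inl hW)
  have s104 : Bfun f g [] [x1, x6] (W ++ [x5, x2]) x3 x4 = - Bfun f g [] [x1, x6] (W ++ [x5, x3]) x2 x4 :=
    h.Bl3 W [x5] [] [x1, x6] x2 x3 x4 (Or.inr (List.cons_ne_nil _ _))
  have s105 : Bfun f g [] [x1, x6] (W ++ [x5, x3]) x2 x4 = - Bfun f g [] [x1, x2] (W ++ [x5, x3]) x6 x4 :=
    h.Bl2 [] [x1] [] (W ++ [x5, x3]) x6 x2 x4 (Or.inr (List.cons_ne_nil _ _))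
  have s106 : Bfun f g [] [x1, x2] (W ++ [x5, x3]) x6 x4 = - Bfun f g [] [x1, x2] (W ++ [x3, x5]) x6 x4 :=
    h.Bi3 W [] [] [] [x1, x2] x5 x3 x6 x4 (Or.inl hW)
  have s107 : Bfun f g [] [x1, x2] (W ++ [x3, x5]) x6 x4 = - Bfun f g [] [x1, x2] (W ++ [x3, x5]) x4 x6 :=
    h.Bzz [] [x1, x2] (W ++ [x3, x5]) x6 x4
  have s108 : Bfun f g [] [x1, x2] (W ++ [x3, x5]) x4 x6 = - Bfun f g [] [x1, x2] (W ++ [x3, x4]) x5 x6 :=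
    h.Bl3 W [x3] [] [x1, x2] x5 x4 x6 (Or.inr (List.cons_ne_nil _ _))
  have s109 : Bfun f g (W ++ [x2, x3]) [x1, x4] [] x6 x5 = - Bfun f g [x1, x4] (W ++ [x2, x3]) [] x6 x5 :=
    h.B12 (W ++ [x2, x3]) [x1, x4] [] x6 x5
  have s110 : Bfun f g [x1, x4] (W ++ [x2, x3]) [] x6 x5 = - Bfun f g [x1, x4] [] (W ++ [x2, x3]) x6 x5 :=
    h.B23 [x1, x4] (W ++ [x2, x3]) [] x6 x5
  have s111 : Bfun f g [x1, x4] [] (W ++ [x2, x3]) x6 x5 = - Bfun f g [] [x1, x4] (W ++ [x2, x3]) x6 x5 :=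
    h.B12 [x1, x4] [] (W ++ [x2, x3]) x6 x5
  have s112 : Bfun f g [] [x1, x4] (W ++ [x2, x3]) x6 x5 = - Bfun f g [] [x1, x4] (W ++ [x3, x2]) x6 x5 :=
    h.Bi3 W [] [] [] [x1, x4] x2 x3 x6 x5 (Or.inl hW)
  have s113 : Bfun f g [] [x1, x4] (W ++ [x3, x2]) x6 x5 = - Bfun f g [] [x1, x4] (W ++ [x3, x6]) x2 x5 :=
    h.Bl3 W [x3] [] [x1, x4] x2 x6 x5 (Or.inr (List.cons_ne_nil _ _))
  have s114 : Bfun f g [] [x1, x4] (W ++ [x3, x6]) x2 x5 = - Bfun f g [] [x1, x2] (W ++ [x3, x6]) x4 x5 :=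
    h.Bl2 [] [x1] [] (W ++ [x3, x6]) x4 x2 x5 (Or.inr (List.cons_ne_nil _ _))
  have s115 : Bfun f g [] [x1, x2] (W ++ [x3, x6]) x4 x5 = - Bfun f g [] [x1, x2] (W ++ [x3, x4]) x6 x5 :=
    h.Bl3 W [x3] [] [x1, x2] x6 x4 x5 (Or.inr (List.cons_ne_nil _ _))
  have s116 : Bfun f g [] [x1, x2] (W ++ [x3, x4]) x6 x5 = - Bfun f g [] [x1, x2] (W ++ [x3, x4]) x5 x6 :=
    h.Bzz [] [x1, x2] (W ++ [x3, x4]) x6 x5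
  have s117 : Bfun f g W [x1, x6, x3, x4] [] x2 x5 = - Bfun f g [x1, x6, x3, x4] W [] x2 x5 :=
    h.B12 W [x1, x6, x3, x4] [] x2 x5
  have s118 : Bfun f g [x1, x6, x3, x4] W [] x2 x5 = - Bfun f g [x1, x6, x3, x4] [] W x2 x5 :=
    h.B23 [x1, x6, x3, x4] W [] x2 x5
  have s119 : Bfun f g [x1, x6, x3, x4] [] W x2 x5 = - Bfun f g [] [x1, x6, x3, x4] W x2 x5 :=
    h.B12 [x1, x6, x3, x4] [] W x2 x5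
  have s120 : Bfun f g [] [x1, x6, x3, x4] W x2 x5 = - Bfun f g [] [x1, x6, x3, x2] W x4 x5 :=
    h.Bl2 [] [x1, x6, x3] [] W x4 x2 x5 (Or.inr (List.cons_ne_nil _ _))
  have s121 : Bfun f g [] [x1, x6, x3, x2] W x4 x5 = - Bfun f g [] [x1, x6, x2, x3] W x4 x5 :=
    h.Bi2 [] [x1, x6] [] [] W x3 x2 x4 x5 (Or.inr (List.cons_ne_nil _ _))
  have s122 : Bfun f g [] [x1, x6, x2, x3] W x4 x5 = - Bfun f g [] [x1, x2, x6, x3] W x4 x5 :=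
    h.Bi2 [] [x1] [x3] [] W x6 x2 x4 x5 (Or.inr (List.cons_ne_nil _ _))
  have s123 : Bfun f g [] [x1, x2, x6, x3] W x4 x5 = - Bfun f g [] [x1, x2, x3, x6] W x4 x5 :=
    h.Bi2 [] [x1, x2] [] [] W x6 x3 x4 x5 (Or.inr (List.cons_ne_nil _ _))
  have s124 : Bfun f g [] [x1, x2, x3, x6] W x4 x5 = - Bfun f g [] [x1, x2, x3, x4] W x6 x5 :=
    h.Bl2 [] [x1, x2, x3] [] W x6 x4 x5 (Or.inr (List.cons_ne_nil _ _))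
  have s125 : Bfun f g [] [x1, x2, x3, x4] W x6 x5 = - Bfun f g [] [x1, x2, x3, x4] W x5 x6 :=
    h.Bzz [] [x1, x2, x3, x4] W x6 x5
  have s126 : Bfun f g [] (W ++ [x2, x3, x6, x5]) [] x1 x4 = 0 :=
    h.B00_13 (W ++ [x2, x3, x6, x5]) x1 x4
  have s127 : Bfun f g W [x1, x6] [x4, x5] x2 x3 = - Bfun f g [x1, x6] W [x4, x5] x2 x3 :=
    h.B12 W [x1, x6] [x4, x5] x2 x3
  have s128 : Bfun f g [x1, x6] W [x4, x5] x2 x3 = - Bfun f g [x1, x6] [x4, x5] W x2 x3 :=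
    h.B23 [x1, x6] W [x4, x5] x2 x3
  have s129 : Bfun f g [x1, x6] [x4, x5] W x2 x3 = - Bfun f g [x1, x2] [x4, x5] W x6 x3 :=
    h.Bl1 [] [x1] [x4, x5] W x6 x2 x3 (Or.inr (List.cons_ne_nil _ _))
  have s130 : Bfun f g [x1, x2] [x4, x5] W x6 x3 = - Bfun f g [x1, x2] [x4, x5] W x3 x6 :=
    h.Bzz [x1, x2] [x4, x5] W x6 x3
  have s131 : Bfun f g [x1, x2] [x4, x5] W x3 x6 = - Bfun f g [x1, x2] [x4, x3] W x5 x6 :=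
    h.Bl2 [] [x4] [x1, x2] W x5 x3 x6 (Or.inr (List.cons_ne_nil _ _))
  have s132 : Bfun f g [] (W ++ [x2, x3]) [x5, x4] x1 x6 = - Bfun f g [] [x5, x4] (W ++ [x2, x3]) x1 x6 :=
    h.B23 [] (W ++ [x2, x3]) [x5, x4] x1 x6
  have s133 : Bfun f g [] [x5, x4] (W ++ [x2, x3]) x1 x6 = - Bfun f g [] [x5, x1] (W ++ [x2, x3]) x4 x6 :=
    h.Bl2 [] [x5] [] (W ++ [x2, x3]) x4 x1 x6 (Or.inr (List.cons_ne_nil _ _))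
  have s134 : Bfun f g [x6, x5] (W ++ [x2, x4]) [] x3 x1 = - Bfun f g [x6, x5] [] (W ++ [x2, x4]) x3 x1 :=
    h.B23 [x6, x5] (W ++ [x2, x4]) [] x3 x1
  have s135 : Bfun f g [x6, x5] [] (W ++ [x2, x4]) x3 x1 = - Bfun f g [] [x6, x5] (W ++ [x2, x4]) x3 x1 :=
    h.B12 [x6, x5] [] (W ++ [x2, x4]) x3 x1
  have s136 : Bfun f g [] [x6, x5] (W ++ [x2, x4]) x3 x1 = - Bfun f g [] [x6, x5] (W ++ [x2, x4]) x1 x3 :=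
    h.Bzz [] [x6, x5] (W ++ [x2, x4]) x3 x1
  have s137 : Bfun f g [] [x6, x5] (W ++ [x2, x4]) x1 x3 = - Bfun f g [] [x6, x1] (W ++ [x2, x4]) x5 x3 :=
    h.Bl2 [] [x6] [] (W ++ [x2, x4]) x5 x1 x3 (Or.inr (List.cons_ne_nil _ _))
  have s138 : Bfun f g [] [x6, x1] (W ++ [x2, x4]) x5 x3 = - Bfun f g [] [x6, x1] (W ++ [x2, x4]) x3 x5 :=
    h.Bzz [] [x6, x1] (W ++ [x2, x4]) x5 x3
  have s139 : Bfun f g (W ++ [x2, x3]) [x6, x1] [] x5 x4 = - Bfun f g [x6, x1] (W ++ [x2, x3]) [] x5 x4 :=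
    h.B12 (W ++ [x2, x3]) [x6, x1] [] x5 x4
  have s140 : Bfun f g [x6, x1] (W ++ [x2, x3]) [] x5 x4 = - Bfun f g [x6, x1] [] (W ++ [x2, x3]) x5 x4 :=
    h.B23 [x6, x1] (W ++ [x2, x3]) [] x5 x4
  have s141 : Bfun f g [x6, x1] [] (W ++ [x2, x3]) x5 x4 = - Bfun f g [] [x6, x1] (W ++ [x2, x3]) x5 x4 :=
    h.B12 [x6, x1] [] (W ++ [x2, x3]) x5 x4
  have s142 : Bfun f g W [x6, x5, x3, x1] [] x2 x4 = - Bfun f g [x6, x5, x3, x1] W [] x2 x4 :=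
    h.B12 W [x6, x5, x3, x1] [] x2 x4
  have s143 : Bfun f g [x6, x5, x3, x1] W [] x2 x4 = - Bfun f g [x6, x5, x3, x1] [] W x2 x4 :=
    h.B23 [x6, x5, x3, x1] W [] x2 x4
  have s144 : Bfun f g [x6, x5, x3, x1] [] W x2 x4 = - Bfun f g [] [x6, x5, x3, x1] W x2 x4 :=
    h.B12 [x6, x5, x3, x1] [] W x2 x4
  have s145 : Bfun f g [] [x6, x5, x3, x1] W x2 x4 = - Bfun f g [] [x6, x5, x1, x3] W x2 x4 :=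
    h.Bi2 [] [x6, x5] [] [] W x3 x1 x2 x4 (Or.inr (List.cons_ne_nil _ _))
  have s146 : Bfun f g [] [x6, x5, x1, x3] W x2 x4 = - Bfun f g [] [x6, x1, x5, x3] W x2 x4 :=
    h.Bi2 [] [x6] [x3] [] W x5 x1 x2 x4 (Or.inr (List.cons_ne_nil _ _))
  have s147 : Bfun f g [] [x6, x1, x5, x3] W x2 x4 = - Bfun f g [] [x6, x1, x5, x2] W x3 x4 :=
    h.Bl2 [] [x6, x1, x5] [] W x3 x2 x4 (Or.inr (List.cons_ne_nil _ _))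
  have s148 : Bfun f g [] [x6, x1, x5, x2] W x3 x4 = - Bfun f g [] [x6, x1, x2, x5] W x3 x4 :=
    h.Bi2 [] [x6, x1] [] [] W x5 x2 x3 x4 (Or.inr (List.cons_ne_nil _ _))
  have s149 : Bfun f g [] [x6, x1, x2, x5] W x3 x4 = - Bfun f g [] [x6, x1, x2, x3] W x5 x4 :=
    h.Bl2 [] [x6, x1, x2] [] W x5 x3 x4 (Or.inr (List.cons_ne_nil _ _))
  have s150 : Bfun f g [] [x6, x1, x2, x3] W x5 x4 = - Bfun f g [] [x6, x1, x2, x3] W x4 x5 :=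
    h.Bzz [] [x6, x1, x2, x3] W x5 x4
  have s151 : Bfun f g [] (W ++ [x2, x3, x5, x4]) [] x6 x1 = 0 :=
    h.B00_13 (W ++ [x2, x3, x5, x4]) x6 x1
  have s152 : Bfun f g W [x6, x5] [x1, x4] x2 x3 = - Bfun f g [x6, x5] W [x1, x4] x2 x3 :=
    h.B12 W [x6, x5] [x1, x4] x2 x3
  have s153 : Bfun f g [x6, x5] W [x1, x4] x2 x3 = - Bfun f g [x6, x5] [x1, x4] W x2 x3 :=
    h.B23 [x6, x5] W [x1, x4] x2 x3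
  have s154 : Bfun f g [x6, x5] [x1, x4] W x2 x3 = - Bfun f g [x1, x4] [x6, x5] W x2 x3 :=
    h.B12 [x6, x5] [x1, x4] W x2 x3
  have s155 : Bfun f g [x1, x4] [x6, x5] W x2 x3 = - Bfun f g [x1, x2] [x6, x5] W x4 x3 :=
    h.Bl1 [] [x1] [x6, x5] W x4 x2 x3 (Or.inr (List.cons_ne_nil _ _))
  have s156 : Bfun f g [x1, x2] [x6, x5] W x4 x3 = - Bfun f g [x1, x2] [x6, x5] W x3 x4 :=
    h.Bzz [x1, x2] [x6, x5] W x4 x3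
  have s157 : Bfun f g [x1, x2] [x6, x5] W x3 x4 = - Bfun f g [x1, x2] [x6, x3] W x5 x4 :=
    h.Bl2 [] [x6] [x1, x2] W x5 x3 x4 (Or.inr (List.cons_ne_nil _ _))
  have s158 : Bfun f g [x1, x2] [x6, x3] W x5 x4 = - Bfun f g [x1, x2] [x6, x3] W x4 x5 :=
    h.Bzz [x1, x2] [x6, x3] W x5 x4
  have s159 : Bfun f g [] (W ++ [x2, x3]) [x4, x1] x6 x5 = - Bfun f g [] [x4, x1] (W ++ [x2, x3]) x6 x5 :=
    h.B23 [] (W ++ [x2, x3]) [x4, x1] x6 x5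
  have s160 : Bfun f g [x1, x5] (W ++ [x2, x6]) [] x4 x3 = - Bfun f g [x1, x5] [] (W ++ [x2, x6]) x4 x3 :=
    h.B23 [x1, x5] (W ++ [x2, x6]) [] x4 x3
  have s161 : Bfun f g [x1, x5] [] (W ++ [x2, x6]) x4 x3 = - Bfun f g [] [x1, x5] (W ++ [x2, x6]) x4 x3 :=
    h.B12 [x1, x5] [] (W ++ [x2, x6]) x4 x3
  have s162 : Bfun f g [] [x1, x5] (W ++ [x2, x6]) x4 x3 = - Bfun f g [] [x1, x5] (W ++ [x6, x2]) x4 x3 :=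
    h.Bi3 W [] [] [] [x1, x5] x2 x6 x4 x3 (Or.inl hW)
  have s163 : Bfun f g [] [x1, x5] (W ++ [x6, x2]) x4 x3 = - Bfun f g [] [x1, x5] (W ++ [x6, x4]) x2 x3 :=
    h.Bl3 W [x6] [] [x1, x5] x2 x4 x3 (Or.inr (List.cons_ne_nil _ _))
  have s164 : Bfun f g [] [x1, x5] (W ++ [x6, x4]) x2 x3 = - Bfun f g [] [x1, x2] (W ++ [x6, x4]) x5 x3 :=
    h.Bl2 [] [x1] [] (W ++ [x6, x4]) x5 x2 x3 (Or.inr (List.cons_ne_nil _ _))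
  have s165 : Bfun f g [] [x1, x2] (W ++ [x6, x4]) x5 x3 = - Bfun f g [] [x1, x2] (W ++ [x6, x4]) x3 x5 :=
    h.Bzz [] [x1, x2] (W ++ [x6, x4]) x5 x3
  have s166 : Bfun f g [] [x1, x2] (W ++ [x6, x4]) x3 x5 = - Bfun f g [] [x1, x2] (W ++ [x6, x3]) x4 x5 :=
    h.Bl3 W [x6] [] [x1, x2] x4 x3 x5 (Or.inr (List.cons_ne_nil _ _))
  have s167 : Bfun f g [] [x1, x2] (W ++ [x6, x3]) x4 x5 = - Bfun f g [] [x1, x2] (W ++ [x3, x6]) x4 x5 :=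
    h.Bi3 W [] [] [] [x1, x2] x6 x3 x4 x5 (Or.inl hW)
  have s168 : Bfun f g (W ++ [x2, x4]) [x1, x3] [] x5 x6 = - Bfun f g [x1, x3] (W ++ [x2, x4]) [] x5 x6 :=
    h.B12 (W ++ [x2, x4]) [x1, x3] [] x5 x6
  have s169 : Bfun f g [x1, x3] (W ++ [x2, x4]) [] x5 x6 = - Bfun f g [x1, x3] [] (W ++ [x2, x4]) x5 x6 :=
    h.B23 [x1, x3] (W ++ [x2, x4]) [] x5 x6
  have s170 : Bfun f g [x1, x3] [] (W ++ [x2, x4]) x5 x6 = - Bfun f g [] [x1, x3] (W ++ [x2, x4]) x5 x6 :=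
    h.B12 [x1, x3] [] (W ++ [x2, x4]) x5 x6
  have s171 : Bfun f g [] [x1, x3] (W ++ [x2, x4]) x5 x6 = - Bfun f g [] [x1, x3] (W ++ [x4, x2]) x5 x6 :=
    h.Bi3 W [] [] [] [x1, x3] x2 x4 x5 x6 (Or.inl hW)
  have s172 : Bfun f g [] [x1, x3] (W ++ [x4, x2]) x5 x6 = - Bfun f g [] [x1, x3] (W ++ [x4, x5]) x2 x6 :=
    h.Bl3 W [x4] [] [x1, x3] x2 x5 x6 (Or.inr (List.cons_ne_nil _ _))
  have s173 : Bfun f g [] [x1, x3] (W ++ [x4, x5]) x2 x6 = - Bfun f g [] [x1, x2] (W ++ [x4, x5]) x3 x6 :=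
    h.Bl2 [] [x1] [] (W ++ [x4, x5]) x3 x2 x6 (Or.inr (List.cons_ne_nil _ _))
  have s174 : Bfun f g [] [x1, x2] (W ++ [x4, x5]) x3 x6 = - Bfun f g [] [x1, x2] (W ++ [x4, x3]) x5 x6 :=
    h.Bl3 W [x4] [] [x1, x2] x5 x3 x6 (Or.inr (List.cons_ne_nil _ _))
  have s175 : Bfun f g [] [x1, x2] (W ++ [x4, x3]) x5 x6 = - Bfun f g [] [x1, x2] (W ++ [x3, x4]) x5 x6 :=
    h.Bi3 W [] [] [] [x1, x2] x4 x3 x5 x6 (Or.inl hW)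
  have s176 : Bfun f g W [x1, x5, x4, x3] [] x2 x6 = - Bfun f g [x1, x5, x4, x3] W [] x2 x6 :=
    h.B12 W [x1, x5, x4, x3] [] x2 x6
  have s177 : Bfun f g [x1, x5, x4, x3] W [] x2 x6 = - Bfun f g [x1, x5, x4, x3] [] W x2 x6 :=
    h.B23 [x1, x5, x4, x3] W [] x2 x6
  have s178 : Bfun f g [x1, x5, x4, x3] [] W x2 x6 = - Bfun f g [] [x1, x5, x4, x3] W x2 x6 :=
    h.B12 [x1, x5, x4, x3] [] W x2 x6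
  have s179 : Bfun f g [] [x1, x5, x4, x3] W x2 x6 = - Bfun f g [] [x1, x5, x4, x2] W x3 x6 :=
    h.Bl2 [] [x1, x5, x4] [] W x3 x2 x6 (Or.inr (List.cons_ne_nil _ _))
  have s180 : Bfun f g [] [x1, x5, x4, x2] W x3 x6 = - Bfun f g [] [x1, x5, x2, x4] W x3 x6 :=
    h.Bi2 [] [x1, x5] [] [] W x4 x2 x3 x6 (Or.inr (List.cons_ne_nil _ _))
  have s181 : Bfun f g [] [x1, x5, x2, x4] W x3 x6 = - Bfun f g [] [x1, x2, x5, x4] W x3 x6 :=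
    h.Bi2 [] [x1] [x4] [] W x5 x2 x3 x6 (Or.inr (List.cons_ne_nil _ _))
  have s182 : Bfun f g [] [x1, x2, x5, x4] W x3 x6 = - Bfun f g [] [x1, x2, x5, x3] W x4 x6 :=
    h.Bl2 [] [x1, x2, x5] [] W x4 x3 x6 (Or.inr (List.cons_ne_nil _ _))
  have s183 : Bfun f g [] [x1, x2, x5, x3] W x4 x6 = - Bfun f g [] [x1, x2, x3, x5] W x4 x6 :=
    h.Bi2 [] [x1, x2] [] [] W x5 x3 x4 x6 (Or.inr (List.cons_ne_nil _ _))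
  have s184 : Bfun f g [] [x1, x2, x3, x5] W x4 x6 = - Bfun f g [] [x1, x2, x3, x4] W x5 x6 :=
    h.Bl2 [] [x1, x2, x3] [] W x5 x4 x6 (Or.inr (List.cons_ne_nil _ _))
  have s185 : Bfun f g [] (W ++ [x2, x4, x5, x6]) [] x1 x3 = 0 :=
    h.B00_13 (W ++ [x2, x4, x5, x6]) x1 x3
  have s186 : Bfun f g W [x1, x5] [x3, x6] x2 x4 = - Bfun f g [x1, x5] W [x3, x6] x2 x4 :=
    h.B12 W [x1, x5] [x3, x6] x2 x4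
  have s187 : Bfun f g [x1, x5] W [x3, x6] x2 x4 = - Bfun f g [x1, x5] [x3, x6] W x2 x4 :=
    h.B23 [x1, x5] W [x3, x6] x2 x4
  have s188 : Bfun f g [x1, x5] [x3, x6] W x2 x4 = - Bfun f g [x1, x2] [x3, x6] W x5 x4 :=
    h.Bl1 [] [x1] [x3, x6] W x5 x2 x4 (Or.inr (List.cons_ne_nil _ _))
  have s189 : Bfun f g [x1, x2] [x3, x6] W x5 x4 = - Bfun f g [x1, x2] [x3, x6] W x4 x5 :=
    h.Bzz [x1, x2] [x3, x6] W x5 x4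
  have s190 : Bfun f g [x1, x2] [x3, x6] W x4 x5 = - Bfun f g [x1, x2] [x3, x4] W x6 x5 :=
    h.Bl2 [] [x3] [x1, x2] W x6 x4 x5 (Or.inr (List.cons_ne_nil _ _))
  have s191 : Bfun f g [x1, x2] [x3, x4] W x6 x5 = - Bfun f g [x1, x2] [x3, x4] W x5 x6 :=
    h.Bzz [x1, x2] [x3, x4] W x6 x5
  have s192 : Bfun f g [] (W ++ [x2, x4]) [x6, x3] x1 x5 = - Bfun f g [] [x6, x3] (W ++ [x2, x4]) x1 x5 :=
    h.B23 [] (W ++ [x2, x4]) [x6, x3] x1 x5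
  have s193 : Bfun f g [x3, x5] (W ++ [x2, x6]) [] x4 x1 = - Bfun f g [x3, x5] [] (W ++ [x2, x6]) x4 x1 :=
    h.B23 [x3, x5] (W ++ [x2, x6]) [] x4 x1
  have s194 : Bfun f g [x3, x5] [] (W ++ [x2, x6]) x4 x1 = - Bfun f g [] [x3, x5] (W ++ [x2, x6]) x4 x1 :=
    h.B12 [x3, x5] [] (W ++ [x2, x6]) x4 x1
  have s195 : Bfun f g [] [x3, x5] (W ++ [x2, x6]) x4 x1 = - Bfun f g [] [x3, x5] (W ++ [x2, x6]) x1 x4 :=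
    h.Bzz [] [x3, x5] (W ++ [x2, x6]) x4 x1
  have s196 : Bfun f g [] [x3, x5] (W ++ [x2, x6]) x1 x4 = - Bfun f g [] [x3, x1] (W ++ [x2, x6]) x5 x4 :=
    h.Bl2 [] [x3] [] (W ++ [x2, x6]) x5 x1 x4 (Or.inr (List.cons_ne_nil _ _))
  have s197 : Bfun f g [] [x3, x1] (W ++ [x2, x6]) x5 x4 = - Bfun f g [] [x3, x1] (W ++ [x2, x6]) x4 x5 :=
    h.Bzz [] [x3, x1] (W ++ [x2, x6]) x5 x4
  have s198 : Bfun f g [] [x3, x1] (W ++ [x2, x6]) x4 x5 = - Bfun f g [] [x3, x1] (W ++ [x2, x4]) x6 x5 :=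
    h.Bl3 W [x2] [] [x3, x1] x6 x4 x5 (Or.inr (List.cons_ne_nil _ _))
  have s199 : Bfun f g [] [x3, x1] (W ++ [x2, x4]) x6 x5 = - Bfun f g [] [x3, x1] (W ++ [x2, x4]) x5 x6 :=
    h.Bzz [] [x3, x1] (W ++ [x2, x4]) x6 x5
  have s200 : Bfun f g (W ++ [x2, x4]) [x3, x1] [] x5 x6 = - Bfun f g [x3, x1] (W ++ [x2, x4]) [] x5 x6 :=
    h.B12 (W ++ [x2, x4]) [x3, x1] [] x5 x6
  have s201 : Bfun f g [x3, x1] (W ++ [x2, x4]) [] x5 x6 = - Bfun f g [x3, x1] [] (W ++ [x2, x4]) x5 x6 :=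
    h.B23 [x3, x1] (W ++ [x2, x4]) [] x5 x6
  have s202 : Bfun f g [x3, x1] [] (W ++ [x2, x4]) x5 x6 = - Bfun f g [] [x3, x1] (W ++ [x2, x4]) x5 x6 :=
    h.B12 [x3, x1] [] (W ++ [x2, x4]) x5 x6
  have s203 : Bfun f g W [x3, x5, x4, x1] [] x2 x6 = - Bfun f g [x3, x5, x4, x1] W [] x2 x6 :=
    h.B12 W [x3, x5, x4, x1] [] x2 x6
  have s204 : Bfun f g [x3, x5, x4, x1] W [] x2 x6 = - Bfun f g [x3, x5, x4, x1] [] W x2 x6 :=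
    h.B23 [x3, x5, x4, x1] W [] x2 x6
  have s205 : Bfun f g [x3, x5, x4, x1] [] W x2 x6 = - Bfun f g [] [x3, x5, x4, x1] W x2 x6 :=
    h.B12 [x3, x5, x4, x1] [] W x2 x6
  have s206 : Bfun f g [] [x3, x5, x4, x1] W x2 x6 = - Bfun f g [] [x3, x5, x1, x4] W x2 x6 :=
    h.Bi2 [] [x3, x5] [] [] W x4 x1 x2 x6 (Or.inr (List.cons_ne_nil _ _))
  have s207 : Bfun f g [] [x3, x5, x1, x4] W x2 x6 = - Bfun f g [] [x3, x1, x5, x4] W x2 x6 :=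
    h.Bi2 [] [x3] [x4] [] W x5 x1 x2 x6 (Or.inr (List.cons_ne_nil _ _))
  have s208 : Bfun f g [] [x3, x1, x5, x4] W x2 x6 = - Bfun f g [] [x3, x1, x5, x2] W x4 x6 :=
    h.Bl2 [] [x3, x1, x5] [] W x4 x2 x6 (Or.inr (List.cons_ne_nil _ _))
  have s209 : Bfun f g [] [x3, x1, x5, x2] W x4 x6 = - Bfun f g [] [x3, x1, x2, x5] W x4 x6 :=
    h.Bi2 [] [x3, x1] [] [] W x5 x2 x4 x6 (Or.inr (List.cons_ne_nil _ _))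
  have s210 : Bfun f g [] (W ++ [x2, x4, x5, x6]) [] x3 x1 = 0 :=
    h.B00_13 (W ++ [x2, x4, x5, x6]) x3 x1
  have s211 : Bfun f g W [x3, x5] [x1, x6] x2 x4 = - Bfun f g [x3, x5] W [x1, x6] x2 x4 :=
    h.B12 W [x3, x5] [x1, x6] x2 x4
  have s212 : Bfun f g [x3, x5] W [x1, x6] x2 x4 = - Bfun f g [x3, x5] [x1, x6] W x2 x4 :=
    h.B23 [x3, x5] W [x1, x6] x2 x4
  have s213 : Bfun f g [x3, x5] [x1, x6] W x2 x4 = - Bfun f g [x1, x6] [x3, x5] W x2 x4 :=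
    h.B12 [x3, x5] [x1, x6] W x2 x4
  have s214 : Bfun f g [x1, x6] [x3, x5] W x2 x4 = - Bfun f g [x1, x2] [x3, x5] W x6 x4 :=
    h.Bl1 [] [x1] [x3, x5] W x6 x2 x4 (Or.inr (List.cons_ne_nil _ _))
  have s215 : Bfun f g [x1, x2] [x3, x5] W x6 x4 = - Bfun f g [x1, x2] [x3, x5] W x4 x6 :=
    h.Bzz [x1, x2] [x3, x5] W x6 x4
  have s216 : Bfun f g [x1, x2] [x3, x5] W x4 x6 = - Bfun f g [x1, x2] [x3, x4] W x5 x6 :=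
    h.Bl2 [] [x3] [x1, x2] W x5 x4 x6 (Or.inr (List.cons_ne_nil _ _))
  have s217 : Bfun f g [] (W ++ [x2, x4]) [x6, x1] x3 x5 = - Bfun f g [] [x6, x1] (W ++ [x2, x4]) x3 x5 :=
    h.B23 [] (W ++ [x2, x4]) [x6, x1] x3 x5
  have s218 : Bfun f g [x1, x5] (W ++ [x3, x2]) [] x4 x6 = - Bfun f g [x1, x5] [] (W ++ [x3, x2]) x4 x6 :=
    h.B23 [x1, x5] (W ++ [x3, x2]) [] x4 x6
  have s219 : Bfun f g [x1, x5] [] (W ++ [x3, x2]) x4 x6 = - Bfun f g [] [x1, x5] (W ++ [x3, x2]) x4 x6 :=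
    h.B12 [x1, x5] [] (W ++ [x3, x2]) x4 x6
  have s220 : Bfun f g [] [x1, x5] (W ++ [x3, x2]) x4 x6 = - Bfun f g [] [x1, x5] (W ++ [x3, x4]) x2 x6 :=
    h.Bl3 W [x3] [] [x1, x5] x2 x4 x6 (Or.inr (List.cons_ne_nil _ _))
  have s221 : Bfun f g [] [x1, x5] (W ++ [x3, x4]) x2 x6 = - Bfun f g [] [x1, x2] (W ++ [x3, x4]) x5 x6 :=
    h.Bl2 [] [x1] [] (W ++ [x3, x4]) x5 x2 x6 (Or.inr (List.cons_ne_nil _ _))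
  have s222 : Bfun f g (W ++ [x3, x4]) [x1, x6] [] x5 x2 = - Bfun f g [x1, x6] (W ++ [x3, x4]) [] x5 x2 :=
    h.B12 (W ++ [x3, x4]) [x1, x6] [] x5 x2
  have s223 : Bfun f g [x1, x6] (W ++ [x3, x4]) [] x5 x2 = - Bfun f g [x1, x6] [] (W ++ [x3, x4]) x5 x2 :=
    h.B23 [x1, x6] (W ++ [x3, x4]) [] x5 x2
  have s224 : Bfun f g [x1, x6] [] (W ++ [x3, x4]) x5 x2 = - Bfun f g [] [x1, x6] (W ++ [x3, x4]) x5 x2 :=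
    h.B12 [x1, x6] [] (W ++ [x3, x4]) x5 x2
  have s225 : Bfun f g [] [x1, x6] (W ++ [x3, x4]) x5 x2 = - Bfun f g [] [x1, x6] (W ++ [x3, x4]) x2 x5 :=
    h.Bzz [] [x1, x6] (W ++ [x3, x4]) x5 x2
  have s226 : Bfun f g [] [x1, x6] (W ++ [x3, x4]) x2 x5 = - Bfun f g [] [x1, x2] (W ++ [x3, x4]) x6 x5 :=
    h.Bl2 [] [x1] [] (W ++ [x3, x4]) x6 x2 x5 (Or.inr (List.cons_ne_nil _ _))
  have s227 : Bfun f g W [x1, x5, x4, x6] [] x3 x2 = - Bfun f g [x1, x5, x4, x6] W [] x3 x2 :=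
    h.B12 W [x1, x5, x4, x6] [] x3 x2
  have s228 : Bfun f g [x1, x5, x4, x6] W [] x3 x2 = - Bfun f g [x1, x5, x4, x6] [] W x3 x2 :=
    h.B23 [x1, x5, x4, x6] W [] x3 x2
  have s229 : Bfun f g [x1, x5, x4, x6] [] W x3 x2 = - Bfun f g [] [x1, x5, x4, x6] W x3 x2 :=
    h.B12 [x1, x5, x4, x6] [] W x3 x2
  have s230 : Bfun f g [] [x1, x5, x4, x6] W x3 x2 = - Bfun f g [] [x1, x5, x4, x6] W x2 x3 :=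
    h.Bzz [] [x1, x5, x4, x6] W x3 x2
  have s231 : Bfun f g [] [x1, x5, x4, x6] W x2 x3 = - Bfun f g [] [x1, x5, x4, x2] W x6 x3 :=
    h.Bl2 [] [x1, x5, x4] [] W x6 x2 x3 (Or.inr (List.cons_ne_nil _ _))
  have s232 : Bfun f g [] [x1, x5, x4, x2] W x6 x3 = - Bfun f g [] [x1, x5, x2, x4] W x6 x3 :=
    h.Bi2 [] [x1, x5] [] [] W x4 x2 x6 x3 (Or.inr (List.cons_ne_nil _ _))
  have s233 : Bfun f g [] [x1, x5, x2, x4] W x6 x3 = - Bfun f g [] [x1, x2, x5, x4] W x6 x3 :=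
    h.Bi2 [] [x1] [x4] [] W x5 x2 x6 x3 (Or.inr (List.cons_ne_nil _ _))
  have s234 : Bfun f g [] [x1, x2, x5, x4] W x6 x3 = - Bfun f g [] [x1, x2, x5, x4] W x3 x6 :=
    h.Bzz [] [x1, x2, x5, x4] W x6 x3
  have s235 : Bfun f g [] (W ++ [x3, x4, x5, x2]) [] x1 x6 = 0 :=
    h.B00_13 (W ++ [x3, x4, x5, x2]) x1 x6
  have s236 : Bfun f g W [x1, x5] [x6, x2] x3 x4 = - Bfun f g [x1, x5] W [x6, x2] x3 x4 :=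
    h.B12 W [x1, x5] [x6, x2] x3 x4
  have s237 : Bfun f g [x1, x5] W [x6, x2] x3 x4 = - Bfun f g [x1, x5] [x6, x2] W x3 x4 :=
    h.B23 [x1, x5] W [x6, x2] x3 x4
  have s238 : Bfun f g [x1, x5] [x6, x2] W x3 x4 = - Bfun f g [x1, x5] [x6, x3] W x2 x4 :=
    h.Bl2 [] [x6] [x1, x5] W x2 x3 x4 (Or.inr (List.cons_ne_nil _ _))
  have s239 : Bfun f g [x1, x5] [x6, x3] W x2 x4 = - Bfun f g [x1, x2] [x6, x3] W x5 x4 :=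
    h.Bl1 [] [x1] [x6, x3] W x5 x2 x4 (Or.inr (List.cons_ne_nil _ _))
  have s240 : Bfun f g [] (W ++ [x3, x4]) [x2, x6] x1 x5 = - Bfun f g [] [x2, x6] (W ++ [x3, x4]) x1 x5 :=
    h.B23 [] (W ++ [x3, x4]) [x2, x6] x1 x5
  have s241 : Bfun f g [] [x2, x6] (W ++ [x3, x4]) x1 x5 = - Bfun f g [] [x2, x1] (W ++ [x3, x4]) x6 x5 :=
    h.Bl2 [] [x2] [] (W ++ [x3, x4]) x6 x1 x5 (Or.inr (List.cons_ne_nil _ _))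
  have s242 : Bfun f g [x2, x6] (W ++ [x3, x1]) [] x4 x5 = - Bfun f g [x2, x6] [] (W ++ [x3, x1]) x4 x5 :=
    h.B23 [x2, x6] (W ++ [x3, x1]) [] x4 x5
  have s243 : Bfun f g [x2, x6] [] (W ++ [x3, x1]) x4 x5 = - Bfun f g [] [x2, x6] (W ++ [x3, x1]) x4 x5 :=
    h.B12 [x2, x6] [] (W ++ [x3, x1]) x4 x5
  have s244 : Bfun f g [] [x2, x6] (W ++ [x3, x1]) x4 x5 = - Bfun f g [] [x2, x6] (W ++ [x3, x4]) x1 x5 :=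
    h.Bl3 W [x3] [] [x2, x6] x1 x4 x5 (Or.inr (List.cons_ne_nil _ _))
  have s245 : Bfun f g (W ++ [x3, x4]) [x2, x5] [] x6 x1 = - Bfun f g [x2, x5] (W ++ [x3, x4]) [] x6 x1 :=
    h.B12 (W ++ [x3, x4]) [x2, x5] [] x6 x1
  have s246 : Bfun f g [x2, x5] (W ++ [x3, x4]) [] x6 x1 = - Bfun f g [x2, x5] [] (W ++ [x3, x4]) x6 x1 :=
    h.B23 [x2, x5] (W ++ [x3, x4]) [] x6 x1
  have s247 : Bfun f g [x2, x5] [] (W ++ [x3, x4]) x6 x1 = - Bfun f g [] [x2, x5] (W ++ [x3, x4]) x6 x1 :=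
    h.B12 [x2, x5] [] (W ++ [x3, x4]) x6 x1
  have s248 : Bfun f g [] [x2, x5] (W ++ [x3, x4]) x6 x1 = - Bfun f g [] [x2, x5] (W ++ [x3, x4]) x1 x6 :=
    h.Bzz [] [x2, x5] (W ++ [x3, x4]) x6 x1
  have s249 : Bfun f g W [x2, x6, x4, x5] [] x3 x1 = - Bfun f g [x2, x6, x4, x5] W [] x3 x1 :=
    h.B12 W [x2, x6, x4, x5] [] x3 x1
  have s250 : Bfun f g [x2, x6, x4, x5] W [] x3 x1 = - Bfun f g [x2, x6, x4, x5] [] W x3 x1 :=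
    h.B23 [x2, x6, x4, x5] W [] x3 x1
  have s251 : Bfun f g [x2, x6, x4, x5] [] W x3 x1 = - Bfun f g [] [x2, x6, x4, x5] W x3 x1 :=
    h.B12 [x2, x6, x4, x5] [] W x3 x1
  have s252 : Bfun f g [] [x2, x6, x4, x5] W x3 x1 = - Bfun f g [] [x2, x6, x4, x5] W x1 x3 :=
    h.Bzz [] [x2, x6, x4, x5] W x3 x1
  have s253 : Bfun f g [] [x2, x6, x4, x5] W x1 x3 = - Bfun f g [] [x2, x6, x4, x1] W x5 x3 :=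
    h.Bl2 [] [x2, x6, x4] [] W x5 x1 x3 (Or.inr (List.cons_ne_nil _ _))
  have s254 : Bfun f g [] [x2, x6, x4, x1] W x5 x3 = - Bfun f g [] [x2, x6, x1, x4] W x5 x3 :=
    h.Bi2 [] [x2, x6] [] [] W x4 x1 x5 x3 (Or.inr (List.cons_ne_nil _ _))
  have s255 : Bfun f g [] [x2, x6, x1, x4] W x5 x3 = - Bfun f g [] [x2, x1, x6, x4] W x5 x3 :=
    h.Bi2 [] [x2] [x4] [] W x6 x1 x5 x3 (Or.inr (List.cons_ne_nil _ _))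
  have s256 : Bfun f g [] [x2, x1, x6, x4] W x5 x3 = - Bfun f g [] [x2, x1, x6, x4] W x3 x5 :=
    h.Bzz [] [x2, x1, x6, x4] W x5 x3
  have s257 : Bfun f g [] [x2, x1, x6, x4] W x3 x5 = - Bfun f g [] [x2, x1, x6, x3] W x4 x5 :=
    h.Bl2 [] [x2, x1, x6] [] W x4 x3 x5 (Or.inr (List.cons_ne_nil _ _))
  have s258 : Bfun f g [] [x2, x1, x6, x3] W x4 x5 = - Bfun f g [] [x2, x1, x3, x6] W x4 x5 :=
    h.Bi2 [] [x2, x1] [] [] W x6 x3 x4 x5 (Or.inr (List.cons_ne_nil _ _))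
  have s259 : Bfun f g [] [x2, x1, x3, x6] W x4 x5 = - Bfun f g [] [x2, x1, x3, x4] W x6 x5 :=
    h.Bl2 [] [x2, x1, x3] [] W x6 x4 x5 (Or.inr (List.cons_ne_nil _ _))
  have s260 : Bfun f g [] [x2, x1, x3, x4] W x6 x5 = - Bfun f g [] [x2, x1, x3, x4] W x5 x6 :=
    h.Bzz [] [x2, x1, x3, x4] W x6 x5
  have s261 : Bfun f g [] (W ++ [x3, x4, x6, x1]) [] x2 x5 = 0 :=
    h.B00_13 (W ++ [x3, x4, x6, x1]) x2 x5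
  have s262 : Bfun f g W [x2, x6] [x5, x1] x3 x4 = - Bfun f g [x2, x6] W [x5, x1] x3 x4 :=
    h.B12 W [x2, x6] [x5, x1] x3 x4
  have s263 : Bfun f g [x2, x6] W [x5, x1] x3 x4 = - Bfun f g [x2, x6] [x5, x1] W x3 x4 :=
    h.B23 [x2, x6] W [x5, x1] x3 x4
  have s264 : Bfun f g [x2, x6] [x5, x1] W x3 x4 = - Bfun f g [x2, x6] [x5, x3] W x1 x4 :=
    h.Bl2 [] [x5] [x2, x6] W x1 x3 x4 (Or.inr (List.cons_ne_nil _ _))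
  have s265 : Bfun f g [x2, x6] [x5, x3] W x1 x4 = - Bfun f g [x2, x1] [x5, x3] W x6 x4 :=
    h.Bl1 [] [x2] [x5, x3] W x6 x1 x4 (Or.inr (List.cons_ne_nil _ _))
  have s266 : Bfun f g [] (W ++ [x3, x4]) [x1, x5] x2 x6 = - Bfun f g [] [x1, x5] (W ++ [x3, x4]) x2 x6 :=
    h.B23 [] (W ++ [x3, x4]) [x1, x5] x2 x6
  have s267 : Bfun f g [x1, x6] (W ++ [x3, x2]) [] x5 x4 = - Bfun f g [x1, x6] [] (W ++ [x3, x2]) x5 x4 :=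
    h.B23 [x1, x6] (W ++ [x3, x2]) [] x5 x4
  have s268 : Bfun f g [x1, x6] [] (W ++ [x3, x2]) x5 x4 = - Bfun f g [] [x1, x6] (W ++ [x3, x2]) x5 x4 :=
    h.B12 [x1, x6] [] (W ++ [x3, x2]) x5 x4
  have s269 : Bfun f g [] [x1, x6] (W ++ [x3, x2]) x5 x4 = - Bfun f g [] [x1, x6] (W ++ [x3, x5]) x2 x4 :=
    h.Bl3 W [x3] [] [x1, x6] x2 x5 x4 (Or.inr (List.cons_ne_nil _ _))
  have s270 : Bfun f g [] [x1, x6] (W ++ [x3, x5]) x2 x4 = - Bfun f g [] [x1, x2] (W ++ [x3, x5]) x6 x4 :=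
    h.Bl2 [] [x1] [] (W ++ [x3, x5]) x6 x2 x4 (Or.inr (List.cons_ne_nil _ _))
  have s271 : Bfun f g (W ++ [x3, x5]) [x1, x4] [] x6 x2 = - Bfun f g [x1, x4] (W ++ [x3, x5]) [] x6 x2 :=
    h.B12 (W ++ [x3, x5]) [x1, x4] [] x6 x2
  have s272 : Bfun f g [x1, x4] (W ++ [x3, x5]) [] x6 x2 = - Bfun f g [x1, x4] [] (W ++ [x3, x5]) x6 x2 :=
    h.B23 [x1, x4] (W ++ [x3, x5]) [] x6 x2
  have s273 : Bfun f g [x1, x4] [] (W ++ [x3, x5]) x6 x2 = - Bfun f g [] [x1, x4] (W ++ [x3, x5]) x6 x2 :=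
    h.B12 [x1, x4] [] (W ++ [x3, x5]) x6 x2
  have s274 : Bfun f g [] [x1, x4] (W ++ [x3, x5]) x6 x2 = - Bfun f g [] [x1, x4] (W ++ [x3, x5]) x2 x6 :=
    h.Bzz [] [x1, x4] (W ++ [x3, x5]) x6 x2
  have s275 : Bfun f g [] [x1, x4] (W ++ [x3, x5]) x2 x6 = - Bfun f g [] [x1, x2] (W ++ [x3, x5]) x4 x6 :=
    h.Bl2 [] [x1] [] (W ++ [x3, x5]) x4 x2 x6 (Or.inr (List.cons_ne_nil _ _))
  have s276 : Bfun f g W [x1, x6, x5, x4] [] x3 x2 = - Bfun f g [x1, x6, x5, x4] W [] x3 x2 :=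
    h.B12 W [x1, x6, x5, x4] [] x3 x2
  have s277 : Bfun f g [x1, x6, x5, x4] W [] x3 x2 = - Bfun f g [x1, x6, x5, x4] [] W x3 x2 :=
    h.B23 [x1, x6, x5, x4] W [] x3 x2
  have s278 : Bfun f g [x1, x6, x5, x4] [] W x3 x2 = - Bfun f g [] [x1, x6, x5, x4] W x3 x2 :=
    h.B12 [x1, x6, x5, x4] [] W x3 x2
  have s279 : Bfun f g [] [x1, x6, x5, x4] W x3 x2 = - Bfun f g [] [x1, x6, x5, x4] W x2 x3 :=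
    h.Bzz [] [x1, x6, x5, x4] W x3 x2
  have s280 : Bfun f g [] [x1, x6, x5, x4] W x2 x3 = - Bfun f g [] [x1, x6, x5, x2] W x4 x3 :=
    h.Bl2 [] [x1, x6, x5] [] W x4 x2 x3 (Or.inr (List.cons_ne_nil _ _))
  have s281 : Bfun f g [] [x1, x6, x5, x2] W x4 x3 = - Bfun f g [] [x1, x6, x2, x5] W x4 x3 :=
    h.Bi2 [] [x1, x6] [] [] W x5 x2 x4 x3 (Or.inr (List.cons_ne_nil _ _))
  have s282 : Bfun f g [] [x1, x6, x2, x5] W x4 x3 = - Bfun f g [] [x1, x2, x6, x5] W x4 x3 :=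
    h.Bi2 [] [x1] [x5] [] W x6 x2 x4 x3 (Or.inr (List.cons_ne_nil _ _))
  have s283 : Bfun f g [] [x1, x2, x6, x5] W x4 x3 = - Bfun f g [] [x1, x2, x6, x5] W x3 x4 :=
    h.Bzz [] [x1, x2, x6, x5] W x4 x3
  have s284 : Bfun f g [] [x1, x2, x6, x5] W x3 x4 = - Bfun f g [] [x1, x2, x6, x3] W x5 x4 :=
    h.Bl2 [] [x1, x2, x6] [] W x5 x3 x4 (Or.inr (List.cons_ne_nil _ _))
  have s285 : Bfun f g [] [x1, x2, x6, x3] W x5 x4 = - Bfun f g [] [x1, x2, x3, x6] W x5 x4 :=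
    h.Bi2 [] [x1, x2] [] [] W x6 x3 x5 x4 (Or.inr (List.cons_ne_nil _ _))
  have s286 : Bfun f g [] [x1, x2, x3, x6] W x5 x4 = - Bfun f g [] [x1, x2, x3, x6] W x4 x5 :=
    h.Bzz [] [x1, x2, x3, x6] W x5 x4
  have s287 : Bfun f g [] (W ++ [x3, x5, x6, x2]) [] x1 x4 = 0 :=
    h.B00_13 (W ++ [x3, x5, x6, x2]) x1 x4
  have s288 : Bfun f g W [x1, x6] [x4, x2] x3 x5 = - Bfun f g [x1, x6] W [x4, x2] x3 x5 :=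
    h.B12 W [x1, x6] [x4, x2] x3 x5
  have s289 : Bfun f g [x1, x6] W [x4, x2] x3 x5 = - Bfun f g [x1, x6] [x4, x2] W x3 x5 :=
    h.B23 [x1, x6] W [x4, x2] x3 x5
  have s290 : Bfun f g [x1, x6] [x4, x2] W x3 x5 = - Bfun f g [x1, x6] [x4, x3] W x2 x5 :=
    h.Bl2 [] [x4] [x1, x6] W x2 x3 x5 (Or.inr (List.cons_ne_nil _ _))
  have s291 : Bfun f g [x1, x6] [x4, x3] W x2 x5 = - Bfun f g [x1, x2] [x4, x3] W x6 x5 :=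
    h.Bl1 [] [x1] [x4, x3] W x6 x2 x5 (Or.inr (List.cons_ne_nil _ _))
  have s292 : Bfun f g [x1, x2] [x4, x3] W x6 x5 = - Bfun f g [x1, x2] [x4, x3] W x5 x6 :=
    h.Bzz [x1, x2] [x4, x3] W x6 x5
  have s293 : Bfun f g [] (W ++ [x3, x5]) [x2, x4] x1 x6 = - Bfun f g [] [x2, x4] (W ++ [x3, x5]) x1 x6 :=
    h.B23 [] (W ++ [x3, x5]) [x2, x4] x1 x6
  have s294 : Bfun f g [] [x2, x4] (W ++ [x3, x5]) x1 x6 = - Bfun f g [] [x2, x1] (W ++ [x3, x5]) x4 x6 :=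
    h.Bl2 [] [x2] [] (W ++ [x3, x5]) x4 x1 x6 (Or.inr (List.cons_ne_nil _ _))
  have s295 : Bfun f g [] [x2, x1] (W ++ [x3, x5]) x4 x6 = - Bfun f g [] [x2, x1] (W ++ [x3, x4]) x5 x6 :=
    h.Bl3 W [x3] [] [x2, x1] x5 x4 x6 (Or.inr (List.cons_ne_nil _ _))
  apply tf.n2
  linear_combination (norm := module) (1 : ℤ) • r0 + (1 : ℤ) • r1 + (-2 : ℤ) • r2 + (-1 : ℤ) • r3 + (1 : ℤ) • r4 + (-1 : ℤ) • r5 + (1 : ℤ) • r6 + (-1 : ℤ) • r7 + (-2 : ℤ) • r8 + (1 : ℤ) • r9 + (-1 : ℤ) • s0 + (1 : ℤ) • s1 + (-1 : ℤ) • s2 + (1 : ℤ) • s3 + (-1 : ℤ) • s4 + (1 : ℤ) • s5 + (-1 : ℤ) • s6 + (1 : ℤ) • s7 + (-1 : ℤ) • s8 + (1 : ℤ) • s9 + (-1 : ℤ) • s10 + (1 : ℤ) • s11 + (-1 : ℤ) • s12 + (1 : ℤ) • s13 + (-1 : ℤ) • s14 + (1 : ℤ) • s15 + (-1 : ℤ) • s16 + (1 : ℤ) • s17 + (-1 : ℤ) • s18 + (1 : ℤ) • s19 + (-1 : ℤ) • s20 +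 (1 : ℤ) • s21 + (-1 : ℤ) • s23 + (1 : ℤ) • s24 + (-1 : ℤ) • s25 + (1 : ℤ) • s29 + (-1 : ℤ) • s30 + (1 : ℤ) • s31 + (-1 : ℤ) • s32 + (-1 : ℤ) • s34 + (1 : ℤ) • s35 + (-1 : ℤ) • s36 + (1 : ℤ) • s37 + (-1 : ℤ) • s38 + (1 : ℤ) • s39 + (-1 : ℤ) • s40 + (1 : ℤ) • s41 + (2 : ℤ) • s42 + (-1 : ℤ) • s43 + (1 : ℤ) • s44 + (-1 : ℤ) • s45 + (1 : ℤ) • s46 + (-1 : ℤ) • s47 + (2 : ℤ) • s48 + (-2 : ℤ) • s49 + (-1 : ℤ) • s50 + (1 : ℤ) • s51 + (-1 : ℤ) • s52 + (1 : ℤ) • s53 + (-1 : ℤ) • s54 + (1 : ℤ) • s55 + (-1 : ℤ) • s56 + (1 : ℤ) • s57 + (-1 : ℤ) • s58 + (1 : ℤ) • s59 + (-1 : ℤ) • s60 + (1 : ℤ) • s61 + (1 : ℤ) • s62 + (-1 : ℤ) • s63 + (1 : ℤ) • s64 + (-1 : ℤ) • s65 + (1 : ℤ) • s66 + (-1 : ℤ) • s67 + (2 : ℤ) • s68 + (-2 : ℤ) • s69 + (2 : ℤ) • s70 + (-2 : ℤ) • s71 + (2 : ℤ) • s72 + (-2 : ℤ) • s73 + (2 : ℤ)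 • s74 + (-1 : ℤ) • s75 + (2 : ℤ) • s76 + (-2 : ℤ) • s77 + (2 : ℤ) • s78 + (-2 : ℤ) • s79 + (2 : ℤ) • s80 + (2 : ℤ) • s82 + (-2 : ℤ) • s83 + (2 : ℤ) • s84 + (-2 : ℤ) • s85 + (2 : ℤ) • s86 + (-2 : ℤ) • s87 + (2 : ℤ) • s88 + (2 : ℤ) • s89 + (-2 : ℤ) • s90 + (2 : ℤ) • s91 + (-2 : ℤ) • s92 + (2 : ℤ) • s93 + (-2 : ℤ) • s94 + (-2 : ℤ) • s96 + (2 : ℤ) • s97 + (-2 : ℤ) • s98 + (2 : ℤ) • s99 + (-2 : ℤ) • s100 + (1 : ℤ) • s101 + (-1 : ℤ) • s102 + (1 : ℤ) • s103 + (-1 : ℤ) • s104 + (1 : ℤ) • s105 + (-1 : ℤ) • s106 + (1 : ℤ) • s108 + (1 : ℤ) • s109 + (-1 : ℤ) • s110 + (1 : ℤ) • s111 + (-1 : ℤ) • s112 + (1 : ℤ) • s113 + (-1 : ℤ) • s114 + (2 : ℤ) • s115 + (-3 : ℤ) • s116 + (1 : ℤ) • s117 + (-1 : ℤ) • s118 + (1 : ℤ) • s119 + (-1 : ℤ) • s120 + (1 : ℤ) • s121 + (-1 : ℤ) • s122 + (1 : ℤ) • s123 + (1 : ℤ) •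 s126 + (-1 : ℤ) • s127 + (1 : ℤ) • s128 + (-1 : ℤ) • s129 + (1 : ℤ) • s130 + (-1 : ℤ) • s131 + (-1 : ℤ) • s132 + (1 : ℤ) • s133 + (-1 : ℤ) • s134 + (1 : ℤ) • s135 + (-1 : ℤ) • s136 + (1 : ℤ) • s137 + (-1 : ℤ) • s138 + (-1 : ℤ) • s139 + (1 : ℤ) • s140 + (-1 : ℤ) • s141 + (-1 : ℤ) • s142 + (1 : ℤ) • s143 + (-1 : ℤ) • s144 + (1 : ℤ) • s145 + (-1 : ℤ) • s146 + (1 : ℤ) • s147 + (-1 : ℤ) • s148 + (1 : ℤ) • s149 + (-1 : ℤ) • s150 + (-1 : ℤ) • s151 + (1 : ℤ) • s152 + (-1 : ℤ) • s153 + (1 : ℤ) • s154 + (-1 : ℤ) • s155 + (1 : ℤ) • s156 + (-1 : ℤ) • s157 + (1 : ℤ) • s159 + (1 : ℤ) • s160 + (-1 : ℤ) • s161 + (1 : ℤ) • s162 + (-1 : ℤ) • s163 + (1 : ℤ) • s164 + (-1 : ℤ) • s165 + (1 : ℤ) • s166 + (-1 : ℤ) • s167 + (1 : ℤ) • s168 + (-1 : ℤ) • s169 + (1 : ℤ) • s170 + (-1 : ℤ) • s171 + (1 : ℤ) • s172 + (-1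 : ℤ) • s173 + (1 : ℤ) • s174 + (-1 : ℤ) • s175 + (1 : ℤ) • s176 + (-1 : ℤ) • s177 + (1 : ℤ) • s178 + (-1 : ℤ) • s179 + (1 : ℤ) • s180 + (-1 : ℤ) • s181 + (2 : ℤ) • s182 + (-2 : ℤ) • s183 + (2 : ℤ) • s184 + (1 : ℤ) • s185 + (-1 : ℤ) • s186 + (1 : ℤ) • s187 + (-1 : ℤ) • s188 + (1 : ℤ) • s189 + (-1 : ℤ) • s190 + (1 : ℤ) • s191 + (-1 : ℤ) • s192 + (-1 : ℤ) • s193 + (1 : ℤ) • s194 + (-1 : ℤ) • s195 + (1 : ℤ) • s196 + (-1 : ℤ) • s197 + (1 : ℤ) • s198 + (-1 : ℤ) • s199 + (-1 : ℤ) • s200 + (1 : ℤ) • s201 + (-1 : ℤ) • s202 + (-1 : ℤ) • s203 + (1 : ℤ) • s204 + (-1 : ℤ) • s205 + (1 : ℤ) • s206 + (-1 : ℤ) • s207 + (1 : ℤ) • s208 + (-1 : ℤ) • s209 + (-1 : ℤ) • s210 + (1 : ℤ) • s211 + (-1 : ℤ) • s212 + (1 : ℤ) • s213 + (-1 : ℤ) • s214 + (1 : ℤ) • s215 + (-1 : ℤ) • s216 + (1 : ℤ) • s217 + (1 : ℤ) • s218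 + (-1 : ℤ) • s219 + (1 : ℤ) • s220 + (1 : ℤ) • s221 + (1 : ℤ) • s222 + (-1 : ℤ) • s223 + (1 : ℤ) • s224 + (-1 : ℤ) • s225 + (1 : ℤ) • s226 + (1 : ℤ) • s227 + (-1 : ℤ) • s228 + (1 : ℤ) • s229 + (-1 : ℤ) • s230 + (1 : ℤ) • s231 + (-1 : ℤ) • s232 + (1 : ℤ) • s233 + (-1 : ℤ) • s234 + (1 : ℤ) • s235 + (-1 : ℤ) • s236 + (1 : ℤ) • s237 + (-1 : ℤ) • s238 + (1 : ℤ) • s239 + (-1 : ℤ) • s240 + (-1 : ℤ) • s241 + (2 : ℤ) • s242 + (-2 : ℤ) • s243 + (2 : ℤ) • s244 + (2 : ℤ) • s245 + (-2 : ℤ) • s246 + (2 : ℤ) • s247 + (-2 : ℤ) • s248 + (2 : ℤ) • s249 + (-2 : ℤ) • s250 + (2 : ℤ) • s251 + (-2 : ℤ) • s252 + (2 : ℤ) • s253 + (-2 : ℤ) • s254 + (2 : ℤ) • s255 + (-2 : ℤ) • s256 + (2 : ℤ) • s257 + (-2 : ℤ) • s258 + (2 : ℤ) • s259 + (-2 : ℤ) • s260 + (2 : ℤ) • s261 + (-2 : ℤ) • s262 + (2 : ℤ) • s263 + (-2 : ℤ) •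 s264 + (2 : ℤ) • s265 + (-2 : ℤ) • s266 + (-1 : ℤ) • s267 + (1 : ℤ) • s268 + (-1 : ℤ) • s269 + (1 : ℤ) • s270 + (-1 : ℤ) • s271 + (1 : ℤ) • s272 + (-1 : ℤ) • s273 + (1 : ℤ) • s274 + (-1 : ℤ) • s275 + (-1 : ℤ) • s276 + (1 : ℤ) • s277 + (-1 : ℤ) • s278 + (1 : ℤ) • s279 + (-1 : ℤ) • s280 + (1 : ℤ) • s281 + (-1 : ℤ) • s282 + (1 : ℤ) • s283 + (-1 : ℤ) • s284 + (1 : ℤ) • s285 + (-1 : ℤ) • s286 + (-1 : ℤ) • s287 + (1 : ℤ) • s288 + (-1 : ℤ) • s289 + (1 : ℤ) • s290 + (-1 : ℤ) • s291 + (1 : ℤ) • s292 + (1 : ℤ) • s293 + (-1 : ℤ) • s294 + (1 : ℤ) • s295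

theorem y2a (h : Lvl f g) (tf : TF G) (W : List α) (hW : W ≠ [])
    (x1 x2 x3 x4 x5 x6 : α) :
    Bfun f g [] [x1, x2] (W ++ [x3, x4]) x5 x6 + Bfun f g [] [x2, x1] (W ++ [x3, x4]) x5 x6 = 0 := by
  have r0 : Bfun f g [x4, x5] (W ++ [x1, x2]) [] x3 x6 + Bfun f g (W ++ [x1, x3]) [x4, x6] [] x5 x2 + Bfun f g W [x4, x5, x3, x6] [] x1 x2 + Bfun f g [] (W ++ [x1, x3, x5, x2]) [] x4 x6 - Bfun f g W [x4, x5] [x6, x2] x1 x3 - Bfun f g [] (W ++ [x1, x3]) [x2, x6] x4 x5 = 0 :=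
    h.KB W [] [] x1 x3 x4 x5 x2 x6
  have r1 : Bfun f g [x4, x5] (W ++ [x2, x1]) [] x3 x6 + Bfun f g (W ++ [x2, x3]) [x4, x6] [] x5 x1 + Bfun f g W [x4, x5, x3, x6] [] x2 x1 + Bfun f g [] (W ++ [x2, x3, x5, x1]) [] x4 x6 - Bfun f g W [x4, x5] [x6, x1] x2 x3 - Bfun f g [] (W ++ [x2, x3]) [x1, x6] x4 x5 = 0 :=
    h.KB W [] [] x2 x3 x4 x5 x1 x6
  have s0 : Bfun f g [x4, x5] (W ++ [x1, x2]) [] x3 x6 = - Bfun f g [x4, x5] [] (W ++ [x1, x2]) x3 x6 :=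
    h.B23 [x4, x5] (W ++ [x1, x2]) [] x3 x6
  have s1 : Bfun f g [x4, x5] [] (W ++ [x1, x2]) x3 x6 = - Bfun f g [] [x4, x5] (W ++ [x1, x2]) x3 x6 :=
    h.B12 [x4, x5] [] (W ++ [x1, x2]) x3 x6
  have s2 : Bfun f g [] [x4, x5] (W ++ [x1, x2]) x3 x6 = - Bfun f g [] [x4, x5] (W ++ [x2, x1]) x3 x6 :=
    h.Bi3 W [] [] [] [x4, x5] x1 x2 x3 x6 (Or.inl hW)
  have s3 : Bfun f g [] [x4, x5] (W ++ [x2, x1]) x3 x6 = - Bfun f g [] [x4, x5] (W ++ [x2, x3]) x1 x6 :=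
    h.Bl3 W [x2] [] [x4, x5] x1 x3 x6 (Or.inr (List.cons_ne_nil _ _))
  have s4 : Bfun f g [] [x4, x5] (W ++ [x2, x3]) x1 x6 = - Bfun f g [] [x4, x1] (W ++ [x2, x3]) x5 x6 :=
    h.Bl2 [] [x4] [] (W ++ [x2, x3]) x5 x1 x6 (Or.inr (List.cons_ne_nil _ _))
  have s5 : Bfun f g (W ++ [x1, x3]) [x4, x6] [] x5 x2 = - Bfun f g [x4, x6] (W ++ [x1, x3]) [] x5 x2 :=
    h.B12 (W ++ [x1, x3]) [x4, x6] [] x5 x2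
  have s6 : Bfun f g [x4, x6] (W ++ [x1, x3]) [] x5 x2 = - Bfun f g [x4, x6] [] (W ++ [x1, x3]) x5 x2 :=
    h.B23 [x4, x6] (W ++ [x1, x3]) [] x5 x2
  have s7 : Bfun f g [x4, x6] [] (W ++ [x1, x3]) x5 x2 = - Bfun f g [] [x4, x6] (W ++ [x1, x3]) x5 x2 :=
    h.B12 [x4, x6] [] (W ++ [x1, x3]) x5 x2
  have s8 : Bfun f g [] [x4, x6] (W ++ [x1, x3]) x5 x2 = - Bfun f g [] [x4, x6] (W ++ [x3, x1]) x5 x2 :=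
    h.Bi3 W [] [] [] [x4, x6] x1 x3 x5 x2 (Or.inl hW)
  have s9 : Bfun f g [] [x4, x6] (W ++ [x3, x1]) x5 x2 = - Bfun f g [] [x4, x6] (W ++ [x3, x5]) x1 x2 :=
    h.Bl3 W [x3] [] [x4, x6] x1 x5 x2 (Or.inr (List.cons_ne_nil _ _))
  have s10 : Bfun f g [] [x4, x6] (W ++ [x3, x5]) x1 x2 = - Bfun f g [] [x4, x1] (W ++ [x3, x5]) x6 x2 :=
    h.Bl2 [] [x4] [] (W ++ [x3, x5]) x6 x1 x2 (Or.inr (List.cons_ne_nil _ _))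
  have s11 : Bfun f g [] [x4, x1] (W ++ [x3, x5]) x6 x2 = - Bfun f g [] [x4, x1] (W ++ [x3, x5]) x2 x6 :=
    h.Bzz [] [x4, x1] (W ++ [x3, x5]) x6 x2
  have s12 : Bfun f g [] [x4, x1] (W ++ [x3, x5]) x2 x6 = - Bfun f g [] [x4, x1] (W ++ [x3, x2]) x5 x6 :=
    h.Bl3 W [x3] [] [x4, x1] x5 x2 x6 (Or.inr (List.cons_ne_nil _ _))
  have s13 : Bfun f g [] [x4, x1] (W ++ [x3, x2]) x5 x6 = - Bfun f g [] [x4, x1] (W ++ [x2, x3]) x5 x6 :=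
    h.Bi3 W [] [] [] [x4, x1] x3 x2 x5 x6 (Or.inl hW)
  have s14 : Bfun f g W [x4, x5, x3, x6] [] x1 x2 = - Bfun f g [x4, x5, x3, x6] W [] x1 x2 :=
    h.B12 W [x4, x5, x3, x6] [] x1 x2
  have s15 : Bfun f g [x4, x5, x3, x6] W [] x1 x2 = - Bfun f g [x4, x5, x3, x6] [] W x1 x2 :=
    h.B23 [x4, x5, x3, x6] W [] x1 x2
  have s16 : Bfun f g [x4, x5, x3, x6] [] W x1 x2 = - Bfun f g [] [x4, x5, x3, x6] W x1 x2 :=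
    h.B12 [x4, x5, x3, x6] [] W x1 x2
  have s17 : Bfun f g [] [x4, x5, x3, x6] W x1 x2 = - Bfun f g [] [x4, x5, x3, x1] W x6 x2 :=
    h.Bl2 [] [x4, x5, x3] [] W x6 x1 x2 (Or.inr (List.cons_ne_nil _ _))
  have s18 : Bfun f g [] [x4, x5, x3, x1] W x6 x2 = - Bfun f g [] [x4, x5, x1, x3] W x6 x2 :=
    h.Bi2 [] [x4, x5] [] [] W x3 x1 x6 x2 (Or.inr (List.cons_ne_nil _ _))
  have s19 : Bfun f g [] [x4, x5, x1, x3] W x6 x2 = - Bfun f g [] [x4, x1, x5, x3] W x6 x2 :=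
    h.Bi2 [] [x4] [x3] [] W x5 x1 x6 x2 (Or.inr (List.cons_ne_nil _ _))
  have s20 : Bfun f g [] [x4, x1, x5, x3] W x6 x2 = - Bfun f g [] [x4, x1, x5, x3] W x2 x6 :=
    h.Bzz [] [x4, x1, x5, x3] W x6 x2
  have s21 : Bfun f g [] [x4, x1, x5, x3] W x2 x6 = - Bfun f g [] [x4, x1, x5, x2] W x3 x6 :=
    h.Bl2 [] [x4, x1, x5] [] W x3 x2 x6 (Or.inr (List.cons_ne_nil _ _))
  have s22 : Bfun f g [] [x4, x1, x5, x2] W x3 x6 = - Bfun f g [] [x4, x1, x2, x5] W x3 x6 :=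
    h.Bi2 [] [x4, x1] [] [] W x5 x2 x3 x6 (Or.inr (List.cons_ne_nil _ _))
  have s23 : Bfun f g [] [x4, x1, x2, x5] W x3 x6 = - Bfun f g [] [x4, x1, x2, x3] W x5 x6 :=
    h.Bl2 [] [x4, x1, x2] [] W x5 x3 x6 (Or.inr (List.cons_ne_nil _ _))
  have s24 : Bfun f g [] (W ++ [x1, x3, x5, x2]) [] x4 x6 = 0 :=
    h.B00_13 (W ++ [x1, x3, x5, x2]) x4 x6
  have s25 : Bfun f g W [x4, x5] [x6, x2] x1 x3 = - Bfun f g [x4, x5] W [x6, x2] x1 x3 :=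
    h.B12 W [x4, x5] [x6, x2] x1 x3
  have s26 : Bfun f g [x4, x5] W [x6, x2] x1 x3 = - Bfun f g [x4, x5] [x6, x2] W x1 x3 :=
    h.B23 [x4, x5] W [x6, x2] x1 x3
  have s27 : Bfun f g [x4, x5] [x6, x2] W x1 x3 = - Bfun f g [x4, x1] [x6, x2] W x5 x3 :=
    h.Bl1 [] [x4] [x6, x2] W x5 x1 x3 (Or.inr (List.cons_ne_nil _ _))
  have s28 : Bfun f g [x4, x1] [x6, x2] W x5 x3 = - Bfun f g [x4, x1] [x6, x2] W x3 x5 :=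
    h.Bzz [x4, x1] [x6, x2] W x5 x3
  have s29 : Bfun f g [] (W ++ [x1, x3]) [x2, x6] x4 x5 = - Bfun f g [] [x2, x6] (W ++ [x1, x3]) x4 x5 :=
    h.B23 [] (W ++ [x1, x3]) [x2, x6] x4 x5
  have s30 : Bfun f g [] [x2, x6] (W ++ [x1, x3]) x4 x5 = - Bfun f g [] [x2, x6] (W ++ [x3, x1]) x4 x5 :=
    h.Bi3 W [] [] [] [x2, x6] x1 x3 x4 x5 (Or.inl hW)
  have s31 : Bfun f g [] [x2, x6] (W ++ [x3, x1]) x4 x5 = - Bfun f g [] [x2, x6] (W ++ [x3, x4]) x1 x5 :=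
    h.Bl3 W [x3] [] [x2, x6] x1 x4 x5 (Or.inr (List.cons_ne_nil _ _))
  have s32 : Bfun f g [] [x2, x6] (W ++ [x3, x4]) x1 x5 = - Bfun f g [] [x2, x1] (W ++ [x3, x4]) x6 x5 :=
    h.Bl2 [] [x2] [] (W ++ [x3, x4]) x6 x1 x5 (Or.inr (List.cons_ne_nil _ _))
  have s33 : Bfun f g [] [x2, x1] (W ++ [x3, x4]) x6 x5 = - Bfun f g [] [x2, x1] (W ++ [x3, x4]) x5 x6 :=
    h.Bzz [] [x2, x1] (W ++ [x3, x4]) x6 x5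
  have s34 : Bfun f g [x4, x5] (W ++ [x2, x1]) [] x3 x6 = - Bfun f g [x4, x5] [] (W ++ [x2, x1]) x3 x6 :=
    h.B23 [x4, x5] (W ++ [x2, x1]) [] x3 x6
  have s35 : Bfun f g [x4, x5] [] (W ++ [x2, x1]) x3 x6 = - Bfun f g [] [x4, x5] (W ++ [x2, x1]) x3 x6 :=
    h.B12 [x4, x5] [] (W ++ [x2, x1]) x3 x6
  have s36 : Bfun f g (W ++ [x2, x3]) [x4, x6] [] x5 x1 = - Bfun f g [x4, x6] (W ++ [x2, x3]) [] x5 x1 :=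
    h.B12 (W ++ [x2, x3]) [x4, x6] [] x5 x1
  have s37 : Bfun f g [x4, x6] (W ++ [x2, x3]) [] x5 x1 = - Bfun f g [x4, x6] [] (W ++ [x2, x3]) x5 x1 :=
    h.B23 [x4, x6] (W ++ [x2, x3]) [] x5 x1
  have s38 : Bfun f g [x4, x6] [] (W ++ [x2, x3]) x5 x1 = - Bfun f g [] [x4, x6] (W ++ [x2, x3]) x5 x1 :=
    h.B12 [x4, x6] [] (W ++ [x2, x3]) x5 x1
  have s39 : Bfun f g [] [x4, x6] (W ++ [x2, x3]) x5 x1 = - Bfun f g [] [x4, x6] (W ++ [x2, x3]) x1 x5 :=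
    h.Bzz [] [x4, x6] (W ++ [x2, x3]) x5 x1
  have s40 : Bfun f g [] [x4, x6] (W ++ [x2, x3]) x1 x5 = - Bfun f g [] [x4, x1] (W ++ [x2, x3]) x6 x5 :=
    h.Bl2 [] [x4] [] (W ++ [x2, x3]) x6 x1 x5 (Or.inr (List.cons_ne_nil _ _))
  have s41 : Bfun f g [] [x4, x1] (W ++ [x2, x3]) x6 x5 = - Bfun f g [] [x4, x1] (W ++ [x2, x3]) x5 x6 :=
    h.Bzz [] [x4, x1] (W ++ [x2, x3]) x6 x5
  have s42 : Bfun f g W [x4, x5, x3, x6] [] x2 x1 = - Bfun f g [x4, x5, x3, x6] W [] x2 x1 :=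
    h.B12 W [x4, x5, x3, x6] [] x2 x1
  have s43 : Bfun f g [x4, x5, x3, x6] W [] x2 x1 = - Bfun f g [x4, x5, x3, x6] [] W x2 x1 :=
    h.B23 [x4, x5, x3, x6] W [] x2 x1
  have s44 : Bfun f g [x4, x5, x3, x6] [] W x2 x1 = - Bfun f g [] [x4, x5, x3, x6] W x2 x1 :=
    h.B12 [x4, x5, x3, x6] [] W x2 x1
  have s45 : Bfun f g [] [x4, x5, x3, x6] W x2 x1 = - Bfun f g [] [x4, x5, x3, x6] W x1 x2 :=
    h.Bzz [] [x4, x5, x3, x6] W x2 x1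
  have s46 : Bfun f g [] (W ++ [x2, x3, x5, x1]) [] x4 x6 = 0 :=
    h.B00_13 (W ++ [x2, x3, x5, x1]) x4 x6
  have s47 : Bfun f g W [x4, x5] [x6, x1] x2 x3 = - Bfun f g [x4, x5] W [x6, x1] x2 x3 :=
    h.B12 W [x4, x5] [x6, x1] x2 x3
  have s48 : Bfun f g [x4, x5] W [x6, x1] x2 x3 = - Bfun f g [x4, x5] [x6, x1] W x2 x3 :=
    h.B23 [x4, x5] W [x6, x1] x2 x3
  have s49 : Bfun f g [x4, x5] [x6, x1] W x2 x3 = - Bfun f g [x4, x5] [x6, x2] W x1 x3 :=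
    h.Bl2 [] [x6] [x4, x5] W x1 x2 x3 (Or.inr (List.cons_ne_nil _ _))
  have s50 : Bfun f g [] (W ++ [x2, x3]) [x1, x6] x4 x5 = - Bfun f g [] [x1, x6] (W ++ [x2, x3]) x4 x5 :=
    h.B23 [] (W ++ [x2, x3]) [x1, x6] x4 x5
  have s51 : Bfun f g [] [x1, x6] (W ++ [x2, x3]) x4 x5 = - Bfun f g [] [x1, x6] (W ++ [x3, x2]) x4 x5 :=
    h.Bi3 W [] [] [] [x1, x6] x2 x3 x4 x5 (Or.inl hW)
  have s52 : Bfun f g [] [x1, x6] (W ++ [x3, x2]) x4 x5 = - Bfun f g [] [x1, x6] (W ++ [x3, x4]) x2 x5 :=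
    h.Bl3 W [x3] [] [x1, x6] x2 x4 x5 (Or.inr (List.cons_ne_nil _ _))
  have s53 : Bfun f g [] [x1, x6] (W ++ [x3, x4]) x2 x5 = - Bfun f g [] [x1, x2] (W ++ [x3, x4]) x6 x5 :=
    h.Bl2 [] [x1] [] (W ++ [x3, x4]) x6 x2 x5 (Or.inr (List.cons_ne_nil _ _))
  have s54 : Bfun f g [] [x1, x2] (W ++ [x3, x4]) x6 x5 = - Bfun f g [] [x1, x2] (W ++ [x3, x4]) x5 x6 :=
    h.Bzz [] [x1, x2] (W ++ [x3, x4]) x6 x5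
  linear_combination (norm := module) (1 : ℤ) • r0 + (1 : ℤ) • r1 + (-1 : ℤ) • s0 + (1 : ℤ) • s1 + (-1 : ℤ) • s2 + (-1 : ℤ) • s5 + (1 : ℤ) • s6 + (-1 : ℤ) • s7 + (1 : ℤ) • s8 + (-1 : ℤ) • s9 + (1 : ℤ) • s10 + (-1 : ℤ) • s11 + (1 : ℤ) • s12 + (-1 : ℤ) • s13 + (-1 : ℤ) • s14 + (1 : ℤ) • s15 + (-1 : ℤ) • s16 + (-1 : ℤ) • s24 + (1 : ℤ) • s25 + (-1 : ℤ) • s26 + (1 : ℤ) • s29 + (-1 : ℤ) • s30 + (1 : ℤ) • s31 + (-1 : ℤ) • s32 + (1 : ℤ) • s33 + (-1 : ℤ) • s34 + (1 : ℤ) • s35 + (-1 : ℤ) • s36 + (1 : ℤ) • s37 + (-1 : ℤ) • s38 + (1 : ℤ) • s39 + (-1 : ℤ) • s40 + (1 : ℤ) • s41 + (-1 : ℤ) • s42 + (1 : ℤ) • s43 + (-1 : ℤ) • s44 + (1 : ℤ) • s45 + (-1 : ℤ) • s46 + (1 : ℤ) • s47 + (-1 : ℤ) • s48 + (1 : ℤ) • s49 + (1 : ℤ) • s50 + (-1 : ℤ) • s51 + (1 : ℤ) • s52 + (-1 : ℤ) • s53 + (1 : ℤ) • s54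

theorem yPQ (h : Lvl f g) (tf : TF G) (W : List α) (hW : W ≠ [])
    (x1 x2 x3 x4 x5 x6 : α) :
    Bfun f g [x1, x2, x3] [x4] W x5 x6 - Bfun f g [x1] [x4, x2, x3] W x5 x6 = 0 := by
  have r0 : Bfun f g [x3, x6] (W ++ [x1, x4]) [] x2 x5 + Bfun f g (W ++ [x1, x2]) [x3, x5] [] x6 x4 + Bfun f g W [x3, x6, x2, x5] [] x1 x4 + Bfun f g [] (W ++ [x1, x2, x6, x4]) [] x3 x5 - Bfun f g W [x3, x6] [x5, x4] x1 x2 - Bfun f g [] (W ++ [x1, x2]) [x4, x5] x3 x6 = 0 :=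
    h.KB W [] [] x1 x2 x3 x6 x4 x5
  have r1 : Bfun f g [x3, x6] (W ++ [x2, x1]) [] x4 x5 + Bfun f g (W ++ [x2, x4]) [x3, x5] [] x6 x1 + Bfun f g W [x3, x6, x4, x5] [] x2 x1 + Bfun f g [] (W ++ [x2, x4, x6, x1]) [] x3 x5 - Bfun f g W [x3, x6] [x5, x1] x2 x4 - Bfun f g [] (W ++ [x2, x4]) [x1, x5] x3 x6 = 0 :=
    h.KB W [] [] x2 x4 x3 x6 x1 x5
  have r2 : Afun f g [] (W ++ [x2, x6, x3, x5]) [x1] x4 + Afun f g [] (W ++ [x2, x6]) [x1, x5, x3] x4 + Bfun f g (W ++ [x2, x6]) [x4] [x1] x3 x5 - Bfun f g [x4] (W ++ [x2, x5]) [x1] x6 x3 - Bfun f g W [x4, x6, x3] [x1] x2 x5 + Bfun f g W [x4] [x1, x3, x5] x2 x6 = 0 := by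
    simpa only [List.append_assoc, List.cons_append, List.nil_append] using h.K0 W [x1] x2 x6 x4 x3 x5
  have r3 : Afun f g [] (W ++ [x5, x6, x2, x3]) [x4] x1 + Afun f g [] (W ++ [x5, x6]) [x4, x3, x2] x1 + Bfun f g (W ++ [x5, x6]) [x1] [x4] x2 x3 - Bfun f g [x1] (W ++ [x5, x3]) [x4] x6 x2 - Bfun f g W [x1, x6, x2] [x4] x5 x3 + Bfun f g W [x1] [x4, x2, x3] x5 x6 = 0 := by
    simpa only [List.append_assoc, List.cons_append, List.nil_append] using h.K0 W [x4] x5 x6 x1 x2 x3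
  have r4 : Afun f g [] [x1, x3, x5] (W ++ [x2, x6]) x4 + Bfun f g [] [x4, x1] (W ++ [x2, x6]) x3 x5 + Bfun f g [] [x1, x4] (W ++ [x2, x6]) x3 x5 + Bfun f g [x1] [x4] (W ++ [x2, x6]) x3 x5 = 0 := by
    simpa only [List.append_assoc, List.cons_append, List.nil_append] using h.N3z x1 x3 x5 (W ++ [x2, x6]) x4
  have r5 : Afun f g [] [x4, x2, x3] (W ++ [x5, x6]) x1 + Bfun f g [] [x1, x4] (W ++ [x5, x6]) x2 x3 + Bfun f g [] [x4, x1] (W ++ [x5, x6]) x2 x3 + Bfun f g [x4] [x1] (W ++ [x5, x6]) x2 x3 = 0 := by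
    simpa only [List.append_assoc, List.cons_append, List.nil_append] using h.N3z x4 x2 x3 (W ++ [x5, x6]) x1
  have s0 : Bfun f g [x1, x2, x3] [x4] W x5 x6 = - Bfun f g [x4] [x1, x2, x3] W x5 x6 :=
    h.B12 [x1, x2, x3] [x4] W x5 x6
  have s1 : Bfun f g [x3, x6] (W ++ [x1, x4]) [] x2 x5 = - Bfun f g [x3, x6] [] (W ++ [x1, x4]) x2 x5 :=
    h.B23 [x3, x6] (W ++ [x1, x4]) [] x2 x5
  have s2 : Bfun f g [x3, x6] [] (W ++ [x1, x4]) x2 x5 = - Bfun f g [] [x3, x6] (W ++ [x1, x4]) x2 x5 :=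
    h.B12 [x3, x6] [] (W ++ [x1, x4]) x2 x5
  have s3 : Bfun f g [] [x3, x6] (W ++ [x1, x4]) x2 x5 = - Bfun f g [] [x3, x6] (W ++ [x4, x1]) x2 x5 :=
    h.Bi3 W [] [] [] [x3, x6] x1 x4 x2 x5 (Or.inl hW)
  have s4 : Bfun f g [] [x3, x6] (W ++ [x4, x1]) x2 x5 = - Bfun f g [] [x3, x6] (W ++ [x4, x2]) x1 x5 :=
    h.Bl3 W [x4] [] [x3, x6] x1 x2 x5 (Or.inr (List.cons_ne_nil _ _))
  have s5 : Bfun f g [] [x3, x6] (W ++ [x4, x2]) x1 x5 = - Bfun f g [] [x3, x1] (W ++ [x4, x2]) x6 x5 :=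
    h.Bl2 [] [x3] [] (W ++ [x4, x2]) x6 x1 x5 (Or.inr (List.cons_ne_nil _ _))
  have s6 : Bfun f g [] [x3, x1] (W ++ [x4, x2]) x6 x5 = - Bfun f g [] [x3, x1] (W ++ [x2, x4]) x6 x5 :=
    h.Bi3 W [] [] [] [x3, x1] x4 x2 x6 x5 (Or.inl hW)
  have s7 : Bfun f g [] [x3, x1] (W ++ [x2, x4]) x6 x5 = - Bfun f g [] [x3, x1] (W ++ [x2, x4]) x5 x6 :=
    h.Bzz [] [x3, x1] (W ++ [x2, x4]) x6 x5
  have s8 : Bfun f g (W ++ [x1, x2]) [x3, x5] [] x6 x4 = - Bfun f g [x3, x5] (W ++ [x1, x2]) [] x6 x4 :=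
    h.B12 (W ++ [x1, x2]) [x3, x5] [] x6 x4
  have s9 : Bfun f g [x3, x5] (W ++ [x1, x2]) [] x6 x4 = - Bfun f g [x3, x5] [] (W ++ [x1, x2]) x6 x4 :=
    h.B23 [x3, x5] (W ++ [x1, x2]) [] x6 x4
  have s10 : Bfun f g [x3, x5] [] (W ++ [x1, x2]) x6 x4 = - Bfun f g [] [x3, x5] (W ++ [x1, x2]) x6 x4 :=
    h.B12 [x3, x5] [] (W ++ [x1, x2]) x6 x4
  have s11 : Bfun f g [] [x3, x5] (W ++ [x1, x2]) x6 x4 = - Bfun f g [] [x3, x5] (W ++ [x2, x1]) x6 x4 :=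
    h.Bi3 W [] [] [] [x3, x5] x1 x2 x6 x4 (Or.inl hW)
  have s12 : Bfun f g [] [x3, x5] (W ++ [x2, x1]) x6 x4 = - Bfun f g [] [x3, x5] (W ++ [x2, x6]) x1 x4 :=
    h.Bl3 W [x2] [] [x3, x5] x1 x6 x4 (Or.inr (List.cons_ne_nil _ _))
  have s13 : Bfun f g [] [x3, x5] (W ++ [x2, x6]) x1 x4 = - Bfun f g [] [x3, x1] (W ++ [x2, x6]) x5 x4 :=
    h.Bl2 [] [x3] [] (W ++ [x2, x6]) x5 x1 x4 (Or.inr (List.cons_ne_nil _ _))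
  have s14 : Bfun f g [] [x3, x1] (W ++ [x2, x6]) x5 x4 = - Bfun f g [] [x3, x1] (W ++ [x2, x6]) x4 x5 :=
    h.Bzz [] [x3, x1] (W ++ [x2, x6]) x5 x4
  have s15 : Bfun f g [] [x3, x1] (W ++ [x2, x6]) x4 x5 = - Bfun f g [] [x3, x1] (W ++ [x2, x4]) x6 x5 :=
    h.Bl3 W [x2] [] [x3, x1] x6 x4 x5 (Or.inr (List.cons_ne_nil _ _))
  have s16 : Bfun f g W [x3, x6, x2, x5] [] x1 x4 = - Bfun f g [x3, x6, x2, x5] W [] x1 x4 :=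
    h.B12 W [x3, x6, x2, x5] [] x1 x4
  have s17 : Bfun f g [x3, x6, x2, x5] W [] x1 x4 = - Bfun f g [x3, x6, x2, x5] [] W x1 x4 :=
    h.B23 [x3, x6, x2, x5] W [] x1 x4
  have s18 : Bfun f g [x3, x6, x2, x5] [] W x1 x4 = - Bfun f g [] [x3, x6, x2, x5] W x1 x4 :=
    h.B12 [x3, x6, x2, x5] [] W x1 x4
  have s19 : Bfun f g [] [x3, x6, x2, x5] W x1 x4 = - Bfun f g [] [x3, x6, x2, x1] W x5 x4 :=
    h.Bl2 [] [x3, x6, x2] [] W x5 x1 x4 (Or.inr (List.cons_ne_nil _ _))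
  have s20 : Bfun f g [] [x3, x6, x2, x1] W x5 x4 = - Bfun f g [] [x3, x6, x1, x2] W x5 x4 :=
    h.Bi2 [] [x3, x6] [] [] W x2 x1 x5 x4 (Or.inr (List.cons_ne_nil _ _))
  have s21 : Bfun f g [] [x3, x6, x1, x2] W x5 x4 = - Bfun f g [] [x3, x1, x6, x2] W x5 x4 :=
    h.Bi2 [] [x3] [x2] [] W x6 x1 x5 x4 (Or.inr (List.cons_ne_nil _ _))
  have s22 : Bfun f g [] [x3, x1, x6, x2] W x5 x4 = - Bfun f g [] [x3, x1, x2, x6] W x5 x4 :=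
    h.Bi2 [] [x3, x1] [] [] W x6 x2 x5 x4 (Or.inr (List.cons_ne_nil _ _))
  have s23 : Bfun f g [] [x3, x1, x2, x6] W x5 x4 = - Bfun f g [] [x3, x1, x2, x6] W x4 x5 :=
    h.Bzz [] [x3, x1, x2, x6] W x5 x4
  have s24 : Bfun f g [] [x3, x1, x2, x6] W x4 x5 = - Bfun f g [] [x3, x1, x2, x4] W x6 x5 :=
    h.Bl2 [] [x3, x1, x2] [] W x6 x4 x5 (Or.inr (List.cons_ne_nil _ _))
  have s25 : Bfun f g [] [x3, x1, x2, x4] W x6 x5 = - Bfun f g [] [x3, x1, x2, x4] W x5 x6 :=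
    h.Bzz [] [x3, x1, x2, x4] W x6 x5
  have s26 : Bfun f g [] (W ++ [x1, x2, x6, x4]) [] x3 x5 = 0 :=
    h.B00_13 (W ++ [x1, x2, x6, x4]) x3 x5
  have s27 : Bfun f g W [x3, x6] [x5, x4] x1 x2 = - Bfun f g [x3, x6] W [x5, x4] x1 x2 :=
    h.B12 W [x3, x6] [x5, x4] x1 x2
  have s28 : Bfun f g [x3, x6] W [x5, x4] x1 x2 = - Bfun f g [x3, x6] [x5, x4] W x1 x2 :=
    h.B23 [x3, x6] W [x5, x4] x1 x2
  have s29 : Bfun f g [x3, x6] [x5, x4] W x1 x2 = - Bfun f g [x3, x1] [x5, x4] W x6 x2 :=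
    h.Bl1 [] [x3] [x5, x4] W x6 x1 x2 (Or.inr (List.cons_ne_nil _ _))
  have s30 : Bfun f g [x3, x1] [x5, x4] W x6 x2 = - Bfun f g [x3, x1] [x5, x4] W x2 x6 :=
    h.Bzz [x3, x1] [x5, x4] W x6 x2
  have s31 : Bfun f g [x3, x1] [x5, x4] W x2 x6 = - Bfun f g [x3, x1] [x5, x2] W x4 x6 :=
    h.Bl2 [] [x5] [x3, x1] W x4 x2 x6 (Or.inr (List.cons_ne_nil _ _))
  have s32 : Bfun f g [] (W ++ [x1, x2]) [x4, x5] x3 x6 = - Bfun f g [] [x4, x5] (W ++ [x1, x2]) x3 x6 :=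
    h.B23 [] (W ++ [x1, x2]) [x4, x5] x3 x6
  have s33 : Bfun f g [] [x4, x5] (W ++ [x1, x2]) x3 x6 = - Bfun f g [] [x4, x5] (W ++ [x2, x1]) x3 x6 :=
    h.Bi3 W [] [] [] [x4, x5] x1 x2 x3 x6 (Or.inl hW)
  have s34 : Bfun f g [] [x4, x5] (W ++ [x2, x1]) x3 x6 = - Bfun f g [] [x4, x5] (W ++ [x2, x3]) x1 x6 :=
    h.Bl3 W [x2] [] [x4, x5] x1 x3 x6 (Or.inr (List.cons_ne_nil _ _))
  have s35 : Bfun f g [] [x4, x5] (W ++ [x2, x3]) x1 x6 = - Bfun f g [] [x4, x1] (W ++ [x2, x3]) x5 x6 :=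
    h.Bl2 [] [x4] [] (W ++ [x2, x3]) x5 x1 x6 (Or.inr (List.cons_ne_nil _ _))
  have s36 : Bfun f g [x3, x6] (W ++ [x2, x1]) [] x4 x5 = - Bfun f g [x3, x6] [] (W ++ [x2, x1]) x4 x5 :=
    h.B23 [x3, x6] (W ++ [x2, x1]) [] x4 x5
  have s37 : Bfun f g [x3, x6] [] (W ++ [x2, x1]) x4 x5 = - Bfun f g [] [x3, x6] (W ++ [x2, x1]) x4 x5 :=
    h.B12 [x3, x6] [] (W ++ [x2, x1]) x4 x5
  have s38 : Bfun f g [] [x3, x6] (W ++ [x2, x1]) x4 x5 = - Bfun f g [] [x3, x6] (W ++ [x2, x4]) x1 x5 :=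
    h.Bl3 W [x2] [] [x3, x6] x1 x4 x5 (Or.inr (List.cons_ne_nil _ _))
  have s39 : Bfun f g [] [x3, x6] (W ++ [x2, x4]) x1 x5 = - Bfun f g [] [x3, x1] (W ++ [x2, x4]) x6 x5 :=
    h.Bl2 [] [x3] [] (W ++ [x2, x4]) x6 x1 x5 (Or.inr (List.cons_ne_nil _ _))
  have s40 : Bfun f g (W ++ [x2, x4]) [x3, x5] [] x6 x1 = - Bfun f g [x3, x5] (W ++ [x2, x4]) [] x6 x1 :=
    h.B12 (W ++ [x2, x4]) [x3, x5] [] x6 x1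
  have s41 : Bfun f g [x3, x5] (W ++ [x2, x4]) [] x6 x1 = - Bfun f g [x3, x5] [] (W ++ [x2, x4]) x6 x1 :=
    h.B23 [x3, x5] (W ++ [x2, x4]) [] x6 x1
  have s42 : Bfun f g [x3, x5] [] (W ++ [x2, x4]) x6 x1 = - Bfun f g [] [x3, x5] (W ++ [x2, x4]) x6 x1 :=
    h.B12 [x3, x5] [] (W ++ [x2, x4]) x6 x1
  have s43 : Bfun f g [] [x3, x5] (W ++ [x2, x4]) x6 x1 = - Bfun f g [] [x3, x5] (W ++ [x2, x4]) x1 x6 :=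
    h.Bzz [] [x3, x5] (W ++ [x2, x4]) x6 x1
  have s44 : Bfun f g [] [x3, x5] (W ++ [x2, x4]) x1 x6 = - Bfun f g [] [x3, x1] (W ++ [x2, x4]) x5 x6 :=
    h.Bl2 [] [x3] [] (W ++ [x2, x4]) x5 x1 x6 (Or.inr (List.cons_ne_nil _ _))
  have s45 : Bfun f g W [x3, x6, x4, x5] [] x2 x1 = - Bfun f g [x3, x6, x4, x5] W [] x2 x1 :=
    h.B12 W [x3, x6, x4, x5] [] x2 x1
  have s46 : Bfun f g [x3, x6, x4, x5] W [] x2 x1 = - Bfun f g [x3, x6, x4, x5] [] W x2 x1 :=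
    h.B23 [x3, x6, x4, x5] W [] x2 x1
  have s47 : Bfun f g [x3, x6, x4, x5] [] W x2 x1 = - Bfun f g [] [x3, x6, x4, x5] W x2 x1 :=
    h.B12 [x3, x6, x4, x5] [] W x2 x1
  have s48 : Bfun f g [] [x3, x6, x4, x5] W x2 x1 = - Bfun f g [] [x3, x6, x4, x5] W x1 x2 :=
    h.Bzz [] [x3, x6, x4, x5] W x2 x1
  have s49 : Bfun f g [] [x3, x6, x4, x5] W x1 x2 = - Bfun f g [] [x3, x6, x4, x1] W x5 x2 :=
    h.Bl2 [] [x3, x6, x4] [] W x5 x1 x2 (Or.inr (List.cons_ne_nil _ _))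
  have s50 : Bfun f g [] [x3, x6, x4, x1] W x5 x2 = - Bfun f g [] [x3, x6, x1, x4] W x5 x2 :=
    h.Bi2 [] [x3, x6] [] [] W x4 x1 x5 x2 (Or.inr (List.cons_ne_nil _ _))
  have s51 : Bfun f g [] [x3, x6, x1, x4] W x5 x2 = - Bfun f g [] [x3, x1, x6, x4] W x5 x2 :=
    h.Bi2 [] [x3] [x4] [] W x6 x1 x5 x2 (Or.inr (List.cons_ne_nil _ _))
  have s52 : Bfun f g [] [x3, x1, x6, x4] W x5 x2 = - Bfun f g [] [x3, x1, x6, x4] W x2 x5 :=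
    h.Bzz [] [x3, x1, x6, x4] W x5 x2
  have s53 : Bfun f g [] [x3, x1, x6, x4] W x2 x5 = - Bfun f g [] [x3, x1, x6, x2] W x4 x5 :=
    h.Bl2 [] [x3, x1, x6] [] W x4 x2 x5 (Or.inr (List.cons_ne_nil _ _))
  have s54 : Bfun f g [] [x3, x1, x6, x2] W x4 x5 = - Bfun f g [] [x3, x1, x2, x6] W x4 x5 :=
    h.Bi2 [] [x3, x1] [] [] W x6 x2 x4 x5 (Or.inr (List.cons_ne_nil _ _))
  have s55 : Bfun f g [] (W ++ [x2, x4, x6, x1]) [] x3 x5 = 0 :=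
    h.B00_13 (W ++ [x2, x4, x6, x1]) x3 x5
  have s56 : Bfun f g W [x3, x6] [x5, x1] x2 x4 = - Bfun f g [x3, x6] W [x5, x1] x2 x4 :=
    h.B12 W [x3, x6] [x5, x1] x2 x4
  have s57 : Bfun f g [x3, x6] W [x5, x1] x2 x4 = - Bfun f g [x3, x6] [x5, x1] W x2 x4 :=
    h.B23 [x3, x6] W [x5, x1] x2 x4
  have s58 : Bfun f g [x3, x6] [x5, x1] W x2 x4 = - Bfun f g [x3, x6] [x5, x2] W x1 x4 :=
    h.Bl2 [] [x5] [x3, x6] W x1 x2 x4 (Or.inr (List.cons_ne_nil _ _))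
  have s59 : Bfun f g [x3, x6] [x5, x2] W x1 x4 = - Bfun f g [x3, x1] [x5, x2] W x6 x4 :=
    h.Bl1 [] [x3] [x5, x2] W x6 x1 x4 (Or.inr (List.cons_ne_nil _ _))
  have s60 : Bfun f g [x3, x1] [x5, x2] W x6 x4 = - Bfun f g [x3, x1] [x5, x2] W x4 x6 :=
    h.Bzz [x3, x1] [x5, x2] W x6 x4
  have s61 : Bfun f g [] (W ++ [x2, x4]) [x1, x5] x3 x6 = - Bfun f g [] [x1, x5] (W ++ [x2, x4]) x3 x6 :=
    h.B23 [] (W ++ [x2, x4]) [x1, x5] x3 x6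
  have s62 : Bfun f g [] [x1, x5] (W ++ [x2, x4]) x3 x6 = - Bfun f g [] [x1, x5] (W ++ [x4, x2]) x3 x6 :=
    h.Bi3 W [] [] [] [x1, x5] x2 x4 x3 x6 (Or.inl hW)
  have s63 : Bfun f g [] [x1, x5] (W ++ [x4, x2]) x3 x6 = - Bfun f g [] [x1, x5] (W ++ [x4, x3]) x2 x6 :=
    h.Bl3 W [x4] [] [x1, x5] x2 x3 x6 (Or.inr (List.cons_ne_nil _ _))
  have s64 : Bfun f g [] [x1, x5] (W ++ [x4, x3]) x2 x6 = - Bfun f g [] [x1, x2] (W ++ [x4, x3]) x5 x6 :=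
    h.Bl2 [] [x1] [] (W ++ [x4, x3]) x5 x2 x6 (Or.inr (List.cons_ne_nil _ _))
  have s65 : Bfun f g [] [x1, x2] (W ++ [x4, x3]) x5 x6 = - Bfun f g [] [x1, x2] (W ++ [x3, x4]) x5 x6 :=
    h.Bi3 W [] [] [] [x1, x2] x4 x3 x5 x6 (Or.inl hW)
  have s66 : Afun f g [] (W ++ [x2, x6, x3, x5]) [x1] x4 = 0 :=
    h.a1'' x1 (W ++ [x2, x6, x3, x5]) x4
  have s67 : Afun f g [] (W ++ [x2, x6]) [x1, x5, x3] x4 = - Afun f g [] [x1, x5, x3] (W ++ [x2, x6]) x4 :=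
    h.r3 [] (W ++ [x2, x6]) [x1, x5, x3] x4
  have s68 : Afun f g [] [x1, x5, x3] (W ++ [x2, x6]) x4 = - Afun f g [] [x1, x3, x5] (W ++ [x2, x6]) x4 :=
    h.Ai2 [] [] [x1] [] (W ++ [x2, x6]) x5 x3 x4 (Or.inr (List.cons_ne_nil _ _))
  have s69 : Bfun f g (W ++ [x2, x6]) [x4] [x1] x3 x5 = - Bfun f g [x4] (W ++ [x2, x6]) [x1] x3 x5 :=
    h.B12 (W ++ [x2, x6]) [x4] [x1] x3 x5
  have s70 : Bfun f g [x4] (W ++ [x2, x6]) [x1] x3 x5 = - Bfun f g [x4] [x1] (W ++ [x2, x6]) x3 x5 :=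
    h.B23 [x4] (W ++ [x2, x6]) [x1] x3 x5
  have s71 : Bfun f g [x4] [x1] (W ++ [x2, x6]) x3 x5 = - Bfun f g [x1] [x4] (W ++ [x2, x6]) x3 x5 :=
    h.B12 [x4] [x1] (W ++ [x2, x6]) x3 x5
  have s72 : Bfun f g [x1] [x4] (W ++ [x2, x6]) x3 x5 = - Bfun f g [x1] [x4] (W ++ [x2, x3]) x6 x5 :=
    h.Bl3 W [x2] [x1] [x4] x6 x3 x5 (Or.inr (List.cons_ne_nil _ _))
  have s73 : Bfun f g [x1] [x4] (W ++ [x2, x3]) x6 x5 = - Bfun f g [x1] [x4] (W ++ [x2, x3]) x5 x6 :=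
    h.Bzz [x1] [x4] (W ++ [x2, x3]) x6 x5
  have s74 : Bfun f g [x4] (W ++ [x2, x5]) [x1] x6 x3 = - Bfun f g [x4] [x1] (W ++ [x2, x5]) x6 x3 :=
    h.B23 [x4] (W ++ [x2, x5]) [x1] x6 x3
  have s75 : Bfun f g [x4] [x1] (W ++ [x2, x5]) x6 x3 = - Bfun f g [x1] [x4] (W ++ [x2, x5]) x6 x3 :=
    h.B12 [x4] [x1] (W ++ [x2, x5]) x6 x3
  have s76 : Bfun f g [x1] [x4] (W ++ [x2, x5]) x6 x3 = - Bfun f g [x1] [x4] (W ++ [x2, x5]) x3 x6 :=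
    h.Bzz [x1] [x4] (W ++ [x2, x5]) x6 x3
  have s77 : Bfun f g [x1] [x4] (W ++ [x2, x5]) x3 x6 = - Bfun f g [x1] [x4] (W ++ [x2, x3]) x5 x6 :=
    h.Bl3 W [x2] [x1] [x4] x5 x3 x6 (Or.inr (List.cons_ne_nil _ _))
  have s78 : Bfun f g W [x4, x6, x3] [x1] x2 x5 = - Bfun f g [x4, x6, x3] W [x1] x2 x5 :=
    h.B12 W [x4, x6, x3] [x1] x2 x5
  have s79 : Bfun f g [x4, x6, x3] W [x1] x2 x5 = - Bfun f g [x4, x6, x3] [x1] W x2 x5 :=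
    h.B23 [x4, x6, x3] W [x1] x2 x5
  have s80 : Bfun f g [x4, x6, x3] [x1] W x2 x5 = - Bfun f g [x1] [x4, x6, x3] W x2 x5 :=
    h.B12 [x4, x6, x3] [x1] W x2 x5
  have s81 : Bfun f g [x1] [x4, x6, x3] W x2 x5 = - Bfun f g [x1] [x4, x6, x2] W x3 x5 :=
    h.Bl2 [] [x4, x6] [x1] W x3 x2 x5 (Or.inr (List.cons_ne_nil _ _))
  have s82 : Bfun f g [x1] [x4, x6, x2] W x3 x5 = - Bfun f g [x1] [x4, x2, x6] W x3 x5 :=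
    h.Bi2 [] [x4] [] [x1] W x6 x2 x3 x5 (Or.inr (List.cons_ne_nil _ _))
  have s83 : Bfun f g [x1] [x4, x2, x6] W x3 x5 = - Bfun f g [x1] [x4, x2, x3] W x6 x5 :=
    h.Bl2 [] [x4, x2] [x1] W x6 x3 x5 (Or.inr (List.cons_ne_nil _ _))
  have s84 : Bfun f g [x1] [x4, x2, x3] W x6 x5 = - Bfun f g [x1] [x4, x2, x3] W x5 x6 :=
    h.Bzz [x1] [x4, x2, x3] W x6 x5
  have s85 : Bfun f g W [x4] [x1, x3, x5] x2 x6 = - Bfun f g [x4] W [x1, x3, x5] x2 x6 :=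
    h.B12 W [x4] [x1, x3, x5] x2 x6
  have s86 : Bfun f g [x4] W [x1, x3, x5] x2 x6 = - Bfun f g [x4] [x1, x3, x5] W x2 x6 :=
    h.B23 [x4] W [x1, x3, x5] x2 x6
  have s87 : Bfun f g [x4] [x1, x3, x5] W x2 x6 = - Bfun f g [x4] [x1, x3, x2] W x5 x6 :=
    h.Bl2 [] [x1, x3] [x4] W x5 x2 x6 (Or.inr (List.cons_ne_nil _ _))
  have s88 : Bfun f g [x4] [x1, x3, x2] W x5 x6 = - Bfun f g [x4] [x1, x2, x3] W x5 x6 :=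
    h.Bi2 [] [x1] [] [x4] W x3 x2 x5 x6 (Or.inr (List.cons_ne_nil _ _))
  have s89 : Afun f g [] (W ++ [x5, x6, x2, x3]) [x4] x1 = 0 :=
    h.a1'' x4 (W ++ [x5, x6, x2, x3]) x1
  have s90 : Afun f g [] (W ++ [x5, x6]) [x4, x3, x2] x1 = - Afun f g [] [x4, x3, x2] (W ++ [x5, x6]) x1 :=
    h.r3 [] (W ++ [x5, x6]) [x4, x3, x2] x1
  have s91 : Afun f g [] [x4, x3, x2] (W ++ [x5, x6]) x1 = - Afun f g [] [x4, x2, x3] (W ++ [x5, x6]) x1 :=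
    h.Ai2 [] [] [x4] [] (W ++ [x5, x6]) x3 x2 x1 (Or.inr (List.cons_ne_nil _ _))
  have s92 : Bfun f g (W ++ [x5, x6]) [x1] [x4] x2 x3 = - Bfun f g [x1] (W ++ [x5, x6]) [x4] x2 x3 :=
    h.B12 (W ++ [x5, x6]) [x1] [x4] x2 x3
  have s93 : Bfun f g [x1] (W ++ [x5, x6]) [x4] x2 x3 = - Bfun f g [x1] [x4] (W ++ [x5, x6]) x2 x3 :=
    h.B23 [x1] (W ++ [x5, x6]) [x4] x2 x3
  have s94 : Bfun f g [x1] [x4] (W ++ [x5, x6]) x2 x3 = - Bfun f g [x1] [x4] (W ++ [x5, x2]) x6 x3 :=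
    h.Bl3 W [x5] [x1] [x4] x6 x2 x3 (Or.inr (List.cons_ne_nil _ _))
  have s95 : Bfun f g [x1] [x4] (W ++ [x5, x2]) x6 x3 = - Bfun f g [x1] [x4] (W ++ [x2, x5]) x6 x3 :=
    h.Bi3 W [] [] [x1] [x4] x5 x2 x6 x3 (Or.inl hW)
  have s96 : Bfun f g [x1] (W ++ [x5, x3]) [x4] x6 x2 = - Bfun f g [x1] [x4] (W ++ [x5, x3]) x6 x2 :=
    h.B23 [x1] (W ++ [x5, x3]) [x4] x6 x2
  have s97 : Bfun f g [x1] [x4] (W ++ [x5, x3]) x6 x2 = - Bfun f g [x1] [x4] (W ++ [x5, x3]) x2 x6 :=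
    h.Bzz [x1] [x4] (W ++ [x5, x3]) x6 x2
  have s98 : Bfun f g [x1] [x4] (W ++ [x5, x3]) x2 x6 = - Bfun f g [x1] [x4] (W ++ [x5, x2]) x3 x6 :=
    h.Bl3 W [x5] [x1] [x4] x3 x2 x6 (Or.inr (List.cons_ne_nil _ _))
  have s99 : Bfun f g [x1] [x4] (W ++ [x5, x2]) x3 x6 = - Bfun f g [x1] [x4] (W ++ [x2, x5]) x3 x6 :=
    h.Bi3 W [] [] [x1] [x4] x5 x2 x3 x6 (Or.inl hW)
  have s100 : Bfun f g W [x1, x6, x2] [x4] x5 x3 = - Bfun f g [x1, x6, x2] W [x4] x5 x3 :=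
    h.B12 W [x1, x6, x2] [x4] x5 x3
  have s101 : Bfun f g [x1, x6, x2] W [x4] x5 x3 = - Bfun f g [x1, x6, x2] [x4] W x5 x3 :=
    h.B23 [x1, x6, x2] W [x4] x5 x3
  have s102 : Bfun f g [x1, x6, x2] [x4] W x5 x3 = - Bfun f g [x4] [x1, x6, x2] W x5 x3 :=
    h.B12 [x1, x6, x2] [x4] W x5 x3
  have s103 : Bfun f g [x4] [x1, x6, x2] W x5 x3 = - Bfun f g [x4] [x1, x2, x6] W x5 x3 :=
    h.Bi2 [] [x1] [] [x4] W x6 x2 x5 x3 (Or.inr (List.cons_ne_nil _ _))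
  have s104 : Bfun f g [x4] [x1, x2, x6] W x5 x3 = - Bfun f g [x4] [x1, x2, x6] W x3 x5 :=
    h.Bzz [x4] [x1, x2, x6] W x5 x3
  have s105 : Bfun f g [x4] [x1, x2, x6] W x3 x5 = - Bfun f g [x4] [x1, x2, x3] W x6 x5 :=
    h.Bl2 [] [x1, x2] [x4] W x6 x3 x5 (Or.inr (List.cons_ne_nil _ _))
  have s106 : Bfun f g [x4] [x1, x2, x3] W x6 x5 = - Bfun f g [x4] [x1, x2, x3] W x5 x6 :=
    h.Bzz [x4] [x1, x2, x3] W x6 x5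
  have s107 : Bfun f g W [x1] [x4, x2, x3] x5 x6 = - Bfun f g [x1] W [x4, x2, x3] x5 x6 :=
    h.B12 W [x1] [x4, x2, x3] x5 x6
  have s108 : Bfun f g [x1] W [x4, x2, x3] x5 x6 = - Bfun f g [x1] [x4, x2, x3] W x5 x6 :=
    h.B23 [x1] W [x4, x2, x3] x5 x6
  have s109 : Bfun f g [] [x4, x1] (W ++ [x2, x6]) x3 x5 = - Bfun f g [] [x4, x1] (W ++ [x2, x3]) x6 x5 :=
    h.Bl3 W [x2] [] [x4, x1] x6 x3 x5 (Or.inr (List.cons_ne_nil _ _))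
  have s110 : Bfun f g [] [x4, x1] (W ++ [x2, x3]) x6 x5 = - Bfun f g [] [x4, x1] (W ++ [x2, x3]) x5 x6 :=
    h.Bzz [] [x4, x1] (W ++ [x2, x3]) x6 x5
  have s111 : Bfun f g [] [x1, x4] (W ++ [x2, x6]) x3 x5 = - Bfun f g [] [x1, x4] (W ++ [x6, x2]) x3 x5 :=
    h.Bi3 W [] [] [] [x1, x4] x2 x6 x3 x5 (Or.inl hW)
  have s112 : Bfun f g [] [x1, x4] (W ++ [x6, x2]) x3 x5 = - Bfun f g [] [x1, x4] (W ++ [x6, x3]) x2 x5 :=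
    h.Bl3 W [x6] [] [x1, x4] x2 x3 x5 (Or.inr (List.cons_ne_nil _ _))
  have s113 : Bfun f g [] [x1, x4] (W ++ [x6, x3]) x2 x5 = - Bfun f g [] [x1, x2] (W ++ [x6, x3]) x4 x5 :=
    h.Bl2 [] [x1] [] (W ++ [x6, x3]) x4 x2 x5 (Or.inr (List.cons_ne_nil _ _))
  have s114 : Bfun f g [] [x1, x2] (W ++ [x6, x3]) x4 x5 = - Bfun f g [] [x1, x2] (W ++ [x3, x6]) x4 x5 :=
    h.Bi3 W [] [] [] [x1, x2] x6 x3 x4 x5 (Or.inl hW)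
  have s115 : Bfun f g [] [x1, x2] (W ++ [x3, x6]) x4 x5 = - Bfun f g [] [x1, x2] (W ++ [x3, x4]) x6 x5 :=
    h.Bl3 W [x3] [] [x1, x2] x6 x4 x5 (Or.inr (List.cons_ne_nil _ _))
  have s116 : Bfun f g [] [x1, x2] (W ++ [x3, x4]) x6 x5 = - Bfun f g [] [x1, x2] (W ++ [x3, x4]) x5 x6 :=
    h.Bzz [] [x1, x2] (W ++ [x3, x4]) x6 x5
  have s117 : Bfun f g [] [x1, x4] (W ++ [x5, x6]) x2 x3 = - Bfun f g [] [x1, x2] (W ++ [x5, x6]) x4 x3 :=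
    h.Bl2 [] [x1] [] (W ++ [x5, x6]) x4 x2 x3 (Or.inr (List.cons_ne_nil _ _))
  have s118 : Bfun f g [] [x1, x2] (W ++ [x5, x6]) x4 x3 = - Bfun f g [] [x1, x2] (W ++ [x5, x6]) x3 x4 :=
    h.Bzz [] [x1, x2] (W ++ [x5, x6]) x4 x3
  have s119 : Bfun f g [] [x1, x2] (W ++ [x5, x6]) x3 x4 = - Bfun f g [] [x1, x2] (W ++ [x5, x3]) x6 x4 :=
    h.Bl3 W [x5] [] [x1, x2] x6 x3 x4 (Or.inr (List.cons_ne_nil _ _))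
  have s120 : Bfun f g [] [x1, x2] (W ++ [x5, x3]) x6 x4 = - Bfun f g [] [x1, x2] (W ++ [x3, x5]) x6 x4 :=
    h.Bi3 W [] [] [] [x1, x2] x5 x3 x6 x4 (Or.inl hW)
  have s121 : Bfun f g [] [x1, x2] (W ++ [x3, x5]) x6 x4 = - Bfun f g [] [x1, x2] (W ++ [x3, x5]) x4 x6 :=
    h.Bzz [] [x1, x2] (W ++ [x3, x5]) x6 x4
  have s122 : Bfun f g [] [x1, x2] (W ++ [x3, x5]) x4 x6 = - Bfun f g [] [x1, x2] (W ++ [x3, x4]) x5 x6 :=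
    h.Bl3 W [x3] [] [x1, x2] x5 x4 x6 (Or.inr (List.cons_ne_nil _ _))
  have s123 : Bfun f g [] [x4, x1] (W ++ [x5, x6]) x2 x3 = - Bfun f g [] [x4, x1] (W ++ [x5, x2]) x6 x3 :=
    h.Bl3 W [x5] [] [x4, x1] x6 x2 x3 (Or.inr (List.cons_ne_nil _ _))
  have s124 : Bfun f g [] [x4, x1] (W ++ [x5, x2]) x6 x3 = - Bfun f g [] [x4, x1] (W ++ [x2, x5]) x6 x3 :=
    h.Bi3 W [] [] [] [x4, x1] x5 x2 x6 x3 (Or.inl hW)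
  have s125 : Bfun f g [] [x4, x1] (W ++ [x2, x5]) x6 x3 = - Bfun f g [] [x4, x1] (W ++ [x2, x5]) x3 x6 :=
    h.Bzz [] [x4, x1] (W ++ [x2, x5]) x6 x3
  have s126 : Bfun f g [] [x4, x1] (W ++ [x2, x5]) x3 x6 = - Bfun f g [] [x4, x1] (W ++ [x2, x3]) x5 x6 :=
    h.Bl3 W [x2] [] [x4, x1] x5 x3 x6 (Or.inr (List.cons_ne_nil _ _))
  have s127 : Bfun f g [x4] [x1] (W ++ [x5, x6]) x2 x3 = - Bfun f g [x1] [x4] (W ++ [x5, x6]) x2 x3 :=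
    h.B12 [x4] [x1] (W ++ [x5, x6]) x2 x3
  apply tf.n2
  linear_combination (norm := module) (2 : ℤ) • r0 + (-2 : ℤ) • r1 + (-1 : ℤ) • r2 + (-1 : ℤ) • r3 + (1 : ℤ) • r4 + (1 : ℤ) • r5 + (2 : ℤ) • s0 + (-2 : ℤ) • s1 + (2 : ℤ) • s2 + (-2 : ℤ) • s3 + (2 : ℤ) • s4 + (-2 : ℤ) • s5 + (2 : ℤ) • s6 + (-2 : ℤ) • s7 + (-2 : ℤ) • s8 + (2 : ℤ) • s9 + (-2 : ℤ) • s10 + (2 : ℤ) • s11 + (-2 : ℤ) • s12 + (2 : ℤ) • s13 + (-2 : ℤ) • s14 + (2 : ℤ) • s15 + (-2 : ℤ) • s16 + (2 : ℤ) • s17 + (-2 : ℤ) • s18 + (2 : ℤ) • s19 + (-2 : ℤ) • s20 + (2 : ℤ) • s21 + (-2 : ℤ) • s22 + (2 : ℤ) • s23 + (-2 : ℤ) • s26 + (2 : ℤ) • s27 + (-2 : ℤ) • s28 + (2 : ℤ) • s29 + (-2 : ℤ) • s30 + (2 : ℤ) • s31 + (2 : ℤ) • s32 + (-2 : ℤ) • s33 + (2 : ℤ) • s34 + (-2 : ℤ) • s35 + (2 : ℤ) • s36 + (-2 : ℤ) • s37 + (2 : ℤ) • s38 + (-2 : ℤ) •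 s39 + (2 : ℤ) • s40 + (-2 : ℤ) • s41 + (2 : ℤ) • s42 + (-2 : ℤ) • s43 + (2 : ℤ) • s44 + (2 : ℤ) • s45 + (-2 : ℤ) • s46 + (2 : ℤ) • s47 + (-2 : ℤ) • s48 + (2 : ℤ) • s49 + (-2 : ℤ) • s50 + (2 : ℤ) • s51 + (-2 : ℤ) • s52 + (2 : ℤ) • s53 + (-2 : ℤ) • s54 + (2 : ℤ) • s55 + (-2 : ℤ) • s56 + (2 : ℤ) • s57 + (-2 : ℤ) • s58 + (2 : ℤ) • s59 + (-2 : ℤ) • s60 + (-2 : ℤ) • s61 + (2 : ℤ) • s62 + (-2 : ℤ) • s63 + (2 : ℤ) • s64 + (-2 : ℤ) • s65 + (1 : ℤ) • s66 + (1 : ℤ) • s67 + (-1 : ℤ) • s68 + (1 : ℤ) • s69 + (-1 : ℤ) • s70 + (1 : ℤ) • s71 + (-2 : ℤ) • s72 + (2 : ℤ) • s73 + (-1 : ℤ) • s74 + (1 : ℤ) • s75 + (1 : ℤ) • s76 + (-2 : ℤ) • s77 + (-1 : ℤ) • s78 + (1 : ℤ) • s79 + (-1 : ℤ) • s80 + (1 : ℤ) • s81 + (-1 : ℤ) • s82 + (1 : ℤ) • s83 + (-1 : ℤ) • s84 + (1 : ℤ) • s85 + (-1 : ℤ) • s86 + (1 : ℤ) • s87 + (-1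 : ℤ) • s88 + (1 : ℤ) • s89 + (1 : ℤ) • s90 + (-1 : ℤ) • s91 + (1 : ℤ) • s92 + (-1 : ℤ) • s93 + (2 : ℤ) • s94 + (-2 : ℤ) • s95 + (-1 : ℤ) • s96 + (1 : ℤ) • s97 + (-1 : ℤ) • s98 + (1 : ℤ) • s99 + (-1 : ℤ) • s100 + (1 : ℤ) • s101 + (-1 : ℤ) • s102 + (1 : ℤ) • s103 + (-1 : ℤ) • s104 + (1 : ℤ) • s105 + (-1 : ℤ) • s106 + (1 : ℤ) • s107 + (-1 : ℤ) • s108 + (-1 : ℤ) • s109 + (1 : ℤ) • s110 + (-1 : ℤ) • s111 + (1 : ℤ) • s112 + (-1 : ℤ) • s113 + (1 : ℤ) • s114 + (-1 : ℤ) • s115 + (1 : ℤ) • s116 + (-1 : ℤ) • s117 + (1 : ℤ) • s118 + (-1 : ℤ) • s119 + (1 : ℤ) • s120 + (-1 : ℤ) • s121 + (1 : ℤ) • s122 + (-1 : ℤ) • s123 + (1 : ℤ) • s124 + (-1 : ℤ) • s125 + (1 : ℤ) • s126 + (-1 : ℤ) • s127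

end Lvl
end Eng
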