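import Pool.Agent.H86.Eng.CertC

/-! Generated linear algebra certificates for the thick sandwich theorem. -/

set_option linter.style.longLine false
set_option linter.unusedVariables false

namespace Eng

variable {α G : Type*} [AddCommGroup G] {f : List α → List α → List α → G}
  {g : List α → List α → List α → α → G}

namespace Lvl

theorem y14 (h : Lvl f g) (tf : TF G) (W : List α) (hW : W ≠ [])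
    (x1 x2 x3 x4 x5 x6 x7 : α) :
    Bfun f g [] [x7] (W ++ [x1, x2, x3, x4]) x5 x6 = 0 := by
  have r0 : Afun f g [] [x6, x2, x4, x5] (W ++ [x1, x3]) x7 + Afun f g [] [x6, x2] (W ++ [x1, x3, x5, x4]) x7 + Bfun f g [x6, x2] [x7] (W ++ [x1, x3]) x4 x5 - Bfun f g [x7] [x6, x5] (W ++ [x1, x3]) x2 x4 - Bfun f g [] [x7, x2, x4] (W ++ [x1, x3]) x6 x5 + Bfun f g [] [x7] (W ++ [x1, x3, x4, x5]) x6 x2 = 0 := by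
    simpa only [List.append_assoc, List.cons_append, List.nil_append] using h.K0 [] (W ++ [x1, x3]) x6 x2 x7 x4 x5
  have r1 : Afun f g [] [x1, x6] (W ++ [x2, x3, x4, x5]) x7 + Bfun f g [] [x7] (W ++ [x2, x3, x4, x5]) x1 x6 = 0 := by
    simpa only [List.append_assoc, List.cons_append, List.nil_append] using h.J1z x1 x6 (W ++ [x2, x3, x4, x5]) x7
  have r2 : Afun f g [] (W ++ [x2, x3, x4, x5, x6, x1]) [] x7 + Afun f g [] (W ++ [x2, x3, x4, x5]) [x1, x6] x7 + Bfun f g (W ++ [x2, x3, x4, x5]) [x7] [] x6 x1 - Bfun f g [x7] (W ++ [x2, x3, x4, x1]) [] x5 x6 - Bfun f g (W ++ [x2, x3]) [x7, x5, x6] [] x4 x1 + Bfun f g (W ++ [x2, x3]) [x7] [x6, x1] x4 x5 = 0 := by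
    simpa only [List.append_assoc, List.cons_append, List.nil_append] using h.K0 (W ++ [x2, x3]) [] x4 x5 x7 x6 x1
  have r3 : Bfun f g [x6, x1] [x7] (W ++ [x2, x3]) x4 x5 - Bfun f g [] [x7] (W ++ [x6, x1, x2, x3]) x4 x5 + Bfun f g [] [x7, x6, x1] (W ++ [x2, x3]) x4 x5 = 0 := by
    simpa only [List.append_assoc, List.cons_append, List.nil_append] using h.SQ0a tf [x7] W (by simp) hW x6 x1 x2 x3 x4 x5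
  have r4 : Bfun f g [x6, x1, x2, x3] [x7] W x4 x5 - Bfun f g [x6, x1] [x7, x2, x3] W x4 x5 - Bfun f g [x6, x1] [x7] (W ++ [x2, x3]) x4 x5 = 0 := by
    simpa only [List.append_assoc, List.cons_append, List.nil_append] using h.SQ0c tf [x7] W (by simp) hW x6 x1 x2 x3 x4 x5
  have r5 : Afun f g [] (W ++ [x1, x3, x4, x5]) [x6, x2] x7 + Afun f g [] (W ++ [x1, x3]) [x6, x2, x5, x4] x7 + Bfun f g (W ++ [x1, x3]) [x7] [x6, x2] x4 x5 - Bfun f g [x7] (W ++ [x1, x5]) [x6, x2] x3 x4 - Bfun f g W [x7, x3, x4] [x6, x2] x1 x5 + Bfun f g W [x7] [x6, x2, x4, x5] x1 x3 = 0 := by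
    simpa only [List.append_assoc, List.cons_append, List.nil_append] using h.K0 W [x6, x2] x1 x3 x7 x4 x5
  have s0 : Afun f g [] [x6, x2] (W ++ [x1, x3, x5, x4]) x7 = - Afun f g [] [x6, x2] (W ++ [x1, x3, x4, x5]) x7 :=
    h.Ai3 [] W [x1, x3] [] [x6, x2] x5 x4 x7 (Or.inr (List.cons_ne_nil _ _))
  have s1 : Bfun f g [x6, x2] [x7] (W ++ [x1, x3]) x4 x5 = - Bfun f g [x7] [x6, x2] (W ++ [x1, x3]) x4 x5 :=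
    h.B12 [x6, x2] [x7] (W ++ [x1, x3]) x4 x5
  have s2 : Bfun f g [x7] [x6, x2] (W ++ [x1, x3]) x4 x5 = - Bfun f g [x7] [x6, x2] (W ++ [x3, x1]) x4 x5 :=
    h.Bi3 W [] [] [x7] [x6, x2] x1 x3 x4 x5 (Or.inl hW)
  have s3 : Bfun f g [x7] [x6, x2] (W ++ [x3, x1]) x4 x5 = - Bfun f g [x7] [x6, x2] (W ++ [x3, x4]) x1 x5 :=
    h.Bl3 W [x3] [x7] [x6, x2] x1 x4 x5 (Or.inr (List.cons_ne_nil _ _))
  have s4 : Bfun f g [x7] [x6, x2] (W ++ [x3, x4]) x1 x5 = - Bfun f g [x7] [x6, x1] (W ++ [x3, x4]) x2 x5 :=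
    h.Bl2 [] [x6] [x7] (W ++ [x3, x4]) x2 x1 x5 (Or.inr (List.cons_ne_nil _ _))
  have s5 : Bfun f g [x7] [x6, x1] (W ++ [x3, x4]) x2 x5 = - Bfun f g [x7] [x6, x1] (W ++ [x3, x2]) x4 x5 :=
    h.Bl3 W [x3] [x7] [x6, x1] x4 x2 x5 (Or.inr (List.cons_ne_nil _ _))
  have s6 : Bfun f g [x7] [x6, x1] (W ++ [x3, x2]) x4 x5 = - Bfun f g [x7] [x6, x1] (W ++ [x2, x3]) x4 x5 :=
    h.Bi3 W [] [] [x7] [x6, x1] x3 x2 x4 x5 (Or.inl hW)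
  have s7 : Bfun f g [x7] [x6, x5] (W ++ [x1, x3]) x2 x4 = - Bfun f g [x7] [x6, x5] (W ++ [x3, x1]) x2 x4 :=
    h.Bi3 W [] [] [x7] [x6, x5] x1 x3 x2 x4 (Or.inl hW)
  have s8 : Bfun f g [x7] [x6, x5] (W ++ [x3, x1]) x2 x4 = - Bfun f g [x7] [x6, x5] (W ++ [x3, x2]) x1 x4 :=
    h.Bl3 W [x3] [x7] [x6, x5] x1 x2 x4 (Or.inr (List.cons_ne_nil _ _))
  have s9 : Bfun f g [x7] [x6, x5] (W ++ [x3, x2]) x1 x4 = - Bfun f g [x7] [x6, x1] (W ++ [x3, x2]) x5 x4 :=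
    h.Bl2 [] [x6] [x7] (W ++ [x3, x2]) x5 x1 x4 (Or.inr (List.cons_ne_nil _ _))
  have s10 : Bfun f g [x7] [x6, x1] (W ++ [x3, x2]) x5 x4 = - Bfun f g [x7] [x6, x1] (W ++ [x2, x3]) x5 x4 :=
    h.Bi3 W [] [] [x7] [x6, x1] x3 x2 x5 x4 (Or.inl hW)
  have s11 : Bfun f g [x7] [x6, x1] (W ++ [x2, x3]) x5 x4 = - Bfun f g [x7] [x6, x1] (W ++ [x2, x3]) x4 x5 :=
    h.Bzz [x7] [x6, x1] (W ++ [x2, x3]) x5 x4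
  have s12 : Bfun f g [] [x7, x2, x4] (W ++ [x1, x3]) x6 x5 = - Bfun f g [] [x7, x2, x4] (W ++ [x3, x1]) x6 x5 :=
    h.Bi3 W [] [] [] [x7, x2, x4] x1 x3 x6 x5 (Or.inl hW)
  have s13 : Bfun f g [] [x7, x2, x4] (W ++ [x3, x1]) x6 x5 = - Bfun f g [] [x7, x2, x4] (W ++ [x3, x6]) x1 x5 :=
    h.Bl3 W [x3] [] [x7, x2, x4] x1 x6 x5 (Or.inr (List.cons_ne_nil _ _))
  have s14 : Bfun f g [] [x7, x2, x4] (W ++ [x3, x6]) x1 x5 = - Bfun f g [] [x7, x2, x1] (W ++ [x3, x6]) x4 x5 :=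
    h.Bl2 [] [x7, x2] [] (W ++ [x3, x6]) x4 x1 x5 (Or.inr (List.cons_ne_nil _ _))
  have s15 : Bfun f g [] [x7, x2, x1] (W ++ [x3, x6]) x4 x5 = - Bfun f g [] [x7, x1, x2] (W ++ [x3, x6]) x4 x5 :=
    h.Bi2 [] [x7] [] [] (W ++ [x3, x6]) x2 x1 x4 x5 (Or.inr (List.cons_ne_nil _ _))
  have s16 : Bfun f g [] [x7, x1, x2] (W ++ [x3, x6]) x4 x5 = - Bfun f g [] [x7, x1, x2] (W ++ [x3, x4]) x6 x5 :=
    h.Bl3 W [x3] [] [x7, x1, x2] x6 x4 x5 (Or.inr (List.cons_ne_nil _ _))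
  have s17 : Bfun f g [] [x7, x1, x2] (W ++ [x3, x4]) x6 x5 = - Bfun f g [] [x7, x1, x2] (W ++ [x3, x4]) x5 x6 :=
    h.Bzz [] [x7, x1, x2] (W ++ [x3, x4]) x6 x5
  have s18 : Bfun f g [] [x7] (W ++ [x1, x3, x4, x5]) x6 x2 = - Bfun f g [] [x7] (W ++ [x1, x3, x4, x5]) x2 x6 :=
    h.Bzz [] [x7] (W ++ [x1, x3, x4, x5]) x6 x2
  have s19 : Bfun f g [] [x7] (W ++ [x1, x3, x4, x5]) x2 x6 = - Bfun f g [] [x7] (W ++ [x1, x3, x4, x2]) x5 x6 :=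
    h.Bl3 W [x1, x3, x4] [] [x7] x5 x2 x6 (Or.inr (List.cons_ne_nil _ _))
  have s20 : Bfun f g [] [x7] (W ++ [x1, x3, x4, x2]) x5 x6 = - Bfun f g [] [x7] (W ++ [x1, x3, x2, x4]) x5 x6 :=
    h.Bi3 W [x1, x3] [] [] [x7] x4 x2 x5 x6 (Or.inr (List.cons_ne_nil _ _))
  have s21 : Bfun f g [] [x7] (W ++ [x1, x3, x2, x4]) x5 x6 = - Bfun f g [] [x7] (W ++ [x1, x2, x3, x4]) x5 x6 :=
    h.Bi3 W [x1] [x4] [] [x7] x3 x2 x5 x6 (Or.inr (List.cons_ne_nil _ _))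
  have s22 : Bfun f g [] [x7] (W ++ [x2, x3, x4, x5]) x1 x6 = - Bfun f g [] [x7] (W ++ [x2, x3, x4, x1]) x5 x6 :=
    h.Bl3 W [x2, x3, x4] [] [x7] x5 x1 x6 (Or.inr (List.cons_ne_nil _ _))
  have s23 : Bfun f g [] [x7] (W ++ [x2, x3, x4, x1]) x5 x6 = - Bfun f g [] [x7] (W ++ [x2, x3, x1, x4]) x5 x6 :=
    h.Bi3 W [x2, x3] [] [] [x7] x4 x1 x5 x6 (Or.inr (List.cons_ne_nil _ _))
  have s24 : Bfun f g [] [x7] (W ++ [x2, x3, x1, x4]) x5 x6 = - Bfun f g [] [x7] (W ++ [x2, x1, x3, x4]) x5 x6 :=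
    h.Bi3 W [x2] [x4] [] [x7] x3 x1 x5 x6 (Or.inr (List.cons_ne_nil _ _))
  have s25 : Bfun f g [] [x7] (W ++ [x2, x1, x3, x4]) x5 x6 = - Bfun f g [] [x7] (W ++ [x1, x2, x3, x4]) x5 x6 :=
    h.Bi3 W [] [x3, x4] [] [x7] x2 x1 x5 x6 (Or.inl hW)
  have s26 : Afun f g [] (W ++ [x2, x3, x4, x5, x6, x1]) [] x7 = 0 :=
    h.a0' (W ++ [x2, x3, x4, x5, x6, x1]) x7
  have s27 : Afun f g [] (W ++ [x2, x3, x4, x5]) [x1, x6] x7 = - Afun f g [] [x1, x6] (W ++ [x2, x3, x4, x5]) x7 :=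
    h.r3 [] (W ++ [x2, x3, x4, x5]) [x1, x6] x7
  have s28 : Bfun f g (W ++ [x2, x3, x4, x5]) [x7] [] x6 x1 = - Bfun f g [x7] (W ++ [x2, x3, x4, x5]) [] x6 x1 :=
    h.B12 (W ++ [x2, x3, x4, x5]) [x7] [] x6 x1
  have s29 : Bfun f g [x7] (W ++ [x2, x3, x4, x5]) [] x6 x1 = - Bfun f g [x7] [] (W ++ [x2, x3, x4, x5]) x6 x1 :=
    h.B23 [x7] (W ++ [x2, x3, x4, x5]) [] x6 x1
  have s30 : Bfun f g [x7] [] (W ++ [x2, x3, x4, x5]) x6 x1 = - Bfun f g [] [x7] (W ++ [x2, x3, x4, x5]) x6 x1 :=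
    h.B12 [x7] [] (W ++ [x2, x3, x4, x5]) x6 x1
  have s31 : Bfun f g [] [x7] (W ++ [x2, x3, x4, x5]) x6 x1 = - Bfun f g [] [x7] (W ++ [x2, x3, x4, x5]) x1 x6 :=
    h.Bzz [] [x7] (W ++ [x2, x3, x4, x5]) x6 x1
  have s32 : Bfun f g [x7] (W ++ [x2, x3, x4, x1]) [] x5 x6 = - Bfun f g [x7] [] (W ++ [x2, x3, x4, x1]) x5 x6 :=
    h.B23 [x7] (W ++ [x2, x3, x4, x1]) [] x5 x6
  have s33 : Bfun f g [x7] [] (W ++ [x2, x3, x4, x1]) x5 x6 = - Bfun f g [] [x7] (W ++ [x2, x3, x4, x1]) x5 x6 :=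
    h.B12 [x7] [] (W ++ [x2, x3, x4, x1]) x5 x6
  have s34 : Bfun f g (W ++ [x2, x3]) [x7, x5, x6] [] x4 x1 = - Bfun f g [x7, x5, x6] (W ++ [x2, x3]) [] x4 x1 :=
    h.B12 (W ++ [x2, x3]) [x7, x5, x6] [] x4 x1
  have s35 : Bfun f g [x7, x5, x6] (W ++ [x2, x3]) [] x4 x1 = - Bfun f g [x7, x5, x6] [] (W ++ [x2, x3]) x4 x1 :=
    h.B23 [x7, x5, x6] (W ++ [x2, x3]) [] x4 x1
  have s36 : Bfun f g [x7, x5, x6] [] (W ++ [x2, x3]) x4 x1 = - Bfun f g [] [x7, x5, x6] (W ++ [x2, x3]) x4 x1 :=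
    h.B12 [x7, x5, x6] [] (W ++ [x2, x3]) x4 x1
  have s37 : Bfun f g [] [x7, x5, x6] (W ++ [x2, x3]) x4 x1 = - Bfun f g [] [x7, x5, x6] (W ++ [x2, x3]) x1 x4 :=
    h.Bzz [] [x7, x5, x6] (W ++ [x2, x3]) x4 x1
  have s38 : Bfun f g [] [x7, x5, x6] (W ++ [x2, x3]) x1 x4 = - Bfun f g [] [x7, x5, x1] (W ++ [x2, x3]) x6 x4 :=
    h.Bl2 [] [x7, x5] [] (W ++ [x2, x3]) x6 x1 x4 (Or.inr (List.cons_ne_nil _ _))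
  have s39 : Bfun f g [] [x7, x5, x1] (W ++ [x2, x3]) x6 x4 = - Bfun f g [] [x7, x1, x5] (W ++ [x2, x3]) x6 x4 :=
    h.Bi2 [] [x7] [] [] (W ++ [x2, x3]) x5 x1 x6 x4 (Or.inr (List.cons_ne_nil _ _))
  have s40 : Bfun f g [] [x7, x1, x5] (W ++ [x2, x3]) x6 x4 = - Bfun f g [] [x7, x1, x5] (W ++ [x3, x2]) x6 x4 :=
    h.Bi3 W [] [] [] [x7, x1, x5] x2 x3 x6 x4 (Or.inl hW)
  have s41 : Bfun f g [] [x7, x1, x5] (W ++ [x3, x2]) x6 x4 = - Bfun f g [] [x7, x1, x5] (W ++ [x3, x6]) x2 x4 :=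
    h.Bl3 W [x3] [] [x7, x1, x5] x2 x6 x4 (Or.inr (List.cons_ne_nil _ _))
  have s42 : Bfun f g [] [x7, x1, x5] (W ++ [x3, x6]) x2 x4 = - Bfun f g [] [x7, x1, x2] (W ++ [x3, x6]) x5 x4 :=
    h.Bl2 [] [x7, x1] [] (W ++ [x3, x6]) x5 x2 x4 (Or.inr (List.cons_ne_nil _ _))
  have s43 : Bfun f g [] [x7, x1, x2] (W ++ [x3, x6]) x5 x4 = - Bfun f g [] [x7, x1, x2] (W ++ [x3, x6]) x4 x5 :=
    h.Bzz [] [x7, x1, x2] (W ++ [x3, x6]) x5 x4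
  have s44 : Bfun f g (W ++ [x2, x3]) [x7] [x6, x1] x4 x5 = - Bfun f g [x7] (W ++ [x2, x3]) [x6, x1] x4 x5 :=
    h.B12 (W ++ [x2, x3]) [x7] [x6, x1] x4 x5
  have s45 : Bfun f g [x7] (W ++ [x2, x3]) [x6, x1] x4 x5 = - Bfun f g [x7] [x6, x1] (W ++ [x2, x3]) x4 x5 :=
    h.B23 [x7] (W ++ [x2, x3]) [x6, x1] x4 x5
  have s46 : Bfun f g [x6, x1] [x7] (W ++ [x2, x3]) x4 x5 = - Bfun f g [x7] [x6, x1] (W ++ [x2, x3]) x4 x5 :=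
    h.B12 [x6, x1] [x7] (W ++ [x2, x3]) x4 x5
  have s47 : Bfun f g [] [x7] (W ++ [x6, x1, x2, x3]) x4 x5 = - Bfun f g [] [x7] (W ++ [x1, x6, x2, x3]) x4 x5 :=
    h.Bi3 W [] [x2, x3] [] [x7] x6 x1 x4 x5 (Or.inl hW)
  have s48 : Bfun f g [] [x7] (W ++ [x1, x6, x2, x3]) x4 x5 = - Bfun f g [] [x7] (W ++ [x1, x2, x6, x3]) x4 x5 :=
    h.Bi3 W [x1] [x3] [] [x7] x6 x2 x4 x5 (Or.inr (List.cons_ne_nil _ _))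
  have s49 : Bfun f g [] [x7] (W ++ [x1, x2, x6, x3]) x4 x5 = - Bfun f g [] [x7] (W ++ [x1, x2, x3, x6]) x4 x5 :=
    h.Bi3 W [x1, x2] [] [] [x7] x6 x3 x4 x5 (Or.inr (List.cons_ne_nil _ _))
  have s50 : Bfun f g [] [x7] (W ++ [x1, x2, x3, x6]) x4 x5 = - Bfun f g [] [x7] (W ++ [x1, x2, x3, x4]) x6 x5 :=
    h.Bl3 W [x1, x2, x3] [] [x7] x6 x4 x5 (Or.inr (List.cons_ne_nil _ _))
  have s51 : Bfun f g [] [x7] (W ++ [x1, x2, x3, x4]) x6 x5 = - Bfun f g [] [x7] (W ++ [x1, x2, x3, x4]) x5 x6 :=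
    h.Bzz [] [x7] (W ++ [x1, x2, x3, x4]) x6 x5
  have s52 : Bfun f g [] [x7, x6, x1] (W ++ [x2, x3]) x4 x5 = - Bfun f g [] [x7, x1, x6] (W ++ [x2, x3]) x4 x5 :=
    h.Bi2 [] [x7] [] [] (W ++ [x2, x3]) x6 x1 x4 x5 (Or.inr (List.cons_ne_nil _ _))
  have s53 : Bfun f g [] [x7, x1, x6] (W ++ [x2, x3]) x4 x5 = - Bfun f g [] [x7, x1, x6] (W ++ [x3, x2]) x4 x5 :=
    h.Bi3 W [] [] [] [x7, x1, x6] x2 x3 x4 x5 (Or.inl hW)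
  have s54 : Bfun f g [] [x7, x1, x6] (W ++ [x3, x2]) x4 x5 = - Bfun f g [] [x7, x1, x6] (W ++ [x3, x4]) x2 x5 :=
    h.Bl3 W [x3] [] [x7, x1, x6] x2 x4 x5 (Or.inr (List.cons_ne_nil _ _))
  have s55 : Bfun f g [] [x7, x1, x6] (W ++ [x3, x4]) x2 x5 = - Bfun f g [] [x7, x1, x2] (W ++ [x3, x4]) x6 x5 :=
    h.Bl2 [] [x7, x1] [] (W ++ [x3, x4]) x6 x2 x5 (Or.inr (List.cons_ne_nil _ _))
  have s56 : Bfun f g [x6, x1, x2, x3] [x7] W x4 x5 = - Bfun f g [x7] [x6, x1, x2, x3] W x4 x5 :=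
    h.B12 [x6, x1, x2, x3] [x7] W x4 x5
  have s57 : Afun f g [] (W ++ [x1, x3, x4, x5]) [x6, x2] x7 = - Afun f g [] [x6, x2] (W ++ [x1, x3, x4, x5]) x7 :=
    h.r3 [] (W ++ [x1, x3, x4, x5]) [x6, x2] x7
  have s58 : Afun f g [] (W ++ [x1, x3]) [x6, x2, x5, x4] x7 = - Afun f g [] [x6, x2, x5, x4] (W ++ [x1, x3]) x7 :=
    h.r3 [] (W ++ [x1, x3]) [x6, x2, x5, x4] x7
  have s59 : Afun f g [] [x6, x2, x5, x4] (W ++ [x1, x3]) x7 = - Afun f g [] [x6, x2, x4, x5] (W ++ [x1, x3]) x7 :=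
    h.Ai2 [] [] [x6, x2] [] (W ++ [x1, x3]) x5 x4 x7 (Or.inr (List.cons_ne_nil _ _))
  have s60 : Bfun f g (W ++ [x1, x3]) [x7] [x6, x2] x4 x5 = - Bfun f g [x7] (W ++ [x1, x3]) [x6, x2] x4 x5 :=
    h.B12 (W ++ [x1, x3]) [x7] [x6, x2] x4 x5
  have s61 : Bfun f g [x7] (W ++ [x1, x3]) [x6, x2] x4 x5 = - Bfun f g [x7] [x6, x2] (W ++ [x1, x3]) x4 x5 :=
    h.B23 [x7] (W ++ [x1, x3]) [x6, x2] x4 x5
  have s62 : Bfun f g [x7] (W ++ [x1, x5]) [x6, x2] x3 x4 = - Bfun f g [x7] [x6, x2] (W ++ [x1, x5]) x3 x4 :=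
    h.B23 [x7] (W ++ [x1, x5]) [x6, x2] x3 x4
  have s63 : Bfun f g [x7] [x6, x2] (W ++ [x1, x5]) x3 x4 = - Bfun f g [x7] [x6, x2] (W ++ [x5, x1]) x3 x4 :=
    h.Bi3 W [] [] [x7] [x6, x2] x1 x5 x3 x4 (Or.inl hW)
  have s64 : Bfun f g [x7] [x6, x2] (W ++ [x5, x1]) x3 x4 = - Bfun f g [x7] [x6, x2] (W ++ [x5, x3]) x1 x4 :=
    h.Bl3 W [x5] [x7] [x6, x2] x1 x3 x4 (Or.inr (List.cons_ne_nil _ _))
  have s65 : Bfun f g [x7] [x6, x2] (W ++ [x5, x3]) x1 x4 = - Bfun f g [x7] [x6, x1] (W ++ [x5, x3]) x2 x4 :=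
    h.Bl2 [] [x6] [x7] (W ++ [x5, x3]) x2 x1 x4 (Or.inr (List.cons_ne_nil _ _))
  have s66 : Bfun f g [x7] [x6, x1] (W ++ [x5, x3]) x2 x4 = - Bfun f g [x7] [x6, x1] (W ++ [x5, x2]) x3 x4 :=
    h.Bl3 W [x5] [x7] [x6, x1] x3 x2 x4 (Or.inr (List.cons_ne_nil _ _))
  have s67 : Bfun f g [x7] [x6, x1] (W ++ [x5, x2]) x3 x4 = - Bfun f g [x7] [x6, x1] (W ++ [x2, x5]) x3 x4 :=
    h.Bi3 W [] [] [x7] [x6, x1] x5 x2 x3 x4 (Or.inl hW)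
  have s68 : Bfun f g [x7] [x6, x1] (W ++ [x2, x5]) x3 x4 = - Bfun f g [x7] [x6, x1] (W ++ [x2, x3]) x5 x4 :=
    h.Bl3 W [x2] [x7] [x6, x1] x5 x3 x4 (Or.inr (List.cons_ne_nil _ _))
  have s69 : Bfun f g W [x7, x3, x4] [x6, x2] x1 x5 = - Bfun f g [x7, x3, x4] W [x6, x2] x1 x5 :=
    h.B12 W [x7, x3, x4] [x6, x2] x1 x5
  have s70 : Bfun f g [x7, x3, x4] W [x6, x2] x1 x5 = - Bfun f g [x7, x3, x4] [x6, x2] W x1 x5 :=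
    h.B23 [x7, x3, x4] W [x6, x2] x1 x5
  have s71 : Bfun f g [x7, x3, x4] [x6, x2] W x1 x5 = - Bfun f g [x6, x2] [x7, x3, x4] W x1 x5 :=
    h.B12 [x7, x3, x4] [x6, x2] W x1 x5
  have s72 : Bfun f g [x6, x2] [x7, x3, x4] W x1 x5 = - Bfun f g [x6, x1] [x7, x3, x4] W x2 x5 :=
    h.Bl1 [] [x6] [x7, x3, x4] W x2 x1 x5 (Or.inr (List.cons_ne_nil _ _))
  have s73 : Bfun f g [x6, x1] [x7, x3, x4] W x2 x5 = - Bfun f g [x6, x1] [x7, x3, x2] W x4 x5 :=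
    h.Bl2 [] [x7, x3] [x6, x1] W x4 x2 x5 (Or.inr (List.cons_ne_nil _ _))
  have s74 : Bfun f g [x6, x1] [x7, x3, x2] W x4 x5 = - Bfun f g [x6, x1] [x7, x2, x3] W x4 x5 :=
    h.Bi2 [] [x7] [] [x6, x1] W x3 x2 x4 x5 (Or.inr (List.cons_ne_nil _ _))
  have s75 : Bfun f g W [x7] [x6, x2, x4, x5] x1 x3 = - Bfun f g [x7] W [x6, x2, x4, x5] x1 x3 :=
    h.B12 W [x7] [x6, x2, x4, x5] x1 x3
  have s76 : Bfun f g [x7] W [x6, x2, x4, x5] x1 x3 = - Bfun f g [x7] [x6, x2, x4, x5] W x1 x3 :=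
    h.B23 [x7] W [x6, x2, x4, x5] x1 x3
  have s77 : Bfun f g [x7] [x6, x2, x4, x5] W x1 x3 = - Bfun f g [x7] [x6, x2, x4, x1] W x5 x3 :=
    h.Bl2 [] [x6, x2, x4] [x7] W x5 x1 x3 (Or.inr (List.cons_ne_nil _ _))
  have s78 : Bfun f g [x7] [x6, x2, x4, x1] W x5 x3 = - Bfun f g [x7] [x6, x2, x1, x4] W x5 x3 :=
    h.Bi2 [] [x6, x2] [] [x7] W x4 x1 x5 x3 (Or.inr (List.cons_ne_nil _ _))
  have s79 : Bfun f g [x7] [x6, x2, x1, x4] W x5 x3 = - Bfun f g [x7] [x6, x1, x2, x4] W x5 x3 :=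
    h.Bi2 [] [x6] [x4] [x7] W x2 x1 x5 x3 (Or.inr (List.cons_ne_nil _ _))
  have s80 : Bfun f g [x7] [x6, x1, x2, x4] W x5 x3 = - Bfun f g [x7] [x6, x1, x2, x4] W x3 x5 :=
    h.Bzz [x7] [x6, x1, x2, x4] W x5 x3
  have s81 : Bfun f g [x7] [x6, x1, x2, x4] W x3 x5 = - Bfun f g [x7] [x6, x1, x2, x3] W x4 x5 :=
    h.Bl2 [] [x6, x1, x2] [x7] W x4 x3 x5 (Or.inr (List.cons_ne_nil _ _))
  apply tf.n6
  linear_combination (norm := module) (-1 : ℤ) • r0 + (3 : ℤ) • r1 + (3 : ℤ) • r2 + (-2 : ℤ) • r3 + (-1 : ℤ) • r4 + (1 : ℤ) • r5 + (1 : ℤ) • s0 + (1 : ℤ) • s1 + (-2 : ℤ) • s2 + (2 : ℤ) • s3 + (-2 : ℤ) • s4 + (2 : ℤ) • s5 + (-2 : ℤ) • s6 + (-1 : ℤ) • s7 + (1 : ℤ) • s8 + (-1 : ℤ) • s9 + (1 : ℤ) • s10 + (-2 : ℤ) • s11 + (-1 : ℤ) • s12 + (1 : ℤ) • s13 + (-1 : ℤ) • s14 + (1 : ℤ) • s15 + (2 : ℤ) • s16 +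 (1 : ℤ) • s18 + (-1 : ℤ) • s19 + (1 : ℤ) • s20 + (-1 : ℤ) • s21 + (-6 : ℤ) • s22 + (9 : ℤ) • s23 + (-9 : ℤ) • s24 + (9 : ℤ) • s25 + (-3 : ℤ) • s26 + (-3 : ℤ) • s27 + (-3 : ℤ) • s28 + (3 : ℤ) • s29 + (-3 : ℤ) • s30 + (3 : ℤ) • s31 + (3 : ℤ) • s32 + (-3 : ℤ) • s33 + (3 : ℤ) • s34 + (-3 : ℤ) • s35 + (3 : ℤ) • s36 + (-3 : ℤ) • s37 + (3 : ℤ) • s38 + (-3 : ℤ) • s39 + (3 : ℤ) • s40 + (-3 : ℤ) • s41 + (3 : ℤ) • s42 + (-3 : ℤ) • s43 + (-3 : ℤ) • s44 + (3 : ℤ) • s45 + (1 : ℤ) • s46 + (-2 : ℤ) • s47 + (2 : ℤ) • s48 + (-2 : ℤ) • s49 + (2 : ℤ) • s50 + (-2 : ℤ) • s51 + (2 : ℤ) • s52 + (-2 : ℤ) • s53 + (2 : ℤ) • s54 + (-2 : ℤ) • s55 + (1 : ℤ) • s56 + (-1 : ℤ) • s57 + (-1 : ℤ) • s58 + (1 : ℤ) • s59 + (-1 : ℤ) • s60 + (1 : ℤ) • s61 + (1 : ℤ) • s62 + (-1 : ℤ) • s63 + (1 : ℤ) • s64 + (-1 : ℤ) • s65 + (1 : ℤ)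 • s66 + (-1 : ℤ) • s67 + (1 : ℤ) • s68 + (1 : ℤ) • s69 + (-1 : ℤ) • s70 + (1 : ℤ) • s71 + (-1 : ℤ) • s72 + (1 : ℤ) • s73 + (-1 : ℤ) • s74 + (-1 : ℤ) • s75 + (1 : ℤ) • s76 + (-1 : ℤ) • s77 + (1 : ℤ) • s78 + (-1 : ℤ) • s79 + (1 : ℤ) • s80 + (-1 : ℤ) • s81

theorem y12 (h : Lvl f g) (tf : TF G) (W : List α) (hW : W ≠ [])
    (x1 x2 x3 x4 x5 x6 x7 : α) :
    Bfun f g [x7] [x1, x2] (W ++ [x3, x4]) x5 x6 = 0 := by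
  have r0 : Bfun f g [x1, x2] [x7] (W ++ [x3, x4]) x5 x6 - Bfun f g [] [x7] (W ++ [x1, x2, x3, x4]) x5 x6 + Bfun f g [] [x7, x1, x2] (W ++ [x3, x4]) x5 x6 = 0 := by
    simpa only [List.append_assoc, List.cons_append, List.nil_append] using h.SQ0a tf [x7] W (by simp) hW x1 x2 x3 x4 x5 x6
  have r1 : Bfun f g [x1, x2, x3, x4] [x7] W x5 x6 - Bfun f g [x1, x2] [x7, x3, x4] W x5 x6 - Bfun f g [x1, x2] [x7] (W ++ [x3, x4]) x5 x6 = 0 := by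
    simpa only [List.append_assoc, List.cons_append, List.nil_append] using h.SQ0c tf [x7] W (by simp) hW x1 x2 x3 x4 x5 x6
  have r2 : Afun f g [] (W ++ [x2, x3, x5, x6]) [x1, x4] x7 + Afun f g [] (W ++ [x2, x3]) [x1, x4, x6, x5] x7 + Bfun f g (W ++ [x2, x3]) [x7] [x1, x4] x5 x6 - Bfun f g [x7] (W ++ [x2, x6]) [x1, x4] x3 x5 - Bfun f g W [x7, x3, x5] [x1, x4] x2 x6 + Bfun f g W [x7] [x1, x4, x5, x6] x2 x3 = 0 := by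
    simpa only [List.append_assoc, List.cons_append, List.nil_append] using h.K0 W [x1, x4] x2 x3 x7 x5 x6
  have r3 : Afun f g [] [x1, x4, x5, x6] (W ++ [x2, x3]) x7 + Afun f g [] [x1, x4] (W ++ [x2, x3, x6, x5]) x7 + Bfun f g [x1, x4] [x7] (W ++ [x2, x3]) x5 x6 - Bfun f g [x7] [x1, x6] (W ++ [x2, x3]) x4 x5 - Bfun f g [] [x7, x4, x5] (W ++ [x2, x3]) x1 x6 + Bfun f g [] [x7] (W ++ [x2, x3, x5, x6]) x1 x4 = 0 := by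
    simpa only [List.append_assoc, List.cons_append, List.nil_append] using h.K0 [] (W ++ [x2, x3]) x1 x4 x7 x5 x6
  have s0 : Bfun f g [x1, x2] [x7] (W ++ [x3, x4]) x5 x6 = - Bfun f g [x7] [x1, x2] (W ++ [x3, x4]) x5 x6 :=
    h.B12 [x1, x2] [x7] (W ++ [x3, x4]) x5 x6
  have s1 : Bfun f g [x1, x2, x3, x4] [x7] W x5 x6 = - Bfun f g [x7] [x1, x2, x3, x4] W x5 x6 :=
    h.B12 [x1, x2, x3, x4] [x7] W x5 x6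
  have s2 : Afun f g [] (W ++ [x2, x3, x5, x6]) [x1, x4] x7 = - Afun f g [] [x1, x4] (W ++ [x2, x3, x5, x6]) x7 :=
    h.r3 [] (W ++ [x2, x3, x5, x6]) [x1, x4] x7
  have s3 : Afun f g [] (W ++ [x2, x3]) [x1, x4, x6, x5] x7 = - Afun f g [] [x1, x4, x6, x5] (W ++ [x2, x3]) x7 :=
    h.r3 [] (W ++ [x2, x3]) [x1, x4, x6, x5] x7
  have s4 : Afun f g [] [x1, x4, x6, x5] (W ++ [x2, x3]) x7 = - Afun f g [] [x1, x4, x5, x6] (W ++ [x2, x3]) x7 :=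
    h.Ai2 [] [] [x1, x4] [] (W ++ [x2, x3]) x6 x5 x7 (Or.inr (List.cons_ne_nil _ _))
  have s5 : Bfun f g (W ++ [x2, x3]) [x7] [x1, x4] x5 x6 = - Bfun f g [x7] (W ++ [x2, x3]) [x1, x4] x5 x6 :=
    h.B12 (W ++ [x2, x3]) [x7] [x1, x4] x5 x6
  have s6 : Bfun f g [x7] (W ++ [x2, x3]) [x1, x4] x5 x6 = - Bfun f g [x7] [x1, x4] (W ++ [x2, x3]) x5 x6 :=
    h.B23 [x7] (W ++ [x2, x3]) [x1, x4] x5 x6
  have s7 : Bfun f g [x7] [x1, x4] (W ++ [x2, x3]) x5 x6 = - Bfun f g [x7] [x1, x4] (W ++ [x3, x2]) x5 x6 :=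
    h.Bi3 W [] [] [x7] [x1, x4] x2 x3 x5 x6 (Or.inl hW)
  have s8 : Bfun f g [x7] [x1, x4] (W ++ [x3, x2]) x5 x6 = - Bfun f g [x7] [x1, x4] (W ++ [x3, x5]) x2 x6 :=
    h.Bl3 W [x3] [x7] [x1, x4] x2 x5 x6 (Or.inr (List.cons_ne_nil _ _))
  have s9 : Bfun f g [x7] [x1, x4] (W ++ [x3, x5]) x2 x6 = - Bfun f g [x7] [x1, x2] (W ++ [x3, x5]) x4 x6 :=
    h.Bl2 [] [x1] [x7] (W ++ [x3, x5]) x4 x2 x6 (Or.inr (List.cons_ne_nil _ _))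
  have s10 : Bfun f g [x7] [x1, x2] (W ++ [x3, x5]) x4 x6 = - Bfun f g [x7] [x1, x2] (W ++ [x3, x4]) x5 x6 :=
    h.Bl3 W [x3] [x7] [x1, x2] x5 x4 x6 (Or.inr (List.cons_ne_nil _ _))
  have s11 : Bfun f g [x7] (W ++ [x2, x6]) [x1, x4] x3 x5 = - Bfun f g [x7] [x1, x4] (W ++ [x2, x6]) x3 x5 :=
    h.B23 [x7] (W ++ [x2, x6]) [x1, x4] x3 x5
  have s12 : Bfun f g [x7] [x1, x4] (W ++ [x2, x6]) x3 x5 = - Bfun f g [x7] [x1, x4] (W ++ [x6, x2]) x3 x5 :=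
    h.Bi3 W [] [] [x7] [x1, x4] x2 x6 x3 x5 (Or.inl hW)
  have s13 : Bfun f g [x7] [x1, x4] (W ++ [x6, x2]) x3 x5 = - Bfun f g [x7] [x1, x4] (W ++ [x6, x3]) x2 x5 :=
    h.Bl3 W [x6] [x7] [x1, x4] x2 x3 x5 (Or.inr (List.cons_ne_nil _ _))
  have s14 : Bfun f g [x7] [x1, x4] (W ++ [x6, x3]) x2 x5 = - Bfun f g [x7] [x1, x2] (W ++ [x6, x3]) x4 x5 :=
    h.Bl2 [] [x1] [x7] (W ++ [x6, x3]) x4 x2 x5 (Or.inr (List.cons_ne_nil _ _))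
  have s15 : Bfun f g [x7] [x1, x2] (W ++ [x6, x3]) x4 x5 = - Bfun f g [x7] [x1, x2] (W ++ [x3, x6]) x4 x5 :=
    h.Bi3 W [] [] [x7] [x1, x2] x6 x3 x4 x5 (Or.inl hW)
  have s16 : Bfun f g [x7] [x1, x2] (W ++ [x3, x6]) x4 x5 = - Bfun f g [x7] [x1, x2] (W ++ [x3, x4]) x6 x5 :=
    h.Bl3 W [x3] [x7] [x1, x2] x6 x4 x5 (Or.inr (List.cons_ne_nil _ _))
  have s17 : Bfun f g [x7] [x1, x2] (W ++ [x3, x4]) x6 x5 = - Bfun f g [x7] [x1, x2] (W ++ [x3, x4]) x5 x6 :=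
    h.Bzz [x7] [x1, x2] (W ++ [x3, x4]) x6 x5
  have s18 : Bfun f g W [x7, x3, x5] [x1, x4] x2 x6 = - Bfun f g [x7, x3, x5] W [x1, x4] x2 x6 :=
    h.B12 W [x7, x3, x5] [x1, x4] x2 x6
  have s19 : Bfun f g [x7, x3, x5] W [x1, x4] x2 x6 = - Bfun f g [x7, x3, x5] [x1, x4] W x2 x6 :=
    h.B23 [x7, x3, x5] W [x1, x4] x2 x6
  have s20 : Bfun f g [x7, x3, x5] [x1, x4] W x2 x6 = - Bfun f g [x1, x4] [x7, x3, x5] W x2 x6 :=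
    h.B12 [x7, x3, x5] [x1, x4] W x2 x6
  have s21 : Bfun f g [x1, x4] [x7, x3, x5] W x2 x6 = - Bfun f g [x1, x2] [x7, x3, x5] W x4 x6 :=
    h.Bl1 [] [x1] [x7, x3, x5] W x4 x2 x6 (Or.inr (List.cons_ne_nil _ _))
  have s22 : Bfun f g [x1, x2] [x7, x3, x5] W x4 x6 = - Bfun f g [x1, x2] [x7, x3, x4] W x5 x6 :=
    h.Bl2 [] [x7, x3] [x1, x2] W x5 x4 x6 (Or.inr (List.cons_ne_nil _ _))
  have s23 : Bfun f g W [x7] [x1, x4, x5, x6] x2 x3 = - Bfun f g [x7] W [x1, x4, x5, x6] x2 x3 :=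
    h.B12 W [x7] [x1, x4, x5, x6] x2 x3
  have s24 : Bfun f g [x7] W [x1, x4, x5, x6] x2 x3 = - Bfun f g [x7] [x1, x4, x5, x6] W x2 x3 :=
    h.B23 [x7] W [x1, x4, x5, x6] x2 x3
  have s25 : Bfun f g [x7] [x1, x4, x5, x6] W x2 x3 = - Bfun f g [x7] [x1, x4, x5, x2] W x6 x3 :=
    h.Bl2 [] [x1, x4, x5] [x7] W x6 x2 x3 (Or.inr (List.cons_ne_nil _ _))
  have s26 : Bfun f g [x7] [x1, x4, x5, x2] W x6 x3 = - Bfun f g [x7] [x1, x4, x2, x5] W x6 x3 :=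
    h.Bi2 [] [x1, x4] [] [x7] W x5 x2 x6 x3 (Or.inr (List.cons_ne_nil _ _))
  have s27 : Bfun f g [x7] [x1, x4, x2, x5] W x6 x3 = - Bfun f g [x7] [x1, x2, x4, x5] W x6 x3 :=
    h.Bi2 [] [x1] [x5] [x7] W x4 x2 x6 x3 (Or.inr (List.cons_ne_nil _ _))
  have s28 : Bfun f g [x7] [x1, x2, x4, x5] W x6 x3 = - Bfun f g [x7] [x1, x2, x4, x5] W x3 x6 :=
    h.Bzz [x7] [x1, x2, x4, x5] W x6 x3
  have s29 : Bfun f g [x7] [x1, x2, x4, x5] W x3 x6 = - Bfun f g [x7] [x1, x2, x4, x3] W x5 x6 :=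
    h.Bl2 [] [x1, x2, x4] [x7] W x5 x3 x6 (Or.inr (List.cons_ne_nil _ _))
  have s30 : Bfun f g [x7] [x1, x2, x4, x3] W x5 x6 = - Bfun f g [x7] [x1, x2, x3, x4] W x5 x6 :=
    h.Bi2 [] [x1, x2] [] [x7] W x4 x3 x5 x6 (Or.inr (List.cons_ne_nil _ _))
  have s31 : Afun f g [] [x1, x4] (W ++ [x2, x3, x6, x5]) x7 = - Afun f g [] [x1, x4] (W ++ [x2, x3, x5, x6]) x7 :=
    h.Ai3 [] W [x2, x3] [] [x1, x4] x6 x5 x7 (Or.inr (List.cons_ne_nil _ _))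
  have s32 : Bfun f g [x1, x4] [x7] (W ++ [x2, x3]) x5 x6 = - Bfun f g [x7] [x1, x4] (W ++ [x2, x3]) x5 x6 :=
    h.B12 [x1, x4] [x7] (W ++ [x2, x3]) x5 x6
  have s33 : Bfun f g [x7] [x1, x6] (W ++ [x2, x3]) x4 x5 = - Bfun f g [x7] [x1, x6] (W ++ [x3, x2]) x4 x5 :=
    h.Bi3 W [] [] [x7] [x1, x6] x2 x3 x4 x5 (Or.inl hW)
  have s34 : Bfun f g [x7] [x1, x6] (W ++ [x3, x2]) x4 x5 = - Bfun f g [x7] [x1, x6] (W ++ [x3, x4]) x2 x5 :=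
    h.Bl3 W [x3] [x7] [x1, x6] x2 x4 x5 (Or.inr (List.cons_ne_nil _ _))
  have s35 : Bfun f g [x7] [x1, x6] (W ++ [x3, x4]) x2 x5 = - Bfun f g [x7] [x1, x2] (W ++ [x3, x4]) x6 x5 :=
    h.Bl2 [] [x1] [x7] (W ++ [x3, x4]) x6 x2 x5 (Or.inr (List.cons_ne_nil _ _))
  have s36 : Bfun f g [] [x7, x4, x5] (W ++ [x2, x3]) x1 x6 = - Bfun f g [] [x7, x4, x1] (W ++ [x2, x3]) x5 x6 :=
    h.Bl2 [] [x7, x4] [] (W ++ [x2, x3]) x5 x1 x6 (Or.inr (List.cons_ne_nil _ _))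
  have s37 : Bfun f g [] [x7, x4, x1] (W ++ [x2, x3]) x5 x6 = - Bfun f g [] [x7, x1, x4] (W ++ [x2, x3]) x5 x6 :=
    h.Bi2 [] [x7] [] [] (W ++ [x2, x3]) x4 x1 x5 x6 (Or.inr (List.cons_ne_nil _ _))
  have s38 : Bfun f g [] [x7, x1, x4] (W ++ [x2, x3]) x5 x6 = - Bfun f g [] [x7, x1, x4] (W ++ [x3, x2]) x5 x6 :=
    h.Bi3 W [] [] [] [x7, x1, x4] x2 x3 x5 x6 (Or.inl hW)
  have s39 : Bfun f g [] [x7, x1, x4] (W ++ [x3, x2]) x5 x6 = - Bfun f g [] [x7, x1, x4] (W ++ [x3, x5]) x2 x6 :=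
    h.Bl3 W [x3] [] [x7, x1, x4] x2 x5 x6 (Or.inr (List.cons_ne_nil _ _))
  have s40 : Bfun f g [] [x7, x1, x4] (W ++ [x3, x5]) x2 x6 = - Bfun f g [] [x7, x1, x2] (W ++ [x3, x5]) x4 x6 :=
    h.Bl2 [] [x7, x1] [] (W ++ [x3, x5]) x4 x2 x6 (Or.inr (List.cons_ne_nil _ _))
  have s41 : Bfun f g [] [x7, x1, x2] (W ++ [x3, x5]) x4 x6 = - Bfun f g [] [x7, x1, x2] (W ++ [x3, x4]) x5 x6 :=
    h.Bl3 W [x3] [] [x7, x1, x2] x5 x4 x6 (Or.inr (List.cons_ne_nil _ _))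
  have s42 : Bfun f g [] [x7] (W ++ [x2, x3, x5, x6]) x1 x4 = - Bfun f g [] [x7] (W ++ [x2, x3, x5, x1]) x6 x4 :=
    h.Bl3 W [x2, x3, x5] [] [x7] x6 x1 x4 (Or.inr (List.cons_ne_nil _ _))
  have s43 : Bfun f g [] [x7] (W ++ [x2, x3, x5, x1]) x6 x4 = - Bfun f g [] [x7] (W ++ [x2, x3, x1, x5]) x6 x4 :=
    h.Bi3 W [x2, x3] [] [] [x7] x5 x1 x6 x4 (Or.inr (List.cons_ne_nil _ _))
  have s44 : Bfun f g [] [x7] (W ++ [x2, x3, x1, x5]) x6 x4 = - Bfun f g [] [x7] (W ++ [x2, x1, x3, x5]) x6 x4 :=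
    h.Bi3 W [x2] [x5] [] [x7] x3 x1 x6 x4 (Or.inr (List.cons_ne_nil _ _))
  have s45 : Bfun f g [] [x7] (W ++ [x2, x1, x3, x5]) x6 x4 = - Bfun f g [] [x7] (W ++ [x1, x2, x3, x5]) x6 x4 :=
    h.Bi3 W [] [x3, x5] [] [x7] x2 x1 x6 x4 (Or.inl hW)
  have s46 : Bfun f g [] [x7] (W ++ [x1, x2, x3, x5]) x6 x4 = - Bfun f g [] [x7] (W ++ [x1, x2, x3, x5]) x4 x6 :=
    h.Bzz [] [x7] (W ++ [x1, x2, x3, x5]) x6 x4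
  have s47 : Bfun f g [] [x7] (W ++ [x1, x2, x3, x5]) x4 x6 = - Bfun f g [] [x7] (W ++ [x1, x2, x3, x4]) x5 x6 :=
    h.Bl3 W [x1, x2, x3] [] [x7] x5 x4 x6 (Or.inr (List.cons_ne_nil _ _))
  apply tf.n6
  linear_combination (norm := module) (-1 : ℤ) • r0 + (1 : ℤ) • r1 + (1 : ℤ) • r2 + (-1 : ℤ) • r3 + (2 : ℤ) • s0 + (-1 : ℤ) • s1 + (-1 : ℤ) • s2 + (-1 : ℤ) • s3 + (1 : ℤ) • s4 + (-1 : ℤ) • s5 + (1 : ℤ) • s6 + (-2 : ℤ) • s7 + (2 : ℤ) • s8 + (-2 : ℤ) • s9 + (2 : ℤ) • s10 + (1 : ℤ) • s11 + (-1 : ℤ) • s12 + (1 : ℤ) • s13 + (-1 : ℤ) • s14 + (1 : ℤ) • s15 + (-1 : ℤ) • s16 + (2 : ℤ) • s17 + (1 : ℤ) • s18 + (-1 : ℤ) • s19 + (1 : ℤ) • s20 + (-1 : ℤ) • s21 + (1 : ℤ) • s22 + (-1 : ℤ) • s23 + (1 : ℤ) • s24 + (-1 : ℤ) • s25 + (1 : ℤ) • s26 + (-1 : ℤ) • s27 + (1 : ℤ) • s28 + (-1 : ℤ) • s29 + (1 : ℤ) • s30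 + (1 : ℤ) • s31 + (1 : ℤ) • s32 + (-1 : ℤ) • s33 + (1 : ℤ) • s34 + (-1 : ℤ) • s35 + (-1 : ℤ) • s36 + (1 : ℤ) • s37 + (-1 : ℤ) • s38 + (1 : ℤ) • s39 + (-1 : ℤ) • s40 + (1 : ℤ) • s41 + (1 : ℤ) • s42 + (-1 : ℤ) • s43 + (1 : ℤ) • s44 + (-1 : ℤ) • s45 + (1 : ℤ) • s46 + (-1 : ℤ) • s47

theorem z014 (h : Lvl f g) (tf : TF G)
    (x1 x2 x3 x4 x5 x6 x7 : α) :
    Bfun f g [] [x7] [x1, x2, x3, x4] x5 x6 = 0 := by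
  have r0 : Bfun f g [] [x1, x2] [x7, x3, x4] x5 x6 + Bfun f g [] [x2, x1] [x7, x3, x4] x5 x6 = 0 := by
    simpa only [List.append_assoc, List.cons_append, List.nil_append] using h.y2a tf [x7] (by simp) x1 x2 x3 x4 x5 x6
  have r1 : Bfun f g [x1, x3] [x2, x4] [x7] x5 x6 = 0 := by
    simpa only [List.append_assoc, List.cons_append, List.nil_append] using h.y22 tf [x7] (by simp) x1 x3 x2 x4 x5 x6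
  have r2 : Bfun f g [] [x2, x1, x3, x4] [x7] x5 x6 - Bfun f g [] [x2, x1] [x7, x3, x4] x5 x6 = 0 := by
    simpa only [List.append_assoc, List.cons_append, List.nil_append] using h.y4 tf [x7] (by simp) x2 x1 x3 x4 x5 x6
  have r3 : Afun f g [] [x1, x4] [x2, x3, x5, x6] x7 + Bfun f g [] [x7] [x2, x3, x5, x6] x1 x4 = 0 := by
    simpa only [List.append_assoc, List.cons_append, List.nil_append] using h.J1z x1 x4 [x2, x3, x5, x6] x7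
  have r4 : Afun f g [] [x2, x3, x5, x6] [x1, x4] x7 + Afun f g [] [x2, x3] [x1, x4, x6, x5] x7 + Bfun f g [x2, x3] [x7] [x1, x4] x5 x6 - Bfun f g [x7] [x2, x6] [x1, x4] x3 x5 - Bfun f g [] [x7, x3, x5] [x1, x4] x2 x6 + Bfun f g [] [x7] [x1, x4, x5, x6] x2 x3 = 0 := by
    simpa only [List.append_assoc, List.cons_append, List.nil_append] using h.K0 [] [x1, x4] x2 x3 x7 x5 x6
  have r5 : Afun f g [] [x2, x3] [x1, x4, x5, x6] x7 + Bfun f g [] [x7] [x1, x4, x5, x6] x2 x3 = 0 := by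
    simpa only [List.append_assoc, List.cons_append, List.nil_append] using h.J1z x2 x3 [x1, x4, x5, x6] x7
  have s0 : Bfun f g [x1, x3] [x2, x4] [x7] x5 x6 = - Bfun f g [x1, x3] [x7] [x2, x4] x5 x6 :=
    h.B23 [x1, x3] [x2, x4] [x7] x5 x6
  have s1 : Bfun f g [x1, x3] [x7] [x2, x4] x5 x6 = - Bfun f g [x7] [x1, x3] [x2, x4] x5 x6 :=
    h.B12 [x1, x3] [x7] [x2, x4] x5 x6
  have s2 : Bfun f g [] [x2, x1, x3, x4] [x7] x5 x6 = - Bfun f g [] [x7] [x2, x1, x3, x4] x5 x6 :=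
    h.B23 [] [x2, x1, x3, x4] [x7] x5 x6
  have s3 : Bfun f g [] [x7] [x2, x3, x5, x6] x1 x4 = - Bfun f g [] [x7] [x2, x3, x5, x1] x6 x4 :=
    h.Bl3 [] [x2, x3, x5] [] [x7] x6 x1 x4 (Or.inr (List.cons_ne_nil _ _))
  have s4 : Bfun f g [] [x7] [x2, x3, x5, x1] x6 x4 = - Bfun f g [] [x7] [x2, x3, x1, x5] x6 x4 :=
    h.Bi3 [] [x2, x3] [] [] [x7] x5 x1 x6 x4 (Or.inr (List.cons_ne_nil _ _))
  have s5 : Bfun f g [] [x7] [x2, x3, x1, x5] x6 x4 = - Bfun f g [] [x7] [x2, x1, x3, x5] x6 x4 :=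
    h.Bi3 [] [x2] [x5] [] [x7] x3 x1 x6 x4 (Or.inr (List.cons_ne_nil _ _))
  have s6 : Bfun f g [] [x7] [x2, x1, x3, x5] x6 x4 = - Bfun f g [] [x7] [x2, x1, x3, x5] x4 x6 :=
    h.Bzz [] [x7] [x2, x1, x3, x5] x6 x4
  have s7 : Bfun f g [] [x7] [x2, x1, x3, x5] x4 x6 = - Bfun f g [] [x7] [x2, x1, x3, x4] x5 x6 :=
    h.Bl3 [] [x2, x1, x3] [] [x7] x5 x4 x6 (Or.inr (List.cons_ne_nil _ _))
  have s8 : Afun f g [] [x2, x3, x5, x6] [x1, x4] x7 = - Afun f g [] [x1, x4] [x2, x3, x5, x6] x7 :=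
    h.r3 [] [x2, x3, x5, x6] [x1, x4] x7
  have s9 : Afun f g [] [x2, x3] [x1, x4, x6, x5] x7 = - Afun f g [] [x2, x3] [x1, x4, x5, x6] x7 :=
    h.Ai3 [] [] [x1, x4] [] [x2, x3] x6 x5 x7 (Or.inr (List.cons_ne_nil _ _))
  have s10 : Bfun f g [x2, x3] [x7] [x1, x4] x5 x6 = - Bfun f g [x7] [x2, x3] [x1, x4] x5 x6 :=
    h.B12 [x2, x3] [x7] [x1, x4] x5 x6
  have s11 : Bfun f g [x7] [x2, x3] [x1, x4] x5 x6 = - Bfun f g [x7] [x1, x4] [x2, x3] x5 x6 :=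
    h.B23 [x7] [x2, x3] [x1, x4] x5 x6
  have s12 : Bfun f g [x7] [x1, x4] [x2, x3] x5 x6 = - Bfun f g [x7] [x1, x4] [x2, x5] x3 x6 :=
    h.Bl3 [] [x2] [x7] [x1, x4] x3 x5 x6 (Or.inr (List.cons_ne_nil _ _))
  have s13 : Bfun f g [x7] [x1, x4] [x2, x5] x3 x6 = - Bfun f g [x7] [x1, x3] [x2, x5] x4 x6 :=
    h.Bl2 [] [x1] [x7] [x2, x5] x4 x3 x6 (Or.inr (List.cons_ne_nil _ _))
  have s14 : Bfun f g [x7] [x1, x3] [x2, x5] x4 x6 = - Bfun f g [x7] [x1, x3] [x2, x4] x5 x6 :=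
    h.Bl3 [] [x2] [x7] [x1, x3] x5 x4 x6 (Or.inr (List.cons_ne_nil _ _))
  have s15 : Bfun f g [x7] [x2, x6] [x1, x4] x3 x5 = - Bfun f g [x7] [x1, x4] [x2, x6] x3 x5 :=
    h.B23 [x7] [x2, x6] [x1, x4] x3 x5
  have s16 : Bfun f g [x7] [x1, x4] [x2, x6] x3 x5 = - Bfun f g [x7] [x1, x3] [x2, x6] x4 x5 :=
    h.Bl2 [] [x1] [x7] [x2, x6] x4 x3 x5 (Or.inr (List.cons_ne_nil _ _))
  have s17 : Bfun f g [x7] [x1, x3] [x2, x6] x4 x5 = - Bfun f g [x7] [x1, x3] [x2, x4] x6 x5 :=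
    h.Bl3 [] [x2] [x7] [x1, x3] x6 x4 x5 (Or.inr (List.cons_ne_nil _ _))
  have s18 : Bfun f g [x7] [x1, x3] [x2, x4] x6 x5 = - Bfun f g [x7] [x1, x3] [x2, x4] x5 x6 :=
    h.Bzz [x7] [x1, x3] [x2, x4] x6 x5
  have s19 : Bfun f g [] [x7, x3, x5] [x1, x4] x2 x6 = - Bfun f g [] [x1, x4] [x7, x3, x5] x2 x6 :=
    h.B23 [] [x7, x3, x5] [x1, x4] x2 x6
  have s20 : Bfun f g [] [x1, x4] [x7, x3, x5] x2 x6 = - Bfun f g [] [x1, x2] [x7, x3, x5] x4 x6 :=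
    h.Bl2 [] [x1] [] [x7, x3, x5] x4 x2 x6 (Or.inr (List.cons_ne_nil _ _))
  have s21 : Bfun f g [] [x1, x2] [x7, x3, x5] x4 x6 = - Bfun f g [] [x1, x2] [x7, x3, x4] x5 x6 :=
    h.Bl3 [] [x7, x3] [] [x1, x2] x5 x4 x6 (Or.inr (List.cons_ne_nil _ _))
  have s22 : Bfun f g [] [x7] [x1, x4, x5, x6] x2 x3 = - Bfun f g [] [x7] [x1, x4, x5, x2] x6 x3 :=
    h.Bl3 [] [x1, x4, x5] [] [x7] x6 x2 x3 (Or.inr (List.cons_ne_nil _ _))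
  have s23 : Bfun f g [] [x7] [x1, x4, x5, x2] x6 x3 = - Bfun f g [] [x7] [x1, x4, x2, x5] x6 x3 :=
    h.Bi3 [] [x1, x4] [] [] [x7] x5 x2 x6 x3 (Or.inr (List.cons_ne_nil _ _))
  have s24 : Bfun f g [] [x7] [x1, x4, x2, x5] x6 x3 = - Bfun f g [] [x7] [x1, x2, x4, x5] x6 x3 :=
    h.Bi3 [] [x1] [x5] [] [x7] x4 x2 x6 x3 (Or.inr (List.cons_ne_nil _ _))
  have s25 : Bfun f g [] [x7] [x1, x2, x4, x5] x6 x3 = - Bfun f g [] [x7] [x1, x2, x4, x5] x3 x6 :=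
    h.Bzz [] [x7] [x1, x2, x4, x5] x6 x3
  have s26 : Bfun f g [] [x7] [x1, x2, x4, x5] x3 x6 = - Bfun f g [] [x7] [x1, x2, x4, x3] x5 x6 :=
    h.Bl3 [] [x1, x2, x4] [] [x7] x5 x3 x6 (Or.inr (List.cons_ne_nil _ _))
  have s27 : Bfun f g [] [x7] [x1, x2, x4, x3] x5 x6 = - Bfun f g [] [x7] [x1, x2, x3, x4] x5 x6 :=
    h.Bi3 [] [x1, x2] [] [] [x7] x4 x3 x5 x6 (Or.inr (List.cons_ne_nil _ _))
  apply tf.n2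
  linear_combination (norm := module) (-1 : ℤ) • r0 + (2 : ℤ) • r1 + (-1 : ℤ) • r2 + (1 : ℤ) • r3 + (1 : ℤ) • r4 + (1 : ℤ) • r5 + (-2 : ℤ) • s0 + (2 : ℤ) • s1 + (1 : ℤ) • s2 + (-1 : ℤ) • s3 + (1 : ℤ) • s4 + (-1 : ℤ) • s5 + (1 : ℤ) • s6 + (-1 : ℤ) • s7 + (-1 : ℤ) • s8 + (-1 : ℤ) • s9 + (-1 : ℤ) • s10 + (1 : ℤ) • s11 + (-1 : ℤ) • s12 + (1 : ℤ) • s13 + (-1 : ℤ) • s14 + (1 : ℤ) • s15 + (-1 : ℤ) • s16 + (1 : ℤ) • s17 + (-1 : ℤ) • s18 + (1 : ℤ) • s19 + (-1 : ℤ) • s20 + (1 : ℤ) • s21 + (-2 : ℤ) • s22 + (2 : ℤ) • s23 + (-2 : ℤ) • s24 + (2 : ℤ) • s25 + (-2 : ℤ) • s26 + (2 : ℤ) • s27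

theorem z032 (h : Lvl f g) (tf : TF G)
    (x1 x2 x3 x4 x5 x6 x7 : α) :
    Bfun f g [] [x7, x1, x2] [x3, x4] x5 x6 = 0 := by
  have r0 : Bfun f g [x3, x1] [x4, x2] [x7] x5 x6 = 0 := by
    simpa only [List.append_assoc, List.cons_append, List.nil_append] using h.y22 tf [x7] (by simp) x3 x1 x4 x2 x5 x6
  have r1 : Bfun f g [] [x3, x4] [x7, x1, x2] x5 x6 + Bfun f g [] [x4, x3] [x7, x1, x2] x5 x6 = 0 := by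
    simpa only [List.append_assoc, List.cons_append, List.nil_append] using h.y2a tf [x7] (by simp) x3 x4 x1 x2 x5 x6
  have r2 : Bfun f g [] [x4, x1, x2, x3] [x7] x5 x6 - Bfun f g [] [x4, x1] [x7, x2, x3] x5 x6 = 0 := by
    simpa only [List.append_assoc, List.cons_append, List.nil_append] using h.y4 tf [x7] (by simp) x4 x1 x2 x3 x5 x6
  have r3 : Afun f g [] [x4, x1, x2, x6, x3, x5] [] x7 + Afun f g [] [x4, x1, x2, x6] [x5, x3] x7 + Bfun f g [x4, x1, x2, x6] [x7] [] x3 x5 - Bfun f g [x7] [x4, x1, x2, x5] [] x6 x3 - Bfun f g [x4, x1] [x7, x6, x3] [] x2 x5 + Bfun f g [x4, x1] [x7] [x3, x5] x2 x6 = 0 := by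
    simpa only [List.append_assoc, List.cons_append, List.nil_append] using h.K0 [x4, x1] [] x2 x6 x7 x3 x5
  have r4 : Afun f g [] [x5, x3] [x4, x1, x2, x6] x7 + Bfun f g [] [x7] [x4, x1, x2, x6] x5 x3 = 0 := by
    simpa only [List.append_assoc, List.cons_append, List.nil_append] using h.J1z x5 x3 [x4, x1, x2, x6] x7
  have s0 : Bfun f g [] [x7, x1, x2] [x3, x4] x5 x6 = - Bfun f g [] [x3, x4] [x7, x1, x2] x5 x6 :=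
    h.B23 [] [x7, x1, x2] [x3, x4] x5 x6
  have s1 : Bfun f g [] [x3, x4] [x7, x1, x2] x5 x6 = - Bfun f g [] [x3, x4] [x7, x2, x1] x5 x6 :=
    h.Bi3 [] [x7] [] [] [x3, x4] x1 x2 x5 x6 (Or.inr (List.cons_ne_nil _ _))
  have s2 : Bfun f g [] [x3, x4] [x7, x2, x1] x5 x6 = - Bfun f g [] [x3, x4] [x7, x2, x5] x1 x6 :=
    h.Bl3 [] [x7, x2] [] [x3, x4] x1 x5 x6 (Or.inr (List.cons_ne_nil _ _))
  have s3 : Bfun f g [] [x3, x4] [x7, x2, x5] x1 x6 = - Bfun f g [] [x3, x1] [x7, x2, x5] x4 x6 :=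
    h.Bl2 [] [x3] [] [x7, x2, x5] x4 x1 x6 (Or.inr (List.cons_ne_nil _ _))
  have s4 : Bfun f g [] [x3, x1] [x7, x2, x5] x4 x6 = - Bfun f g [] [x3, x1] [x7, x2, x4] x5 x6 :=
    h.Bl3 [] [x7, x2] [] [x3, x1] x5 x4 x6 (Or.inr (List.cons_ne_nil _ _))
  have s5 : Bfun f g [x3, x1] [x4, x2] [x7] x5 x6 = - Bfun f g [x3, x1] [x7] [x4, x2] x5 x6 :=
    h.B23 [x3, x1] [x4, x2] [x7] x5 x6
  have s6 : Bfun f g [x3, x1] [x7] [x4, x2] x5 x6 = - Bfun f g [x7] [x3, x1] [x4, x2] x5 x6 :=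
    h.B12 [x3, x1] [x7] [x4, x2] x5 x6
  have s7 : Bfun f g [] [x4, x3] [x7, x1, x2] x5 x6 = - Bfun f g [] [x4, x3] [x7, x2, x1] x5 x6 :=
    h.Bi3 [] [x7] [] [] [x4, x3] x1 x2 x5 x6 (Or.inr (List.cons_ne_nil _ _))
  have s8 : Bfun f g [] [x4, x3] [x7, x2, x1] x5 x6 = - Bfun f g [] [x4, x3] [x7, x2, x5] x1 x6 :=
    h.Bl3 [] [x7, x2] [] [x4, x3] x1 x5 x6 (Or.inr (List.cons_ne_nil _ _))
  have s9 : Bfun f g [] [x4, x3] [x7, x2, x5] x1 x6 = - Bfun f g [] [x4, x1] [x7, x2, x5] x3 x6 :=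
    h.Bl2 [] [x4] [] [x7, x2, x5] x3 x1 x6 (Or.inr (List.cons_ne_nil _ _))
  have s10 : Bfun f g [] [x4, x1] [x7, x2, x5] x3 x6 = - Bfun f g [] [x4, x1] [x7, x2, x3] x5 x6 :=
    h.Bl3 [] [x7, x2] [] [x4, x1] x5 x3 x6 (Or.inr (List.cons_ne_nil _ _))
  have s11 : Bfun f g [] [x4, x1, x2, x3] [x7] x5 x6 = - Bfun f g [] [x7] [x4, x1, x2, x3] x5 x6 :=
    h.B23 [] [x4, x1, x2, x3] [x7] x5 x6
  have s12 : Afun f g [] [x4, x1, x2, x6, x3, x5] [] x7 = 0 :=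
    h.a0' [x4, x1, x2, x6, x3, x5] x7
  have s13 : Afun f g [] [x4, x1, x2, x6] [x5, x3] x7 = - Afun f g [] [x5, x3] [x4, x1, x2, x6] x7 :=
    h.r3 [] [x4, x1, x2, x6] [x5, x3] x7
  have s14 : Bfun f g [x4, x1, x2, x6] [x7] [] x3 x5 = - Bfun f g [x7] [x4, x1, x2, x6] [] x3 x5 :=
    h.B12 [x4, x1, x2, x6] [x7] [] x3 x5
  have s15 : Bfun f g [x7] [x4, x1, x2, x6] [] x3 x5 = - Bfun f g [x7] [] [x4, x1, x2, x6] x3 x5 :=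
    h.B23 [x7] [x4, x1, x2, x6] [] x3 x5
  have s16 : Bfun f g [x7] [] [x4, x1, x2, x6] x3 x5 = - Bfun f g [] [x7] [x4, x1, x2, x6] x3 x5 :=
    h.B12 [x7] [] [x4, x1, x2, x6] x3 x5
  have s17 : Bfun f g [] [x7] [x4, x1, x2, x6] x3 x5 = - Bfun f g [] [x7] [x4, x1, x2, x3] x6 x5 :=
    h.Bl3 [] [x4, x1, x2] [] [x7] x6 x3 x5 (Or.inr (List.cons_ne_nil _ _))
  have s18 : Bfun f g [] [x7] [x4, x1, x2, x3] x6 x5 = - Bfun f g [] [x7] [x4, x1, x2, x3] x5 x6 :=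
    h.Bzz [] [x7] [x4, x1, x2, x3] x6 x5
  have s19 : Bfun f g [x7] [x4, x1, x2, x5] [] x6 x3 = - Bfun f g [x7] [] [x4, x1, x2, x5] x6 x3 :=
    h.B23 [x7] [x4, x1, x2, x5] [] x6 x3
  have s20 : Bfun f g [x7] [] [x4, x1, x2, x5] x6 x3 = - Bfun f g [] [x7] [x4, x1, x2, x5] x6 x3 :=
    h.B12 [x7] [] [x4, x1, x2, x5] x6 x3
  have s21 : Bfun f g [] [x7] [x4, x1, x2, x5] x6 x3 = - Bfun f g [] [x7] [x4, x1, x2, x5] x3 x6 :=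
    h.Bzz [] [x7] [x4, x1, x2, x5] x6 x3
  have s22 : Bfun f g [] [x7] [x4, x1, x2, x5] x3 x6 = - Bfun f g [] [x7] [x4, x1, x2, x3] x5 x6 :=
    h.Bl3 [] [x4, x1, x2] [] [x7] x5 x3 x6 (Or.inr (List.cons_ne_nil _ _))
  have s23 : Bfun f g [x4, x1] [x7, x6, x3] [] x2 x5 = - Bfun f g [x4, x1] [] [x7, x6, x3] x2 x5 :=
    h.B23 [x4, x1] [x7, x6, x3] [] x2 x5
  have s24 : Bfun f g [x4, x1] [] [x7, x6, x3] x2 x5 = - Bfun f g [] [x4, x1] [x7, x6, x3] x2 x5 :=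
    h.B12 [x4, x1] [] [x7, x6, x3] x2 x5
  have s25 : Bfun f g [] [x4, x1] [x7, x6, x3] x2 x5 = - Bfun f g [] [x4, x1] [x7, x6, x2] x3 x5 :=
    h.Bl3 [] [x7, x6] [] [x4, x1] x3 x2 x5 (Or.inr (List.cons_ne_nil _ _))
  have s26 : Bfun f g [] [x4, x1] [x7, x6, x2] x3 x5 = - Bfun f g [] [x4, x1] [x7, x2, x6] x3 x5 :=
    h.Bi3 [] [x7] [] [] [x4, x1] x6 x2 x3 x5 (Or.inr (List.cons_ne_nil _ _))
  have s27 : Bfun f g [] [x4, x1] [x7, x2, x6] x3 x5 = - Bfun f g [] [x4, x1] [x7, x2, x3] x6 x5 :=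
    h.Bl3 [] [x7, x2] [] [x4, x1] x6 x3 x5 (Or.inr (List.cons_ne_nil _ _))
  have s28 : Bfun f g [] [x4, x1] [x7, x2, x3] x6 x5 = - Bfun f g [] [x4, x1] [x7, x2, x3] x5 x6 :=
    h.Bzz [] [x4, x1] [x7, x2, x3] x6 x5
  have s29 : Bfun f g [x4, x1] [x7] [x3, x5] x2 x6 = - Bfun f g [x7] [x4, x1] [x3, x5] x2 x6 :=
    h.B12 [x4, x1] [x7] [x3, x5] x2 x6
  have s30 : Bfun f g [x7] [x4, x1] [x3, x5] x2 x6 = - Bfun f g [x7] [x3, x5] [x4, x1] x2 x6 :=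
    h.B23 [x7] [x4, x1] [x3, x5] x2 x6
  have s31 : Bfun f g [x7] [x3, x5] [x4, x1] x2 x6 = - Bfun f g [x7] [x3, x5] [x4, x2] x1 x6 :=
    h.Bl3 [] [x4] [x7] [x3, x5] x1 x2 x6 (Or.inr (List.cons_ne_nil _ _))
  have s32 : Bfun f g [x7] [x3, x5] [x4, x2] x1 x6 = - Bfun f g [x7] [x3, x1] [x4, x2] x5 x6 :=
    h.Bl2 [] [x3] [x7] [x4, x2] x5 x1 x6 (Or.inr (List.cons_ne_nil _ _))
  have s33 : Bfun f g [] [x7] [x4, x1, x2, x6] x5 x3 = - Bfun f g [] [x7] [x4, x1, x2, x6] x3 x5 :=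
    h.Bzz [] [x7] [x4, x1, x2, x6] x5 x3
  apply tf.n2
  linear_combination (norm := module) (-1 : ℤ) • r0 + (-2 : ℤ) • r1 + (-3 : ℤ) • r2 + (1 : ℤ) • r3 + (1 : ℤ) • r4 + (2 : ℤ) • s0 + (1 : ℤ) • s5 + (-1 : ℤ) • s6 + (2 : ℤ) • s7 + (-2 : ℤ) • s8 + (2 : ℤ) • s9 + (-2 : ℤ) • s10 + (3 : ℤ) • s11 + (-1 : ℤ) • s12 + (-1 : ℤ) • s13 + (-1 : ℤ) • s14 + (1 : ℤ) • s15 + (-1 : ℤ) • s16 + (2 : ℤ) • s17 + (-2 : ℤ) • s18 + (1 : ℤ) • s19 + (-1 : ℤ) • s20 + (1 : ℤ) • s21 + (-1 : ℤ) • s22 + (1 : ℤ) • s23 + (-1 : ℤ) • s24 + (1 : ℤ) • s25 + (-1 : ℤ) • s26 + (1 : ℤ) • s27 + (-1 : ℤ) • s28 + (-1 : ℤ) • s29 + (1 : ℤ) • s30 + (-1 : ℤ) • s31 + (1 : ℤ) • s32 + (-1 : ℤ) • s33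

theorem D33 (h : Lvl f g) (tf : TF G) (V W : List α) (hV : V ≠ []) (hW : W ≠ [])
    (x1 x2 x3 x4 x5 x6 x7 x8 : α) :
    Bfun f g [x1, x2] (V ++ [x3, x4]) (W ++ [x5, x6]) x7 x8 = 0 := by
  have r0 : Bfun f g [x1, x4] (V ++ [x2, x3]) (W ++ [x5, x6]) x7 x8 - Bfun f g [] (V ++ [x2, x3]) (W ++ [x1, x4, x5, x6]) x7 x8 + Bfun f g [] (V ++ [x2, x3, x1, x4]) (W ++ [x5, x6]) x7 x8 = 0 := by
    simpa only [List.append_assoc, List.cons_append, List.nil_append] using h.SQ0a tf (V ++ [x2, x3]) W (by simp) hW x1 x4 x5 x6 x7 x8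
  have r1 : Bfun f g [x1, x4] (W ++ [x2, x3]) (V ++ [x5, x6]) x7 x8 - Bfun f g [] (W ++ [x2, x3]) (V ++ [x1, x4, x5, x6]) x7 x8 + Bfun f g [] (W ++ [x2, x3, x1, x4]) (V ++ [x5, x6]) x7 x8 = 0 := by
    simpa only [List.append_assoc, List.cons_append, List.nil_append] using h.SQ0a tf (W ++ [x2, x3]) V (by simp) hV x1 x4 x5 x6 x7 x8
  have s0 : Bfun f g [x1, x4] (V ++ [x2, x3]) (W ++ [x5, x6]) x7 x8 = - Bfun f g [x1, x4] (V ++ [x3, x2]) (W ++ [x5, x6]) x7 x8 :=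
    h.Bi2 V [] [] [x1, x4] (W ++ [x5, x6]) x2 x3 x7 x8 (Or.inl hV)
  have s1 : Bfun f g [x1, x4] (V ++ [x3, x2]) (W ++ [x5, x6]) x7 x8 = - Bfun f g [x1, x4] (V ++ [x3, x7]) (W ++ [x5, x6]) x2 x8 :=
    h.Bl2 V [x3] [x1, x4] (W ++ [x5, x6]) x2 x7 x8 (Or.inr (List.cons_ne_nil _ _))
  have s2 : Bfun f g [x1, x4] (V ++ [x3, x7]) (W ++ [x5, x6]) x2 x8 = - Bfun f g [x1, x2] (V ++ [x3, x7]) (W ++ [x5, x6]) x4 x8 :=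
    h.Bl1 [] [x1] (V ++ [x3, x7]) (W ++ [x5, x6]) x4 x2 x8 (Or.inr (List.cons_ne_nil _ _))
  have s3 : Bfun f g [x1, x2] (V ++ [x3, x7]) (W ++ [x5, x6]) x4 x8 = - Bfun f g [x1, x2] (V ++ [x3, x4]) (W ++ [x5, x6]) x7 x8 :=
    h.Bl2 V [x3] [x1, x2] (W ++ [x5, x6]) x7 x4 x8 (Or.inr (List.cons_ne_nil _ _))
  have s4 : Bfun f g [] (V ++ [x2, x3]) (W ++ [x1, x4, x5, x6]) x7 x8 = - Bfun f g [] (V ++ [x2, x3]) (W ++ [x4, x1, x5, x6]) x7 x8 :=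
    h.Bi3 W [] [x5, x6] [] (V ++ [x2, x3]) x1 x4 x7 x8 (Or.inl hW)
  have s5 : Bfun f g [] (V ++ [x2, x3]) (W ++ [x4, x1, x5, x6]) x7 x8 = - Bfun f g [] (V ++ [x2, x3]) (W ++ [x4, x5, x1, x6]) x7 x8 :=
    h.Bi3 W [x4] [x6] [] (V ++ [x2, x3]) x1 x5 x7 x8 (Or.inr (List.cons_ne_nil _ _))
  have s6 : Bfun f g [] (V ++ [x2, x3]) (W ++ [x4, x5, x1, x6]) x7 x8 = - Bfun f g [] (V ++ [x2, x3]) (W ++ [x4, x5, x6, x1]) x7 x8 :=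
    h.Bi3 W [x4, x5] [] [] (V ++ [x2, x3]) x1 x6 x7 x8 (Or.inr (List.cons_ne_nil _ _))
  have s7 : Bfun f g [] (V ++ [x2, x3]) (W ++ [x4, x5, x6, x1]) x7 x8 = - Bfun f g [] (V ++ [x2, x3]) (W ++ [x4, x5, x6, x7]) x1 x8 :=
    h.Bl3 W [x4, x5, x6] [] (V ++ [x2, x3]) x1 x7 x8 (Or.inr (List.cons_ne_nil _ _))
  have s8 : Bfun f g [] (V ++ [x2, x3]) (W ++ [x4, x5, x6, x7]) x1 x8 = - Bfun f g [] (V ++ [x2, x1]) (W ++ [x4, x5, x6, x7]) x3 x8 :=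
    h.Bl2 V [x2] [] (W ++ [x4, x5, x6, x7]) x3 x1 x8 (Or.inr (List.cons_ne_nil _ _))
  have s9 : Bfun f g [] (V ++ [x2, x1]) (W ++ [x4, x5, x6, x7]) x3 x8 = - Bfun f g [] (V ++ [x1, x2]) (W ++ [x4, x5, x6, x7]) x3 x8 :=
    h.Bi2 V [] [] [] (W ++ [x4, x5, x6, x7]) x2 x1 x3 x8 (Or.inl hV)
  have s10 : Bfun f g [] (V ++ [x1, x2]) (W ++ [x4, x5, x6, x7]) x3 x8 = - Bfun f g [] (V ++ [x1, x2]) (W ++ [x4, x5, x6, x3]) x7 x8 :=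
    h.Bl3 W [x4, x5, x6] [] (V ++ [x1, x2]) x7 x3 x8 (Or.inr (List.cons_ne_nil _ _))
  have s11 : Bfun f g [] (V ++ [x1, x2]) (W ++ [x4, x5, x6, x3]) x7 x8 = - Bfun f g [] (V ++ [x1, x2]) (W ++ [x4, x5, x3, x6]) x7 x8 :=
    h.Bi3 W [x4, x5] [] [] (V ++ [x1, x2]) x6 x3 x7 x8 (Or.inr (List.cons_ne_nil _ _))
  have s12 : Bfun f g [] (V ++ [x1, x2]) (W ++ [x4, x5, x3, x6]) x7 x8 = - Bfun f g [] (V ++ [x1, x2]) (W ++ [x4, x3, x5, x6]) x7 x8 :=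
    h.Bi3 W [x4] [x6] [] (V ++ [x1, x2]) x5 x3 x7 x8 (Or.inr (List.cons_ne_nil _ _))
  have s13 : Bfun f g [] (V ++ [x1, x2]) (W ++ [x4, x3, x5, x6]) x7 x8 = - Bfun f g [] (V ++ [x1, x2]) (W ++ [x3, x4, x5, x6]) x7 x8 :=
    h.Bi3 W [] [x5, x6] [] (V ++ [x1, x2]) x4 x3 x7 x8 (Or.inl hW)
  have s14 : Bfun f g [] (V ++ [x2, x3, x1, x4]) (W ++ [x5, x6]) x7 x8 = - Bfun f g [] (V ++ [x2, x1, x3, x4]) (W ++ [x5, x6]) x7 x8 :=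
    h.Bi2 V [x2] [x4] [] (W ++ [x5, x6]) x3 x1 x7 x8 (Or.inr (List.cons_ne_nil _ _))
  have s15 : Bfun f g [] (V ++ [x2, x1, x3, x4]) (W ++ [x5, x6]) x7 x8 = - Bfun f g [] (V ++ [x1, x2, x3, x4]) (W ++ [x5, x6]) x7 x8 :=
    h.Bi2 V [] [x3, x4] [] (W ++ [x5, x6]) x2 x1 x7 x8 (Or.inl hV)
  have s16 : Bfun f g [x1, x4] (W ++ [x2, x3]) (V ++ [x5, x6]) x7 x8 = - Bfun f g [x1, x4] (V ++ [x5, x6]) (W ++ [x2, x3]) x7 x8 :=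
    h.B23 [x1, x4] (W ++ [x2, x3]) (V ++ [x5, x6]) x7 x8
  have s17 : Bfun f g [x1, x4] (V ++ [x5, x6]) (W ++ [x2, x3]) x7 x8 = - Bfun f g [x1, x4] (V ++ [x5, x6]) (W ++ [x3, x2]) x7 x8 :=
    h.Bi3 W [] [] [x1, x4] (V ++ [x5, x6]) x2 x3 x7 x8 (Or.inl hW)
  have s18 : Bfun f g [x1, x4] (V ++ [x5, x6]) (W ++ [x3, x2]) x7 x8 = - Bfun f g [x1, x4] (V ++ [x5, x6]) (W ++ [x3, x7]) x2 x8 :=
    h.Bl3 W [x3] [x1, x4] (V ++ [x5, x6]) x2 x7 x8 (Or.inr (List.cons_ne_nil _ _))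
  have s19 : Bfun f g [x1, x4] (V ++ [x5, x6]) (W ++ [x3, x7]) x2 x8 = - Bfun f g [x1, x2] (V ++ [x5, x6]) (W ++ [x3, x7]) x4 x8 :=
    h.Bl1 [] [x1] (V ++ [x5, x6]) (W ++ [x3, x7]) x4 x2 x8 (Or.inr (List.cons_ne_nil _ _))
  have s20 : Bfun f g [x1, x2] (V ++ [x5, x6]) (W ++ [x3, x7]) x4 x8 = - Bfun f g [x1, x2] (V ++ [x5, x6]) (W ++ [x7, x3]) x4 x8 :=
    h.Bi3 W [] [] [x1, x2] (V ++ [x5, x6]) x3 x7 x4 x8 (Or.inl hW)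
  have s21 : Bfun f g [x1, x2] (V ++ [x5, x6]) (W ++ [x7, x3]) x4 x8 = - Bfun f g [x1, x2] (V ++ [x5, x6]) (W ++ [x7, x4]) x3 x8 :=
    h.Bl3 W [x7] [x1, x2] (V ++ [x5, x6]) x3 x4 x8 (Or.inr (List.cons_ne_nil _ _))
  have s22 : Bfun f g [x1, x2] (V ++ [x5, x6]) (W ++ [x7, x4]) x3 x8 = - Bfun f g [x1, x2] (V ++ [x5, x3]) (W ++ [x7, x4]) x6 x8 :=
    h.Bl2 V [x5] [x1, x2] (W ++ [x7, x4]) x6 x3 x8 (Or.inr (List.cons_ne_nil _ _))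
  have s23 : Bfun f g [x1, x2] (V ++ [x5, x3]) (W ++ [x7, x4]) x6 x8 = - Bfun f g [x1, x2] (V ++ [x3, x5]) (W ++ [x7, x4]) x6 x8 :=
    h.Bi2 V [] [] [x1, x2] (W ++ [x7, x4]) x5 x3 x6 x8 (Or.inl hV)
  have s24 : Bfun f g [x1, x2] (V ++ [x3, x5]) (W ++ [x7, x4]) x6 x8 = - Bfun f g [x1, x2] (V ++ [x3, x5]) (W ++ [x7, x6]) x4 x8 :=
    h.Bl3 W [x7] [x1, x2] (V ++ [x3, x5]) x4 x6 x8 (Or.inr (List.cons_ne_nil _ _))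
  have s25 : Bfun f g [x1, x2] (V ++ [x3, x5]) (W ++ [x7, x6]) x4 x8 = - Bfun f g [x1, x2] (V ++ [x3, x4]) (W ++ [x7, x6]) x5 x8 :=
    h.Bl2 V [x3] [x1, x2] (W ++ [x7, x6]) x5 x4 x8 (Or.inr (List.cons_ne_nil _ _))
  have s26 : Bfun f g [x1, x2] (V ++ [x3, x4]) (W ++ [x7, x6]) x5 x8 = - Bfun f g [x1, x2] (V ++ [x3, x4]) (W ++ [x7, x5]) x6 x8 :=
    h.Bl3 W [x7] [x1, x2] (V ++ [x3, x4]) x6 x5 x8 (Or.inr (List.cons_ne_nil _ _))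
  have s27 : Bfun f g [x1, x2] (V ++ [x3, x4]) (W ++ [x7, x5]) x6 x8 = - Bfun f g [x1, x2] (V ++ [x3, x4]) (W ++ [x5, x7]) x6 x8 :=
    h.Bi3 W [] [] [x1, x2] (V ++ [x3, x4]) x7 x5 x6 x8 (Or.inl hW)
  have s28 : Bfun f g [x1, x2] (V ++ [x3, x4]) (W ++ [x5, x7]) x6 x8 = - Bfun f g [x1, x2] (V ++ [x3, x4]) (W ++ [x5, x6]) x7 x8 :=
    h.Bl3 W [x5] [x1, x2] (V ++ [x3, x4]) x7 x6 x8 (Or.inr (List.cons_ne_nil _ _))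
  have s29 : Bfun f g [] (W ++ [x2, x3]) (V ++ [x1, x4, x5, x6]) x7 x8 = - Bfun f g [] (V ++ [x1, x4, x5, x6]) (W ++ [x2, x3]) x7 x8 :=
    h.B23 [] (W ++ [x2, x3]) (V ++ [x1, x4, x5, x6]) x7 x8
  have s30 : Bfun f g [] (V ++ [x1, x4, x5, x6]) (W ++ [x2, x3]) x7 x8 = - Bfun f g [] (V ++ [x1, x4, x5, x6]) (W ++ [x3, x2]) x7 x8 :=
    h.Bi3 W [] [] [] (V ++ [x1, x4, x5, x6]) x2 x3 x7 x8 (Or.inl hW)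
  have s31 : Bfun f g [] (V ++ [x1, x4, x5, x6]) (W ++ [x3, x2]) x7 x8 = - Bfun f g [] (V ++ [x1, x4, x5, x6]) (W ++ [x3, x7]) x2 x8 :=
    h.Bl3 W [x3] [] (V ++ [x1, x4, x5, x6]) x2 x7 x8 (Or.inr (List.cons_ne_nil _ _))
  have s32 : Bfun f g [] (V ++ [x1, x4, x5, x6]) (W ++ [x3, x7]) x2 x8 = - Bfun f g [] (V ++ [x1, x4, x5, x2]) (W ++ [x3, x7]) x6 x8 :=
    h.Bl2 V [x1, x4, x5] [] (W ++ [x3, x7]) x6 x2 x8 (Or.inr (List.cons_ne_nil _ _))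
  have s33 : Bfun f g [] (V ++ [x1, x4, x5, x2]) (W ++ [x3, x7]) x6 x8 = - Bfun f g [] (V ++ [x1, x4, x2, x5]) (W ++ [x3, x7]) x6 x8 :=
    h.Bi2 V [x1, x4] [] [] (W ++ [x3, x7]) x5 x2 x6 x8 (Or.inr (List.cons_ne_nil _ _))
  have s34 : Bfun f g [] (V ++ [x1, x4, x2, x5]) (W ++ [x3, x7]) x6 x8 = - Bfun f g [] (V ++ [x1, x2, x4, x5]) (W ++ [x3, x7]) x6 x8 :=
    h.Bi2 V [x1] [x5] [] (W ++ [x3, x7]) x4 x2 x6 x8 (Or.inr (List.cons_ne_nil _ _))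
  have s35 : Bfun f g [] (V ++ [x1, x2, x4, x5]) (W ++ [x3, x7]) x6 x8 = - Bfun f g [] (V ++ [x1, x2, x4, x5]) (W ++ [x7, x3]) x6 x8 :=
    h.Bi3 W [] [] [] (V ++ [x1, x2, x4, x5]) x3 x7 x6 x8 (Or.inl hW)
  have s36 : Bfun f g [] (V ++ [x1, x2, x4, x5]) (W ++ [x7, x3]) x6 x8 = - Bfun f g [] (V ++ [x1, x2, x4, x5]) (W ++ [x7, x6]) x3 x8 :=
    h.Bl3 W [x7] [] (V ++ [x1, x2, x4, x5]) x3 x6 x8 (Or.inr (List.cons_ne_nil _ _))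
  have s37 : Bfun f g [] (V ++ [x1, x2, x4, x5]) (W ++ [x7, x6]) x3 x8 = - Bfun f g [] (V ++ [x1, x2, x4, x3]) (W ++ [x7, x6]) x5 x8 :=
    h.Bl2 V [x1, x2, x4] [] (W ++ [x7, x6]) x5 x3 x8 (Or.inr (List.cons_ne_nil _ _))
  have s38 : Bfun f g [] (V ++ [x1, x2, x4, x3]) (W ++ [x7, x6]) x5 x8 = - Bfun f g [] (V ++ [x1, x2, x3, x4]) (W ++ [x7, x6]) x5 x8 :=
    h.Bi2 V [x1, x2] [] [] (W ++ [x7, x6]) x4 x3 x5 x8 (Or.inr (List.cons_ne_nil _ _))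
  have s39 : Bfun f g [] (V ++ [x1, x2, x3, x4]) (W ++ [x7, x6]) x5 x8 = - Bfun f g [] (V ++ [x1, x2, x3, x4]) (W ++ [x7, x5]) x6 x8 :=
    h.Bl3 W [x7] [] (V ++ [x1, x2, x3, x4]) x6 x5 x8 (Or.inr (List.cons_ne_nil _ _))
  have s40 : Bfun f g [] (V ++ [x1, x2, x3, x4]) (W ++ [x7, x5]) x6 x8 = - Bfun f g [] (V ++ [x1, x2, x3, x4]) (W ++ [x5, x7]) x6 x8 :=
    h.Bi3 W [] [] [] (V ++ [x1, x2, x3, x4]) x7 x5 x6 x8 (Or.inl hW)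
  have s41 : Bfun f g [] (V ++ [x1, x2, x3, x4]) (W ++ [x5, x7]) x6 x8 = - Bfun f g [] (V ++ [x1, x2, x3, x4]) (W ++ [x5, x6]) x7 x8 :=
    h.Bl3 W [x5] [] (V ++ [x1, x2, x3, x4]) x7 x6 x8 (Or.inr (List.cons_ne_nil _ _))
  have s42 : Bfun f g [] (W ++ [x2, x3, x1, x4]) (V ++ [x5, x6]) x7 x8 = - Bfun f g [] (V ++ [x5, x6]) (W ++ [x2, x3, x1, x4]) x7 x8 :=
    h.B23 [] (W ++ [x2, x3, x1, x4]) (V ++ [x5, x6]) x7 x8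
  have s43 : Bfun f g [] (V ++ [x5, x6]) (W ++ [x2, x3, x1, x4]) x7 x8 = - Bfun f g [] (V ++ [x5, x6]) (W ++ [x2, x3, x4, x1]) x7 x8 :=
    h.Bi3 W [x2, x3] [] [] (V ++ [x5, x6]) x1 x4 x7 x8 (Or.inr (List.cons_ne_nil _ _))
  have s44 : Bfun f g [] (V ++ [x5, x6]) (W ++ [x2, x3, x4, x1]) x7 x8 = - Bfun f g [] (V ++ [x5, x6]) (W ++ [x2, x3, x4, x7]) x1 x8 :=
    h.Bl3 W [x2, x3, x4] [] (V ++ [x5, x6]) x1 x7 x8 (Or.inr (List.cons_ne_nil _ _))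
  have s45 : Bfun f g [] (V ++ [x5, x6]) (W ++ [x2, x3, x4, x7]) x1 x8 = - Bfun f g [] (V ++ [x5, x1]) (W ++ [x2, x3, x4, x7]) x6 x8 :=
    h.Bl2 V [x5] [] (W ++ [x2, x3, x4, x7]) x6 x1 x8 (Or.inr (List.cons_ne_nil _ _))
  have s46 : Bfun f g [] (V ++ [x5, x1]) (W ++ [x2, x3, x4, x7]) x6 x8 = - Bfun f g [] (V ++ [x1, x5]) (W ++ [x2, x3, x4, x7]) x6 x8 :=
    h.Bi2 V [] [] [] (W ++ [x2, x3, x4, x7]) x5 x1 x6 x8 (Or.inl hV)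
  have s47 : Bfun f g [] (V ++ [x1, x5]) (W ++ [x2, x3, x4, x7]) x6 x8 = - Bfun f g [] (V ++ [x1, x5]) (W ++ [x3, x2, x4, x7]) x6 x8 :=
    h.Bi3 W [] [x4, x7] [] (V ++ [x1, x5]) x2 x3 x6 x8 (Or.inl hW)
  have s48 : Bfun f g [] (V ++ [x1, x5]) (W ++ [x3, x2, x4, x7]) x6 x8 = - Bfun f g [] (V ++ [x1, x5]) (W ++ [x3, x4, x2, x7]) x6 x8 :=
    h.Bi3 W [x3] [x7] [] (V ++ [x1, x5]) x2 x4 x6 x8 (Or.inr (List.cons_ne_nil _ _))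
  have s49 : Bfun f g [] (V ++ [x1, x5]) (W ++ [x3, x4, x2, x7]) x6 x8 = - Bfun f g [] (V ++ [x1, x5]) (W ++ [x3, x4, x7, x2]) x6 x8 :=
    h.Bi3 W [x3, x4] [] [] (V ++ [x1, x5]) x2 x7 x6 x8 (Or.inr (List.cons_ne_nil _ _))
  have s50 : Bfun f g [] (V ++ [x1, x5]) (W ++ [x3, x4, x7, x2]) x6 x8 = - Bfun f g [] (V ++ [x1, x5]) (W ++ [x3, x4, x7, x6]) x2 x8 :=
    h.Bl3 W [x3, x4, x7] [] (V ++ [x1, x5]) x2 x6 x8 (Or.inr (List.cons_ne_nil _ _))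
  have s51 : Bfun f g [] (V ++ [x1, x5]) (W ++ [x3, x4, x7, x6]) x2 x8 = - Bfun f g [] (V ++ [x1, x2]) (W ++ [x3, x4, x7, x6]) x5 x8 :=
    h.Bl2 V [x1] [] (W ++ [x3, x4, x7, x6]) x5 x2 x8 (Or.inr (List.cons_ne_nil _ _))
  have s52 : Bfun f g [] (V ++ [x1, x2]) (W ++ [x3, x4, x7, x6]) x5 x8 = - Bfun f g [] (V ++ [x1, x2]) (W ++ [x3, x4, x7, x5]) x6 x8 :=
    h.Bl3 W [x3, x4, x7] [] (V ++ [x1, x2]) x6 x5 x8 (Or.inr (List.cons_ne_nil _ _))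
  have s53 : Bfun f g [] (V ++ [x1, x2]) (W ++ [x3, x4, x7, x5]) x6 x8 = - Bfun f g [] (V ++ [x1, x2]) (W ++ [x3, x4, x5, x7]) x6 x8 :=
    h.Bi3 W [x3, x4] [] [] (V ++ [x1, x2]) x7 x5 x6 x8 (Or.inr (List.cons_ne_nil _ _))
  have s54 : Bfun f g [] (V ++ [x1, x2]) (W ++ [x3, x4, x5, x7]) x6 x8 = - Bfun f g [] (V ++ [x1, x2]) (W ++ [x3, x4, x5, x6]) x7 x8 :=
    h.Bl3 W [x3, x4, x5] [] (V ++ [x1, x2]) x7 x6 x8 (Or.inr (List.cons_ne_nil _ _))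
  apply tf.n2
  linear_combination (norm := module) (1 : ℤ) • r0 + (-1 : ℤ) • r1 + (-1 : ℤ) • s0 + (1 : ℤ) • s1 + (-1 : ℤ) • s2 + (1 : ℤ) • s3 + (1 : ℤ) • s4 + (-1 : ℤ) • s5 + (1 : ℤ) • s6 + (-1 : ℤ) • s7 + (1 : ℤ) • s8 + (-1 : ℤ) • s9 + (1 : ℤ) • s10 + (-1 : ℤ) • s11 + (1 : ℤ) • s12 + (-1 : ℤ) • s13 + (-1 : ℤ) • s14 + (1 : ℤ) • s15 + (1 : ℤ) • s16 + (-1 : ℤ) • s17 + (1 : ℤ) • s18 + (-1 : ℤ) • s19 + (1 : ℤ) • s20 + (-1 : ℤ) • s21 + (1 : ℤ) • s22 + (-1 : ℤ) • s23 + (1 : ℤ) • s24 + (-1 : ℤ) • s25 + (1 : ℤ) • s26 + (-1 : ℤ) • s27 + (1 : ℤ) • s28 + (-1 : ℤ) • s29 + (1 : ℤ) • s30 + (-1 : ℤ) • s31 + (1 : ℤ) • s32 + (-1 : ℤ) • s33 + (1 : ℤ) • s34 + (-1 : ℤ) • s35 + (1 : ℤ) • s36 + (-1 : ℤ) • s37 + (1 : ℤ) • s38 + (-1 : ℤ) • s39 + (1 : ℤ) • s40 + (-1 : ℤ) • s41 + (1 : ℤ) • s42 + (-1 : ℤ) • s43 +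 (1 : ℤ) • s44 + (-1 : ℤ) • s45 + (1 : ℤ) • s46 + (-1 : ℤ) • s47 + (1 : ℤ) • s48 + (-1 : ℤ) • s49 + (1 : ℤ) • s50 + (-1 : ℤ) • s51 + (1 : ℤ) • s52 + (-1 : ℤ) • s53 + (1 : ℤ) • s54

theorem y13 (h : Lvl f g) (tf : TF G) (W : List α) (hW : W ≠ [])
    (x1 x2 x3 x4 x5 x6 x7 x8 : α) :
    Bfun f g [x1, x2, x3] [x4] (W ++ [x5, x6]) x7 x8 = 0 := by
  have r0 : Bfun f g (W ++ [x2, x3, x5, x6]) [x1] [x4] x7 x8 - Bfun f g (W ++ [x2, x3]) [x1, x5, x6] [x4] x7 x8 - Bfun f g (W ++ [x2, x3]) [x1] [x4, x5, x6] x7 x8 = 0 := by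
    simpa only [List.append_assoc, List.cons_append, List.nil_append] using h.SQ tf W [x1] [x4] hW (by simp) (by simp) x2 x3 x5 x6 x7 x8
  have r1 : Bfun f g [x1, x5, x6] [x4] (W ++ [x2, x3]) x7 x8 - Bfun f g [x1] [x4, x5, x6] (W ++ [x2, x3]) x7 x8 = 0 := by
    simpa only [List.append_assoc, List.cons_append, List.nil_append] using h.yPQ tf (W ++ [x2, x3]) (by simp) x1 x5 x6 x4 x7 x8
  have r2 : Bfun f g [x1] [x4] (W ++ [x2, x3, x5, x6]) x7 x8 = 0 := by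
    simpa only [List.append_assoc, List.cons_append, List.nil_append] using h.y11 tf (W ++ [x2, x3]) (by simp) x1 x4 x5 x6 x7 x8
  have s0 : Bfun f g [x1, x2, x3] [x4] (W ++ [x5, x6]) x7 x8 = - Bfun f g [x4] [x1, x2, x3] (W ++ [x5, x6]) x7 x8 :=
    h.B12 [x1, x2, x3] [x4] (W ++ [x5, x6]) x7 x8
  have s1 : Bfun f g (W ++ [x2, x3, x5, x6]) [x1] [x4] x7 x8 = - Bfun f g [x1] (W ++ [x2, x3, x5, x6]) [x4] x7 x8 :=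
    h.B12 (W ++ [x2, x3, x5, x6]) [x1] [x4] x7 x8
  have s2 : Bfun f g [x1] (W ++ [x2, x3, x5, x6]) [x4] x7 x8 = - Bfun f g [x1] [x4] (W ++ [x2, x3, x5, x6]) x7 x8 :=
    h.B23 [x1] (W ++ [x2, x3, x5, x6]) [x4] x7 x8
  have s3 : Bfun f g (W ++ [x2, x3]) [x1, x5, x6] [x4] x7 x8 = - Bfun f g [x1, x5, x6] (W ++ [x2, x3]) [x4] x7 x8 :=
    h.B12 (W ++ [x2, x3]) [x1, x5, x6] [x4] x7 x8
  have s4 : Bfun f g [x1, x5, x6] (W ++ [x2, x3]) [x4] x7 x8 = - Bfun f g [x1, x5, x6] [x4] (W ++ [x2, x3]) x7 x8 :=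
    h.B23 [x1, x5, x6] (W ++ [x2, x3]) [x4] x7 x8
  have s5 : Bfun f g [x1, x5, x6] [x4] (W ++ [x2, x3]) x7 x8 = - Bfun f g [x4] [x1, x5, x6] (W ++ [x2, x3]) x7 x8 :=
    h.B12 [x1, x5, x6] [x4] (W ++ [x2, x3]) x7 x8
  have s6 : Bfun f g [x4] [x1, x5, x6] (W ++ [x2, x3]) x7 x8 = - Bfun f g [x4] [x1, x5, x6] (W ++ [x3, x2]) x7 x8 :=
    h.Bi3 W [] [] [x4] [x1, x5, x6] x2 x3 x7 x8 (Or.inl hW)
  have s7 : Bfun f g [x4] [x1, x5, x6] (W ++ [x3, x2]) x7 x8 = - Bfun f g [x4] [x1, x5, x6] (W ++ [x3, x7]) x2 x8 :=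
    h.Bl3 W [x3] [x4] [x1, x5, x6] x2 x7 x8 (Or.inr (List.cons_ne_nil _ _))
  have s8 : Bfun f g [x4] [x1, x5, x6] (W ++ [x3, x7]) x2 x8 = - Bfun f g [x4] [x1, x5, x2] (W ++ [x3, x7]) x6 x8 :=
    h.Bl2 [] [x1, x5] [x4] (W ++ [x3, x7]) x6 x2 x8 (Or.inr (List.cons_ne_nil _ _))
  have s9 : Bfun f g [x4] [x1, x5, x2] (W ++ [x3, x7]) x6 x8 = - Bfun f g [x4] [x1, x2, x5] (W ++ [x3, x7]) x6 x8 :=
    h.Bi2 [] [x1] [] [x4] (W ++ [x3, x7]) x5 x2 x6 x8 (Or.inr (List.cons_ne_nil _ _))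
  have s10 : Bfun f g [x4] [x1, x2, x5] (W ++ [x3, x7]) x6 x8 = - Bfun f g [x4] [x1, x2, x5] (W ++ [x7, x3]) x6 x8 :=
    h.Bi3 W [] [] [x4] [x1, x2, x5] x3 x7 x6 x8 (Or.inl hW)
  have s11 : Bfun f g [x4] [x1, x2, x5] (W ++ [x7, x3]) x6 x8 = - Bfun f g [x4] [x1, x2, x5] (W ++ [x7, x6]) x3 x8 :=
    h.Bl3 W [x7] [x4] [x1, x2, x5] x3 x6 x8 (Or.inr (List.cons_ne_nil _ _))
  have s12 : Bfun f g [x4] [x1, x2, x5] (W ++ [x7, x6]) x3 x8 = - Bfun f g [x4] [x1, x2, x3] (W ++ [x7, x6]) x5 x8 :=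
    h.Bl2 [] [x1, x2] [x4] (W ++ [x7, x6]) x5 x3 x8 (Or.inr (List.cons_ne_nil _ _))
  have s13 : Bfun f g [x4] [x1, x2, x3] (W ++ [x7, x6]) x5 x8 = - Bfun f g [x4] [x1, x2, x3] (W ++ [x7, x5]) x6 x8 :=
    h.Bl3 W [x7] [x4] [x1, x2, x3] x6 x5 x8 (Or.inr (List.cons_ne_nil _ _))
  have s14 : Bfun f g [x4] [x1, x2, x3] (W ++ [x7, x5]) x6 x8 = - Bfun f g [x4] [x1, x2, x3] (W ++ [x5, x7]) x6 x8 :=
    h.Bi3 W [] [] [x4] [x1, x2, x3] x7 x5 x6 x8 (Or.inl hW)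
  have s15 : Bfun f g [x4] [x1, x2, x3] (W ++ [x5, x7]) x6 x8 = - Bfun f g [x4] [x1, x2, x3] (W ++ [x5, x6]) x7 x8 :=
    h.Bl3 W [x5] [x4] [x1, x2, x3] x7 x6 x8 (Or.inr (List.cons_ne_nil _ _))
  have s16 : Bfun f g (W ++ [x2, x3]) [x1] [x4, x5, x6] x7 x8 = - Bfun f g [x1] (W ++ [x2, x3]) [x4, x5, x6] x7 x8 :=
    h.B12 (W ++ [x2, x3]) [x1] [x4, x5, x6] x7 x8
  have s17 : Bfun f g [x1] (W ++ [x2, x3]) [x4, x5, x6] x7 x8 = - Bfun f g [x1] [x4, x5, x6] (W ++ [x2, x3]) x7 x8 :=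
    h.B23 [x1] (W ++ [x2, x3]) [x4, x5, x6] x7 x8
  have s18 : Bfun f g [x1] [x4, x5, x6] (W ++ [x2, x3]) x7 x8 = - Bfun f g [x1] [x4, x5, x6] (W ++ [x3, x2]) x7 x8 :=
    h.Bi3 W [] [] [x1] [x4, x5, x6] x2 x3 x7 x8 (Or.inl hW)
  have s19 : Bfun f g [x1] [x4, x5, x6] (W ++ [x3, x2]) x7 x8 = - Bfun f g [x1] [x4, x5, x6] (W ++ [x3, x7]) x2 x8 :=
    h.Bl3 W [x3] [x1] [x4, x5, x6] x2 x7 x8 (Or.inr (List.cons_ne_nil _ _))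
  have s20 : Bfun f g [x1] [x4, x5, x6] (W ++ [x3, x7]) x2 x8 = - Bfun f g [x1] [x4, x5, x2] (W ++ [x3, x7]) x6 x8 :=
    h.Bl2 [] [x4, x5] [x1] (W ++ [x3, x7]) x6 x2 x8 (Or.inr (List.cons_ne_nil _ _))
  have s21 : Bfun f g [x1] [x4, x5, x2] (W ++ [x3, x7]) x6 x8 = - Bfun f g [x1] [x4, x2, x5] (W ++ [x3, x7]) x6 x8 :=
    h.Bi2 [] [x4] [] [x1] (W ++ [x3, x7]) x5 x2 x6 x8 (Or.inr (List.cons_ne_nil _ _))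
  have s22 : Bfun f g [x1] [x4, x2, x5] (W ++ [x3, x7]) x6 x8 = - Bfun f g [x1] [x4, x2, x5] (W ++ [x7, x3]) x6 x8 :=
    h.Bi3 W [] [] [x1] [x4, x2, x5] x3 x7 x6 x8 (Or.inl hW)
  have s23 : Bfun f g [x1] [x4, x2, x5] (W ++ [x7, x3]) x6 x8 = - Bfun f g [x1] [x4, x2, x5] (W ++ [x7, x6]) x3 x8 :=
    h.Bl3 W [x7] [x1] [x4, x2, x5] x3 x6 x8 (Or.inr (List.cons_ne_nil _ _))
  have s24 : Bfun f g [x1] [x4, x2, x5] (W ++ [x7, x6]) x3 x8 = - Bfun f g [x1] [x4, x2, x3] (W ++ [x7, x6]) x5 x8 :=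
    h.Bl2 [] [x4, x2] [x1] (W ++ [x7, x6]) x5 x3 x8 (Or.inr (List.cons_ne_nil _ _))
  have s25 : Bfun f g [x1] [x4, x2, x3] (W ++ [x7, x6]) x5 x8 = - Bfun f g [x1] [x4, x2, x3] (W ++ [x7, x5]) x6 x8 :=
    h.Bl3 W [x7] [x1] [x4, x2, x3] x6 x5 x8 (Or.inr (List.cons_ne_nil _ _))
  have s26 : Bfun f g [x1] [x4, x2, x3] (W ++ [x7, x5]) x6 x8 = - Bfun f g [x1] [x4, x2, x3] (W ++ [x5, x7]) x6 x8 :=
    h.Bi3 W [] [] [x1] [x4, x2, x3] x7 x5 x6 x8 (Or.inl hW)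
  have s27 : Bfun f g [x1] [x4, x2, x3] (W ++ [x5, x7]) x6 x8 = - Bfun f g [x1] [x4, x2, x3] (W ++ [x5, x6]) x7 x8 :=
    h.Bl3 W [x5] [x1] [x4, x2, x3] x7 x6 x8 (Or.inr (List.cons_ne_nil _ _))
  apply tf.n2
  linear_combination (norm := module) (-1 : ℤ) • r0 + (1 : ℤ) • r1 + (1 : ℤ) • r2 + (2 : ℤ) • s0 + (1 : ℤ) • s1 + (-1 : ℤ) • s2 + (-1 : ℤ) • s3 + (1 : ℤ) • s4 + (-2 : ℤ) • s5 + (2 : ℤ) • s6 + (-2 : ℤ) • s7 + (2 : ℤ) • s8 + (-2 : ℤ) • s9 + (2 : ℤ) • s10 + (-2 : ℤ) • s11 + (2 : ℤ) • s12 + (-2 : ℤ) • s13 + (2 : ℤ) • s14 + (-2 : ℤ) • s15 + (-1 : ℤ) • s16 + (1 : ℤ) • s17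

end Lvl
end Eng
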