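import Pool.Agent.H86.Eng.Defs

namespace Eng

variable {α G : Type*} [AddCommGroup G] {f : List α → List α → List α → G}
  {g : List α → List α → List α → α → G}

/-- `B U V W z z' = A (U z) V W z'`. -/
def Bfun (f : List α → List α → List α → G) (g : List α → List α → List α → α → G)
    (U V W : List α) (z z' : α) : G := Afun f g (U ++ [z]) V W z'

namespace Lvl

theorem i1 (h : Lvl f g) (U V W : List α) (z y : α) :
    g U (V ++ [y]) W z + g V (U ++ [z]) W y
      = Afun f g U (V ++ [y]) W z + Afun f g V (U ++ [z]) W y := by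
  have h1 := h.fanti (U ++ [z]) (V ++ [y]) W
  simp only [Afun]
  linear_combination (norm := abel) -h1

theorem g4 (h : Lvl f g) (U V W : List α) (z z' : α) (hU : U ≠ []) :
    g (U ++ [z]) V W z' = - g (U ++ [z']) V W z := by
  have h1 := h.a1 U V W z z'
  have h2 := h.falt U [] V W z z' hU
  simp only [Afun, List.append_assoc, List.cons_append, List.nil_append, List.append_nil]
    at h1 h2
  linear_combination (norm := abel) h1 - h2

theorem g4' (h : Lvl f g) (U V W : List α) (z z' : α) (hV : V ≠ []) :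
    g U (V ++ [z]) W z' = - g U (V ++ [z']) W z := by
  rw [h.ganti, h.g4 V U W z z' hV, h.ganti U]

theorem Hrel (h : Lvl f g) (U V W : List α) (a x b : α) :
    g (U ++ [a]) (V ++ [x]) W b - g (U ++ [x]) (V ++ [a]) W b
      = Afun f g (U ++ [a]) (V ++ [x]) W b + Afun f g (V ++ [a]) (U ++ [x]) W b
        + Afun f g V (U ++ [a, b]) W x + Afun f g U (V ++ [a, b]) W x
        - Afun f g U V (W ++ [b, x]) a - Afun f g V U (W ++ [b, x]) a := by
  have e1 := h.i2 U V W a b x
  have e2 := h.i1 (U ++ [a]) V W b x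
  have e3 := h.i1 (V ++ [a]) U W b x
  have e4 := h.ganti V (U ++ [a, b]) W x
  have e5 := h.ganti U (V ++ [a, b]) W x
  have e6 := h.ganti (V ++ [a]) (U ++ [x]) W b
  simp only [List.append_assoc, List.cons_append, List.nil_append] at e2 e3
  linear_combination (norm := abel) e2 + e3 - e4 - e5 - e6 + e1

theorem gswap (h : Lvl f g) (U V W : List α) (a x b : α) (hU : U ≠ []) (hV : V ≠ []) :
    g (U ++ [x]) (V ++ [a]) W b = - g (U ++ [a]) (V ++ [x]) W b := by
  rw [h.g4' _ V W a b hV, h.g4 U _ W x a hU, h.g4' _ V W b x hV]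
  simp

theorem G8 (h : Lvl f g) (U V W : List α) (a x b : α) (hU : U ≠ []) (hV : V ≠ []) :
    2 • g (U ++ [a]) (V ++ [x]) W b
      = Afun f g (U ++ [a]) (V ++ [x]) W b + Afun f g (V ++ [a]) (U ++ [x]) W b
        + Afun f g V (U ++ [a, b]) W x + Afun f g U (V ++ [a, b]) W x
        - Afun f g U V (W ++ [b, x]) a - Afun f g V U (W ++ [b, x]) a := by
  have e1 := h.Hrel U V W a x b
  have e2 := h.gswap U V W a x b hU hV
  linear_combination (norm := abel) e1 + e2

theorem falt3' (h : Lvl f g) (U V W : List α) (x y : α) :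
    f U V (W ++ [x, y]) = - f U V (W ++ [y, x]) := by
  simpa using h.falt3 U V W [] x y (Or.inr rfl)

theorem galt3' (h : Lvl f g) (U V W : List α) (x y z : α) :
    g U V (W ++ [x, y]) z = - g U V (W ++ [y, x]) z := by
  simpa using h.galt3 U V W [] x y z (Or.inr rfl)

theorem Aalt3' (h : Lvl f g) (U V W : List α) (x y z : α) :
    Afun f g U V (W ++ [x, y]) z = - Afun f g U V (W ++ [y, x]) z := by
  simp only [Afun]
  rw [h.falt3', h.galt3']
  abel

/-- relation `K`, first form -/
theorem KA (h : Lvl f g) (U V W : List α) (a x y z : α) (hU : U ≠ []) (hV : V ≠ []) :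
    Afun f g (V ++ [x, a]) (U ++ [y]) W z + Afun f g (U ++ [a, x]) (V ++ [z]) W y
      + Afun f g U (V ++ [x, a, z]) W y + Afun f g V (U ++ [a, x, y]) W z
      - Afun f g U (V ++ [x]) (W ++ [z, y]) a - Afun f g V (U ++ [a]) (W ++ [y, z]) x = 0 := by
  have e1 := h.G8 U (V ++ [x]) W a y z hU (by simp)
  have e2 := h.G8 V (U ++ [a]) W x z y hV (by simp)
  have e3 := h.i1 (U ++ [a]) (V ++ [x]) W z y
  have e4 := h.b1 U V (W ++ [y, z]) a x
  have e5 := h.a1 V U (W ++ [y, z]) a x
  have e6 := h.Aalt3' (V ++ [x]) U W z y a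
  simp only [List.append_assoc, List.cons_append, List.nil_append] at e1 e2 e3 e4 e5 e6
  linear_combination (norm := module) (2 : ℤ) • e3 - e1 - e2 + e4 - e5 + e6

/-! ### total antisymmetry -/

theorem B12 (h : Lvl f g) (U V W : List α) (z z' : α) :
    Bfun f g U V W z z' = - Bfun f g V U W z z' := h.b1 U V W z z'

theorem B23 (h : Lvl f g) (U V W : List α) (z z' : α) :
    Bfun f g U V W z z' = - Bfun f g U W V z z' := h.r3 (U ++ [z]) V W z'

theorem B13 (h : Lvl f g) (U V W : List α) (z z' : α) :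
    Bfun f g U V W z z' = - Bfun f g W V U z z' := by
  rw [h.B12 U V W, h.B23 V U W, h.B12 V W U, neg_neg]

theorem Bcyc (h : Lvl f g) (U V W : List α) (z z' : α) :
    Bfun f g U V W z z' = Bfun f g V W U z z' := by
  rw [h.B12 U V W, h.B23 V U W, neg_neg]

theorem Bcyc' (h : Lvl f g) (U V W : List α) (z z' : α) :
    Bfun f g U V W z z' = Bfun f g W U V z z' := by
  rw [h.Bcyc, h.Bcyc]

theorem Bzz (h : Lvl f g) (U V W : List α) (z z' : α) :
    Bfun f g U V W z z' = - Bfun f g U V W z' z := h.a1 U V W z z'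

/-- the last letter of the first list alternates with `z` -/
theorem Bal (h : Lvl f g) (U V W : List α) (y z z' : α) (hU : U ≠ []) :
    Bfun f g (U ++ [y]) V W z z' = - Bfun f g (U ++ [z]) V W y z' := by
  have h1 := h.falt U [z'] V W y z hU
  have h2 := h.galt U [] V W y z z' hU
  simp only [Bfun, Afun, List.append_assoc, List.cons_append, List.nil_append, List.append_nil]
    at h1 h2 ⊢
  linear_combination (norm := abel) h1 + h2

/-- adjacent letters of the first list alternate, except at the first position -/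
theorem Bin (h : Lvl f g) (U R V W : List α) (x y z z' : α) (hU : U ≠ []) :
    Bfun f g (U ++ [x, y] ++ R) V W z z' = - Bfun f g (U ++ [y, x] ++ R) V W z z' := by
  have h1 := h.falt U (R ++ [z, z']) V W x y hU
  have h2 := h.galt U (R ++ [z]) V W x y z' hU
  simp only [Bfun, Afun, List.append_assoc, List.cons_append, List.nil_append, List.append_nil]
    at h1 h2 ⊢
  linear_combination (norm := abel) h1 + h2

/-- relation `K`, second form -/
theorem KB (h : Lvl f g) (U V W : List α) (p a q x y z : α) :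
    Bfun f g (V ++ [q, x]) (U ++ [p, y]) W a z + Bfun f g (U ++ [p, a]) (V ++ [q, z]) W x y
      + Bfun f g U (V ++ [q, x, a, z]) W p y + Bfun f g V (U ++ [p, a, x, y]) W q z
      - Bfun f g U (V ++ [q, x]) (W ++ [z, y]) p a
      - Bfun f g V (U ++ [p, a]) (W ++ [y, z]) q x = 0 := by
  have e := h.KA (U ++ [p]) (V ++ [q]) W a x y z (by simp) (by simp)
  simpa only [Bfun, List.append_assoc, List.cons_append, List.nil_append] using e

/-! ### relations with an empty first list -/

theorem Q1 (h : Lvl f g) (V W : List α) (a x b : α) :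
    g [] (V ++ [x, b]) W a - g [] (V ++ [a, b]) W x
      = Afun f g [] (V ++ [x, b]) W a + Afun f g (V ++ [x]) [a] W b + Afun f g [a] (V ++ [x]) W b
        + Afun f g V [a, b] W x - Afun f g [] V (W ++ [b, x]) a
        - Afun f g V [] (W ++ [b, x]) a := by
  have e1 := h.i2 [] V W a b x
  have e2 := h.i1 [a] V W b x
  have e3 := h.i1 [] (V ++ [x]) W a b
  have e4 := h.ganti V [a, b] W x
  have e5 := h.ganti [] (V ++ [a, b]) W x
  have e6 := h.ganti (V ++ [x]) [a] W b
  simp only [List.append_assoc, List.cons_append, List.nil_append] at e1 e2 e3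
  linear_combination (norm := abel) e3 - e6 + e2 - e4 + e1 - e5

theorem Q2 (h : Lvl f g) (V W : List α) (a x b : α) (hV : V ≠ []) :
    2 • g [] (V ++ [x, b]) W a
      = Afun f g [] (V ++ [x, b]) W a + Afun f g (V ++ [x]) [a] W b + Afun f g [a] (V ++ [x]) W b
        + Afun f g V [a, b] W x - Afun f g [] V (W ++ [b, x]) a
        - Afun f g V [] (W ++ [b, x]) a := by
  have e1 := h.Q1 V W a x b
  have e2 : g [] (V ++ [x, b]) W a = - g [] (V ++ [a, b]) W x := by
    have t1 := h.g4' [] (V ++ [x]) W b a (by simp)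
    have t2 := h.galt V [] [] W x a b hV
    have t3 := h.g4' [] (V ++ [a]) W x b (by simp)
    have t4 := h.ganti [] (V ++ [x, a]) W b
    have t5 := h.ganti [] (V ++ [a, x]) W b
    simp only [List.append_assoc, List.cons_append, List.nil_append, List.append_nil]
      at t1 t2 t3
    linear_combination (norm := abel) t1 - t4 + t2 - t5 + t3
  linear_combination (norm := abel) e1 + e2

/-- relation `K0` -/
theorem K0 (h : Lvl f g) (V W : List α) (q0 q a y z : α) :
    Afun f g [] (V ++ [q0, q, y, z]) W a + Afun f g [] (V ++ [q0, q]) (W ++ [z, y]) a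
      + Bfun f g (V ++ [q0, q]) [a] W y z - Bfun f g [a] (V ++ [q0, z]) W q y
      - Bfun f g V [a, q, y] W q0 z + Bfun f g V [a] (W ++ [y, z]) q0 q = 0 := by
  have e1 := h.i1 [a] (V ++ [q0, q]) W z y
  have e2 := h.i1 [] (V ++ [q0, q, y]) W a z
  have e3 := h.Q2 (V ++ [q0, q]) W a y z (by simp)
  have e4 := h.G8 (V ++ [q0]) [a] W q z y (by simp) (by simp)
  have e5 := h.ganti [a] (V ++ [q0, q, y]) W z
  have e6 := h.b1 [] (V ++ [q0]) (W ++ [y, z]) a q
  have e7 := h.a1 (V ++ [q0]) [] (W ++ [y, z]) a q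
  have e8 := h.Aalt3' (V ++ [q0, q]) [] W z y a
  simp only [Bfun, List.append_assoc, List.cons_append, List.nil_append]
    at e1 e2 e3 e4 e5 e6 e7 e8 ⊢
  linear_combination (norm := module) -(2 : ℤ) • e1 - (2 : ℤ) • e2 + e3 + e4 + (2 : ℤ) • e5 - e6
    + e7 - e8

end Lvl
end Eng
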