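import Pool.Agent.H86.Eng.Comb1

namespace Eng

variable {α G : Type*} [AddCommGroup G] {f : List α → List α → List α → G}
  {g : List α → List α → List α → α → G}

namespace Lvl

/-! ### boundary relations from thickness -/

theorem Asmall (h : Lvl f g) (U V W : List α) (z : α) (hs : U.length + V.length ≤ 1) :
    Afun f g U V W z = 0 := by
  simp only [Afun]
  rw [h.fsmall, h.gsmall, add_zero]
  · omega
  · simp; omega

theorem a0 (h : Lvl f g) (W : List α) (z : α) : Afun f g [] [] W z = 0 :=
  h.Asmall _ _ _ _ (by simp)

theorem a1' (h : Lvl f g) (q : α) (W : List α) (z : α) : Afun f g [] [q] W z = 0 :=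
  h.Asmall _ _ _ _ (by simp)

theorem J1 (h : Lvl f g) (q y : α) (W : List α) (z : α) :
    Afun f g [] [q, y] W z = - Bfun f g [] [z] W q y := by
  have e1 := h.i1 [] [q] W z y
  have e2 := h.gsmall [] [q, y] W z (by simp)
  have e3 := h.gsmall [q] [z] W y (by simp)
  simp only [Bfun, List.cons_append, List.nil_append] at e1 ⊢
  rw [e2, e3] at e1
  linear_combination (norm := abel) -e1

/-- the first list has length `3` -/
theorem g12 (h : Lvl f g) (q a b : α) (W : List α) (x : α) :
    g [q] [a, b] W x = - g [] [q, a, b] W x := by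
  have e1 := h.i2 [] [q] W a b x
  have e2 := h.Asmall [] [q] (W ++ [b, x]) a (by simp)
  have e3 : Afun f g [q] [] (W ++ [b, x]) a = 0 := h.Asmall _ _ _ _ (by simp)
  have e4 := h.ganti [q] [a, b] W x
  have e5 := h.ganti [] [q, a, b] W x
  simp only [List.cons_append, List.nil_append] at e1
  rw [e2, e3] at e1
  linear_combination (norm := abel) e4 + e5 - e1

theorem N3 (h : Lvl f g) (q a b : α) (W : List α) (x : α) :
    Afun f g [] [q, a, b] W x = - Bfun f g [] [x, q] W a b - Bfun f g [] [q, x] W a b
      - Bfun f g [q] [x] W a b := by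
  have e1 := h.Hrel [] [q] W a x b
  have e2 := h.Asmall [] [q] (W ++ [b, x]) a (by simp)
  have e3 : Afun f g [q] [] (W ++ [b, x]) a = 0 := h.Asmall _ _ _ _ (by simp)
  have e4 := h.i1 [a] [x] W b q
  have s1 := h.g12 a q x W b
  have s2 := h.g12 x q a W b
  have s3 := h.g12 a x q W b
  have s4 := h.g12 x a b W q
  have t1 : g [] [a, x, q] W b = - g [] [a, q, x] W b := by
    have u := h.galt [a] [] [] W x q b (by simp)
    have u1 := h.ganti [] [a, x, q] W b
    have u2 := h.ganti [] [a, q, x] W b
    simp only [List.cons_append, List.nil_append, List.append_nil] at u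
    linear_combination (norm := abel) u1 + u2 - u
  have t2 : g [] [x, a, b] W q = - g [] [x, a, q] W b := by
    simpa using h.g4' [] [x, a] W b q (by simp)
  have t3 : g [] [x, a, q] W b = - g [] [x, q, a] W b := by
    have u := h.galt [x] [] [] W a q b (by simp)
    have u1 := h.ganti [] [x, a, q] W b
    have u2 := h.ganti [] [x, q, a] W b
    simp only [List.cons_append, List.nil_append, List.append_nil] at u
    linear_combination (norm := abel) u1 + u2 - u
  have t4 := h.Bzz [] [a, b] W x q
  simp only [Bfun, List.cons_append, List.nil_append] at e1 e4 t4 ⊢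
  rw [e2, e3] at e1
  linear_combination (norm := abel) -e1 + s1 - s2 - e4 + s3 + s4 - t1 - t2 + t3 - t4

end Lvl
end Eng
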