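import Pool.Agent.H86.Eng.Comb2

namespace Eng

/-- no `2`- and no `3`-torsion -/
structure TF (G : Type*) [AddCommGroup G] : Prop where
  h2 : ∀ a : G, 2 • a = 0 → a = 0
  h3 : ∀ a : G, 3 • a = 0 → a = 0

namespace TF
variable {G : Type*} [AddCommGroup G]

theorem n2 (tf : TF G) {a : G} (h : (2 : ℤ) • a = 0) : a = 0 :=
  tf.h2 a (by rw [← h]; module)

theorem n3 (tf : TF G) {a : G} (h : (3 : ℤ) • a = 0) : a = 0 :=
  tf.h3 a (by rw [← h]; module)

theorem n4 (tf : TF G) {a : G} (h : (4 : ℤ) • a = 0) : a = 0 :=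
  tf.n2 (tf.n2 (by rw [← h]; module))

theorem n6 (tf : TF G) {a : G} (h : (6 : ℤ) • a = 0) : a = 0 :=
  tf.n2 (tf.n3 (by rw [← h]; module))

theorem n8 (tf : TF G) {a : G} (h : (8 : ℤ) • a = 0) : a = 0 :=
  tf.n2 (tf.n4 (by rw [← h]; module))

theorem n9 (tf : TF G) {a : G} (h : (9 : ℤ) • a = 0) : a = 0 :=
  tf.n3 (tf.n3 (by rw [← h]; module))

theorem n12 (tf : TF G) {a : G} (h : (12 : ℤ) • a = 0) : a = 0 :=
  tf.n2 (tf.n6 (by rw [← h]; module))

theorem n16 (tf : TF G) {a : G} (h : (16 : ℤ) • a = 0) : a = 0 :=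
  tf.n2 (tf.n8 (by rw [← h]; module))

theorem n18 (tf : TF G) {a : G} (h : (18 : ℤ) • a = 0) : a = 0 :=
  tf.n2 (tf.n9 (by rw [← h]; module))

theorem n24 (tf : TF G) {a : G} (h : (24 : ℤ) • a = 0) : a = 0 :=
  tf.n2 (tf.n12 (by rw [← h]; module))

end TF

variable {α G : Type*} [AddCommGroup G] {f : List α → List α → List α → G}
  {g : List α → List α → List α → α → G}

namespace Lvl

theorem B00_12 (h : Lvl f g) (W : List α) (z z' : α) : Bfun f g [] [] W z z' = 0 :=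
  h.Asmall _ _ _ _ (by simp)

theorem B00_13 (h : Lvl f g) (V : List α) (z z' : α) : Bfun f g [] V [] z z' = 0 := by
  rw [h.B23, h.B00_12, neg_zero]

theorem B00_23 (h : Lvl f g) (U : List α) (z z' : α) : Bfun f g U [] [] z z' = 0 := by
  rw [h.B12, h.B00_13, neg_zero]

theorem a0' (h : Lvl f g) (V : List α) (z : α) : Afun f g [] V [] z = 0 := by
  rw [h.r3, h.a0, neg_zero]

theorem a1'' (h : Lvl f g) (q : α) (V : List α) (z : α) : Afun f g [] V [q] z = 0 := by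
  rw [h.r3, h.a1', neg_zero]

theorem J1z (h : Lvl f g) (q y : α) (W : List α) (z : α) :
    Afun f g [] [q, y] W z + Bfun f g [] [z] W q y = 0 := by
  rw [h.J1, neg_add_cancel]

theorem N3z (h : Lvl f g) (q a b : α) (W : List α) (x : α) :
    Afun f g [] [q, a, b] W x + Bfun f g [] [x, q] W a b + Bfun f g [] [q, x] W a b
      + Bfun f g [q] [x] W a b = 0 := by
  rw [h.N3]; abel

theorem ne_of (U l : List α) (hU : U ≠ [] ∨ l ≠ []) : U ++ l ≠ [] := by
  rcases hU with h | h <;> simp [h]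

theorem Bi1 (h : Lvl f g) (U l r V W : List α) (x y z z' : α) (hU : U ≠ [] ∨ l ≠ []) :
    Bfun f g (U ++ (l ++ x :: y :: r)) V W z z' = - Bfun f g (U ++ (l ++ y :: x :: r)) V W z z' := by
  simpa using h.Bin (U ++ l) r V W x y z z' (ne_of U l hU)

theorem Bi2 (h : Lvl f g) (V l r U W : List α) (x y z z' : α) (hV : V ≠ [] ∨ l ≠ []) :
    Bfun f g U (V ++ (l ++ x :: y :: r)) W z z' = - Bfun f g U (V ++ (l ++ y :: x :: r)) W z z' := by
  rw [h.B12 U, h.B12 U, h.Bi1 V l r U W x y z z' hV]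

theorem Bi3 (h : Lvl f g) (W l r U V : List α) (x y z z' : α) (hW : W ≠ [] ∨ l ≠ []) :
    Bfun f g U V (W ++ (l ++ x :: y :: r)) z z' = - Bfun f g U V (W ++ (l ++ y :: x :: r)) z z' := by
  rw [h.B23 U V, h.B23 U V, h.Bi2 W l r U V x y z z' hW]

theorem Bl1 (h : Lvl f g) (U l V W : List α) (y z z' : α) (hU : U ≠ [] ∨ l ≠ []) :
    Bfun f g (U ++ (l ++ [y])) V W z z' = - Bfun f g (U ++ (l ++ [z])) V W y z' := by
  simpa using h.Bal (U ++ l) V W y z z' (ne_of U l hU)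

theorem Bl2 (h : Lvl f g) (V l U W : List α) (y z z' : α) (hV : V ≠ [] ∨ l ≠ []) :
    Bfun f g U (V ++ (l ++ [y])) W z z' = - Bfun f g U (V ++ (l ++ [z])) W y z' := by
  rw [h.B12 U, h.B12 U, h.Bl1 V l U W y z z' hV]

theorem Bl3 (h : Lvl f g) (W l U V : List α) (y z z' : α) (hW : W ≠ [] ∨ l ≠ []) :
    Bfun f g U V (W ++ (l ++ [y])) z z' = - Bfun f g U V (W ++ (l ++ [z])) y z' := by
  rw [h.B23 U V, h.B23 U V, h.Bl2 W l U V y z z' hW]

theorem Ai2 (h : Lvl f g) (U V l r W : List α) (x y z : α) (hV : V ≠ [] ∨ l ≠ []) :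
    Afun f g U (V ++ (l ++ x :: y :: r)) W z = - Afun f g U (V ++ (l ++ y :: x :: r)) W z := by
  have h1 := h.falt (V ++ l) r (U ++ [z]) W x y (ne_of V l hV)
  have h2 := h.galt (V ++ l) r U W x y z (ne_of V l hV)
  have h3 := h.fanti (U ++ [z]) (V ++ (l ++ x :: y :: r)) W
  have h4 := h.fanti (U ++ [z]) (V ++ (l ++ y :: x :: r)) W
  have h5 := h.ganti U (V ++ (l ++ x :: y :: r)) W z
  have h6 := h.ganti U (V ++ (l ++ y :: x :: r)) W z
  simp only [List.append_assoc, List.cons_append, List.nil_append] at h1 h2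
  simp only [Afun]
  linear_combination (norm := abel) h3 + h4 + h5 + h6 - h1 - h2

theorem Ai3 (h : Lvl f g) (U W l r V : List α) (x y z : α) (hW : W ≠ [] ∨ l ≠ []) :
    Afun f g U V (W ++ (l ++ x :: y :: r)) z = - Afun f g U V (W ++ (l ++ y :: x :: r)) z := by
  rw [h.r3 U V, h.r3 U V, h.Ai2 U W l r V x y z hW]

end Lvl
end Eng
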