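import Pool.Agent.H86.Eng.CertB
import Pool.Agent.H86.Eng.CertD

namespace Eng

variable {α G : Type*} [AddCommGroup G] {f : List α → List α → List α → G}
  {g : List α → List α → List α → α → G}

/-! ### lists -/

theorem split1 {L : List α} (h : 1 ≤ L.length) : ∃ L' x, L = L' ++ [x] := by
  have hne : L ≠ [] := by rintro rfl; simp at h
  exact ⟨L.dropLast, L.getLast hne, (List.dropLast_append_getLast hne).symm⟩

theorem split2 {L : List α} (h : 2 ≤ L.length) :
    ∃ L' x y, L = L' ++ [x, y] ∧ L.length = L'.length + 2 := by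
  obtain ⟨L1, y, rfl⟩ := split1 (le_trans (by norm_num) h)
  have h1 : 1 ≤ L1.length := by simp at h; omega
  obtain ⟨L2, x, rfl⟩ := split1 h1
  exact ⟨L2, x, y, by simp, by simp⟩

theorem split4 {L : List α} (h : 4 ≤ L.length) :
    ∃ L' a b c d, L = L' ++ [a, b, c, d] ∧ L.length = L'.length + 4 := by
  obtain ⟨L1, c, d, rfl, h1⟩ := split2 (le_trans (by norm_num) h)
  obtain ⟨L2, a, b, rfl, h2⟩ := split2 (L := L1) (by omega)
  exact ⟨L2, a, b, c, d, by simp, by omega⟩

theorem ne_nil_of_len {L : List α} (h : 1 ≤ L.length) : L ≠ [] := by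
  rintro rfl; simp at h

theorem len_pos {L : List α} (h : L ≠ []) : 1 ≤ L.length := List.length_pos_of_ne_nil h

namespace Lvl

theorem pairMove3 (h : Lvl f g) (U V : List α) (x y z z' : α) :
    ∀ (R W : List α), W ≠ [] →
      Bfun f g U V (W ++ [x, y] ++ R) z z' = Bfun f g U V (W ++ R ++ [x, y]) z z'
  | [], W, _ => by simp
  | r :: R, W, hW => by
    have e1 := h.Bi3 W [x] R U V y r z z' (Or.inl hW)
    have e2 := h.Bi3 W [] (y :: R) U V x r z z' (Or.inl hW)
    have e3 := pairMove3 h U V x y z z' R (W ++ [r]) (by simp)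
    simp only [List.append_assoc, List.cons_append, List.nil_append] at e1 e2 e3 ⊢
    rw [e1, e2, neg_neg, e3]

theorem pairMove2 (h : Lvl f g) (U W : List α) (x y z z' : α)
    (R V : List α) (hV : V ≠ []) :
    Bfun f g U (V ++ [x, y] ++ R) W z z' = Bfun f g U (V ++ R ++ [x, y]) W z z' := by
  rw [h.B23, h.pairMove3 U W x y z z' R V hV, ← h.B23]

/-- moving a pair of letters, first form -/
theorem mvA (h : Lvl f g) (tf : TF G) (V W : List α) (hV : V ≠ []) (hW : 3 ≤ W.length)
    (x y z z' : α) (h0 : Bfun f g [x, y] V W z z' = 0) :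
    Bfun f g [] (V ++ [x, y]) W z z' = Bfun f g [] V (W ++ [x, y]) z z' := by
  obtain ⟨W', c, d, rfl, hl⟩ := split2 (le_trans (by norm_num) hW)
  have hW' : W' ≠ [] := ne_nil_of_len (by omega)
  have e1 := h.SQ0a tf V W' hV hW' x y c d z z'
  have e2 := h.pairMove3 [] V x y z z' [c, d] W' hW'
  simp only [List.append_assoc, List.cons_append, List.nil_append] at e2 ⊢
  rw [h0, e2] at e1
  linear_combination (norm := abel) e1

/-- moving a pair of letters, second form -/
theorem mvB (h : Lvl f g) (tf : TF G) (V W : List α) (hV : 3 ≤ V.length) (hW : W ≠ [])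
    (x y z z' : α) (h0 : Bfun f g [x, y] V W z z' = 0) :
    Bfun f g [] (V ++ [x, y]) W z z' = Bfun f g [] V (W ++ [x, y]) z z' := by
  have e := h.mvA tf W V hW hV x y z z' (by rw [h.B23, h0, neg_zero])
  rw [h.B23 [] (V ++ [x, y]), h.B23 [] V, e]

theorem mv (h : Lvl f g) (tf : TF G) (V W : List α) (hV : V ≠ []) (hW : W ≠ [])
    (h4 : 4 ≤ V.length + W.length) (x y z z' : α) :
    Bfun f g [] (V ++ [x, y]) W z z' = Bfun f g [] V (W ++ [x, y]) z z' := by
  have hV1 := len_pos hV
  have hW1 := len_pos hW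
  rcases (by omega : V.length = 1 ∨ V.length = 2 ∨ 3 ≤ V.length) with h1 | h1 | h1
  · obtain ⟨v, rfl⟩ := List.length_eq_one_iff.1 h1
    have hW3 : 3 ≤ W.length := by simp at h4; omega
    apply h.mvA tf _ _ hV hW3
    obtain ⟨W', c, d, rfl, hl⟩ := split2 (le_trans (by norm_num) hW3)
    have hW' : W' ≠ [] := ne_nil_of_len (by omega)
    rw [h.B12, h.y12 tf W' hW' x y c d z z' v, neg_zero]
  · obtain ⟨a, b, rfl⟩ := List.length_eq_two.1 h1
    exact sub_eq_zero.1 (h.y4 tf W hW a b x y z z')
  · apply h.mvB tf _ _ h1 hW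
    obtain ⟨V', a, b, rfl, hl⟩ := split2 (le_trans (by norm_num) h1)
    have hV' : V' ≠ [] := ne_nil_of_len (by omega)
    rcases (by omega : W.length = 1 ∨ W.length = 2 ∨ 3 ≤ W.length) with h2 | h2 | h2
    · obtain ⟨w, rfl⟩ := List.length_eq_one_iff.1 h2
      rw [h.Bcyc', h.y12 tf V' hV' x y a b z z' w]
    · obtain ⟨w, r, rfl⟩ := List.length_eq_two.1 h2
      rw [h.B23, h.y22 tf _ hV x y w r z z', neg_zero]
    · obtain ⟨W', c, d, rfl, hl⟩ := split2 (le_trans (by norm_num) h2)
      have hW' : W' ≠ [] := ne_nil_of_len (by omega)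
      exact h.D33 tf V' W' hV' hW' x y a b c d z z'

theorem pmv (h : Lvl f g) (tf : TF G) (z z' : α) :
    ∀ (R V W : List α), V ≠ [] → W ≠ [] → 4 ≤ V.length + W.length → Even R.length →
      Bfun f g [] (V ++ R) W z z' = Bfun f g [] V (W ++ R) z z'
  | [], V, W, _, _, _, _ => by simp
  | [x], V, W, _, _, _, he => by simp at he
  | x :: y :: R, V, W, hV, hW, h4, he => by
    have heR : Even R.length := by
      simp only [List.length_cons] at he
      rcases he with ⟨k, hk⟩
      exact ⟨k - 1, by omega⟩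
    have e1 := pmv h tf z z' R (V ++ [x, y]) W (by simp) hW (by simp; omega) heR
    have e2 := h.mv tf V (W ++ R) hV (by simp [hW]) (by simp; omega) x y z z'
    have e3 := h.pairMove3 [] V x y z z' R W hW
    simp only [List.append_assoc, List.cons_append, List.nil_append] at e1 e2 e3 ⊢
    rw [e1, e2, e3]

theorem ev0 (h : Lvl f g) (tf : TF G) (R : List α) (hR : Even R.length) (hR0 : R ≠ [])
    (v l w r z z' : α) : Bfun f g [] ([v, l] ++ R) [w, r] z z' = 0 := by
  have e1 : ∀ v l w r z, Bfun f g [] ([v, l] ++ R) [w, r] z z'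
      = Bfun f g [] [v, l] ([w, r] ++ R) z z' := fun v l w r z =>
    h.pmv tf z z' R [v, l] [w, r] (by simp) (by simp) (by simp) hR
  have hR2 : 2 ≤ R.length := by
    have := len_pos hR0
    rcases hR with ⟨k, hk⟩
    omega
  obtain ⟨R', c, d, hRR, -⟩ := split2 hR2
  have s12 : ∀ v l w r z, Bfun f g [] ([v, l] ++ R) [w, r] z z'
      = - Bfun f g [] ([l, v] ++ R) [w, r] z z' := by
    intro v l w r z
    have e := h.y2a tf ([w, r] ++ R') (by simp) v l c d z z'
    rw [e1, e1, hRR, ← List.append_assoc]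
    linear_combination (norm := abel) e
  have s34 : ∀ v l w r z, Bfun f g [] ([v, l] ++ R) [w, r] z z'
      = - Bfun f g [] ([v, l] ++ R) [r, w] z z' := by
    intro v l w r z
    have e := h.y2a tf ([v, l] ++ R') (by simp) w r c d z z'
    rw [h.B23, h.B23 [] ([v, l] ++ R) [r, w], hRR, ← List.append_assoc]
    linear_combination (norm := abel) -e
  have sl : ∀ v l w r z, Bfun f g [] ([v, l] ++ R) [w, r] z z'
      = - Bfun f g [] ([v, z] ++ R) [w, r] l z' := by
    intro v l w r z
    rw [e1, e1]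
    exact h.Bl2 [] [v] [] ([w, r] ++ R) l z z' (Or.inr (List.cons_ne_nil _ _))
  have sr : ∀ v l w r z, Bfun f g [] ([v, l] ++ R) [w, r] z z'
      = - Bfun f g [] ([v, l] ++ R) [w, z] r z' := by
    intro v l w r z
    exact h.Bl3 [] [w] [] ([v, l] ++ R) r z z' (Or.inr (List.cons_ne_nil _ _))
  have lr : ∀ v l w r z, Bfun f g [] ([v, l] ++ R) [w, r] z z'
      = - Bfun f g [] ([v, r] ++ R) [w, l] z z' := by
    intro v l w r z
    rw [sl v l w r z, sr v z w r l, sl v z w l r, neg_neg]
  have vw : ∀ v l w r z, Bfun f g [] ([v, l] ++ R) [w, r] z z'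
      = - Bfun f g [] ([w, l] ++ R) [v, r] z z' := by
    intro v l w r z
    rw [s12 v l w r z, lr l v w r z, s34 l r w v z, lr l r v w z, s12 l w v r z]
    simp only [neg_neg]
  have an : Bfun f g [] ([v, l] ++ R) [w, r] z z'
      = - Bfun f g [] ([w, r] ++ R) [v, l] z z' := by
    rw [h.B23, e1 w r v l z]
  have fin := vw w r v l z
  rw [lr v r w l z, neg_neg] at fin
  rw [fin] at an
  apply tf.n2
  linear_combination (norm := module) an

theorem bodd (h : Lvl f g) (tf : TF G) (V W : List α) (hV : Odd V.length) (hW : 3 ≤ W.length)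
    (h6 : 6 ≤ V.length + W.length) (z z' : α) : Bfun f g [] V W z z' = 0 := by
  match V, hV with
  | v :: R, hV =>
    have hR : Even R.length := by
      simp only [List.length_cons] at hV
      rcases hV with ⟨k, hk⟩
      exact ⟨k, by omega⟩
    have hW0 : W ≠ [] := ne_nil_of_len (by omega)
    have e := h.pmv tf z z' R [v] W (by simp) hW0 (by simp; omega) hR
    simp only [List.cons_append, List.nil_append] at e
    rw [e]
    obtain ⟨W', a, b, c, d, hW', hl⟩ := split4 (L := W ++ R)
      (by simp only [List.length_append, List.length_cons] at *; omega)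
    have : W' ≠ [] := by
      apply ne_nil_of_len
      simp only [List.length_append, List.length_cons] at *
      omega
    rw [hW']
    exact h.y14 tf W' this a b c d z z' v

theorem bodd' (h : Lvl f g) (tf : TF G) (V W : List α) (hV : Odd V.length) (hW : W ≠ [])
    (h6 : 6 ≤ V.length + W.length) (z z' : α) : Bfun f g [] V W z z' = 0 := by
  have hW1 := len_pos hW
  rcases (by omega : W.length = 1 ∨ W.length = 2 ∨ 3 ≤ W.length) with h2 | h2 | h2
  · obtain ⟨w, rfl⟩ := List.length_eq_one_iff.1 h2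
    obtain ⟨V', a, b, c, d, rfl, hl⟩ := split4 (L := V) (by omega)
    rw [h.B23, h.y14 tf V' (ne_nil_of_len (by omega)) a b c d z z' w, neg_zero]
  · obtain ⟨V', x, y, rfl, hl⟩ := split2 (L := V) (by omega)
    rw [h.mv tf V' W (ne_nil_of_len (by omega)) hW (by omega) x y z z']
    apply h.bodd tf
    · rcases hV with ⟨k, hk⟩
      exact ⟨k - 1, by omega⟩
    · simp; omega
    · simp; omega
  · exact h.bodd tf V W hV h2 h6 z z'

/-- `B [] V W = 0` -/
theorem bz (h : Lvl f g) (tf : TF G) (V W : List α) (z z' : α) : Bfun f g [] V W z z' = 0 := by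
  by_cases hV : V = []
  · rw [hV, h.B00_12]
  by_cases hW : W = []
  · rw [hW, h.B00_13]
  have hV1 := len_pos hV
  have hW1 := len_pos hW
  by_cases h6 : 6 ≤ V.length + W.length
  · rcases Nat.even_or_odd V.length with hVe | hVo
    · rcases Nat.even_or_odd W.length with hWe | hWo
      · match V, W, hVe, hWe with
        | [], _, _, _ => exact absurd rfl hV
        | [_], _, hVe, _ => simp at hVe
        | _ :: _ :: _, [], _, _ => exact absurd rfl hW
        | _ :: _ :: _, [_], _, hWe => simp at hWe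
        | v :: l :: R1, w :: r :: R2, hVe, hWe =>
          have hR1 : Even R1.length := by
            simp only [List.length_cons] at hVe
            rcases hVe with ⟨k, hk⟩
            exact ⟨k - 1, by omega⟩
          have hR2 : Even R2.length := by
            simp only [List.length_cons] at hWe
            rcases hWe with ⟨k, hk⟩
            exact ⟨k - 1, by omega⟩
          have e := h.pmv tf z z' R2 (v :: l :: R1) [w, r] (by simp) (by simp)
            (by simp) hR2
          simp only [List.cons_append, List.nil_append] at e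
          rw [← e]
          have e2 := h.ev0 tf (R1 ++ R2) (by rw [List.length_append]; exact hR1.add hR2)
            (by
              apply ne_nil_of_len
              simp only [List.length_append, List.length_cons] at *
              omega) v l w r z z'
          simpa using e2
      · rw [h.B23, h.bodd' tf W V hWo hV (by omega), neg_zero]
    · exact h.bodd' tf V W hVo hW h6 z z'
  · rcases (by omega : V.length = 1 ∨ V.length = 2 ∨ V.length = 3 ∨ V.length = 4)
      with h1 | h1 | h1 | h1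
    · obtain ⟨v, rfl⟩ := List.length_eq_one_iff.1 h1
      rcases (by simp only [List.length_cons, List.length_nil] at *; omega :
        W.length = 1 ∨ W.length = 2 ∨ W.length = 3 ∨ W.length = 4) with h2 | h2 | h2 | h2
      · obtain ⟨w, rfl⟩ := List.length_eq_one_iff.1 h2
        exact h.z011 tf _ _ _ _
      · obtain ⟨a, b, rfl⟩ := List.length_eq_two.1 h2
        exact h.z012 tf _ _ _ _ _
      · obtain ⟨a, b, c, rfl⟩ := List.length_eq_three.1 h2
        exact h.z013 tf _ _ _ _ _ _
      · obtain ⟨W', a, b, c, d, rfl, hl⟩ := split4 (L := W) (by omega)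
        have : W' = [] := List.eq_nil_of_length_eq_zero (by omega)
        subst this
        exact h.z014 tf _ _ _ _ _ _ _
    · obtain ⟨v, l, rfl⟩ := List.length_eq_two.1 h1
      rcases (by simp only [List.length_cons, List.length_nil] at *; omega :
        W.length = 1 ∨ W.length = 2 ∨ W.length = 3) with h2 | h2 | h2
      · obtain ⟨w, rfl⟩ := List.length_eq_one_iff.1 h2
        rw [h.B23, h.z012 tf, neg_zero]
      · obtain ⟨a, b, rfl⟩ := List.length_eq_two.1 h2
        exact h.z022 tf _ _ _ _ _ _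
      · obtain ⟨a, b, c, rfl⟩ := List.length_eq_three.1 h2
        rw [h.B23, h.z032 tf, neg_zero]
    · obtain ⟨u, v, l, rfl⟩ := List.length_eq_three.1 h1
      rcases (by simp only [List.length_cons, List.length_nil] at *; omega :
        W.length = 1 ∨ W.length = 2) with h2 | h2
      · obtain ⟨w, rfl⟩ := List.length_eq_one_iff.1 h2
        rw [h.B23, h.z013 tf, neg_zero]
      · obtain ⟨a, b, rfl⟩ := List.length_eq_two.1 h2
        exact h.z032 tf _ _ _ _ _ _ _
    · have h2 : W.length = 1 := by omega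
      obtain ⟨w, rfl⟩ := List.length_eq_one_iff.1 h2
      obtain ⟨V', a, b, c, d, rfl, hl⟩ := split4 (L := V) (by omega)
      have : V' = [] := List.eq_nil_of_length_eq_zero (by omega)
      subst this
      rw [h.B23]
      have := h.z014 tf a b c d z z' w
      simp only [List.nil_append]
      rw [this, neg_zero]

theorem bz2 (h : Lvl f g) (tf : TF G) (U W : List α) (z z' : α) : Bfun f g U [] W z z' = 0 := by
  rw [h.B12, h.bz tf, neg_zero]

theorem bz3 (h : Lvl f g) (tf : TF G) (U V : List α) (z z' : α) : Bfun f g U V [] z z' = 0 := by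
  rw [h.B13, h.bz tf, neg_zero]

theorem Z2a (h : Lvl f g) (tf : TF G) (V W : List α) (hV : V ≠ []) (hW : 3 ≤ W.length)
    (x y z z' : α) : Bfun f g [x, y] V W z z' = 0 := by
  obtain ⟨W', c, d, rfl, hl⟩ := split2 (le_trans (by norm_num) hW)
  have e := h.SQ0a tf V W' hV (ne_nil_of_len (by omega)) x y c d z z'
  rw [h.bz tf, h.bz tf] at e
  simpa using e

theorem Z2 (h : Lvl f g) (tf : TF G) (V W : List α) (x y z z' : α) :
    Bfun f g [x, y] V W z z' = 0 := by
  by_cases hV : V = []
  · rw [hV, h.bz2 tf]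
  by_cases hW : W = []
  · rw [hW, h.bz3 tf]
  have hV1 := len_pos hV
  have hW1 := len_pos hW
  by_cases hW3 : 3 ≤ W.length
  · exact h.Z2a tf V W hV hW3 x y z z'
  by_cases hV3 : 3 ≤ V.length
  · rw [h.B23, h.Z2a tf W V hW hV3, neg_zero]
  rcases (by omega : V.length = 1 ∨ V.length = 2) with h1 | h1
  · rcases (by omega : W.length = 1 ∨ W.length = 2) with h2 | h2
    · obtain ⟨v, rfl⟩ := List.length_eq_one_iff.1 h1
      obtain ⟨w, rfl⟩ := List.length_eq_one_iff.1 h2
      rw [h.Bcyc, h.z112 tf]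
    · obtain ⟨a, b, rfl⟩ := List.length_eq_two.1 h2
      rw [h.B23, h.y22 tf _ hV, neg_zero]
  · obtain ⟨a, b, rfl⟩ := List.length_eq_two.1 h1
    exact h.y22 tf _ hW _ _ _ _ _ _

theorem Z4 (h : Lvl f g) (tf : TF G) (V W : List α) (a b c d z z' : α) :
    Bfun f g [a, b, c, d] V W z z' = 0 := by
  by_cases hV : V = []
  · rw [hV, h.bz2 tf]
  by_cases hW : W = []
  · rw [hW, h.bz3 tf]
  have e := h.SQ0c tf V W hV hW a b c d z z'
  rw [h.Z2 tf, h.Z2 tf] at e
  simpa using e

theorem Z11 (h : Lvl f g) (tf : TF G) (W : List α) (a b z z' : α) :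
    Bfun f g [a] [b] W z z' = 0 := by
  rcases (by omega : W.length = 0 ∨ W.length = 1 ∨ W.length = 2 ∨ 3 ≤ W.length)
    with h2 | h2 | h2 | h2
  · rw [List.eq_nil_of_length_eq_zero h2, h.bz3 tf]
  · obtain ⟨w, rfl⟩ := List.length_eq_one_iff.1 h2
    exact h.z111 tf _ _ _ _ _
  · obtain ⟨c, d, rfl⟩ := List.length_eq_two.1 h2
    exact h.z112 tf _ _ _ _ _ _
  · obtain ⟨W', c, d, rfl, hl⟩ := split2 (le_trans (by norm_num) h2)
    exact h.y11 tf W' (ne_nil_of_len (by omega)) _ _ _ _ _ _

theorem Z13 (h : Lvl f g) (tf : TF G) (W : List α) (a b c d z z' : α) :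
    Bfun f g [a] [b, c, d] W z z' = 0 := by
  rcases (by omega : W.length = 0 ∨ W.length = 1 ∨ W.length = 2 ∨ 3 ≤ W.length)
    with h2 | h2 | h2 | h2
  · rw [List.eq_nil_of_length_eq_zero h2, h.bz3 tf]
  · obtain ⟨w, rfl⟩ := List.length_eq_one_iff.1 h2
    rw [h.B23, h.Z11 tf, neg_zero]
  · obtain ⟨x, y, rfl⟩ := List.length_eq_two.1 h2
    rw [h.Bcyc', h.Z2 tf]
  · obtain ⟨W', x, y, rfl, hl⟩ := split2 (le_trans (by norm_num) h2)
    rw [h.B12, h.y13 tf W' (ne_nil_of_len (by omega)), neg_zero]

theorem Z1 (h : Lvl f g) (tf : TF G) : ∀ (n : ℕ) (V : List α), V.length = n →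
    ∀ (a : α) (W : List α) (z z' : α), Bfun f g [a] V W z z' = 0 := by
  intro n
  induction n using Nat.strong_induction_on with
  | _ n ih =>
    intro V hV a W z z'
    by_cases hW : W = []
    · rw [hW, h.bz3 tf]
    have hW1 := len_pos hW
    rcases (by omega : V.length = 0 ∨ V.length = 1 ∨ V.length = 2 ∨ V.length = 3 ∨
      V.length = 4 ∨ 5 ≤ V.length) with h2 | h2 | h2 | h2 | h2 | h2
    · rw [List.eq_nil_of_length_eq_zero h2, h.bz2 tf]
    · obtain ⟨w, rfl⟩ := List.length_eq_one_iff.1 h2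
      exact h.Z11 tf W a w z z'
    · obtain ⟨x, y, rfl⟩ := List.length_eq_two.1 h2
      rw [h.B12, h.Z2 tf, neg_zero]
    · obtain ⟨x, y, t, rfl⟩ := List.length_eq_three.1 h2
      exact h.Z13 tf W a x y t z z'
    · obtain ⟨V', x, y, t, s, rfl, hl⟩ := split4 (L := V) (by omega)
      have : V' = [] := List.eq_nil_of_length_eq_zero (by omega)
      subst this
      rw [List.nil_append, h.B12, h.Z4 tf, neg_zero]
    · obtain ⟨V', x, y, t, s, rfl, hl⟩ := split4 (L := V) (by omega)
      have hV' : V' ≠ [] := ne_nil_of_len (by omega)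
      have e := h.SQ tf V' [a] W hV' (by simp) hW x y t s z z'
      have e1 : Bfun f g (V' ++ [x, y]) [a] (W ++ [t, s]) z z' = 0 := by
        rw [h.B12, ih (n - 2) (by omega) (V' ++ [x, y]) (by simp; omega), neg_zero]
      have e2 : Bfun f g (V' ++ [x, y]) ([a] ++ [t, s]) W z z' = 0 := by
        rcases (by omega : W.length = 1 ∨ W.length = 2 ∨ 3 ≤ W.length) with h3 | h3 | h3
        · obtain ⟨w, rfl⟩ := List.length_eq_one_iff.1 h3
          rw [h.B13, h.B23, ih (n - 2) (by omega) (V' ++ [x, y]) (by simp; omega)]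
          simp
        · obtain ⟨p, q, rfl⟩ := List.length_eq_two.1 h3
          rw [h.B13, h.Z2 tf, neg_zero]
        · obtain ⟨W', p, q, rfl, hl⟩ := split2 (le_trans (by norm_num) h3)
          exact h.XYZ tf V' [a] W' hV' (by simp) (ne_nil_of_len (by omega)) _ _ _ _ _ _ _ _
      rw [e1, e2] at e
      rw [h.B12]
      simpa using e

theorem B0 (h : Lvl f g) (tf : TF G) (U V W : List α) (z z' : α) : Bfun f g U V W z z' = 0 := by
  have key : ∀ (U : List α), U.length ≤ 2 → ∀ (V W : List α) (z z' : α),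
      Bfun f g U V W z z' = 0 := by
    intro U hU V W z z'
    rcases (by omega : U.length = 0 ∨ U.length = 1 ∨ U.length = 2) with h2 | h2 | h2
    · rw [List.eq_nil_of_length_eq_zero h2, h.bz tf]
    · obtain ⟨w, rfl⟩ := List.length_eq_one_iff.1 h2
      exact h.Z1 tf _ V rfl w W z z'
    · obtain ⟨x, y, rfl⟩ := List.length_eq_two.1 h2
      exact h.Z2 tf _ _ _ _ _ _
  by_cases hU : U.length ≤ 2
  · exact key U hU V W z z'
  by_cases hV : V.length ≤ 2
  · rw [h.B12, key V hV, neg_zero]
  by_cases hW : W.length ≤ 2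
  · rw [h.B13, key W hW, neg_zero]
  obtain ⟨U', a, b, rfl, hl⟩ := split2 (L := U) (by omega)
  obtain ⟨V', c, d, rfl, hl'⟩ := split2 (L := V) (by omega)
  obtain ⟨W', p, q, rfl, hl''⟩ := split2 (L := W) (by omega)
  exact h.XYZ tf U' V' W' (ne_nil_of_len (by omega)) (ne_nil_of_len (by omega))
    (ne_nil_of_len (by omega)) _ _ _ _ _ _ _ _

theorem A00 (h : Lvl f g) (tf : TF G) : ∀ (n : ℕ) (V : List α), V.length = n →
    ∀ (W : List α) (z : α), Afun f g [] V W z = 0 := by
  intro n
  induction n using Nat.strong_induction_on with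
  | _ n ih =>
    intro V hV W z
    rcases (by omega : V.length = 0 ∨ V.length = 1 ∨ V.length = 2 ∨ V.length = 3 ∨
      4 ≤ V.length) with h2 | h2 | h2 | h2 | h2
    · rw [List.eq_nil_of_length_eq_zero h2, h.a0]
    · obtain ⟨w, rfl⟩ := List.length_eq_one_iff.1 h2
      exact h.a1' w W z
    · obtain ⟨x, y, rfl⟩ := List.length_eq_two.1 h2
      rw [h.J1, h.B0 tf, neg_zero]
    · obtain ⟨x, y, t, rfl⟩ := List.length_eq_three.1 h2
      rw [h.N3, h.B0 tf, h.B0 tf, h.B0 tf]
      simp
    · obtain ⟨V', x, y, t, s, rfl, hl⟩ := split4 (L := V) (by omega)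
      have e := h.K0 V' W x y z t s
      rw [h.B0 tf, h.B0 tf, h.B0 tf, h.B0 tf,
        ih (n - 2) (by omega) (V' ++ [x, y]) (by simp; omega)] at e
      simpa using e

theorem A0 (h : Lvl f g) (tf : TF G) (U V W : List α) (z : α) : Afun f g U V W z = 0 := by
  by_cases hU : U = []
  · rw [hU, h.A00 tf _ V rfl]
  · obtain ⟨U', u, rfl⟩ := split1 (len_pos hU)
    exact h.B0 tf U' V W u z

theorem gz1 (h : Lvl f g) (tf : TF G) (U V W : List α) (hV : V ≠ []) (a x b : α) :
    g (U ++ [a]) (V ++ [x]) W b = 0 := by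
  have H : ∀ a x b, g (U ++ [a]) (V ++ [x]) W b = g (U ++ [x]) (V ++ [a]) W b := by
    intro a x b
    have e := h.Hrel U V W a x b
    rw [h.A0 tf, h.A0 tf, h.A0 tf, h.A0 tf, h.A0 tf, h.A0 tf] at e
    linear_combination (norm := abel) e
  have S : ∀ a x b, g (U ++ [a]) (V ++ [x]) W b = - g (U ++ [a]) (V ++ [b]) W x :=
    fun a x b => h.g4' _ V W x b hV
  apply tf.n2
  have e1 := H a x b
  have e2 := S x a b
  have e3 := H x b a
  have e4 := S b x a
  have e5 := H b a x
  have e6 := S a b x
  linear_combination (norm := module) e1 + e2 - e3 - e4 + e5 + e6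

theorem gzero (h : Lvl f g) (tf : TF G) (U V W : List α) (z : α) : g U V W z = 0 := by
  have key1 : ∀ U V : List α, U ≠ [] → 2 ≤ V.length → g U V W z = 0 := by
    intro U V hU hV
    obtain ⟨U', a, rfl⟩ := split1 (len_pos hU)
    obtain ⟨V', x, rfl⟩ := split1 (L := V) (by omega)
    exact h.gz1 tf U' V' W (ne_nil_of_len (by simp at hV; omega)) a x z
  by_cases hs : U.length + V.length ≤ 2
  · exact h.gsmall U V W z hs
  have key2 : ∀ V : List α, 3 ≤ V.length → g [] V W z = 0 := by
    intro V hV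
    obtain ⟨V', a, b, rfl, hl⟩ := split2 (L := V) (by omega)
    have e := h.i2 [] V' W a b z
    rw [h.A0 tf, h.A0 tf] at e
    have e2 : g [a, b] V' W z = 0 := by
      rw [h.ganti, key1 V' [a, b] (ne_nil_of_len (by omega)) (by simp), neg_zero]
    have e3 : g ([] ++ [a, b]) V' W z = 0 := e2
    rw [e3] at e
    rw [h.ganti, show g (V' ++ [a, b]) [] W z = 0 by simpa using e, neg_zero]
  by_cases hU : U = []
  · subst hU
    exact key2 V (by simp at hs; omega)
  by_cases hV : V = []
  · subst hV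
    rw [h.ganti, key2 U (by simp at hs; omega), neg_zero]
  have hU1 := len_pos hU
  have hV1 := len_pos hV
  by_cases hV2 : 2 ≤ V.length
  · exact key1 U V hU hV2
  · rw [h.ganti, key1 V U hV (by omega), neg_zero]

theorem fzero (h : Lvl f g) (tf : TF G) (U V W : List α) : f U V W = 0 := by
  have key : ∀ U V : List α, U ≠ [] → f U V W = 0 := by
    intro U V hU
    obtain ⟨U', a, rfl⟩ := split1 (len_pos hU)
    have e := h.A0 tf U' V W a
    rw [Afun, h.gzero tf, add_zero] at e
    exact e
  by_cases hU : U = []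
  · by_cases hV : V = []
    · subst hU; subst hV
      exact h.fsmall _ _ _ (by simp)
    · rw [h.fanti, key V U hV, neg_zero]
  · exact key U V hU

end Lvl

/-- MODULE 2 -/
theorem lvl_zero {α G : Type*} [AddCommGroup G] (h2 : ∀ a : G, 2 • a = 0 → a = 0)
    (h3 : ∀ a : G, 3 • a = 0 → a = 0)
    {f : List α → List α → List α → G} {g : List α → List α → List α → α → G}
    (h : Lvl f g) : (∀ U V W, f U V W = 0) ∧ (∀ U V W z, g U V W z = 0) :=
  ⟨fun U V W => h.fzero ⟨h2, h3⟩ U V W, fun U V W z => h.gzero ⟨h2, h3⟩ U V W z⟩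

end Eng
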