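import Mathlib

/-!
# The thick sandwich theorem: interface

`T U V P W = (((c U)(c V)) P)(c W)`, where `c U` is the left-normed product of `c` with the
letters of the list `U`.
-/

namespace Eng

/-- left-normed product `e · l₁ · l₂ ⋯` -/
def lw {A : Type*} [Mul A] (e : A) (L : List A) : A := L.foldl (fun x y => x * y) e

/-- the top level functions at one level: `f U V W` stands for `((cU)(cV))(cW)`, and
`g U V W z` for `(((cU)(cV))z)(cW)`. -/
def Afun {α G : Type*} [AddCommGroup G] (f : List α → List α → List α → G)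
    (g : List α → List α → List α → α → G) (U V W : List α) (z : α) : G :=
  f (U ++ [z]) V W + g U V W z

/-- The relations between the top level functions. -/
structure Lvl {α G : Type*} [AddCommGroup G] (f : List α → List α → List α → G)
    (g : List α → List α → List α → α → G) : Prop where
  fanti : ∀ U V W, f U V W = - f V U W
  ganti : ∀ U V W z, g U V W z = - g V U W z
  falt : ∀ L R V W x y, L ≠ [] → f (L ++ [x, y] ++ R) V W = - f (L ++ [y, x] ++ R) V W
  galt : ∀ L R V W x y z, L ≠ [] → g (L ++ [x, y] ++ R) V W z = - g (L ++ [y, x] ++ R) V W z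
  falt3 : ∀ U V L R x y, L ≠ [] ∨ R = [] → f U V (L ++ [x, y] ++ R) = - f U V (L ++ [y, x] ++ R)
  galt3 : ∀ U V L R x y z, L ≠ [] ∨ R = [] →
    g U V (L ++ [x, y] ++ R) z = - g U V (L ++ [y, x] ++ R) z
  r3 : ∀ U V W z, Afun f g U V W z = - Afun f g U W V z
  b1 : ∀ U V W z z', Afun f g (U ++ [z]) V W z' = - Afun f g (V ++ [z]) U W z'
  a1 : ∀ U V W z z', Afun f g (U ++ [z]) V W z' = - Afun f g (U ++ [z']) V W z
  i2 : ∀ U V W a b x, g (U ++ [a, b]) V W x + g (V ++ [a, b]) U W x
    + Afun f g U V (W ++ [b, x]) a + Afun f g V U (W ++ [b, x]) a = 0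
  fsmall : ∀ U V W, U.length + V.length ≤ 2 → f U V W = 0
  gsmall : ∀ U V W z, U.length + V.length ≤ 2 → g U V W z = 0

end Eng
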