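import Pool.Agent.H66.Eng.Defs

/-!
# Consequences of `((xa)a)((ya)a) = 0` (MP_1664c7_al, target II)
-/

set_option linter.style.longLine false

namespace Pool.Agent.H86.Eng

open Pool.Agent.H66.Eng

variable {A : Type*} [NonUnitalNonAssocRing A]

theorem anti' (hA : E3 A) (x y : A) : x * y = -(y * x) := by
  have h := hA.sq (x + y)
  rw [mul_add, add_mul, add_mul, hA.sq x, hA.sq y, zero_add, add_zero] at h
  rw [eq_neg_iff_add_eq_zero, add_comm]
  exact h

theorem E111 (hA : E3 A) (x a b c : A) :
    ((x * a) * b) * c + ((x * a) * c) * b + ((x * b) * a) * c + ((x * b) * c) * a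
      + ((x * c) * a) * b + ((x * c) * b) * a = 0 := by
  have h1 := hA.eng x (a + b + c)
  have h2 := hA.eng x (a + b)
  have h3 := hA.eng x (a + c)
  have h4 := hA.eng x (b + c)
  have h5 := hA.eng x a
  have h6 := hA.eng x b
  have h7 := hA.eng x c
  simp only [mul_add, add_mul] at h1 h2 h3 h4
  linear_combination (norm := abel) h1 - h2 - h3 - h4 + h5 + h6 + h7

theorem E21 (hA : E3 A) (x a w : A) :
    ((x * a) * a) * w + ((x * a) * w) * a + ((x * w) * a) * a = 0 := by
  apply hA.h2
  linear_combination (norm := abel) E111 hA x a a w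

theorem tor12 (hA : E3 A) {a : A} (h : (12 : ℤ) • a = 0) : a = 0 := by
  apply hA.h2
  apply hA.h2
  apply hA.h3
  rw [← h]
  module

theorem V31 (hA : E3 A) (v1 : ∀ x y a : A, ((x * a) * a) * ((y * a) * a) = 0) (x y a z : A) :
    ((x * z) * a + (x * a) * z) * ((y * a) * a) + ((x * a) * a) * ((y * z) * a + (y * a) * z)
      = 0 := by
  have h1 := v1 x y (a + z)
  have h2 := v1 x y (a - z)
  have h3 := v1 x y (a + z + z)
  have h4 := v1 x y (a - z - z)
  simp only [mul_add, add_mul, mul_sub, sub_mul] at h1 h2 h3 h4 ⊢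
  apply tor12 hA
  linear_combination (norm := module) (8 : ℤ) • h1 - (8 : ℤ) • h2 - h3 + h4

theorem V211 (hA : E3 A) (v1 : ∀ x y a : A, ((x * a) * a) * ((y * a) * a) = 0) (x y a w z : A) :
    ((x * z) * a + (x * a) * z) * ((y * w) * a + (y * a) * w)
      + ((x * w) * a + (x * a) * w) * ((y * z) * a + (y * a) * z)
      + ((x * z) * w + (x * w) * z) * ((y * a) * a)
      + ((x * a) * a) * ((y * z) * w + (y * w) * z) = 0 := by
  have h1 := V31 hA v1 x y (a + w) z
  have h2 := V31 hA v1 x y (a - w) z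
  have h3 := V31 hA v1 x y w z
  simp only [mul_add, add_mul, mul_sub, sub_mul] at h1 h2 h3 ⊢
  apply hA.h2
  linear_combination (norm := module) h1 - h2 - (2 : ℤ) • h3

theorem g1 (hA : E3 A) (v1 : ∀ x y a : A, ((x * a) * a) * ((y * a) * a) = 0) (x y a : A) :
    (((x * a) * a) * (y * a)) * a = 0 := by
  have anti := anti' hA
  have e3 := hA.eng
  have r0 := E21 hA (x * a) a (y * a)
  have r1 := E21 hA (y * a) a (x * a)
  have r2 := E21 hA x a ((y * a) * a)
  have r3 := E21 hA ((y * a) * a) a x
  have r4 := v1 x y a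
  simp only [anti (y * a) (x * a), anti ((y * a) * a) (x * a), anti ((y * a) * a) x,
    e3, zero_mul, neg_mul, zero_add] at r0 r1 r2 r3 r4 ⊢
  linear_combination (norm := abel) r0 + r1 + r2 + r3 - r4

theorem w2 (hA : E3 A) (v1 : ∀ x y a : A, ((x * a) * a) * ((y * a) * a) = 0) (z x y a : A) :
    (z * a) * (((x * a) * a) * (y * a)) + (z * a) * ((x * a) * ((y * a) * a)) = 0 := by
  have anti := anti' hA
  have e3 := hA.eng
  have sq := hA.sq
  have E111 := E111 hA
  have V31 := V31 hA v1
  have V211 := V211 hA v1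
  have r0 : ((a * ((y * a) * a)) * (z * a)) * x + ((a * ((y * a) * a)) * x) * (z * a) + ((a * (z * a)) * ((y * a) * a)) * x + ((a * (z * a)) * x) * ((y * a) * a) + ((a * x) * ((y * a) * a)) * (z * a) + ((a * x) * (z * a)) * ((y * a) * a) = 0 := by
    have e := E111 a ((y * a) * a) (z * a) x
    linear_combination (norm := abel) e
  have r1 : ((a * ((x * a) * a)) * (z * a)) * y + ((a * ((x * a) * a)) * y) * (z * a) + ((a * (z * a)) * ((x * a) * a)) * y + ((a * (z * a)) * y) * ((x * a) * a) + ((a * y) * ((x * a) * a)) * (z * a) + ((a * y) * (z * a)) * ((x * a) * a) = 0 := by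
    have e := E111 a ((x * a) * a) (z * a) y
    linear_combination (norm := abel) e
  have r2 : ((a * a) * a) * ((y * x) * (z * a)) + ((a * a) * a) * ((y * (z * a)) * x) + ((a * a) * x) * ((y * a) * (z * a)) + ((a * a) * x) * ((y * (z * a)) * a) + ((a * a) * (z * a)) * ((y * a) * x) + ((a * a) * (z * a)) * ((y * x) * a) + ((a * x) * a) * ((y * a) * (z * a)) + ((a * x) * a) * ((y * (z * a)) * a) + ((a * x) * (z * a)) * ((y * a) * a) + ((a * (z * a)) * a) * ((y * a) * x) + ((a * (z * a)) * a) * ((y * x) * a) + ((a * (z * a)) * x) * ((y * a) * a) = 0 := by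
    have e := V211 a y a (z * a) x
    simp only [add_mul, mul_add] at e
    linear_combination (norm := abel) e
  have r3 : ((a * a) * a) * ((x * y) * (z * a)) + ((a * a) * a) * ((x * (z * a)) * y) + ((a * a) * y) * ((x * a) * (z * a)) + ((a * a) * y) * ((x * (z * a)) * a) + ((a * a) * (z * a)) * ((x * a) * y) + ((a * a) * (z * a)) * ((x * y) * a) + ((a * y) * a) * ((x * a) * (z * a)) + ((a * y) * a) * ((x * (z * a)) * a) + ((a * y) * (z * a)) * ((x * a) * a) + ((a * (z * a)) * a) * ((x * a) * y) + ((a * (z * a)) * a) * ((x * y) * a) + ((a * (z * a)) * y) * ((x * a) * a) = 0 := by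
    have e := V211 a x a (z * a) y
    simp only [add_mul, mul_add] at e
    linear_combination (norm := abel) e
  have r4 : ((x * a) * a) * ((y * (z * a)) * a) + ((x * (z * a)) * a) * ((y * a) * a) + ((x * a) * (z * a)) * ((y * a) * a) + ((x * a) * a) * ((y * a) * (z * a)) = 0 := by
    have e := V31 x y a (z * a)
    simp only [add_mul, mul_add] at e
    linear_combination (norm := abel) e
  simp only [anti a ((y * a) * a),
    anti a (z * a),
    anti ((z * a) * a) ((y * a) * a),
    anti a x,
    anti (x * a) ((y * a) * a),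
    anti a ((x * a) * a),
    anti ((z * a) * a) ((x * a) * a),
    anti a y,
    anti (y * a) ((x * a) * a),
    anti y x,
    anti y (z * a),
    anti ((x * a) * a) ((y * a) * (z * a)),
    anti ((x * a) * a) (((z * a) * y) * a),
    anti x (z * a),
    anti ((y * a) * a) ((x * a) * (z * a)),
    anti ((y * a) * a) (((z * a) * x) * a),
    anti (z * a) (((x * a) * a) * (y * a)),
    anti (z * a) (((y * a) * a) * (x * a)),
    e3 y a,
    v1 y z a,
    e3 x a,
    v1 x z a,
    sq a,
    e3 z a, neg_mul, mul_neg, neg_neg, zero_mul, neg_zero] at r0 r1 r2 r3 r4 ⊢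
  linear_combination (norm := module) (1 : ℤ) • r0 + (-1 : ℤ) • r1 + (-1 : ℤ) • r2 + (1 : ℤ) • r3 + (-1 : ℤ) • r4

end Pool.Agent.H86.Eng
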